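import Pool.Agent.H.MP_8be4c0_mp.Full.Ward2

/-!
Non interacting blocks: locality of the conditional expectations, orthogonality.
-/

open MeasureTheory Set Filter Topology

namespace Pool.Agent.NVec.Full

set_option linter.unusedSectionVars false

noncomputable section

variable {n : ℕ} {V : Type} [Fintype V] [DecidableEq V]

/-! ### independence -/

lemma Indep.add {B : Finset V} {f g : (V → Spin (n + 2)) → ℝ} (hf : Indep B f) (hg : Indep B g) :
    Indep B fun S => f S + g S := fun u S => by simp only; rw [hf u S, hg u S]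

lemma Indep.sub {B : Finset V} {f g : (V → Spin (n + 2)) → ℝ} (hf : Indep B f) (hg : Indep B g) :
    Indep B fun S => f S - g S := fun u S => by simp only; rw [hf u S, hg u S]

lemma Indep.mul {B : Finset V} {f g : (V → Spin (n + 2)) → ℝ} (hf : Indep B f) (hg : Indep B g) :
    Indep B fun S => f S * g S := fun u S => by simp only; rw [hf u S, hg u S]

lemma Indep.sum {B : Finset V} {ι : Type} {s : Finset ι} {f : ι → (V → Spin (n + 2)) → ℝ}
    (hf : ∀ j ∈ s, Indep B (f j)) : Indep B fun S => ∑ j ∈ s, f j S := fun u S => by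
  simp only
  exact Finset.sum_congr rfl fun j hj => hf j hj u S

lemma Indep_const (B : Finset V) (a : ℝ) : Indep B (fun _ : V → Spin (n + 2) => a) :=
  fun _ _ => rfl

lemma Indep.union {A B : Finset V} {f : (V → Spin (n + 2)) → ℝ} (hA : Indep A f)
    (hB : Indep B f) : Indep (A ∪ B) f := by
  intro u S
  have e : merge (A ∪ B) u S = merge A u (merge B u S) := by
    funext i
    unfold merge
    by_cases h1 : i ∈ A
    · rw [if_pos (Finset.mem_union_left _ h1), if_pos h1]
    · by_cases h2 : i ∈ B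
      · rw [if_pos (Finset.mem_union_right _ h2), if_neg h1, if_pos h2]
      · rw [if_neg h1, if_neg h2, if_neg]
        rw [Finset.mem_union]
        tauto
  rw [e, hA, hB]

lemma Indep.biUnion {ι : Type} [DecidableEq ι] {s : Finset ι} {bl : ι → Finset V}
    {f : (V → Spin (n + 2)) → ℝ} (h : ∀ d ∈ s, Indep (bl d) f) : Indep (s.biUnion bl) f := by
  induction s using Finset.induction_on with
  | empty =>
    intro u S
    have : merge (Finset.biUnion ∅ bl) u S = S := by
      funext i
      unfold merge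
      simp
    rw [this]
  | insert a s ha ih =>
    rw [Finset.biUnion_insert]
    exact (h a (Finset.mem_insert_self a s)).union
      (ih fun d hd => h d (Finset.mem_insert_of_mem hd))

/-- a current does not depend on the spins in `U` if the edge function vanishes on the edges
touching `U` -/
lemma Indep_Yv {c : V → V → ℝ} {U : Finset V} (a b : Fin (n + 2)) {v : V → V → ℝ}
    (hv : ∀ i k, c i k ≠ 0 → (i ∈ U ∨ k ∈ U) → v i k = 0) :
    Indep U (Yv c a b v : (V → Spin (n + 2)) → ℝ) := by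
  intro u S
  unfold Yv
  refine Finset.sum_congr rfl fun i _ => Finset.sum_congr rfl fun k _ => ?_
  by_cases hc : c i k = 0
  · rw [hc, zero_mul, zero_mul]
  by_cases h : i ∈ U ∨ k ∈ U
  · rw [hv i k hc h, zero_mul, zero_mul]
  · push Not at h
    rw [merge_out h.1, merge_out h.2]

lemma Indep_W {c : V → V → ℝ} {U : Finset V} (hc : ∀ i k, (i ∈ U ∨ k ∈ U) → c i k = 0) :
    Indep U (W c 0 : (V → Spin (n + 2)) → ℝ) := by
  intro u S
  unfold W
  refine Finset.sum_congr rfl fun i _ => Finset.sum_congr rfl fun k _ => ?_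
  by_cases h : i ∈ U ∨ k ∈ U
  · rw [hc i k h]; simp
  · push Not at h
    rw [merge_out h.1, merge_out h.2]

lemma W_split (c c' : V → V → ℝ) (S : V → Spin (n + 2)) :
    W c 0 S = W (fun i k => c i k - c' i k) 0 S + W c' 0 S := by
  unfold W
  rw [← Finset.sum_add_distrib]
  refine Finset.sum_congr rfl fun i _ => ?_
  rw [← Finset.sum_add_distrib]
  refine Finset.sum_congr rfl fun k _ => ?_
  simp only [Pi.zero_apply, zero_mul, add_zero]
  ring

/-- the conditional expectation in `B` only depends on the couplings touching `B` -/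
lemma Pc_congr {c c' : V → V → ℝ} {B : Finset V}
    (h : ∀ i k, (i ∈ B ∨ k ∈ B) → c i k = c' i k) (f : (V → Spin (n + 2)) → ℝ)
    (S : V → Spin (n + 2)) : Pc c B f S = Pc c' B f S := by
  have hI : Indep B (W (fun i k => c i k - c' i k) 0 : (V → Spin (n + 2)) → ℝ) :=
    Indep_W fun i k hik => by rw [h i k hik, sub_self]
  have key : ∀ g : (V → Spin (n + 2)) → ℝ, bInt (W c 0) B S g
      = Real.exp (W (fun i k => c i k - c' i k) 0 S) * bInt (W c' 0) B S g := by
    intro g
    unfold bInt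
    rw [← integral_const_mul]
    refine integral_congr_ae (Eventually.of_forall fun u => ?_)
    simp only
    rw [W_split c c' (merge B u S), hI u S, Real.exp_add]
    ring
  have h1 := key f
  have h2 := key fun _ => 1
  rw [bInt_one, bInt_one] at h2
  unfold Pc
  rw [h1, h2, mul_div_mul_left _ _ (Real.exp_pos _).ne']

lemma merge_comm {B U : Finset V} (hd : Disjoint B U) (w u S : V → Spin (n + 2)) :
    merge B w (merge U u S) = merge U u (merge B w S) := by
  funext i
  unfold merge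
  by_cases h1 : i ∈ B
  · have h2 : i ∉ U := fun h => Finset.disjoint_left.1 hd h1 h
    rw [if_pos h1, if_neg h2, if_pos h1]
  · rw [if_neg h1]
    split_ifs <;> rfl

/-- the conditional expectation in `B` of a function not depending on the spins in `U` does not
depend on them either, if `B` and `U` do not interact -/
lemma Pc_indep_of_sep {c : V → V → ℝ} {B U : Finset V} (hd : Disjoint B U)
    (h1 : ∀ i ∈ B, ∀ k ∈ U, c i k = 0) (h2 : ∀ i ∈ U, ∀ k ∈ B, c i k = 0)
    {f : (V → Spin (n + 2)) → ℝ} (hf : Indep U f) : Indep U (Pc c B f) := by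
  classical
  set c1 : V → V → ℝ := fun i k => if i ∈ B ∨ k ∈ B then c i k else 0 with hc1
  have hcongr : ∀ S : V → Spin (n + 2), Pc c B f S = Pc c1 B f S := fun S =>
    Pc_congr (fun i k hik => by rw [hc1]; simp only; rw [if_pos hik]) f S
  have hI : Indep U (W c1 0 : (V → Spin (n + 2)) → ℝ) := by
    apply Indep_W
    intro i k hik
    rw [hc1]
    simp only
    split_ifs with hB
    · rcases hik with hi | hk
      · rcases hB with hi' | hk'
        · exact absurd hi (Finset.disjoint_left.1 hd hi')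
        · exact h2 i hi k hk'
      · rcases hB with hi' | hk'
        · exact h1 i hi' k hk
        · exact absurd hk (Finset.disjoint_left.1 hd hk')
    · rfl
  intro u S
  rw [hcongr, hcongr]
  unfold Pc bInt bZ
  congr 1
  · refine integral_congr_ae (Eventually.of_forall fun w => ?_)
    simp only
    rw [merge_comm hd, hf, hI]
  · refine integral_congr_ae (Eventually.of_forall fun w => ?_)
    simp only
    rw [merge_comm hd, hI]

/-! ### fluctuations -/

/-- the fluctuation of `f` in the block `B` -/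
def Dl (c : V → V → ℝ) (B : Finset V) (f : (V → Spin (n + 2)) → ℝ) (S : V → Spin (n + 2)) : ℝ :=
  f S - Pc c B f S

lemma continuous_Dl (c : V → V → ℝ) (B : Finset V) {f : (V → Spin (n + 2)) → ℝ}
    (hf : Continuous f) : Continuous (Dl c B f) := hf.sub (continuous_Pc c B hf)

lemma Pc_Dl (c : V → V → ℝ) {A B : Finset V} (hBA : B ⊆ A) {f : (V → Spin (n + 2)) → ℝ}
    (hf : Continuous f) (S : V → Spin (n + 2)) : Pc c A (Dl c B f) S = 0 := by
  unfold Dl
  rw [Pc_sub c A hf (continuous_Pc c B hf), Pc_Pc c hBA hf, sub_self]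

lemma Dl_add_indep (c : V → V → ℝ) {B : Finset V} {f g : (V → Spin (n + 2)) → ℝ}
    (hf : Continuous f) (hg : Continuous g) (hgi : Indep B g) (S : V → Spin (n + 2)) :
    Dl c B (fun S => f S + g S) S = Dl c B f S := by
  unfold Dl
  rw [Pc_add c B hf hg, Pc_of_indep c hgi]
  ring

/-- linearity of the current in the edge function -/
lemma Yv_add (c : V → V → ℝ) (a b : Fin (n + 2)) (v w : V → V → ℝ) (S : V → Spin (n + 2)) :
    Yv c a b (fun i k => v i k + w i k) S = Yv c a b v S + Yv c a b w S := by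
  unfold Yv
  rw [← Finset.sum_add_distrib]
  refine Finset.sum_congr rfl fun i _ => ?_
  rw [← Finset.sum_add_distrib]
  refine Finset.sum_congr rfl fun k _ => ?_
  ring

lemma Yv_smul (c : V → V → ℝ) (a b : Fin (n + 2)) (t : ℝ) (v : V → V → ℝ)
    (S : V → Spin (n + 2)) : Yv c a b (fun i k => t * v i k) S = t * Yv c a b v S := by
  unfold Yv
  rw [Finset.mul_sum]
  refine Finset.sum_congr rfl fun i _ => ?_
  rw [Finset.mul_sum]
  refine Finset.sum_congr rfl fun k _ => ?_
  ring

lemma Yv_congr (c : V → V → ℝ) (a b : Fin (n + 2)) {v w : V → V → ℝ}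
    (h : ∀ i k, c i k ≠ 0 → v i k = w i k) (S : V → Spin (n + 2)) :
    Yv c a b v S = Yv c a b w S := by
  unfold Yv
  refine Finset.sum_congr rfl fun i _ => Finset.sum_congr rfl fun k _ => ?_
  by_cases hc : c i k = 0
  · rw [hc, zero_mul, zero_mul]
  · rw [h i k hc]

/-- the fluctuation of a current only depends on the edge function near the block -/
lemma Dl_congr {c : V → V → ℝ} {B : Finset V} (a b : Fin (n + 2)) {v w : V → V → ℝ}
    (h : ∀ i k, c i k ≠ 0 → (i ∈ B ∨ k ∈ B) → v i k = w i k) (S : V → Spin (n + 2)) :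
    Dl c B (Yv c a b v) S = Dl c B (Yv c a b w) S := by
  have e : (Yv c a b v : (V → Spin (n + 2)) → ℝ)
      = fun S => Yv c a b w S + Yv c a b (fun i k => v i k - w i k) S := by
    funext S
    rw [← Yv_add]
    congr 1
    funext i k
    ring
  rw [e, Dl_add_indep c (continuous_Yv c a b w) (continuous_Yv c a b _)]
  apply Indep_Yv
  intro i k hc hik
  rw [h i k hc hik, sub_self]

/-- the fluctuation in `B` does not depend on the spins of a non interacting block `U` -/
lemma Dl_indep_of_sep {c : V → V → ℝ} {B U : Finset V} (hd : Disjoint B U)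
    (h1 : ∀ i ∈ B, ∀ k ∈ U, c i k = 0) (h2 : ∀ i ∈ U, ∀ k ∈ B, c i k = 0)
    (a b : Fin (n + 2)) (v : V → V → ℝ) :
    Indep U (Dl c B (Yv c a b v) : (V → Spin (n + 2)) → ℝ) := by
  classical
  set w : V → V → ℝ := fun i k => if i ∈ B ∨ k ∈ B then v i k else 0 with hw
  have e : (Dl c B (Yv c a b v) : (V → Spin (n + 2)) → ℝ) = Dl c B (Yv c a b w) := by
    funext S
    exact Dl_congr a b (fun i k _ hik => by rw [hw]; simp only; rw [if_pos hik]) S
  have hI : Indep U (Yv c a b w : (V → Spin (n + 2)) → ℝ) := by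
    apply Indep_Yv
    intro i k hc hik
    rw [hw]
    simp only
    split_ifs with hB
    · exfalso
      apply hc
      rcases hik with hi | hk
      · rcases hB with hi' | hk'
        · exact absurd hi (Finset.disjoint_left.1 hd hi')
        · exact h2 i hi k hk'
      · rcases hB with hi' | hk'
        · exact h1 i hi' k hk
        · exact absurd hk (Finset.disjoint_left.1 hd hk')
    · rfl
  rw [e]
  exact hI.sub (Pc_indep_of_sep hd h1 h2 hI)

/-- orthogonality -/
lemma int_mul_Dl {c : V → V → ℝ} {Λ B : Finset V} {ν : Measure (V → Spin (n + 2))}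
    (hν : Gibbs c Λ ν) (hB : B ⊆ Λ) {G f : (V → Spin (n + 2)) → ℝ} (hG : Continuous G)
    (hf : Continuous f) (hGi : Indep B G) : ∫ S, G S * Dl c B f S ∂ν = 0 := by
  have hc : Continuous fun S => G S * Dl c B f S := hG.mul (continuous_Dl c B hf)
  rw [← hν.dlr B hB _ hc]
  have : Pc c B (fun S => G S * Dl c B f S) = fun _ => 0 := by
    funext S
    rw [Pc_pull c hGi, Pc_Dl c (Finset.Subset.refl B) hf, mul_zero]
  rw [this]
  simp

/-- the fluctuation in a union of non interacting blocks -/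
lemma Dl_biUnion {c : V → V → ℝ} {ι : Type} [DecidableEq ι] (s : Finset ι)
    (bl : ι → Finset V)
    (hdisj : ∀ d ∈ s, ∀ d' ∈ s, d ≠ d' → Disjoint (bl d) (bl d'))
    (hsep : ∀ d ∈ s, ∀ d' ∈ s, d ≠ d' → ∀ i ∈ bl d, ∀ k ∈ bl d', c i k = 0)
    (a b : Fin (n + 2)) (v : V → V → ℝ) (S : V → Spin (n + 2)) :
    Dl c (s.biUnion bl) (Yv c a b v) S = ∑ d ∈ s, Dl c (bl d) (Yv c a b v) S := by
  classical
  set Y : (V → Spin (n + 2)) → ℝ := Yv c a b v with hY
  have cY : Continuous Y := continuous_Yv c a b v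
  have cD : ∀ d ∈ s, Continuous (Dl c (bl d) Y) := fun d _ => continuous_Dl c _ cY
  have cS : Continuous fun S => ∑ d ∈ s, Dl c (bl d) Y S := continuous_finsetSum _ cD
  have hZ : Indep (s.biUnion bl) fun S => Y S - ∑ d ∈ s, Dl c (bl d) Y S := by
    apply Indep.biUnion
    intro e he
    have e1 : (fun S => Y S - ∑ d ∈ s, Dl c (bl d) Y S)
        = fun S => Pc c (bl e) Y S - ∑ d ∈ s.erase e, Dl c (bl d) Y S := by
      funext S
      rw [← Finset.add_sum_erase s _ he]
      unfold Dl
      ring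
    rw [e1]
    apply (Pc_indep_self c (bl e) Y).sub
    apply Indep.sum
    intro d hd
    have hde := Finset.ne_of_mem_erase hd
    have hds := Finset.mem_of_mem_erase hd
    exact Dl_indep_of_sep (hdisj d hds e he hde) (hsep d hds e he hde)
      (hsep e he d hds hde.symm) a b v
  have h1 := Pc_of_indep c hZ S
  rw [Pc_sub c _ cY cS, Pc_sum c _ s cD] at h1
  have h2 : ∑ d ∈ s, Pc c (s.biUnion bl) (Dl c (bl d) Y) S = 0 :=
    Finset.sum_eq_zero fun d hd => Pc_Dl c (Finset.subset_biUnion_of_mem bl hd) cY S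
  rw [h2, sub_zero] at h1
  have h3 : Dl c (s.biUnion bl) Y S = Y S - Pc c (s.biUnion bl) Y S := rfl
  rw [h3, h1]
  ring

/-- orthogonality of the fluctuations in different blocks -/
lemma int_Dl_Dl {c : V → V → ℝ} {Λ : Finset V} {ν : Measure (V → Spin (n + 2))}
    (hν : Gibbs c Λ ν) {ι : Type} [DecidableEq ι] (s : Finset ι)
    (bl : ι → Finset V) (hbl : ∀ d ∈ s, bl d ⊆ Λ)
    (hdisj : ∀ d ∈ s, ∀ d' ∈ s, d ≠ d' → Disjoint (bl d) (bl d'))
    (hsep : ∀ d ∈ s, ∀ d' ∈ s, d ≠ d' → ∀ i ∈ bl d, ∀ k ∈ bl d', c i k = 0)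
    (a b a' b' : Fin (n + 2)) (v v' : V → V → ℝ) {h : (V → Spin (n + 2)) → ℝ}
    (hh : Continuous h) (hhi : ∀ d ∈ s, Indep (bl d) h) :
    ∫ S, h S * (Dl c (s.biUnion bl) (Yv c a b v) S * Dl c (s.biUnion bl) (Yv c a' b' v') S) ∂ν
      = ∑ d ∈ s, ∫ S, h S * (Dl c (bl d) (Yv c a b v) S * Dl c (bl d) (Yv c a' b' v') S) ∂ν := by
  classical
  have := hν.prob
  have c1 : ∀ d, Continuous (Dl c (bl d) (Yv c a b v) : (V → Spin (n + 2)) → ℝ) :=
    fun d => continuous_Dl c _ (continuous_Yv c a b v)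
  have c2 : ∀ d, Continuous (Dl c (bl d) (Yv c a' b' v') : (V → Spin (n + 2)) → ℝ) :=
    fun d => continuous_Dl c _ (continuous_Yv c a' b' v')
  have e1 : ∀ S : V → Spin (n + 2), h S * (Dl c (s.biUnion bl) (Yv c a b v) S
      * Dl c (s.biUnion bl) (Yv c a' b' v') S)
      = ∑ d ∈ s, ∑ e ∈ s, h S * (Dl c (bl d) (Yv c a b v) S * Dl c (bl e) (Yv c a' b' v') S) := by
    intro S
    rw [Dl_biUnion s bl hdisj hsep, Dl_biUnion s bl hdisj hsep, Finset.sum_mul_sum,
      Finset.mul_sum]
    refine Finset.sum_congr rfl fun d _ => ?_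
    rw [Finset.mul_sum]
  simp_rw [e1]
  have c3 : ∀ d e, Continuous fun S : V → Spin (n + 2) =>
      h S * (Dl c (bl d) (Yv c a b v) S * Dl c (bl e) (Yv c a' b' v') S) :=
    fun d e => hh.mul ((c1 d).mul (c2 e))
  rw [integral_finsetSum _ fun d _ => ic (continuous_finsetSum _ fun e _ => c3 d e)]
  refine Finset.sum_congr rfl fun d hd => ?_
  rw [integral_finsetSum _ fun e _ => ic (c3 d e)]
  rw [Finset.sum_eq_single d]
  · intro e he hed
    have h3 := int_mul_Dl hν (hbl d hd) (G := fun S => h S * Dl c (bl e) (Yv c a' b' v') S)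
      (hh.mul (c2 e)) (continuous_Yv c a b v)
      ((hhi d hd).mul (Dl_indep_of_sep (hdisj e he d hd hed) (hsep e he d hd hed)
        (hsep d hd e he hed.symm) a' b' v'))
    rw [← h3]
    refine integral_congr_ae (Eventually.of_forall fun S => ?_)
    simp only
    ring
  · intro h4
    exact absurd hd h4

/-! ### conditional variances and increments -/

/-- the energy increment between the blocks in `s` and the big block `D` -/
def incr (c : V → V → ℝ) (ν : Measure (V → Spin (n + 2))) (U D : Finset V) (a b : Fin (n + 2))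
    (χ : V → ℝ) : ℝ :=
  ∫ S, (Pc c U (Yv c a b (gr χ)) S - Pc c D (Yv c a b (gr χ)) S) ^ 2 ∂ν

/-- the conditional variance of the current in the block `B` -/
def cvar (c : V → V → ℝ) (ν : Measure (V → Spin (n + 2))) (B : Finset V) (a b : Fin (n + 2))
    (χ : V → ℝ) : ℝ :=
  ∫ S, (Yv c a b (gr χ) S - Pc c B (Yv c a b (gr χ)) S) ^ 2 ∂ν

/-- additivity of the conditional variances over non interacting blocks -/
lemma cvar_biUnion {c : V → V → ℝ} {Λ : Finset V} {ν : Measure (V → Spin (n + 2))}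
    (hν : Gibbs c Λ ν) {p q : Fin (n + 2)} {ι : Type} [DecidableEq ι] (s : Finset ι)
    (bl : ι → Finset V) (hbl : ∀ d ∈ s, bl d ⊆ Λ)
    (hdisj : ∀ d ∈ s, ∀ d' ∈ s, d ≠ d' → Disjoint (bl d) (bl d'))
    (hsep : ∀ d ∈ s, ∀ d' ∈ s, d ≠ d' → ∀ i ∈ bl d, ∀ k ∈ bl d', c i k = 0) (χ : V → ℝ) :
    cvar c ν (s.biUnion bl) p q χ = ∑ d ∈ s, cvar c ν (bl d) p q χ := by
  have h := int_Dl_Dl hν s bl hbl hdisj hsep p q p q (gr χ) (gr χ) (h := fun _ => 1)
    continuous_const (fun d _ => Indep_const _ 1)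
  unfold cvar
  unfold Dl at h
  simp only [one_mul, ← pow_two] at h
  exact h

/-- the increment is the difference of the conditional variances -/
lemma incr_eq {c : V → V → ℝ} {Λ : Finset V} {ν : Measure (V → Spin (n + 2))}
    (hν : Gibbs c Λ ν) {U D : Finset V} (hUD : U ⊆ D) (hD : D ⊆ Λ) (p q : Fin (n + 2))
    (χ : V → ℝ) : incr c ν U D p q χ = cvar c ν D p q χ - cvar c ν U p q χ := by
  have := hν.prob
  have cY := continuous_Yv (n := n) c p q (gr χ)
  have cU := continuous_Pc c U cY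
  have cD := continuous_Pc c D cY
  have h1 := int_mul_Dl hν (hUD.trans hD)
    (G := fun S => Pc c U (Yv c p q (gr χ)) S - Pc c D (Yv c p q (gr χ)) S)
    (cU.sub cD) cY ((Pc_indep_self c U _).sub (Pc_indep_sub c hUD _))
  have i1 : Integrable (fun S : V → Spin (n + 2) =>
      (Pc c U (Yv c p q (gr χ)) S - Pc c D (Yv c p q (gr χ)) S) ^ 2) ν := ic ((cU.sub cD).pow 2)
  have i2 : Integrable (fun S : V → Spin (n + 2) =>
      (Yv c p q (gr χ) S - Pc c U (Yv c p q (gr χ)) S) ^ 2) ν := ic ((cY.sub cU).pow 2)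
  have i3 : Integrable (fun S : V → Spin (n + 2) =>
      (Pc c U (Yv c p q (gr χ)) S - Pc c D (Yv c p q (gr χ)) S)
        * (Yv c p q (gr χ) S - Pc c U (Yv c p q (gr χ)) S)) ν :=
    ic ((cU.sub cD).mul (cY.sub cU))
  have e : cvar c ν D p q χ = incr c ν U D p q χ + cvar c ν U p q χ
      + 2 * ∫ S, (Pc c U (Yv c p q (gr χ)) S - Pc c D (Yv c p q (gr χ)) S)
        * (Yv c p q (gr χ) S - Pc c U (Yv c p q (gr χ)) S) ∂ν := by
    unfold cvar incr
    rw [← integral_const_mul, ← integral_add i1 i2]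
    have i12 : Integrable (fun S : V → Spin (n + 2) =>
      (Pc c U (Yv c p q (gr χ)) S - Pc c D (Yv c p q (gr χ)) S) ^ 2
      + (Yv c p q (gr χ) S - Pc c U (Yv c p q (gr χ)) S) ^ 2) ν := i1.add i2
    rw [← integral_add i12 (i3.const_mul 2)]
    refine integral_congr_ae (Eventually.of_forall fun S => ?_)
    simp only
    ring
  unfold Dl at h1
  rw [h1] at e
  linarith

/-- the conditional variance only depends on the gradient near the block -/
lemma cvar_congr {c : V → V → ℝ} {ν : Measure (V → Spin (n + 2))} {B : Finset V}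
    (p q : Fin (n + 2)) {χ χ' : V → ℝ}
    (h : ∀ i k, c i k ≠ 0 → (i ∈ B ∨ k ∈ B) → χ i - χ k = χ' i - χ' k) :
    cvar c ν B p q χ = cvar c ν B p q χ' := by
  unfold cvar
  have h1 := fun S => Dl_congr (n := n) p q (v := gr χ) (w := gr χ') (c := c) (B := B) h S
  unfold Dl at h1
  simp_rw [h1]

lemma sq_Pc_current {c : V → V → ℝ} {Λ : Finset V} {ν : Measure (V → Spin (n + 2))}
    (hν : Gibbs c Λ ν) {U : Finset V} (hU : U ⊆ Λ) {p q : Fin (n + 2)} (hpq : p ≠ q)
    {χ : V → ℝ} (hχ : ∀ i, i ∉ Λ → χ i = 0) :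
    ∫ S, (Pc c U (Yv c p q (gr χ)) S) ^ 2 ∂ν
      = ∑ i, ∑ k, c i k * ((χ i - χ k) ^ 2
        * ∫ S, Pab p q (S i : EuclideanSpace ℝ (Fin (n + 2))) (S k) ∂ν) - cvar c ν U p q χ := by
  have := hν.prob
  have cY := continuous_Yv (n := n) c p q (gr χ)
  have cU := continuous_Pc c U cY
  have h1 := int_mul_Dl hν hU (G := fun S => Pc c U (Yv c p q (gr χ)) S)
    cU cY (Pc_indep_self c U _)
  have h2 := ward_C hν hpq hχ (gr χ)
  have e0 : ∑ i, ∑ k, c i k * ((χ i - χ k) ^ 2
        * ∫ S, Pab p q (S i : EuclideanSpace ℝ (Fin (n + 2))) (S k) ∂ν)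
      = ∑ i, ∑ k, c i k * (gr χ i k * (χ i - χ k)
        * ∫ S, Pab p q (S i : EuclideanSpace ℝ (Fin (n + 2))) (S k) ∂ν) := by
    refine Finset.sum_congr rfl fun i _ => Finset.sum_congr rfl fun k _ => ?_
    unfold gr
    ring
  rw [e0, ← h2]
  have i1 : Integrable (fun S : V → Spin (n + 2) => (Pc c U (Yv c p q (gr χ)) S) ^ 2) ν :=
    ic (cU.pow 2)
  have i2 : Integrable (fun S : V → Spin (n + 2) =>
      (Yv c p q (gr χ) S - Pc c U (Yv c p q (gr χ)) S) ^ 2) ν := ic ((cY.sub cU).pow 2)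
  have i3 : Integrable (fun S : V → Spin (n + 2) =>
      Pc c U (Yv c p q (gr χ)) S
        * (Yv c p q (gr χ) S - Pc c U (Yv c p q (gr χ)) S)) ν := ic (cU.mul (cY.sub cU))
  have e : ∫ S, Yv c p q (gr χ) S * Yv c p q (gr χ) S ∂ν
      = ∫ S, (Pc c U (Yv c p q (gr χ)) S) ^ 2 ∂ν + cvar c ν U p q χ
      + 2 * ∫ S, Pc c U (Yv c p q (gr χ)) S
        * (Yv c p q (gr χ) S - Pc c U (Yv c p q (gr χ)) S) ∂ν := by
    unfold cvar
    rw [← integral_const_mul, ← integral_add i1 i2]
    have i12 : Integrable (fun S : V → Spin (n + 2) => (Pc c U (Yv c p q (gr χ)) S) ^ 2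
      + (Yv c p q (gr χ) S - Pc c U (Yv c p q (gr χ)) S) ^ 2) ν := i1.add i2
    rw [← integral_add i12 (i3.const_mul 2)]
    refine integral_congr_ae (Eventually.of_forall fun S => ?_)
    simp only
    ring
  unfold Dl at h1
  rw [h1] at e
  linarith

end

end Pool.Agent.NVec.Full
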