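import Pool.Agent.H.MP_8be4c0_mp.Bc

/-!
Gibbs measures with boundary conditions and the conditional expectation operators.
-/

open MeasureTheory Set Filter Topology

namespace Pool.Agent.NVec.Full

set_option linter.unusedSectionVars false

noncomputable section

variable {n : ℕ} {V : Type} [Fintype V] [DecidableEq V]

/-- wedge in the plane `(a,b)` -/
def Qab (a b : Fin (n + 2)) (u v : EuclideanSpace ℝ (Fin (n + 2))) : ℝ := u a * v b - u b * v a

/-- product in the plane `(a,b)` -/
def Pab (a b : Fin (n + 2)) (u v : EuclideanSpace ℝ (Fin (n + 2))) : ℝ := u a * v a + u b * v b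

/-- symmetric product in the plane `(a,b)` -/
def Sab (a b : Fin (n + 2)) (u v : EuclideanSpace ℝ (Fin (n + 2))) : ℝ := u a * v b + u b * v a

/-- the current of the edge function `v` in the plane `(a,b)` -/
def Yv (c : V → V → ℝ) (a b : Fin (n + 2)) (v : V → V → ℝ) (S : V → Spin (n + 2)) : ℝ :=
  ∑ i, ∑ k, c i k * (v i k * Qab a b (S i : EuclideanSpace ℝ (Fin (n + 2))) (S k))

/-- discrete gradient -/
def gr (χ : V → ℝ) (i k : V) : ℝ := χ i - χ k

/-- midpoint value -/
def mid (f : V → ℝ) (i k : V) : ℝ := (f i + f k) / 2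

/-- the Dirichlet energy -/
def En (c : V → V → ℝ) (χ : V → ℝ) : ℝ := ∑ i, ∑ k, |c i k| * (χ i - χ k) ^ 2

/-- conditional expectation: the spins in `B` are resampled, the others kept -/
def Pc (c : V → V → ℝ) (B : Finset V) (f : (V → Spin (n + 2)) → ℝ) (S : V → Spin (n + 2)) : ℝ :=
  bInt (W c 0) B S f / bZ (W c 0) B S

/-- `f` does not depend on the spins in `B` -/
def Indep (B : Finset V) (f : (V → Spin (n + 2)) → ℝ) : Prop := ∀ u S, f (merge B u S) = f S

/-- site dependent isometries -/
def actF (R : V → (EuclideanSpace ℝ (Fin (n + 2)) ≃ₗᵢ[ℝ] EuclideanSpace ℝ (Fin (n + 2))))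
    (S : V → Spin (n + 2)) : V → Spin (n + 2) := fun i => act (R i) (S i)

/-- `ν` is a Gibbs measure in `Λ` (mixture of finite volume Gibbs measures) -/
structure Gibbs (c : V → V → ℝ) (Λ : Finset V) (ν : Measure (V → Spin (n + 2))) : Prop where
  prob : IsProbabilityMeasure ν
  inv : ∀ R : V → (EuclideanSpace ℝ (Fin (n + 2)) ≃ₗᵢ[ℝ] EuclideanSpace ℝ (Fin (n + 2))),
    (∀ i, i ∉ Λ → ∀ u, R i u = u) → ∀ f : (V → Spin (n + 2)) → ℝ, Continuous f →
    ∫ S, f (actF R S) * Real.exp (W c 0 (actF R S) - W c 0 S) ∂ν = ∫ S, f S ∂ν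
  dlr : ∀ B, B ⊆ Λ → ∀ f : (V → Spin (n + 2)) → ℝ, Continuous f →
    ∫ S, Pc c B f S ∂ν = ∫ S, f S ∂ν

/-- the finite volume Gibbs measure -/
def Gm (c : V → V → ℝ) (A : Finset V) (τ : V → Spin (n + 2)) : Measure (V → Spin (n + 2)) :=
  (ENNReal.ofReal (bZ (W c 0) A τ))⁻¹ • Measure.map (fun u => merge A u τ)
    ((apriori V (n + 2)).withDensity fun u => ENNReal.ofReal (Real.exp (W c 0 (merge A u τ))))

/-! ### continuity and integrability -/

lemma ic {ν : Measure (V → Spin (n + 2))} [IsFiniteMeasure ν] {f : (V → Spin (n + 2)) → ℝ}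
    (hf : Continuous f) : Integrable f ν := by
  obtain ⟨C, hC⟩ := (isCompact_univ
    (X := V → Spin (n + 2))).exists_bound_of_continuousOn hf.continuousOn
  exact (integrable_const C).mono' hf.aestronglyMeasurable
    (Filter.Eventually.of_forall fun x => hC x (mem_univ _))

lemma continuous_merge_right (A : Finset V) (u : V → Spin (n + 2)) :
    Continuous fun τ : V → Spin (n + 2) => merge A u τ :=
  (continuous_merge_pair A).comp (continuous_const.prodMk continuous_id)

lemma cont_bInt {F : (V → Spin (n + 2)) → ℝ} (hF : Continuous F) (A : Finset V)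
    {f : (V → Spin (n + 2)) → ℝ} (hf : Continuous f) :
    Continuous fun τ => bInt F A τ f := by
  have h1 : Continuous (Function.uncurry fun (τ u : V → Spin (n + 2)) =>
      f (merge A u τ) * Real.exp (F (merge A u τ))) := by
    have h2 : Continuous fun p : (V → Spin (n + 2)) × (V → Spin (n + 2)) => merge A p.2 p.1 :=
      (continuous_merge_pair A).comp (continuous_snd.prodMk continuous_fst)
    exact (hf.comp h2).mul (Real.continuous_exp.comp (hF.comp h2))
  have h3 := continuous_parametric_integral_of_continuous (μ := apriori V (n + 2)) h1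
    (isCompact_univ)
  simp only [Measure.restrict_univ] at h3
  exact h3

lemma cont_bZ {F : (V → Spin (n + 2)) → ℝ} (hF : Continuous F) (A : Finset V) :
    Continuous fun τ => bZ F A τ := by
  have := cont_bInt hF A (f := fun _ => (1 : ℝ)) continuous_const
  simp_rw [bInt_one] at this
  exact this

variable {c : V → V → ℝ} {B : Finset V}

lemma continuous_Pc (c : V → V → ℝ) (B : Finset V) {f : (V → Spin (n + 2)) → ℝ}
    (hf : Continuous f) : Continuous (Pc c B f) :=
  (cont_bInt (continuous_W c 0) B hf).div (cont_bZ (continuous_W c 0) B)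
    fun τ => (bZ_pos (continuous_W c 0) B τ).ne'

lemma bZp (c : V → V → ℝ) (B : Finset V) (τ : V → Spin (n + 2)) : 0 < bZ (W c 0) B τ :=
  bZ_pos (continuous_W c 0) B τ

/-! ### algebra of `Pc` -/

lemma Pc_const (c : V → V → ℝ) (B : Finset V) (a : ℝ) (S : V → Spin (n + 2)) :
    Pc c B (fun _ => a) S = a := by
  unfold Pc; rw [bInt_const, mul_div_assoc, div_self (bZp c B S).ne', mul_one]

lemma Pc_add (c : V → V → ℝ) (B : Finset V) {f g : (V → Spin (n + 2)) → ℝ} (hf : Continuous f)
    (hg : Continuous g) (S : V → Spin (n + 2)) :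
    Pc c B (fun S => f S + g S) S = Pc c B f S + Pc c B g S := by
  unfold Pc; rw [bInt_add (continuous_W c 0) B S hf hg, add_div]

lemma Pc_sub (c : V → V → ℝ) (B : Finset V) {f g : (V → Spin (n + 2)) → ℝ} (hf : Continuous f)
    (hg : Continuous g) (S : V → Spin (n + 2)) :
    Pc c B (fun S => f S - g S) S = Pc c B f S - Pc c B g S := by
  unfold Pc; rw [bInt_sub (continuous_W c 0) B S hf hg, sub_div]

lemma Pc_smul (c : V → V → ℝ) (B : Finset V) (a : ℝ) (f : (V → Spin (n + 2)) → ℝ)
    (S : V → Spin (n + 2)) : Pc c B (fun S => a * f S) S = a * Pc c B f S := by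
  unfold Pc; rw [bInt_smul, mul_div_assoc]

lemma Pc_sum (c : V → V → ℝ) (B : Finset V) {ι : Type} (s : Finset ι)
    {f : ι → (V → Spin (n + 2)) → ℝ} (hf : ∀ j ∈ s, Continuous (f j)) (S : V → Spin (n + 2)) :
    Pc c B (fun S => ∑ j ∈ s, f j S) S = ∑ j ∈ s, Pc c B (f j) S := by
  unfold Pc; rw [bInt_finsum (continuous_W c 0) B S s hf, Finset.sum_div]

lemma Pc_mono (c : V → V → ℝ) (B : Finset V) {f g : (V → Spin (n + 2)) → ℝ} (hf : Continuous f)
    (hg : Continuous g) (h : ∀ S, f S ≤ g S) (S : V → Spin (n + 2)) : Pc c B f S ≤ Pc c B g S := by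
  unfold Pc
  exact div_le_div_of_nonneg_right (bInt_mono (continuous_W c 0) B S hf hg h) (bZp c B S).le

lemma Pc_pull (c : V → V → ℝ) {B : Finset V} {g f : (V → Spin (n + 2)) → ℝ} (hg : Indep B g)
    (S : V → Spin (n + 2)) : Pc c B (fun S => g S * f S) S = g S * Pc c B f S := by
  unfold Pc
  rw [← mul_div_assoc]
  congr 1
  unfold bInt
  rw [← integral_const_mul]
  refine integral_congr_ae (Eventually.of_forall fun u => ?_)
  simp only
  rw [hg u S]
  ring

lemma Pc_of_indep (c : V → V → ℝ) {B : Finset V} {g : (V → Spin (n + 2)) → ℝ} (hg : Indep B g)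
    (S : V → Spin (n + 2)) : Pc c B g S = g S := by
  have := Pc_pull c (f := fun _ => 1) hg S
  rw [Pc_const, mul_one] at this
  rw [← this]
  congr 1
  funext S
  ring

lemma merge_merge_self (B : Finset V) (u' u S : V → Spin (n + 2)) :
    merge B u' (merge B u S) = merge B u' S := by
  funext j
  unfold merge
  split_ifs <;> rfl

lemma merge_merge_sub {A B : Finset V} (h : A ⊆ B) (u' u S : V → Spin (n + 2)) :
    merge B u' (merge A u S) = merge B u' S := by
  funext j
  unfold merge
  by_cases h1 : j ∈ B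
  · rw [if_pos h1, if_pos h1]
  · rw [if_neg h1, if_neg h1, if_neg (fun h2 => h1 (h h2))]

lemma Pc_indep_self (c : V → V → ℝ) (B : Finset V) (f : (V → Spin (n + 2)) → ℝ) :
    Indep B (Pc c B f) := by
  intro u S
  unfold Pc bInt bZ
  simp_rw [merge_merge_self]

lemma Pc_indep_sub (c : V → V → ℝ) {A B : Finset V} (h : A ⊆ B) (f : (V → Spin (n + 2)) → ℝ) :
    Indep A (Pc c B f) := by
  intro u S
  unfold Pc bInt bZ
  simp_rw [merge_merge_sub h]

lemma Indep.mono {A B : Finset V} {f : (V → Spin (n + 2)) → ℝ} (h : Indep B f) (hAB : A ⊆ B) :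
    Indep A f := by
  intro u S
  have h1 := h S (merge A u S)
  have h2 := h S S
  rw [merge_merge_sub hAB] at h1
  rw [← h1, h2]

/-- the tower property -/
lemma Pc_Pc (c : V → V → ℝ) {A B : Finset V} (hBA : B ⊆ A) {f : (V → Spin (n + 2)) → ℝ}
    (hf : Continuous f) (S : V → Spin (n + 2)) : Pc c A (Pc c B f) S = Pc c A f S := by
  have hW := continuous_W (n := n) c 0
  have h1 := tower hW hBA S hf
  have h2 := tower hW hBA S (continuous_Pc c B hf)
  have h3 : ∀ u, bInt (W c 0) B (merge A u S) (Pc c B f) = bInt (W c 0) B (merge A u S) f := by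
    intro u
    have e : bInt (W c 0) B (merge A u S) (Pc c B f)
        = Pc c B f (merge A u S) * bZ (W c 0) B (merge A u S) := by
      rw [← bInt_const]
      unfold bInt
      refine integral_congr_ae (Eventually.of_forall fun u' => ?_)
      simp only
      rw [Pc_indep_self c B f u' (merge A u S)]
    rw [e]
    unfold Pc
    rw [div_mul_cancel₀ _ (bZp c B _).ne']
  simp_rw [h3] at h2
  rw [h1] at h2
  have h4 := mass_pos (V := V) (N := n + 2)
  unfold Pc
  congr 1
  exact (mul_left_cancel₀ h4.ne' h2).symm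

/-! ### the finite volume Gibbs measure -/

lemma integral_Gm (c : V → V → ℝ) (A : Finset V) (τ : V → Spin (n + 2))
    {f : (V → Spin (n + 2)) → ℝ} (hf : Continuous f) : ∫ S, f S ∂(Gm c A τ) = Pc c A f τ := by
  unfold Gm
  rw [integral_smul_measure, integral_map (continuous_merge A τ).measurable.aemeasurable
    hf.aestronglyMeasurable]
  have h1 : Measurable fun u : V → Spin (n + 2) =>
      ENNReal.ofReal (Real.exp (W c 0 (merge A u τ))) :=
    (ENNReal.continuous_ofReal.comp (Real.continuous_exp.comp
      ((continuous_W c 0).comp (continuous_merge A τ)))).measurable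
  rw [integral_withDensity_eq_integral_toReal_smul h1
    (Eventually.of_forall fun _ => ENNReal.ofReal_lt_top)]
  unfold Pc bInt
  rw [ENNReal.toReal_inv, ENNReal.toReal_ofReal (bZp c A τ).le, smul_eq_mul, div_eq_inv_mul]
  congr 1
  refine integral_congr_ae (Eventually.of_forall fun u => ?_)
  simp only
  rw [ENNReal.toReal_ofReal (Real.exp_pos _).le, smul_eq_mul, mul_comm]

lemma prob_Gm (c : V → V → ℝ) (A : Finset V) (τ : V → Spin (n + 2)) :
    IsProbabilityMeasure (Gm c A τ) := by
  constructor
  unfold Gm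
  have h1 : Measurable fun u : V → Spin (n + 2) =>
      ENNReal.ofReal (Real.exp (W c 0 (merge A u τ))) :=
    (ENNReal.continuous_ofReal.comp (Real.continuous_exp.comp
      ((continuous_W c 0).comp (continuous_merge A τ)))).measurable
  rw [Measure.smul_apply, Measure.map_apply (continuous_merge A τ).measurable MeasurableSet.univ,
    preimage_univ, withDensity_apply _ MeasurableSet.univ, Measure.restrict_univ,
    ← ofReal_integral_eq_lintegral_ofReal (bZ_integrable (continuous_W c 0) A τ)
      (Eventually.of_forall fun _ => (Real.exp_pos _).le), smul_eq_mul]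
  apply ENNReal.inv_mul_cancel
  · rw [Ne, ENNReal.ofReal_eq_zero, not_le]; exact bZp c A τ
  · exact ENNReal.ofReal_ne_top

lemma continuous_actF
    (R : V → (EuclideanSpace ℝ (Fin (n + 2)) ≃ₗᵢ[ℝ] EuclideanSpace ℝ (Fin (n + 2)))) :
    Continuous (actF R) :=
  continuous_pi fun i => (continuous_act (R i)).comp (continuous_apply i)

lemma actF_merge {A : Finset V}
    (R : V → (EuclideanSpace ℝ (Fin (n + 2)) ≃ₗᵢ[ℝ] EuclideanSpace ℝ (Fin (n + 2))))
    (u S : V → Spin (n + 2)) : actF R (merge A u S) = merge A (actF R u) (actF R S) := by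
  funext i
  unfold actF merge
  split_ifs <;> rfl

lemma actF_merge_id {A : Finset V}
    (R : V → (EuclideanSpace ℝ (Fin (n + 2)) ≃ₗᵢ[ℝ] EuclideanSpace ℝ (Fin (n + 2))))
    (hR : ∀ i, i ∉ A → ∀ u, R i u = u) (u S : V → Spin (n + 2)) :
    actF R (merge A u S) = merge A (actF R u) S := by
  rw [actF_merge]
  funext i
  unfold merge
  split_ifs with h
  · rfl
  · apply Subtype.ext
    unfold actF
    rw [coe_act, hR i h]

/-- the conditional expectation is covariant under transformations changing the energy by a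
function not depending on the resampled spins -/
lemma Pc_actF {R : V → (EuclideanSpace ℝ (Fin (n + 2)) ≃ₗᵢ[ℝ] EuclideanSpace ℝ (Fin (n + 2)))}
    (hR : Indep B fun S => W c 0 (actF R S) - W c 0 S) {f : (V → Spin (n + 2)) → ℝ}
    (hf : Continuous f) (S : V → Spin (n + 2)) :
    Pc c B f (actF R S) = Pc c B (fun S => f (actF R S)) S := by
  have key : ∀ g : (V → Spin (n + 2)) → ℝ, Continuous g →
      bInt (W c 0) B (actF R S) g
        = Real.exp (W c 0 (actF R S) - W c 0 S) * bInt (W c 0) B S (fun S => g (actF R S)) := by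
    intro g hg
    unfold bInt
    rw [← integral_actAll R (fun u => g (merge B u (actF R S))
      * Real.exp (W c 0 (merge B u (actF R S))))
      ((hg.comp (continuous_merge B _)).mul (Real.continuous_exp.comp
        ((continuous_W c 0).comp (continuous_merge B _)))), ← integral_const_mul]
    refine integral_congr_ae (Eventually.of_forall fun u => ?_)
    simp only
    have e1 : merge B (fun i => act (R i) (u i)) (actF R S) = actF R (merge B u S) := by
      rw [actF_merge]; rfl
    rw [e1]
    have e2 := hR u S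
    simp only at e2
    have e3 : W c 0 (actF R (merge B u S))
        = (W c 0 (actF R S) - W c 0 S) + W c 0 (merge B u S) := by linarith
    rw [e3, Real.exp_add]
    ring
  have h1 := key f hf
  have h2 := key (fun _ => 1) continuous_const
  rw [bInt_one, bInt_one] at h2
  unfold Pc
  rw [h1, h2, mul_div_mul_left _ _ (Real.exp_pos _).ne']

lemma gibbs_Gm (c : V → V → ℝ) (A : Finset V) (τ : V → Spin (n + 2)) : Gibbs c A (Gm c A τ) where
  prob := prob_Gm c A τ
  inv := by
    intro R hR f hf
    have hc : Continuous fun S : V → Spin (n + 2) =>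
        f (actF R S) * Real.exp (W c 0 (actF R S) - W c 0 S) :=
      (hf.comp (continuous_actF R)).mul (Real.continuous_exp.comp
        (((continuous_W c 0).comp (continuous_actF R)).sub (continuous_W c 0)))
    rw [integral_Gm c A τ hc, integral_Gm c A τ hf]
    unfold Pc
    congr 1
    unfold bInt
    rw [← integral_actAll R (fun u => f (merge A u τ) * Real.exp (W c 0 (merge A u τ)))
      ((hf.comp (continuous_merge A _)).mul (Real.continuous_exp.comp
        ((continuous_W c 0).comp (continuous_merge A _))))]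
    refine integral_congr_ae (Eventually.of_forall fun u => ?_)
    simp only
    have e1 : merge A (fun i => act (R i) (u i)) τ = actF R (merge A u τ) := by
      rw [actF_merge_id R hR]; rfl
    rw [e1, mul_assoc, ← Real.exp_add]
    congr 2
    ring
  dlr := by
    intro B hB f hf
    rw [integral_Gm c A τ (continuous_Pc c B hf), integral_Gm c A τ hf, Pc_Pc c hB hf]

end

end Pool.Agent.NVec.Full
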