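import Pool.Agent.H.MP_8be4c0_mp.Full.Stiff

/-!
One step of the recursion over the scales.
-/

open MeasureTheory Set Filter Topology

namespace Pool.Agent.NVec.Full

set_option linter.unusedSectionVars false

noncomputable section

variable {n : ℕ} {V : Type} [Fintype V] [DecidableEq V]

/-- the expectation of a vector valued observable tested against a fixed vector -/
lemma Pc_inner_le {c : V → V → ℝ} {Λ : Finset V} {x : V} {τ : V → Spin (n + 2)} {b : ℝ}
    (hb : 0 ≤ b)
    (h : ∀ p : Fin (n + 2), |Pc c Λ (fun S => (S x : EuclideanSpace ℝ (Fin (n + 2))) p) τ| ≤ b)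
    (e : EuclideanSpace ℝ (Fin (n + 2))) :
    Pc c Λ (fun S => inner ℝ e (S x : EuclideanSpace ℝ (Fin (n + 2)))) τ
      ≤ Real.sqrt ((n : ℝ) + 2) * b * ‖e‖ := by
  have e1 : (fun S : V → Spin (n + 2) => inner ℝ e (S x : EuclideanSpace ℝ (Fin (n + 2))))
      = fun S => ∑ p, e p * (S x : EuclideanSpace ℝ (Fin (n + 2))) p := by
    funext S
    rw [inner_eq]
  have c1 : ∀ p ∈ (Finset.univ : Finset (Fin (n + 2))), Continuous fun S : V → Spin (n + 2) =>
      e p * (S x : EuclideanSpace ℝ (Fin (n + 2))) p :=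
    fun p _ => continuous_const.mul (continuous_coord x p)
  rw [e1, Pc_sum c Λ Finset.univ c1]
  simp_rw [Pc_smul]
  set w : EuclideanSpace ℝ (Fin (n + 2)) := WithLp.toLp 2 fun p =>
    Pc c Λ (fun S => (S x : EuclideanSpace ℝ (Fin (n + 2))) p) τ with hw
  have e2 : ∑ p, e p * Pc c Λ (fun S => (S x : EuclideanSpace ℝ (Fin (n + 2))) p) τ
      = inner ℝ e w := by
    rw [inner_eq]
  rw [e2]
  have h1 : ‖w‖ ≤ Real.sqrt ((n : ℝ) + 2) * b := by
    rw [EuclideanSpace.norm_eq, ← Real.sqrt_sq hb, ← Real.sqrt_mul (by positivity)]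
    apply Real.sqrt_le_sqrt
    calc ∑ p, ‖w p‖ ^ 2 ≤ ∑ _p : Fin (n + 2), b ^ 2 := by
          refine Finset.sum_le_sum fun p _ => ?_
          rw [Real.norm_eq_abs]
          exact pow_le_pow_left₀ (abs_nonneg _) (h p) 2
      _ = _ := by rw [Finset.sum_const]; simp
  calc inner ℝ e w ≤ ‖e‖ * ‖w‖ := real_inner_le_norm e w
    _ ≤ ‖e‖ * (Real.sqrt ((n : ℝ) + 2) * b) := mul_le_mul_of_nonneg_left h1 (norm_nonneg _)
    _ = _ := by ring

theorem core_step (n : ℕ) (hn : 1 ≤ n) (M : ℝ) {δ : ℝ} (hδ : 0 < δ) :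
    ∃ K₀ : ℕ, 0 < K₀ ∧ ∀ (V : Type) [Fintype V] [DecidableEq V] (c : V → V → ℝ)
      (pos : V → ℤ × ℤ) (s : ℕ), 0 < s → Geo c pos s (K₀ * s) M →
      ∀ x : V, ‖pos x‖ < ((K₀ * s : ℕ) : ℝ) → ∀ m : ℝ, 0 ≤ m →
      (∀ (τ : V → Spin (n + 2)) (e : EuclideanSpace ℝ (Fin (n + 2))),
        bInt (W c 0) (bx pos ((K₀ * s : ℕ) : ℝ)) τ
          (fun S => inner ℝ e (S x : EuclideanSpace ℝ (Fin (n + 2))))
          ≤ m * ‖e‖ * bZ (W c 0) (bx pos ((K₀ * s : ℕ) : ℝ)) τ) →
      ∀ (τ : V → Spin (n + 2)) (e : EuclideanSpace ℝ (Fin (n + 2))),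
        bInt (W c 0) (bx pos (5 * ((K₀ * s : ℕ) : ℝ))) τ
          (fun S => inner ℝ e (S x : EuclideanSpace ℝ (Fin (n + 2))))
          ≤ δ * m * ‖e‖ * bZ (W c 0) (bx pos (5 * ((K₀ * s : ℕ) : ℝ))) τ := by
  have hn2 : (0 : ℝ) < (n : ℝ) + 2 := by positivity
  obtain ⟨K₀, hK₀, hst⟩ := stiffness n hn M (υ := δ ^ 2 / ((n : ℝ) + 2)) (by positivity)
  refine ⟨K₀, hK₀, ?_⟩
  intro V _ _ c pos s hs hG x hx m hm0 hm τ e
  set R : ℕ := K₀ * s with hR
  have hR0 : 0 < R := Nat.mul_pos hK₀ hs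
  have hRr : (0 : ℝ) < R := by exact_mod_cast hR0
  have hsR : (s : ℝ) ≤ R := by
    have : s ≤ R := by rw [hR]; exact Nat.le_mul_of_pos_left s hK₀
    exact_mod_cast this
  set Λ := bx pos (5 * (R : ℝ)) with hΛ
  set B := bx pos (R : ℝ) with hB
  have hBΛ : B ⊆ Λ := by
    intro i hi
    rw [hB, mem_bx] at hi
    rw [hΛ, mem_bx]
    linarith
  set ψ : V → ℝ := fun i => psi R (pos i) with hψ
  have hψΛ : ∀ i, i ∉ Λ → ψ i = 0 := by
    intro i hi
    rw [hΛ, mem_bx, not_lt] at hi
    exact psi_zero (by linarith)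
  have hψx : ψ x = 1 := psi_one hR0 (by linarith)
  have hZΛ := bZp (n := n) c Λ τ
  -- the bound for each component
  have key : ∀ p : Fin (n + 2), |Pc c Λ (fun S => (S x : EuclideanSpace ℝ (Fin (n + 2))) p) τ|
      ≤ m * Real.sqrt (δ ^ 2 / ((n : ℝ) + 2)) := by
    intro p
    obtain ⟨q, hpq⟩ : ∃ q : Fin (n + 2), p ≠ q := by
      by_cases h : p = 0
      · exact ⟨1, by rw [h]; exact h01⟩
      · exact ⟨0, h⟩
    obtain ⟨U, hUΛ, hUfar, hU⟩ := hst V c pos s hs hG p q hpq τ
    set ν := Gm c Λ τ with hν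
    have gν : Gibbs c Λ ν := gibbs_Gm c Λ τ
    have := gν.prob
    set Y := (Yv c p q (gr ψ) : (V → Spin (n + 2)) → ℝ) with hY
    have cY : Continuous Y := continuous_Yv c p q (gr ψ)
    have cq : Continuous fun S : V → Spin (n + 2) =>
        (S x : EuclideanSpace ℝ (Fin (n + 2))) q := continuous_coord x q
    have cp : Continuous fun S : V → Spin (n + 2) =>
        (S x : EuclideanSpace ℝ (Fin (n + 2))) p := continuous_coord x p
    have cPY := continuous_Pc c U cY
    have w1 := ward_spin' gν hpq hψΛ hψx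
    -- x is not in U
    have hxU : Indep U fun S : V → Spin (n + 2) =>
        (S x : EuclideanSpace ℝ (Fin (n + 2))) q := by
      intro u S
      have : x ∉ U := fun h => by
        have := hUfar x h
        have hs0 : (0 : ℝ) ≤ s := Nat.cast_nonneg s
        linarith
      simp only
      rw [merge_out this]
    have w2 := int_mul_Pc gν hUΛ cq cY hxU
    -- the conditioned current does not depend on the inner box
    have hYB : Indep B Y := by
      apply Indep_Yv
      intro i k hc hik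
      have h1 := hG.range i k hc
      have h2 : ‖pos i‖ ≤ 2 * R ∧ ‖pos k‖ ≤ 2 * R := by
        rcases hik with hi | hk
        · rw [hB, mem_bx] at hi
          have h3 : ‖pos k‖ ≤ ‖pos i‖ + ‖pos i - pos k‖ := by
            calc ‖pos k‖ = ‖pos i - (pos i - pos k)‖ := by rw [sub_sub_cancel]
              _ ≤ _ := norm_sub_le _ _
          constructor <;> linarith
        · rw [hB, mem_bx] at hk
          have h3 : ‖pos i‖ ≤ ‖pos k‖ + ‖pos i - pos k‖ := by
            calc ‖pos i‖ = ‖pos k + (pos i - pos k)‖ := by rw [add_sub_cancel]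
              _ ≤ _ := norm_add_le _ _
          constructor <;> linarith
      unfold gr
      rw [hψ]
      simp only
      rw [psi_one hR0 h2.1, psi_one hR0 h2.2, sub_self]
    have hfar : ∀ i ∈ U, ∀ k ∈ B, (s : ℝ) < ‖pos i - pos k‖ := by
      intro i hi k hk
      have h1 := hUfar i hi
      rw [hB, mem_bx] at hk
      have h3 : ‖pos i‖ ≤ ‖pos k‖ + ‖pos i - pos k‖ := by
        calc ‖pos i‖ = ‖pos k + (pos i - pos k)‖ := by rw [add_sub_cancel]
          _ ≤ _ := norm_add_le _ _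
      linarith
    have hsep1 : ∀ i ∈ U, ∀ k ∈ B, c i k = 0 := by
      intro i hi k hk
      by_contra hc
      have := hG.range i k hc
      have := hfar i hi k hk
      linarith
    have hsep2 : ∀ i ∈ B, ∀ k ∈ U, c i k = 0 := by
      intro i hi k hk
      by_contra hc
      have h1 := hG.range i k hc
      have h2 := hfar k hk i hi
      rw [norm_sub_rev] at h1
      linarith
    have hdisj : Disjoint U B := by
      rw [Finset.disjoint_left]
      intro i hi hi'
      have := hfar i hi i hi'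
      rw [sub_self, norm_zero] at this
      have hs0 : (0 : ℝ) ≤ s := Nat.cast_nonneg s
      linarith
    have hPYB : Indep B (Pc c U Y) := Pc_indep_of_sep hdisj hsep1 hsep2 hYB
    have w3 := int_mul_Pc gν hBΛ (G := Pc c U Y) cPY cq hPYB
    have e1 : ∫ S, Pc c U Y S * (S x : EuclideanSpace ℝ (Fin (n + 2))) q ∂ν
        = ∫ S, (S x : EuclideanSpace ℝ (Fin (n + 2))) q * Pc c U Y S ∂ν := by
      refine integral_congr_ae (Eventually.of_forall fun S => ?_)
      simp only
      ring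
    rw [e1, w2, w1] at w3
    have cPq := continuous_Pc c B cq
    have h1 := cs_int (ν := ν) cPY cPq
    rw [w3, abs_neg] at h1
    rw [← integral_Gm c Λ τ cp]
    refine h1.trans ?_
    have h2 : ∫ S, Pc c U Y S ^ 2 ∂ν ≤ δ ^ 2 / ((n : ℝ) + 2) := by
      have c2 : Continuous fun S => Pc c U Y S ^ 2 := cPY.pow 2
      rw [hν, integral_Gm c Λ τ c2]
      exact hU
    have h3 : ∀ S, |Pc c B (fun S : V → Spin (n + 2) =>
        (S x : EuclideanSpace ℝ (Fin (n + 2))) q) S| ≤ m := by
      intro S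
      have hZ := bZp (n := n) c B S
      have h4 := hm S (EuclideanSpace.single q (1 : ℝ))
      have h5 := hm S (-EuclideanSpace.single q (1 : ℝ))
      rw [norm_neg] at h5
      have e2 : ‖(EuclideanSpace.single q (1 : ℝ) : EuclideanSpace ℝ (Fin (n + 2)))‖ = 1 := by
        simp
      rw [e2, mul_one] at h4 h5
      have e3 : (fun S : V → Spin (n + 2) => inner ℝ
          (EuclideanSpace.single q (1 : ℝ) : EuclideanSpace ℝ (Fin (n + 2))) (S x))
          = fun S => (S x : EuclideanSpace ℝ (Fin (n + 2))) q := by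
        funext S
        simp [EuclideanSpace.inner_single_left]
      have e4 : (fun S : V → Spin (n + 2) => inner ℝ
          (-EuclideanSpace.single q (1 : ℝ) : EuclideanSpace ℝ (Fin (n + 2))) (S x))
          = fun S => (-1 : ℝ) * (S x : EuclideanSpace ℝ (Fin (n + 2))) q := by
        funext S
        rw [inner_neg_left, EuclideanSpace.inner_single_left]
        simp
      rw [e3] at h4
      rw [e4, bInt_smul] at h5
      unfold Pc
      rw [abs_le]
      constructor
      · rw [le_div_iff₀ hZ]; linarith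
      · rw [div_le_iff₀ hZ]; linarith
    have h6 : ∫ S, Pc c B (fun S : V → Spin (n + 2) =>
        (S x : EuclideanSpace ℝ (Fin (n + 2))) q) S ^ 2 ∂ν ≤ m ^ 2 := by
      have i1 : Integrable (fun S => Pc c B (fun S : V → Spin (n + 2) =>
        (S x : EuclideanSpace ℝ (Fin (n + 2))) q) S ^ 2) ν := ic (cPq.pow 2)
      calc _ ≤ ∫ _S, m ^ 2 ∂ν := by
            apply integral_mono i1 (integrable_const _)
            intro S
            simp only
            rw [← sq_abs]
            exact pow_le_pow_left₀ (abs_nonneg _) (h3 S) 2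
        _ = m ^ 2 := by simp
    calc _ ≤ Real.sqrt (δ ^ 2 / ((n : ℝ) + 2)) * Real.sqrt (m ^ 2) :=
          mul_le_mul (Real.sqrt_le_sqrt h2) (Real.sqrt_le_sqrt h6) (Real.sqrt_nonneg _)
            (Real.sqrt_nonneg _)
      _ = _ := by rw [Real.sqrt_sq hm0, mul_comm]
  have h1 := Pc_inner_le (c := c) (Λ := Λ) (x := x) (τ := τ) (by positivity) key e
  have h2 : Real.sqrt ((n : ℝ) + 2) * (m * Real.sqrt (δ ^ 2 / ((n : ℝ) + 2))) = δ * m := by
    rw [Real.sqrt_div (by positivity), Real.sqrt_sq hδ.le]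
    have : Real.sqrt ((n : ℝ) + 2) ≠ 0 := (Real.sqrt_pos.2 hn2).ne'
    field_simp
  rw [h2] at h1
  unfold Pc at h1
  rw [div_le_iff₀ hZΛ] at h1
  exact h1

end

end Pool.Agent.NVec.Full
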