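import Pool.Agent.H.MP_8be4c0_mp.Full.Setup

/-!
Energy of Lipschitz functions, properties of the cutoffs, localisations and plateau functions.
-/

open MeasureTheory Set Filter Topology

namespace Pool.Agent.NVec.Full

set_option linter.unusedSectionVars false
set_option linter.unusedVariables false

noncomputable section

variable {n : ℕ} {V : Type} [Fintype V] [DecidableEq V]

lemma norm_zz_lt {z : ℤ × ℤ} {r : ℕ} (h : ‖z‖ < (r : ℝ)) :
    -(r : ℤ) ≤ z.1 ∧ z.1 < r ∧ -(r : ℤ) ≤ z.2 ∧ z.2 < r := by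
  rw [Prod.norm_def, max_lt_iff, Int.norm_eq_abs, Int.norm_eq_abs, abs_lt, abs_lt] at h
  obtain ⟨⟨h1, h2⟩, h3, h4⟩ := h
  refine ⟨?_, ?_, ?_, ?_⟩
  · have : -(r : ℝ) ≤ (z.1 : ℝ) := h1.le
    exact_mod_cast this
  · exact_mod_cast h2
  · have : -(r : ℝ) ≤ (z.2 : ℝ) := h3.le
    exact_mod_cast this
  · exact_mod_cast h4

/-- the number of sites in a box -/
lemma card_box_le {pos : V → ℤ × ℤ} {R : ℕ}
    (hinj : ∀ i k : V, ‖pos i‖ ≤ 5 * (R : ℝ) → pos i = pos k → i = k)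
    {z : ℤ × ℤ} {r : ℕ} (hr : ‖z‖ + r ≤ 5 * (R : ℝ)) :
    (Finset.univ.filter fun i => ‖pos i - z‖ < (r : ℝ)).card ≤ (2 * r) ^ 2 := by
  classical
  have hc : (Finset.Ico (z.1 - (r : ℤ)) (z.1 + r) ×ˢ Finset.Ico (z.2 - (r : ℤ)) (z.2 + r)).card
      = (2 * r) ^ 2 := by
    rw [Finset.card_product, Int.card_Ico, Int.card_Ico]
    have h1 : (z.1 + (r : ℤ) - (z.1 - r)).toNat = 2 * r := by
      have : z.1 + (r : ℤ) - (z.1 - r) = ((2 * r : ℕ) : ℤ) := by push_cast; ring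
      rw [this, Int.toNat_natCast]
    have h2 : (z.2 + (r : ℤ) - (z.2 - r)).toNat = 2 * r := by
      have : z.2 + (r : ℤ) - (z.2 - r) = ((2 * r : ℕ) : ℤ) := by push_cast; ring
      rw [this, Int.toNat_natCast]
    rw [h1, h2, sq]
  rw [← hc]
  apply Finset.card_le_card_of_injOn pos
  · intro i hi
    have hi' : ‖pos i - z‖ < (r : ℝ) := by simpa using hi
    obtain ⟨h1, h2, h3, h4⟩ := norm_zz_lt hi'
    simp only [Prod.fst_sub, Prod.snd_sub] at h1 h2 h3 h4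
    simp only [Finset.coe_product, Finset.coe_Ico, Set.mem_prod, Set.mem_Ico]
    refine ⟨⟨by linarith, by linarith⟩, by linarith, by linarith⟩
  · intro i hi k _ hik
    have hi' : ‖pos i - z‖ < (r : ℝ) := by simpa using hi
    apply hinj i k _ hik
    have : ‖pos i‖ ≤ ‖pos i - z‖ + ‖z‖ := by
      simpa using norm_add_le (pos i - z) z
    linarith

/-- energy of Lipschitz functions of small support -/
lemma energy_lip {c : V → V → ℝ} {pos : V → ℤ × ℤ} {s R : ℕ} {M : ℝ} (hG : Geo c pos s R M)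
    {Φ : ℤ × ℤ → ℝ} {lam : ℝ} (hlam : 0 ≤ lam) (hΦ : ∀ x y, |Φ x - Φ y| ≤ lam * ‖x - y‖)
    {z : ℤ × ℤ} {r : ℕ} (hsupp : ∀ x, (r : ℝ) ≤ ‖x - z‖ → Φ x = 0)
    (hr : ‖z‖ + r ≤ 5 * (R : ℝ)) :
    En c (fun i => Φ (pos i)) ≤ 2 * M * lam ^ 2 * (2 * r) ^ 2 := by
  classical
  set A : Finset V := Finset.univ.filter fun i => ‖pos i - z‖ < (r : ℝ) with hA
  have hcard : (A.card : ℝ) ≤ (2 * (r : ℝ)) ^ 2 := by
    have := card_box_le hG.inj hr
    exact_mod_cast this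
  have hnot : ∀ i, i ∉ A → Φ (pos i) = 0 := by
    intro i hi
    apply hsupp
    by_contra hlt
    exact hi (by simpa [hA] using hlt)
  have hpt : ∀ i k, |c i k| * (Φ (pos i) - Φ (pos k)) ^ 2
      ≤ (if i ∈ A then lam ^ 2 * (|c i k| * ‖pos i - pos k‖ ^ 2) else 0)
        + (if k ∈ A then lam ^ 2 * (|c i k| * ‖pos i - pos k‖ ^ 2) else 0) := by
    intro i k
    have h0 : 0 ≤ lam ^ 2 * (|c i k| * ‖pos i - pos k‖ ^ 2) := by positivity
    have h1 : |c i k| * (Φ (pos i) - Φ (pos k)) ^ 2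
        ≤ lam ^ 2 * (|c i k| * ‖pos i - pos k‖ ^ 2) := by
      have h2 : (Φ (pos i) - Φ (pos k)) ^ 2 ≤ (lam * ‖pos i - pos k‖) ^ 2 := by
        rw [← sq_abs (Φ (pos i) - Φ (pos k))]
        exact pow_le_pow_left₀ (abs_nonneg _) (hΦ _ _) 2
      calc |c i k| * (Φ (pos i) - Φ (pos k)) ^ 2
          ≤ |c i k| * (lam * ‖pos i - pos k‖) ^ 2 :=
            mul_le_mul_of_nonneg_left h2 (abs_nonneg _)
        _ = lam ^ 2 * (|c i k| * ‖pos i - pos k‖ ^ 2) := by ring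
    by_cases hi : i ∈ A
    · rw [if_pos hi]
      split_ifs
      · linarith
      · linarith
    · rw [if_neg hi]
      by_cases hk : k ∈ A
      · rw [if_pos hk]; linarith
      · rw [if_neg hk, hnot i hi, hnot k hk]; simp
  have hsum : En c (fun i => Φ (pos i))
      ≤ (∑ i, ∑ k, if i ∈ A then lam ^ 2 * (|c i k| * ‖pos i - pos k‖ ^ 2) else 0)
        + ∑ i, ∑ k, if k ∈ A then lam ^ 2 * (|c i k| * ‖pos i - pos k‖ ^ 2) else 0 := by
    unfold En
    rw [← Finset.sum_add_distrib]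
    apply Finset.sum_le_sum
    intro i _
    rw [← Finset.sum_add_distrib]
    exact Finset.sum_le_sum fun k _ => hpt i k
  have hb1 : (∑ i, ∑ k, if i ∈ A then lam ^ 2 * (|c i k| * ‖pos i - pos k‖ ^ 2) else 0)
      ≤ A.card * (lam ^ 2 * M) := by
    have : (∑ i, ∑ k, if i ∈ A then lam ^ 2 * (|c i k| * ‖pos i - pos k‖ ^ 2) else 0)
        = ∑ i ∈ A, lam ^ 2 * ∑ k, |c i k| * ‖pos i - pos k‖ ^ 2 := by
      rw [← Finset.sum_filter_add_sum_filter_not Finset.univ (fun i => i ∈ A)]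
      rw [Finset.sum_eq_zero (s := Finset.univ.filter fun i => i ∉ A), add_zero,
        Finset.filter_mem_eq_inter, Finset.univ_inter]
      · apply Finset.sum_congr rfl
        intro i hi
        rw [Finset.mul_sum]
        apply Finset.sum_congr rfl
        intro k _
        rw [if_pos hi]
      · intro i hi
        rw [Finset.mem_filter] at hi
        simp [hi.2]
    rw [this, ← nsmul_eq_mul]
    apply Finset.sum_le_card_nsmul
    intro i _
    exact mul_le_mul_of_nonneg_left (hG.row i) (sq_nonneg _)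
  have hb2 : (∑ i, ∑ k, if k ∈ A then lam ^ 2 * (|c i k| * ‖pos i - pos k‖ ^ 2) else 0)
      ≤ A.card * (lam ^ 2 * M) := by
    rw [Finset.sum_comm]
    have : (∑ k, ∑ i, if k ∈ A then lam ^ 2 * (|c i k| * ‖pos i - pos k‖ ^ 2) else 0)
        = ∑ k ∈ A, lam ^ 2 * ∑ i, |c i k| * ‖pos k - pos i‖ ^ 2 := by
      rw [← Finset.sum_filter_add_sum_filter_not Finset.univ (fun k => k ∈ A)]
      rw [Finset.sum_eq_zero (s := Finset.univ.filter fun k => k ∉ A), add_zero,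
        Finset.filter_mem_eq_inter, Finset.univ_inter]
      · apply Finset.sum_congr rfl
        intro k hk
        rw [Finset.mul_sum]
        apply Finset.sum_congr rfl
        intro i _
        rw [if_pos hk, norm_sub_rev]
      · intro k hk
        rw [Finset.mem_filter] at hk
        simp [hk.2]
    rw [this, ← nsmul_eq_mul]
    apply Finset.sum_le_card_nsmul
    intro k _
    exact mul_le_mul_of_nonneg_left (hG.col k) (sq_nonneg _)
  have hM : 0 ≤ lam ^ 2 * M := mul_nonneg (sq_nonneg _) hG.nonneg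
  have := mul_le_mul_of_nonneg_right hcard hM
  calc En c (fun i => Φ (pos i)) ≤ A.card * (lam ^ 2 * M) + A.card * (lam ^ 2 * M) :=
        hsum.trans (add_le_add hb1 hb2)
    _ ≤ (2 * (r : ℝ)) ^ 2 * (lam ^ 2 * M) + (2 * (r : ℝ)) ^ 2 * (lam ^ 2 * M) := by linarith
    _ = 2 * M * lam ^ 2 * (2 * r) ^ 2 := by ring

/-! ## localisation -/

/-- the envelope of the localisation -/
lemma env_lip {lam l : ℝ} (hlam : 0 ≤ lam) (z x y : ℤ × ℤ) :
    |lam * max 0 (2 * l - ‖x - z‖) - lam * max 0 (2 * l - ‖y - z‖)| ≤ lam * ‖x - y‖ := by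
  rw [← mul_sub, abs_mul, abs_of_nonneg hlam]
  apply mul_le_mul_of_nonneg_left _ hlam
  refine (abs_max_sub_max_le_max _ _ _ _).trans ?_
  rw [sub_self, abs_zero]
  apply max_le (norm_nonneg _)
  have h1 : 2 * l - ‖x - z‖ - (2 * l - ‖y - z‖) = ‖y - z‖ - ‖x - z‖ := by ring
  rw [h1]
  refine (abs_norm_sub_norm_le _ _).trans ?_
  rw [sub_sub_sub_cancel_right, norm_sub_rev]

lemma loc_lip {lam l : ℝ} (hlam : 0 ≤ lam) {z : ℤ × ℤ} {g : ℤ × ℤ → ℝ}
    (hg : ∀ x y, |g x - g y| ≤ lam * ‖x - y‖) (x y : ℤ × ℤ) :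
    |loc lam l z g x - loc lam l z g y| ≤ lam * ‖x - y‖ := by
  unfold loc
  have h1 := env_lip (l := l) hlam z x y
  refine (abs_max_sub_max_le_max _ _ _ _).trans (max_le ?_ ?_)
  · rw [neg_sub_neg, abs_sub_comm]
    exact h1
  · refine (abs_min_sub_min_le_max _ _ _ _).trans (max_le h1 ?_)
    rw [sub_sub_sub_cancel_right]
    exact hg x y

lemma loc_zero {lam l : ℝ} {z : ℤ × ℤ} {g : ℤ × ℤ → ℝ} {x : ℤ × ℤ}
    (h : 2 * l ≤ ‖x - z‖) : loc lam l z g x = 0 := by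
  unfold loc
  rw [max_eq_left (sub_nonpos.2 h), mul_zero, neg_zero]
  exact max_eq_left (min_le_left _ _)

lemma loc_eq {lam l : ℝ} (hlam : 0 ≤ lam) {z : ℤ × ℤ} {g : ℤ × ℤ → ℝ}
    (hg : ∀ x y, |g x - g y| ≤ lam * ‖x - y‖) {x : ℤ × ℤ} (h : ‖x - z‖ ≤ l) :
    loc lam l z g x = g x - g z := by
  have h1 : |g x - g z| ≤ lam * max 0 (2 * l - ‖x - z‖) := by
    refine (hg x z).trans (mul_le_mul_of_nonneg_left ?_ hlam)
    exact le_max_of_le_right (by linarith)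
  rw [abs_le] at h1
  unfold loc
  rw [min_eq_right h1.2, max_eq_right h1.1]

/-- the localisation is below the envelope -/
lemma abs_loc_le_env {lam l : ℝ} (hlam : 0 ≤ lam) {z : ℤ × ℤ} {g : ℤ × ℤ → ℝ} (x : ℤ × ℤ) :
    |loc lam l z g x| ≤ lam * max 0 (2 * l - ‖x - z‖) := by
  have h0 : 0 ≤ lam * max 0 (2 * l - ‖x - z‖) := mul_nonneg hlam (le_max_left _ _)
  unfold loc
  rw [abs_le]
  exact ⟨le_max_left _ _, max_le (by linarith) (min_le_left _ _)⟩

lemma abs_loc_le {lam l : ℝ} (hlam : 0 ≤ lam) (hl : 0 ≤ l) {z : ℤ × ℤ} {g : ℤ × ℤ → ℝ}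
    (hg : ∀ x y, |g x - g y| ≤ lam * ‖x - y‖) (x : ℤ × ℤ) :
    |loc lam l z g x| ≤ lam * l := by
  by_cases h : ‖x - z‖ ≤ l
  · rw [loc_eq hlam hg h]
    exact (hg x z).trans (mul_le_mul_of_nonneg_left h hlam)
  · push Not at h
    refine (abs_loc_le_env hlam x).trans (mul_le_mul_of_nonneg_left ?_ hlam)
    exact max_le hl (by linarith)

/-! ## the cutoffs -/

lemma clamp_lip (a b : ℝ) : |max 0 (min 1 a) - max 0 (min 1 b)| ≤ |a - b| := by
  refine (abs_max_sub_max_le_max _ _ _ _).trans ?_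
  rw [sub_self, abs_zero]
  refine max_le (abs_nonneg _) ?_
  refine (abs_min_sub_min_le_max _ _ _ _).trans ?_
  rw [sub_self, abs_zero]
  exact max_le (abs_nonneg _) le_rfl

lemma psi_lip {R : ℕ} (hR : 0 < R) (x y : ℤ × ℤ) : |psi R x - psi R y| ≤ 1 / R * ‖x - y‖ := by
  have hR' : (0 : ℝ) < R := by exact_mod_cast hR
  unfold psi
  refine (clamp_lip _ _).trans ?_
  rw [← sub_div, abs_div, abs_of_pos hR', div_eq_mul_inv, mul_comm, one_div]
  apply mul_le_mul_of_nonneg_left _ (by positivity)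
  rw [sub_sub_sub_cancel_left]
  refine (abs_norm_sub_norm_le _ _).trans ?_
  rw [norm_sub_rev]

lemma psi_one {R : ℕ} (hR : 0 < R) {x : ℤ × ℤ} (h : ‖x‖ ≤ 2 * R) : psi R x = 1 := by
  have hR' : (0 : ℝ) < R := by exact_mod_cast hR
  unfold psi
  have h1 : 1 ≤ (3 * (R : ℝ) - ‖x‖) / R := by
    rw [le_div_iff₀ hR']
    linarith
  rw [min_eq_left h1]
  exact max_eq_right zero_le_one

lemma psi_zero {R : ℕ} {x : ℤ × ℤ} (h : 3 * R ≤ ‖x‖) : psi R x = 0 := by
  unfold psi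
  have h1 : (3 * (R : ℝ) - ‖x‖) / R ≤ 0 :=
    div_nonpos_of_nonpos_of_nonneg (by linarith) (by positivity)
  rw [min_eq_right (h1.trans zero_le_one)]
  exact max_eq_left h1

lemma psi_mem {R : ℕ} (x : ℤ × ℤ) : 0 ≤ psi R x ∧ psi R x ≤ 1 := by
  unfold psi
  exact ⟨le_max_left _ _, max_le zero_le_one (min_le_left _ _)⟩

lemma plat_lip {θ : ℝ} (hθ : 0 < θ) {s h : ℕ} (hh : 0 < h) (a x y : ℤ × ℤ) :
    |plat θ s h a x - plat θ s h a y| ≤ 1 / (θ * h) * ‖x - y‖ := by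
  have hh' : (0 : ℝ) < θ * h := mul_pos hθ (by exact_mod_cast hh)
  unfold plat
  refine (clamp_lip _ _).trans ?_
  rw [← sub_div, abs_div, abs_of_pos hh', div_eq_mul_inv, mul_comm, one_div]
  apply mul_le_mul_of_nonneg_left _ (by positivity)
  rw [sub_sub_sub_cancel_left]
  refine (abs_norm_sub_norm_le _ _).trans ?_
  rw [sub_sub_sub_cancel_right, norm_sub_rev]

lemma plat_mem {θ : ℝ} {s h : ℕ} (a x : ℤ × ℤ) :
    0 ≤ plat θ s h a x ∧ plat θ s h a x ≤ 1 := by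
  unfold plat
  exact ⟨le_max_left _ _, max_le zero_le_one (min_le_left _ _)⟩

/-- the plateau function vanishes off the block -/
lemma plat_zero {θ : ℝ} (hθ : 0 < θ) {s h : ℕ} {a x : ℤ × ℤ}
    (h1 : ¬ ‖x - ctr h a‖ + s < (h : ℝ)) : plat θ s h a x = 0 := by
  unfold plat
  have h2 : ((h : ℝ) - s - ‖x - ctr h a‖) / (θ * h) ≤ 0 :=
    div_nonpos_of_nonpos_of_nonneg (by linarith) (by positivity)
  rw [min_eq_right (h2.trans zero_le_one)]
  exact max_eq_left h2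

lemma plat_one {θ : ℝ} (hθ : 0 < θ) {s h : ℕ} (hh : 0 < h) {a x : ℤ × ℤ}
    (h1 : ‖x - ctr h a‖ + s + θ * h ≤ (h : ℝ)) : plat θ s h a x = 1 := by
  have hh' : (0 : ℝ) < θ * h := mul_pos hθ (by exact_mod_cast hh)
  unfold plat
  have h2 : 1 ≤ ((h : ℝ) - s - ‖x - ctr h a‖) / (θ * h) := by
    rw [le_div_iff₀ hh']
    linarith
  rw [min_eq_left h2]
  exact max_eq_right zero_le_one

end

end Pool.Agent.NVec.Full
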