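import Pool.Agent.H.MP_8be4c0_mp.Full.Setup

/-!
Combinatorics of the cells and blocks.
-/

open MeasureTheory Set Filter Topology

namespace Pool.Agent.NVec.Full

set_option linter.unusedSectionVars false

noncomputable section

variable {n : ℕ} {V : Type} [Fintype V] [DecidableEq V]

/-- the coarse cell containing a fine cell -/
def par (K : ℕ) (a : ℤ × ℤ) : ℤ × ℤ := (a.1 / K, a.2 / K)

lemma mem_cells {t : ℕ} {a : ℤ × ℤ} : a ∈ cells t ↔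
    ((-4 * (t : ℤ) ≤ a.1 ∧ a.1 < 4 * t) ∧ (-4 * (t : ℤ) ≤ a.2 ∧ a.2 < 4 * t)) ∧
      ¬ ((-(t : ℤ) ≤ a.1 ∧ a.1 < t) ∧ (-(t : ℤ) ≤ a.2 ∧ a.2 < t)) := by
  unfold cells
  simp only [Finset.mem_sdiff, Finset.mem_product, Finset.mem_Ico]

lemma norm_lt_iff {x : ℤ × ℤ} {r : ℝ} : ‖x‖ < r ↔ |(x.1 : ℝ)| < r ∧ |(x.2 : ℝ)| < r := by
  rw [Prod.norm_def, max_lt_iff, Int.norm_eq_abs, Int.norm_eq_abs]

lemma norm_le_iff' {x : ℤ × ℤ} {r : ℝ} : ‖x‖ ≤ r ↔ |(x.1 : ℝ)| ≤ r ∧ |(x.2 : ℝ)| ≤ r := by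
  rw [Prod.norm_def, max_le_iff, Int.norm_eq_abs, Int.norm_eq_abs]

lemma lt_norm_iff {x : ℤ × ℤ} {r : ℝ} : r < ‖x‖ ↔ r < |(x.1 : ℝ)| ∨ r < |(x.2 : ℝ)| := by
  rw [Prod.norm_def, lt_max_iff, Int.norm_eq_abs, Int.norm_eq_abs]

/-- membership in a block, in coordinates -/
lemma mem_blk {pos : V → ℤ × ℤ} {s h : ℕ} {a : ℤ × ℤ} {i : V} : i ∈ blk pos s h a ↔
    ((2 * (a.1 : ℝ) * h + s < (pos i).1 ∧ ((pos i).1 : ℝ) < (2 * a.1 + 2) * h - s) ∧
      (2 * (a.2 : ℝ) * h + s < (pos i).2 ∧ ((pos i).2 : ℝ) < (2 * a.2 + 2) * h - s)) := by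
  unfold blk
  rw [Finset.mem_filter, ← lt_sub_iff_add_lt, norm_lt_iff, abs_lt, abs_lt]
  simp only [Finset.mem_univ, true_and, ctr, Prod.fst_sub, Prod.snd_sub, Int.cast_sub,
    Int.cast_mul, Int.cast_add, Int.cast_ofNat, Int.cast_one, Int.cast_natCast]
  constructor
  · rintro ⟨⟨h1, h2⟩, h3, h4⟩
    refine ⟨⟨?_, ?_⟩, ?_, ?_⟩ <;> nlinarith
  · rintro ⟨⟨h1, h2⟩, h3, h4⟩
    refine ⟨⟨?_, ?_⟩, ?_, ?_⟩ <;> nlinarith

lemma par_mem {K t : ℕ} (hK : 0 < K) {a : ℤ × ℤ} (ha : a ∈ cells (K * t)) :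
    par K a ∈ cells t := by
  have hK' : (0 : ℤ) < (K : ℤ) := by exact_mod_cast hK
  rw [mem_cells] at ha ⊢
  obtain ⟨⟨⟨h1, h2⟩, h3, h4⟩, h5⟩ := ha
  push_cast at h1 h2 h3 h4 h5
  unfold par
  simp only
  refine ⟨⟨⟨?_, ?_⟩, ?_, ?_⟩, ?_⟩
  · rw [Int.le_ediv_iff_mul_le hK']; nlinarith
  · rw [Int.ediv_lt_iff_lt_mul hK']; nlinarith
  · rw [Int.le_ediv_iff_mul_le hK']; nlinarith
  · rw [Int.ediv_lt_iff_lt_mul hK']; nlinarith
  · rw [Int.le_ediv_iff_mul_le hK', Int.ediv_lt_iff_lt_mul hK', Int.le_ediv_iff_mul_le hK',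
      Int.ediv_lt_iff_lt_mul hK']
    rintro ⟨⟨g1, g2⟩, g3, g4⟩
    apply h5
    refine ⟨⟨?_, ?_⟩, ?_, ?_⟩ <;> nlinarith

lemma ediv_eq_iff {K : ℤ} (hK : 0 < K) {b q : ℤ} : b / K = q ↔ q * K ≤ b ∧ b < (q + 1) * K := by
  constructor
  · rintro rfl
    refine ⟨Int.ediv_mul_le _ hK.ne', ?_⟩
    have := Int.lt_ediv_add_one_mul_self b hK
    linarith
  · rintro ⟨h1, h2⟩
    apply le_antisymm
    · exact Int.lt_add_one_iff.1 ((Int.ediv_lt_iff_lt_mul hK).2 h2)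
    · exact (Int.le_ediv_iff_mul_le hK).2 h1

lemma card_fiber {K t : ℕ} (hK : 0 < K) {a : ℤ × ℤ} (ha : a ∈ cells t) :
    ((cells (K * t)).filter fun b => par K b = a).card = K ^ 2 := by
  have hK' : (0 : ℤ) < (K : ℤ) := by exact_mod_cast hK
  have key : ((cells (K * t)).filter fun b => par K b = a)
      = (Finset.Ico (a.1 * K) ((a.1 + 1) * K)) ×ˢ (Finset.Ico (a.2 * K) ((a.2 + 1) * K)) := by
    ext b
    rw [Finset.mem_filter, Finset.mem_product, Finset.mem_Ico, Finset.mem_Ico]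
    rw [mem_cells] at ha ⊢
    have hp : par K b = a ↔ (a.1 * K ≤ b.1 ∧ b.1 < (a.1 + 1) * K)
        ∧ (a.2 * K ≤ b.2 ∧ b.2 < (a.2 + 1) * K) := by
      unfold par
      rw [Prod.ext_iff]
      simp only
      rw [ediv_eq_iff hK', ediv_eq_iff hK']
    rw [hp]
    constructor
    · exact fun h => h.2
    · intro h
      refine ⟨?_, h⟩
      obtain ⟨⟨h1, h2⟩, h3, h4⟩ := h
      obtain ⟨⟨⟨a1, a2⟩, a3, a4⟩, a5⟩ := ha
      push_cast
      refine ⟨⟨⟨?_, ?_⟩, ?_, ?_⟩, ?_⟩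
      · nlinarith
      · nlinarith
      · nlinarith
      · nlinarith
      · rintro ⟨⟨g1, g2⟩, g3, g4⟩
        apply a5
        refine ⟨⟨?_, ?_⟩, ?_, ?_⟩
        · by_contra hc
          push Not at hc
          have : a.1 + 1 ≤ -(t : ℤ) := hc
          nlinarith
        · by_contra hc
          push Not at hc
          nlinarith
        · by_contra hc
          push Not at hc
          have : a.2 + 1 ≤ -(t : ℤ) := hc
          nlinarith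
        · by_contra hc
          push Not at hc
          nlinarith
  rw [key, Finset.card_product, Int.card_Ico, Int.card_Ico]
  have h1 : (a.1 + 1) * (K : ℤ) - a.1 * K = K := by ring
  have h2 : (a.2 + 1) * (K : ℤ) - a.2 * K = K := by ring
  rw [h1, h2, Int.toNat_natCast]
  ring

lemma card_cells (t : ℕ) : (cells t).card = 60 * t ^ 2 := by
  unfold cells
  rw [Finset.card_sdiff_of_subset]
  · rw [Finset.card_product, Finset.card_product, Int.card_Ico, Int.card_Ico]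
    have h1 : (4 * (t : ℤ) - -4 * t).toNat = 8 * t := by omega
    have h2 : ((t : ℤ) - -(t : ℤ)).toNat = 2 * t := by omega
    rw [h1, h2]
    have h3 : 8 * t * (8 * t) = 60 * t ^ 2 + 2 * t * (2 * t) := by ring
    rw [h3, Nat.add_sub_cancel]
  · intro a ha
    rw [Finset.mem_product, Finset.mem_Ico, Finset.mem_Ico] at ha ⊢
    omega

/-- fine blocks are contained in coarse blocks -/
lemma blk_subset {pos : V → ℤ × ℤ} {s h K : ℕ} (hK : 0 < K) (a : ℤ × ℤ) :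
    blk pos s h a ⊆ blk pos s (K * h) (par K a) := by
  have hK' : (0 : ℤ) < (K : ℤ) := by exact_mod_cast hK
  intro i hi
  rw [mem_blk] at hi ⊢
  obtain ⟨⟨h1, h2⟩, h3, h4⟩ := hi
  have hh : (0 : ℝ) ≤ (h : ℝ) := Nat.cast_nonneg h
  have q1 := (ediv_eq_iff hK' (b := a.1) (q := a.1 / K)).1 rfl
  have q2 := (ediv_eq_iff hK' (b := a.2) (q := a.2 / K)).1 rfl
  have e1 : ((a.1 / (K : ℤ) : ℤ) : ℝ) * K ≤ (a.1 : ℝ) := by exact_mod_cast q1.1
  have e2 : (a.1 : ℝ) + 1 ≤ (((a.1 / (K : ℤ) : ℤ) : ℝ) + 1) * K := by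
    exact_mod_cast Int.add_one_le_iff.2 q1.2
  have e3 : ((a.2 / (K : ℤ) : ℤ) : ℝ) * K ≤ (a.2 : ℝ) := by exact_mod_cast q2.1
  have e4 : (a.2 : ℝ) + 1 ≤ (((a.2 / (K : ℤ) : ℤ) : ℝ) + 1) * K := by
    exact_mod_cast Int.add_one_le_iff.2 q2.2
  unfold par
  simp only
  push_cast
  have m1 := mul_le_mul_of_nonneg_right e1 hh
  have m2 := mul_le_mul_of_nonneg_right e2 hh
  have m3 := mul_le_mul_of_nonneg_right e3 hh
  have m4 := mul_le_mul_of_nonneg_right e4 hh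
  refine ⟨⟨?_, ?_⟩, ?_, ?_⟩
  · calc _ ≤ 2 * (a.1 : ℝ) * h + s := by nlinarith
      _ < _ := h1
  · calc _ < (2 * (a.1 : ℝ) + 2) * h - s := h2
      _ ≤ _ := by nlinarith
  · calc _ ≤ 2 * (a.2 : ℝ) * h + s := by nlinarith
      _ < _ := h3
  · calc _ < (2 * (a.2 : ℝ) + 2) * h - s := h4
      _ ≤ _ := by nlinarith

/-- a site within distance `s` of a block is within distance `h` of the centre of the cell -/
lemma near_blk {pos : V → ℤ × ℤ} {s h : ℕ} {a : ℤ × ℤ} {i k : V}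
    (hik : ‖pos i - pos k‖ ≤ s) (h1 : i ∈ blk pos s h a ∨ k ∈ blk pos s h a) :
    ‖pos i - ctr h a‖ ≤ h ∧ ‖pos k - ctr h a‖ ≤ h := by
  have hs : (0 : ℝ) ≤ (s : ℝ) := Nat.cast_nonneg s
  have t1 : ‖pos i - ctr h a‖ ≤ ‖pos i - pos k‖ + ‖pos k - ctr h a‖ := norm_sub_le_norm_sub_add_norm_sub _ _ _
  have t2 : ‖pos k - ctr h a‖ ≤ ‖pos k - pos i‖ + ‖pos i - ctr h a‖ := norm_sub_le_norm_sub_add_norm_sub _ _ _
  rw [norm_sub_rev (pos k) (pos i)] at t2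
  unfold blk at h1
  rw [Finset.mem_filter, Finset.mem_filter] at h1
  rcases h1 with h1 | h1
  · have := h1.2
    constructor <;> linarith
  · have := h1.2
    constructor <;> linarith

/-- different blocks are far apart -/
lemma blk_far {pos : V → ℤ × ℤ} {s h : ℕ} {a b : ℤ × ℤ} (hab : a ≠ b) {i k : V}
    (hi : i ∈ blk pos s h a) (hk : k ∈ blk pos s h b) : 2 * (s : ℝ) < ‖pos i - pos k‖ := by
  rw [mem_blk] at hi hk
  have hh : (0 : ℝ) ≤ (h : ℝ) := Nat.cast_nonneg h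
  obtain ⟨⟨h1, h2⟩, h3, h4⟩ := hi
  obtain ⟨⟨g1, g2⟩, g3, g4⟩ := hk
  have key : ∀ u v : ℤ, u ≠ v → ∀ x y : ℝ, 2 * (u : ℝ) * h + s < x → x < (2 * u + 2) * h - s →
      2 * (v : ℝ) * h + s < y → y < (2 * v + 2) * h - s → 2 * (s : ℝ) < |x - y| := by
    intro u v huv x y x1 x2 y1 y2
    rcases lt_or_gt_of_ne huv with h | h
    · have : (u : ℝ) + 1 ≤ v := by exact_mod_cast h
      have hm := mul_le_mul_of_nonneg_right this hh
      rw [abs_sub_comm]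
      refine lt_of_lt_of_le ?_ (le_abs_self _)
      nlinarith
    · have : (v : ℝ) + 1 ≤ u := by exact_mod_cast h
      have hm := mul_le_mul_of_nonneg_right this hh
      refine lt_of_lt_of_le ?_ (le_abs_self _)
      nlinarith
  rw [lt_norm_iff]
  simp only [Prod.fst_sub, Prod.snd_sub, Int.cast_sub]
  by_cases e : a.1 = b.1
  · right
    have e2 : a.2 ≠ b.2 := fun h => hab (Prod.ext e h)
    exact key _ _ e2 _ _ h3 h4 g3 g4
  · left
    exact key _ _ e _ _ h1 h2 g1 g2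

/-- the blocks stay away from `‖p‖ ≤ R + s` and from `‖p‖ ≥ 4 R` -/
lemma blk_range {pos : V → ℤ × ℤ} {s h t : ℕ} {a : ℤ × ℤ} (ha : a ∈ cells t) {i : V}
    (hi : i ∈ blk pos s h a) :
    ((2 * h * t : ℕ) : ℝ) + s < ‖pos i‖ ∧ ‖pos i‖ < 4 * ((2 * h * t : ℕ) : ℝ) := by
  rw [mem_blk] at hi
  rw [mem_cells] at ha
  have hh : (0 : ℝ) ≤ (h : ℝ) := Nat.cast_nonneg h
  have hs : (0 : ℝ) ≤ (s : ℝ) := Nat.cast_nonneg s
  obtain ⟨⟨h1, h2⟩, h3, h4⟩ := hi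
  obtain ⟨⟨⟨a1, a2⟩, a3, a4⟩, a5⟩ := ha
  have b1 : -4 * (t : ℝ) ≤ a.1 := by exact_mod_cast a1
  have b2 : (a.1 : ℝ) + 1 ≤ 4 * t := by exact_mod_cast a2
  have b3 : -4 * (t : ℝ) ≤ a.2 := by exact_mod_cast a3
  have b4 : (a.2 : ℝ) + 1 ≤ 4 * t := by exact_mod_cast a4
  have m1 := mul_le_mul_of_nonneg_right b1 hh
  have m2 := mul_le_mul_of_nonneg_right b2 hh
  have m3 := mul_le_mul_of_nonneg_right b3 hh
  have m4 := mul_le_mul_of_nonneg_right b4 hh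
  push_cast
  constructor
  · rw [lt_norm_iff]
    have hor : (a.1 + 1 ≤ -(t : ℤ) ∨ (t : ℤ) ≤ a.1) ∨ (a.2 + 1 ≤ -(t : ℤ) ∨ (t : ℤ) ≤ a.2) := by
      by_contra hc
      push Not at hc
      apply a5
      omega
    rcases hor with (g | g) | (g | g)
    · left
      have g' : (a.1 : ℝ) + 1 ≤ -(t : ℝ) := by exact_mod_cast g
      have hm := mul_le_mul_of_nonneg_right g' hh
      rw [lt_abs]; right; nlinarith
    · left
      have g' : (t : ℝ) ≤ a.1 := by exact_mod_cast g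
      have hm := mul_le_mul_of_nonneg_right g' hh
      rw [lt_abs]; left; nlinarith
    · right
      have g' : (a.2 : ℝ) + 1 ≤ -(t : ℝ) := by exact_mod_cast g
      have hm := mul_le_mul_of_nonneg_right g' hh
      rw [lt_abs]; right; nlinarith
    · right
      have g' : (t : ℝ) ≤ a.2 := by exact_mod_cast g
      have hm := mul_le_mul_of_nonneg_right g' hh
      rw [lt_abs]; left; nlinarith
  · rw [norm_lt_iff, abs_lt, abs_lt]
    refine ⟨⟨?_, ?_⟩, ?_, ?_⟩ <;> nlinarith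

lemma ctr_norm {h t : ℕ} {a : ℤ × ℤ} (ha : a ∈ cells t) :
    ‖ctr h a‖ + h ≤ 4 * ((2 * h * t : ℕ) : ℝ) := by
  rw [mem_cells] at ha
  have hh : (0 : ℝ) ≤ (h : ℝ) := Nat.cast_nonneg h
  obtain ⟨⟨⟨a1, a2⟩, a3, a4⟩, a5⟩ := ha
  have b1 : -4 * (t : ℝ) ≤ a.1 := by exact_mod_cast a1
  have b2 : (a.1 : ℝ) + 1 ≤ 4 * t := by exact_mod_cast a2
  have b3 : -4 * (t : ℝ) ≤ a.2 := by exact_mod_cast a3
  have b4 : (a.2 : ℝ) + 1 ≤ 4 * t := by exact_mod_cast a4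
  have m1 := mul_le_mul_of_nonneg_right b1 hh
  have m2 := mul_le_mul_of_nonneg_right b2 hh
  have m3 := mul_le_mul_of_nonneg_right b3 hh
  have m4 := mul_le_mul_of_nonneg_right b4 hh
  push_cast
  rw [← le_sub_iff_add_le, norm_le_iff', abs_le, abs_le]
  simp only [ctr, Int.cast_mul, Int.cast_add, Int.cast_ofNat, Int.cast_one, Int.cast_natCast]
  refine ⟨⟨?_, ?_⟩, ?_, ?_⟩ <;> nlinarith

end

end Pool.Agent.NVec.Full
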