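import Pool.Agent.H.MP_8be4c0_mp.Full.GeoA
import Pool.Agent.H.MP_8be4c0_mp.Full.GeoB

/-!
The layers between the plateaus.
-/

open MeasureTheory Set Filter Topology

namespace Pool.Agent.NVec.Full

set_option linter.unusedSectionVars false
set_option linter.unusedVariables false

noncomputable section

variable {n : ℕ} {V : Type} [Fintype V] [DecidableEq V]

/-- the sum of the plateau functions -/
def pl (θ : ℝ) (s h t : ℕ) (x : ℤ × ℤ) : ℝ := ∑ a ∈ cells t, plat θ s h a x

lemma cell_eq {h : ℕ} {a x : ℤ × ℤ} (hx : ‖x - ctr h a‖ < (h : ℝ)) : par (2 * h) x = a := by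
  rw [norm_lt_iff, abs_lt, abs_lt] at hx
  simp only [ctr, Prod.fst_sub, Prod.snd_sub] at hx
  obtain ⟨⟨h1, h2⟩, h3, h4⟩ := hx
  have h1' : -(h : ℤ) < x.1 - (2 * a.1 + 1) * h := by exact_mod_cast h1
  have h2' : x.1 - (2 * a.1 + 1) * h < (h : ℤ) := by exact_mod_cast h2
  have h3' : -(h : ℤ) < x.2 - (2 * a.2 + 1) * h := by exact_mod_cast h3
  have h4' : x.2 - (2 * a.2 + 1) * h < (h : ℤ) := by exact_mod_cast h4
  have hh : (0 : ℤ) < ((2 * h : ℕ) : ℤ) := by
    push_cast
    linarith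
  unfold par
  apply Prod.ext
  · simp only
    rw [ediv_eq_iff hh]
    push_cast
    constructor <;> nlinarith
  · simp only
    rw [ediv_eq_iff hh]
    push_cast
    constructor <;> nlinarith

lemma plat_ne {θ : ℝ} (hθ : 0 < θ) {s h : ℕ} {a x : ℤ × ℤ} (h0 : plat θ s h a x ≠ 0) :
    par (2 * h) x = a := by
  apply cell_eq
  by_contra hc
  apply h0
  apply plat_zero hθ
  have : (0 : ℝ) ≤ (s : ℝ) := Nat.cast_nonneg s
  intro h1
  apply hc
  linarith

lemma pl_mem {θ : ℝ} (hθ : 0 < θ) (s h t : ℕ) (x : ℤ × ℤ) :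
    0 ≤ pl θ s h t x ∧ pl θ s h t x ≤ 1 := by
  constructor
  · exact Finset.sum_nonneg fun a _ => (plat_mem a x).1
  · unfold pl
    by_cases hx : par (2 * h) x ∈ cells t
    · rw [Finset.sum_eq_single_of_mem _ hx]
      · exact (plat_mem _ x).2
      · intro b _ hb
        by_contra hc
        exact hb (plat_ne hθ hc).symm
    · rw [Finset.sum_eq_zero]
      · exact zero_le_one
      · intro b hb
        by_contra hc
        rw [plat_ne hθ hc] at hx
        exact hx hb

/-- the midpoint values of the plateau functions sum up to at most one -/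
lemma mid_sum_eq {pos : V → ℤ × ℤ} {s h t : ℕ} {θ : ℝ} (i k : V) :
    ∑ a ∈ cells t, mid (fun j => plat θ s h a (pos j)) i k
      = (pl θ s h t (pos i) + pl θ s h t (pos k)) / 2 := by
  unfold mid pl
  rw [← Finset.sum_add_distrib, Finset.sum_div]

lemma mid_sum_le {pos : V → ℤ × ℤ} {s h t : ℕ} {θ : ℝ} (hθ : 0 < θ) (i k : V) :
    ∑ a ∈ cells t, mid (fun j => plat θ s h a (pos j)) i k ≤ 1 := by
  rw [mid_sum_eq]
  have h1 := (pl_mem hθ s h t (pos i)).2
  have h2 := (pl_mem hθ s h t (pos k)).2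
  linarith

/-- counting in one dimension -/
lemma card_one {h : ℕ} {ρ : ℝ} (hρ : ρ ≤ h) (a : ℤ) :
    (((Finset.Ico (a * ((2 * h : ℕ) : ℤ)) ((a + 1) * ((2 * h : ℕ) : ℤ))).filter
      fun u : ℤ => ρ < |((u - (2 * a + 1) * h : ℤ) : ℝ)|).card : ℝ) ≤ 2 * (h - ρ) + 1 := by
  set m : ℤ := ⌊ρ⌋ with hm
  have hmh : m ≤ h := by
    have : (m : ℝ) ≤ h := (Int.floor_le ρ).trans hρ
    exact_mod_cast this
  have hlt : ρ < m + 1 := Int.lt_floor_add_one ρ
  have hcard : ((Finset.Ico (a * ((2 * h : ℕ) : ℤ)) ((a + 1) * ((2 * h : ℕ) : ℤ))).filter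
      fun u : ℤ => ρ < |((u - (2 * a + 1) * h : ℤ) : ℝ)|).card
      ≤ (Finset.Ico (-(h : ℤ)) (-m) ∪ Finset.Ico (m + 1) (h : ℤ)).card := by
    apply Finset.card_le_card_of_injOn (fun u => u - (2 * a + 1) * h)
    · intro u hu
      rw [Finset.mem_coe, Finset.mem_filter, Finset.mem_Ico] at hu
      obtain ⟨⟨h1, h2⟩, h3⟩ := hu
      push_cast at h1 h2
      rw [Finset.mem_coe, Finset.mem_union, Finset.mem_Ico, Finset.mem_Ico]
      have h4 : m < |u - (2 * a + 1) * h| := by
        rw [hm]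
        apply Int.floor_lt.2
        rw [Int.cast_abs]
        exact h3
      simp only
      rcases lt_abs.1 h4 with h5 | h5
      · right
        constructor
        · linarith
        · nlinarith
      · left
        constructor
        · nlinarith
        · linarith
    · intro u _ v _ huv
      simpa using huv
  refine (Nat.cast_le.2 (hcard.trans (Finset.card_union_le _ _))).trans ?_
  rw [Int.card_Ico, Int.card_Ico]
  rcases eq_or_lt_of_le hmh with h1 | h1
  · have e1 : (-m - -(h : ℤ)).toNat = 0 := by omega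
    have e2 : ((h : ℤ) - (m + 1)).toNat = 0 := by omega
    rw [e1, e2]
    push_cast
    linarith
  · have e1 : (((-m - -(h : ℤ)).toNat : ℕ) : ℝ) = h - m := by
      have : ((-m - -(h : ℤ)).toNat : ℤ) = h - m := by omega
      exact_mod_cast congrArg (Int.cast : ℤ → ℝ) this
    have e2 : ((((h : ℤ) - (m + 1)).toNat : ℕ) : ℝ) = h - m - 1 := by
      have : (((h : ℤ) - (m + 1)).toNat : ℤ) = h - m - 1 := by omega
      exact_mod_cast congrArg (Int.cast : ℤ → ℝ) this
    push_cast
    rw [e1, e2]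
    linarith

/-- the bad points of a cell -/
lemma card_cell_bad {h t : ℕ} (hh : 0 < h) {ρ : ℝ} (hρ : ρ ≤ h) (a : ℤ × ℤ) :
    (((cells (2 * h * t)).filter fun x => par (2 * h) x = a ∧
      ρ < ‖x - ctr h a‖).card : ℝ) ≤ 4 * h * (2 * (h - ρ) + 1) := by
  have hK : 0 < 2 * h := by omega
  have hK' : (0 : ℤ) < ((2 * h : ℕ) : ℤ) := by exact_mod_cast hK
  set I1 := Finset.Ico (a.1 * ((2 * h : ℕ) : ℤ)) ((a.1 + 1) * ((2 * h : ℕ) : ℤ)) with hI1
  set I2 := Finset.Ico (a.2 * ((2 * h : ℕ) : ℤ)) ((a.2 + 1) * ((2 * h : ℕ) : ℤ)) with hI2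
  have c1 : I1.card = 2 * h := by
    rw [hI1, Int.card_Ico]
    have : (a.1 + 1) * ((2 * h : ℕ) : ℤ) - a.1 * ((2 * h : ℕ) : ℤ) = ((2 * h : ℕ) : ℤ) := by ring
    rw [this, Int.toNat_natCast]
  have c2 : I2.card = 2 * h := by
    rw [hI2, Int.card_Ico]
    have : (a.2 + 1) * ((2 * h : ℕ) : ℤ) - a.2 * ((2 * h : ℕ) : ℤ) = ((2 * h : ℕ) : ℤ) := by ring
    rw [this, Int.toNat_natCast]
  have hsub : ((cells (2 * h * t)).filter fun x => par (2 * h) x = a ∧ ρ < ‖x - ctr h a‖)
      ⊆ ((I1.filter fun u : ℤ => ρ < |((u - (2 * a.1 + 1) * h : ℤ) : ℝ)|) ×ˢ I2)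
        ∪ (I1 ×ˢ (I2.filter fun u : ℤ => ρ < |((u - (2 * a.2 + 1) * h : ℤ) : ℝ)|)) := by
    intro x hx
    rw [Finset.mem_filter] at hx
    obtain ⟨_, h2, h3⟩ := hx
    have h4 : x.1 ∈ I1 := by
      rw [hI1, Finset.mem_Ico]
      exact (ediv_eq_iff hK').1 (congrArg Prod.fst h2)
    have h5 : x.2 ∈ I2 := by
      rw [hI2, Finset.mem_Ico]
      exact (ediv_eq_iff hK').1 (congrArg Prod.snd h2)
    rw [lt_norm_iff] at h3
    rw [Finset.mem_union, Finset.mem_product, Finset.mem_product, Finset.mem_filter,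
      Finset.mem_filter]
    rcases h3 with h3 | h3
    · left
      exact ⟨⟨h4, h3⟩, h5⟩
    · right
      exact ⟨h4, h5, h3⟩
  have hle := (Finset.card_le_card hsub).trans (Finset.card_union_le _ _)
  rw [Finset.card_product, Finset.card_product, c1, c2] at hle
  have k1 := card_one hρ a.1
  have k2 := card_one hρ a.2
  have hle' : (((cells (2 * h * t)).filter fun x => par (2 * h) x = a ∧
      ρ < ‖x - ctr h a‖).card : ℝ)
      ≤ ((I1.filter fun u : ℤ => ρ < |((u - (2 * a.1 + 1) * h : ℤ) : ℝ)|).card : ℝ) * (2 * h)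
        + (2 * h) * ((I2.filter fun u : ℤ => ρ < |((u - (2 * a.2 + 1) * h : ℤ) : ℝ)|).card : ℝ) := by
    exact_mod_cast hle
  have hh' : (0 : ℝ) ≤ 2 * (h : ℝ) := by positivity
  have m1 := mul_le_mul_of_nonneg_right k1 hh'
  have m2 := mul_le_mul_of_nonneg_left k2 hh'
  linarith

/-- the bad points -/
lemma card_bad {h t : ℕ} (hh : 0 < h) {ρ : ℝ} (hρ : ρ ≤ h) :
    (((cells (2 * h * t)).filter fun x => ρ < ‖x - ctr h (par (2 * h) x)‖).card : ℝ)
      ≤ 60 * t ^ 2 * (4 * h * (2 * (h - ρ) + 1)) := by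
  have hK : 0 < 2 * h := by omega
  rw [Finset.card_eq_sum_card_fiberwise (f := par (2 * h)) (t := cells t)]
  · push_cast
    have : ∀ a ∈ cells t, ((((cells (2 * h * t)).filter fun x =>
        ρ < ‖x - ctr h (par (2 * h) x)‖).filter fun x => par (2 * h) x = a).card : ℝ)
        ≤ 4 * h * (2 * (h - ρ) + 1) := by
      intro a _
      refine le_trans ?_ (card_cell_bad (t := t) hh hρ a)
      apply Nat.cast_le.2
      apply Finset.card_le_card
      intro x hx
      rw [Finset.mem_filter, Finset.mem_filter] at hx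
      rw [Finset.mem_filter]
      obtain ⟨⟨h1, h2⟩, h3⟩ := hx
      rw [h3] at h2
      exact ⟨h1, h3, h2⟩
    refine (Finset.sum_le_sum this).trans ?_
    rw [Finset.sum_const, card_cells, nsmul_eq_mul]
    push_cast
    exact le_rfl
  · intro x hx
    exact par_mem hK (Finset.mem_filter.1 hx).1

/-- points of the annulus -/
lemma mem_annulus {R : ℕ} {x : ℤ × ℤ} (h1 : (R : ℝ) < ‖x‖) (h2 : ‖x‖ < 4 * R) :
    x ∈ cells R := by
  rw [mem_cells]
  rw [lt_norm_iff] at h1
  rw [norm_lt_iff, abs_lt, abs_lt] at h2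
  obtain ⟨⟨a1, a2⟩, a3, a4⟩ := h2
  have b1 : -(4 * (R : ℤ)) < x.1 := by exact_mod_cast a1
  have b2 : x.1 < 4 * (R : ℤ) := by exact_mod_cast a2
  have b3 : -(4 * (R : ℤ)) < x.2 := by exact_mod_cast a3
  have b4 : x.2 < 4 * (R : ℤ) := by exact_mod_cast a4
  refine ⟨⟨⟨by linarith, b2⟩, by linarith, b4⟩, ?_⟩
  rintro ⟨⟨g1, g2⟩, g3, g4⟩
  rcases h1 with h1 | h1
  · have : (R : ℤ) < |x.1| := by exact_mod_cast h1
    rcases lt_abs.1 this with h | h <;> linarith
  · have : (R : ℤ) < |x.2| := by exact_mod_cast h1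
    rcases lt_abs.1 this with h | h <;> linarith

/-- where the cutoff varies -/
lemma psi_ne {R s : ℕ} (hR : 0 < R) (hs : 2 * s ≤ R) {x y : ℤ × ℤ} (hxy : ‖x - y‖ ≤ s)
    (hne : psi R x ≠ psi R y) : x ∈ cells R := by
  have hR' : (0 : ℝ) < (R : ℝ) := by exact_mod_cast hR
  have hs' : 2 * (s : ℝ) ≤ R := by exact_mod_cast hs
  have t1 : ‖y‖ ≤ ‖x‖ + ‖x - y‖ := by
    have := norm_sub_le x (x - y)
    rwa [sub_sub_cancel] at this
  have t2 : ‖x‖ ≤ ‖y‖ + ‖x - y‖ := by
    have := norm_add_le y (x - y)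
    rwa [add_sub_cancel] at this
  apply mem_annulus
  · by_contra hc
    apply hne
    rw [psi_one hR (x := x), psi_one hR (x := y)]
    · linarith
    · linarith
  · by_contra hc
    apply hne
    rw [psi_zero (x := x), psi_zero (x := y)]
    · linarith
    · linarith

/-- off the bad points the plateau functions sum up to one -/
lemma pl_one {θ : ℝ} (hθ : 0 < θ) {s h t : ℕ} (hh : 0 < h) {x : ℤ × ℤ}
    (hx : x ∈ cells (2 * h * t)) (h1 : ‖x - ctr h (par (2 * h) x)‖ ≤ (h : ℝ) - s - θ * h) :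
    pl θ s h t x = 1 := by
  apply le_antisymm (pl_mem hθ s h t x).2
  have hm := par_mem (K := 2 * h) (by omega) hx
  have h2 : plat θ s h (par (2 * h) x) x = 1 := by
    apply plat_one hθ hh
    linarith
  unfold pl
  rw [← h2]
  exact Finset.single_le_sum (f := fun a => plat θ s h a x) (fun a _ => (plat_mem a x).1) hm

/-- the contribution of the layers between the plateaus -/
lemma layer_sum {c : V → V → ℝ} {pos : V → ℤ × ℤ} {s R : ℕ} {M : ℝ} (hG : Geo c pos s R M)
    {h t : ℕ} (hh : 0 < h) (hR : R = 2 * h * t) (hR0 : 0 < R) (hs : 2 * s ≤ R)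
    {θ : ℝ} (hθ : 0 < θ) (hθ1 : θ ≤ 1) :
    ∑ i, ∑ k, |c i k| * ((psi R (pos i) - psi R (pos k)) ^ 2
      * (1 - ∑ a ∈ cells t, mid (fun j => plat θ s h a (pos j)) i k))
      ≤ 128 * M * (θ + ((s : ℝ) + 1) / h) := by
  classical
  have hR' : (0 : ℝ) < (R : ℝ) := by exact_mod_cast hR0
  have hh' : (0 : ℝ) < (h : ℝ) := by exact_mod_cast hh
  have hs0 : (0 : ℝ) ≤ (s : ℝ) := Nat.cast_nonneg s
  set ρ : ℝ := (h : ℝ) - s - θ * h with hρ
  have hρh : ρ ≤ h := by
    have := mul_pos hθ hh'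
    rw [hρ]; linarith
  set Bad := Finset.univ.filter fun i : V => pos i ∈ (cells R).filter
    fun x => ρ < ‖x - ctr h (par (2 * h) x)‖ with hBad
  -- number of bad sites
  have hcard : (Bad.card : ℝ) ≤ 60 * t ^ 2 * (4 * h * (2 * (h - ρ) + 1)) := by
    refine le_trans ?_ (card_bad (t := t) hh hρh)
    apply Nat.cast_le.2
    rw [← hR]
    apply Finset.card_le_card_of_injOn pos
    · intro i hi
      rw [Finset.mem_coe, hBad, Finset.mem_filter] at hi
      exact hi.2
    · intro i hi k _ hik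
      rw [Finset.mem_coe, hBad, Finset.mem_filter] at hi
      apply hG.inj i k _ hik
      have h1 := (Finset.mem_filter.1 hi.2).1
      rw [mem_cells] at h1
      obtain ⟨⟨⟨a1, a2⟩, a3, a4⟩, _⟩ := h1
      have b1 : -4 * (R : ℝ) ≤ (pos i).1 := by exact_mod_cast a1
      have b2 : ((pos i).1 : ℝ) < 4 * R := by exact_mod_cast a2
      have b3 : -4 * (R : ℝ) ≤ (pos i).2 := by exact_mod_cast a3
      have b4 : ((pos i).2 : ℝ) < 4 * R := by exact_mod_cast a4
      rw [norm_le_iff', abs_le, abs_le]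
      refine ⟨⟨?_, ?_⟩, ?_, ?_⟩ <;> linarith
  -- pointwise bound
  have hpt : ∀ i k : V, ‖pos i - pos k‖ ≤ s →
      (psi R (pos i) - psi R (pos k)) ^ 2 * (1 - pl θ s h t (pos i))
      ≤ (if i ∈ Bad then 1 else 0) * (1 / (R : ℝ) ^ 2 * ‖pos i - pos k‖ ^ 2) := by
    intro i k hrange
    have hlip : (psi R (pos i) - psi R (pos k)) ^ 2 ≤ 1 / (R : ℝ) ^ 2 * ‖pos i - pos k‖ ^ 2 := by
      have h1 := psi_lip hR0 (pos i) (pos k)
      have h2 := pow_le_pow_left₀ (abs_nonneg _) h1 2
      rw [sq_abs, mul_pow, div_pow, one_pow] at h2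
      exact h2
    have hp := pl_mem hθ s h t (pos i)
    by_cases hi : i ∈ Bad
    · rw [if_pos hi, one_mul]
      calc _ ≤ (psi R (pos i) - psi R (pos k)) ^ 2 * 1 := by
            apply mul_le_mul_of_nonneg_left _ (sq_nonneg _)
            linarith [hp.1]
        _ ≤ _ := by rw [mul_one]; exact hlip
    · rw [if_neg hi, zero_mul]
      by_cases he : psi R (pos i) = psi R (pos k)
      · rw [he, sub_self]; simp
      · have hm := psi_ne hR0 hs hrange he
        have h1 : ‖pos i - ctr h (par (2 * h) (pos i))‖ ≤ (h : ℝ) - s - θ * h := by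
          by_contra hc'
          apply hi
          rw [hBad, Finset.mem_filter, Finset.mem_filter]
          exact ⟨Finset.mem_univ _, hm, not_le.1 hc'⟩
        rw [hR] at hm
        rw [pl_one hθ hh hm h1]
        simp
  -- one half
  have hhalf : ∀ d : V → V → ℝ, (∀ i k, d i k ≠ 0 → ‖pos i - pos k‖ ≤ s) →
      (∀ i, ∑ k, |d i k| * ‖pos i - pos k‖ ^ 2 ≤ M) →
      ∑ i, ∑ k, |d i k| * ((psi R (pos i) - psi R (pos k)) ^ 2 * (1 - pl θ s h t (pos i)))
        ≤ Bad.card * (M / (R : ℝ) ^ 2) := by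
    intro d hrange hrow
    calc ∑ i, ∑ k, |d i k| * ((psi R (pos i) - psi R (pos k)) ^ 2 * (1 - pl θ s h t (pos i)))
        ≤ ∑ i, (if i ∈ Bad then 1 else 0) * (M / (R : ℝ) ^ 2) := by
          apply Finset.sum_le_sum
          intro i _
          calc ∑ k, |d i k| * ((psi R (pos i) - psi R (pos k)) ^ 2 * (1 - pl θ s h t (pos i)))
              ≤ ∑ k, |d i k| * ((if i ∈ Bad then 1 else 0)
                  * (1 / (R : ℝ) ^ 2 * ‖pos i - pos k‖ ^ 2)) := by
                apply Finset.sum_le_sum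
                intro k _
                by_cases hd : d i k = 0
                · rw [hd]; simp
                · exact mul_le_mul_of_nonneg_left (hpt i k (hrange i k hd)) (abs_nonneg _)
            _ = (if i ∈ Bad then 1 else 0) * (1 / (R : ℝ) ^ 2
                  * ∑ k, |d i k| * ‖pos i - pos k‖ ^ 2) := by
                rw [Finset.mul_sum, Finset.mul_sum]
                exact Finset.sum_congr rfl fun k _ => by ring
            _ ≤ (if i ∈ Bad then 1 else 0) * (M / (R : ℝ) ^ 2) := by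
                apply mul_le_mul_of_nonneg_left
                · have e : M / (R : ℝ) ^ 2 = 1 / (R : ℝ) ^ 2 * M := by ring
                  rw [e]
                  exact mul_le_mul_of_nonneg_left (hrow i) (by positivity)
                · split_ifs <;> norm_num
      _ = Bad.card * (M / (R : ℝ) ^ 2) := by
          rw [← Finset.sum_mul]
          congr 1
          rw [Finset.sum_ite_mem, Finset.univ_inter]
          simp
  have hA := hhalf c hG.range hG.row
  have hB := hhalf (fun i k => c k i)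
    (fun i k hc => by rw [norm_sub_rev]; exact hG.range k i hc) (fun i => by
      have := hG.col i
      exact this)
  have hB' : ∑ i, ∑ k, |c i k| * ((psi R (pos i) - psi R (pos k)) ^ 2
      * (1 - pl θ s h t (pos k))) ≤ Bad.card * (M / (R : ℝ) ^ 2) := by
    rw [Finset.sum_comm]
    refine le_trans (le_of_eq ?_) hB
    apply Finset.sum_congr rfl
    intro i _
    apply Finset.sum_congr rfl
    intro k _
    ring
  have hsum : ∑ i, ∑ k, |c i k| * ((psi R (pos i) - psi R (pos k)) ^ 2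
      * (1 - ∑ a ∈ cells t, mid (fun j => plat θ s h a (pos j)) i k))
      = 1 / 2 * (∑ i, ∑ k, |c i k| * ((psi R (pos i) - psi R (pos k)) ^ 2
          * (1 - pl θ s h t (pos i)))
        + ∑ i, ∑ k, |c i k| * ((psi R (pos i) - psi R (pos k)) ^ 2
          * (1 - pl θ s h t (pos k)))) := by
    rw [← Finset.sum_add_distrib, Finset.mul_sum]
    apply Finset.sum_congr rfl
    intro i _
    rw [← Finset.sum_add_distrib, Finset.mul_sum]
    apply Finset.sum_congr rfl
    intro k _
    rw [mid_sum_eq]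
    ring
  have hM := hG.nonneg
  have hRR : (R : ℝ) = 2 * h * t := by rw [hR]; push_cast; ring
  have ht : (0 : ℝ) < t := by
    have : 0 < t := by
      rcases Nat.eq_zero_or_pos t with h0 | h0
      · rw [h0, mul_zero] at hR; omega
      · exact h0
    exact_mod_cast this
  calc _ ≤ Bad.card * (M / (R : ℝ) ^ 2) := by rw [hsum]; linarith
    _ ≤ (60 * t ^ 2 * (4 * h * (2 * (h - ρ) + 1))) * (M / (R : ℝ) ^ 2) :=
        mul_le_mul_of_nonneg_right hcard (by positivity)
    _ = 60 * M * (2 * θ + (2 * s + 1) / h) := by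
        rw [hRR, hρ]
        field_simp
        ring
    _ ≤ 128 * M * (θ + ((s : ℝ) + 1) / h) := by
        have e1 : (2 * (s : ℝ) + 1) / h ≤ 2 * (((s : ℝ) + 1) / h) := by
          rw [← mul_div_assoc]
          apply div_le_div_of_nonneg_right _ hh'.le
          linarith
        have e2 : (0 : ℝ) ≤ ((s : ℝ) + 1) / h := by positivity
        have e3 : 60 * M * (2 * θ + (2 * s + 1) / h)
            ≤ 60 * M * (2 * θ + 2 * (((s : ℝ) + 1) / h)) := by
          apply mul_le_mul_of_nonneg_left _ (by positivity)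
          linarith
        have e4 : 0 ≤ M * (θ + ((s : ℝ) + 1) / h) := by positivity
        linarith

end

end Pool.Agent.NVec.Full
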