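import Pool.Agent.H.MP_8be4c0_mp.Full.Ward2

/-!
Moment bounds for currents.
-/

open MeasureTheory Set Filter Topology

namespace Pool.Agent.NVec.Full

set_option linter.unusedSectionVars false

noncomputable section

variable {n : ℕ} {V : Type} [Fintype V] [DecidableEq V]

/-! ### pointwise bounds -/

lemma abs_Qab_le {a b : Fin (n + 2)} (h : a ≠ b) (u v : Spin (n + 2)) :
    |Qab a b (u : EuclideanSpace ℝ (Fin (n + 2))) v| ≤ 1 := by
  have h1 := sq_add_sq_le h u
  have h2 := sq_add_sq_le h v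
  unfold Qab
  set x := (u : EuclideanSpace ℝ (Fin (n + 2))) a
  set y := (u : EuclideanSpace ℝ (Fin (n + 2))) b
  set z := (v : EuclideanSpace ℝ (Fin (n + 2))) a
  set w := (v : EuclideanSpace ℝ (Fin (n + 2))) b
  rw [abs_le]
  constructor
  · nlinarith [sq_nonneg (x + w), sq_nonneg (y - z)]
  · nlinarith [sq_nonneg (x - w), sq_nonneg (y + z)]

lemma abs_Pab_le {a b : Fin (n + 2)} (h : a ≠ b) (u v : Spin (n + 2)) :
    |Pab a b (u : EuclideanSpace ℝ (Fin (n + 2))) v| ≤ 1 := by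
  have h1 := sq_add_sq_le h u
  have h2 := sq_add_sq_le h v
  unfold Pab
  set x := (u : EuclideanSpace ℝ (Fin (n + 2))) a
  set y := (u : EuclideanSpace ℝ (Fin (n + 2))) b
  set z := (v : EuclideanSpace ℝ (Fin (n + 2))) a
  set w := (v : EuclideanSpace ℝ (Fin (n + 2))) b
  rw [abs_le]
  constructor
  · nlinarith [sq_nonneg (x + z), sq_nonneg (y + w)]
  · nlinarith [sq_nonneg (x - z), sq_nonneg (y - w)]

lemma abs_Sab_le {a b : Fin (n + 2)} (h : a ≠ b) (u v : Spin (n + 2)) :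
    |Sab a b (u : EuclideanSpace ℝ (Fin (n + 2))) v| ≤ 1 := by
  have h1 := sq_add_sq_le h u
  have h2 := sq_add_sq_le h v
  unfold Sab
  set x := (u : EuclideanSpace ℝ (Fin (n + 2))) a
  set y := (u : EuclideanSpace ℝ (Fin (n + 2))) b
  set z := (v : EuclideanSpace ℝ (Fin (n + 2))) a
  set w := (v : EuclideanSpace ℝ (Fin (n + 2))) b
  rw [abs_le]
  constructor
  · nlinarith [sq_nonneg (x + w), sq_nonneg (y + z)]
  · nlinarith [sq_nonneg (x - w), sq_nonneg (y - z)]

/-! elementary inequalities -/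

lemma one_sub_cos_le (d : ℝ) : 1 - Real.cos d ≤ d ^ 2 / 2 := by
  have := Real.one_sub_sq_div_two_le_cos (x := d)
  linarith

lemma one_sub_cos_nonneg (d : ℝ) : 0 ≤ 1 - Real.cos d := by
  have := Real.cos_le_one d
  linarith

lemma abs_sub_sin_le (d : ℝ) : |d - Real.sin d| ≤ d ^ 2 / 2 := by
  -- it suffices to treat `d ≥ 0`
  have key : ∀ x : ℝ, 0 ≤ x → |x - Real.sin x| ≤ x ^ 2 / 2 := by
    intro x hx
    rw [abs_of_nonneg (sub_nonneg.2 (Real.sin_le hx))]
    -- g x = x^2/2 - x + sin x is monotone on [0,∞)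
    have hmono : MonotoneOn (fun y : ℝ => y ^ 2 / 2 - y + Real.sin y) (Ici 0) := by
      apply monotoneOn_of_deriv_nonneg (convex_Ici 0)
      · fun_prop
      · fun_prop
      · intro y hy
        rw [interior_Ici] at hy
        have hd : HasDerivAt (fun y : ℝ => y ^ 2 / 2 - y + Real.sin y) (y - 1 + Real.cos y) y := by
          have h1 : HasDerivAt (fun y : ℝ => y ^ 2 / 2) y y := by
            have := (hasDerivAt_pow 2 y).div_const 2
            simpa using this
          exact (h1.sub (hasDerivAt_id y)).add (Real.hasDerivAt_sin y)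
        rw [hd.deriv]
        have hy' : (0 : ℝ) < y := hy
        -- 1 - cos y ≤ y
        have : 1 - Real.cos y ≤ y := by
          by_cases h2 : y ≤ 2
          · have := one_sub_cos_le y
            nlinarith
          · have := Real.neg_one_le_cos y
            linarith
        linarith
    have := hmono (mem_Ici.2 le_rfl) (mem_Ici.2 hx) hx
    simp only [Real.sin_zero] at this
    linarith
  rcases le_total 0 d with h | h
  · exact key d h
  · have := key (-d) (by linarith)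
    rw [Real.sin_neg] at this
    have e : -d - -Real.sin d = -(d - Real.sin d) := by ring
    rw [e, abs_neg] at this
    simpa using this

lemma abs_sin_le (d : ℝ) : |Real.sin d| ≤ |d| := by
  rcases le_total 0 d with h | h
  · rw [abs_of_nonneg h, abs_le]
    constructor
    · rcases le_total d Real.pi with h' | h'
      · have := Real.sin_nonneg_of_nonneg_of_le_pi h h'
        linarith
      · have := Real.neg_one_le_sin d
        have := Real.pi_gt_three
        linarith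
    · exact Real.sin_le h
  · have h0 : 0 ≤ -d := by linarith
    rw [abs_of_nonpos h, abs_le]
    constructor
    · have := Real.sin_le h0
      rw [Real.sin_neg] at this
      linarith
    · rcases le_total (-d) Real.pi with h' | h'
      · have := Real.sin_nonneg_of_nonneg_of_le_pi h0 h'
        rw [Real.sin_neg] at this
        linarith
      · have := Real.sin_le_one d
        have := Real.pi_gt_three
        linarith

lemma abs_sin_sub_sin_le (x y : ℝ) : |Real.sin x - Real.sin y| ≤ |x - y| := by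
  rw [Real.sin_sub_sin, abs_mul, abs_mul]
  have h1 := abs_sin_le ((x - y) / 2)
  have h2 := Real.abs_cos_le_one ((x + y) / 2)
  rw [abs_div] at h1
  have h3 : |(2 : ℝ)| = 2 := by norm_num
  rw [h3] at h1 ⊢
  have h4 : 0 ≤ |Real.sin ((x - y) / 2)| := abs_nonneg _
  have h5 : 0 ≤ |Real.cos ((x + y) / 2)| := abs_nonneg _
  nlinarith


lemma En_nonneg (c : V → V → ℝ) (χ : V → ℝ) : 0 ≤ En c χ :=
  Finset.sum_nonneg fun _ _ => Finset.sum_nonneg fun _ _ => mul_nonneg (abs_nonneg _) (sq_nonneg _)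

lemma En_smul (c : V → V → ℝ) (t : ℝ) (χ : V → ℝ) : En c (fun i => t * χ i) = t ^ 2 * En c χ := by
  unfold En
  rw [Finset.mul_sum]
  refine Finset.sum_congr rfl fun i _ => ?_
  rw [Finset.mul_sum]
  refine Finset.sum_congr rfl fun k _ => ?_
  ring

lemma En_neg (c : V → V → ℝ) (χ : V → ℝ) : En c (fun i => -χ i) = En c χ := by
  unfold En
  refine Finset.sum_congr rfl fun i _ => Finset.sum_congr rfl fun k _ => ?_
  ring

lemma Yv_mul_left (c : V → V → ℝ) (a b : Fin (n + 2)) (v : V → V → ℝ) (t : ℝ)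
    (S : V → Spin (n + 2)) : Yv c a b (fun i k => t * v i k) S = t * Yv c a b v S := by
  unfold Yv
  rw [Finset.mul_sum]
  refine Finset.sum_congr rfl fun i _ => ?_
  rw [Finset.mul_sum]
  refine Finset.sum_congr rfl fun k _ => ?_
  ring

/-- change of the energy under a rotation -/
lemma W_rho_one (c : V → V → ℝ) {a b : Fin (n + 2)} (h : a ≠ b) (ω : V → ℝ)
    (S : V → Spin (n + 2)) :
    W c 0 (rho h ω S) - W c 0 S = ∑ i, ∑ k, c i k
      * ((Real.cos (ω i - ω k) - 1) * Pab a b (S i) (S k)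
      + Real.sin (ω i - ω k) * Qab a b (S i) (S k)) := by
  have h1 := W_rho c h ω 1 S
  simp only [one_mul] at h1
  rw [h1]
  unfold Wr
  simp only [one_mul]

/-- pointwise form of (M1) -/
lemma Yv_grad_le (c : V → V → ℝ) {a b : Fin (n + 2)} (h : a ≠ b) (χ : V → ℝ)
    (S : V → Spin (n + 2)) :
    Yv c a b (gr χ) S ≤ (W c 0 (rho h χ S) - W c 0 S) + En c χ := by
  rw [W_rho_one]
  unfold Yv En gr
  rw [← Finset.sum_add_distrib]
  refine Finset.sum_le_sum fun i _ => ?_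
  rw [← Finset.sum_add_distrib]
  refine Finset.sum_le_sum fun k _ => ?_
  set d := χ i - χ k
  have h1 := abs_Qab_le h (S i) (S k)
  have h2 := abs_Pab_le h (S i) (S k)
  set q := Qab a b (S i : EuclideanSpace ℝ (Fin (n + 2))) (S k)
  set p := Pab a b (S i : EuclideanSpace ℝ (Fin (n + 2))) (S k)
  have h3 : |(1 - Real.cos d) * p + (d - Real.sin d) * q| ≤ d ^ 2 := by
    calc |(1 - Real.cos d) * p + (d - Real.sin d) * q|
        ≤ |(1 - Real.cos d) * p| + |(d - Real.sin d) * q| := abs_add_le _ _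
      _ = (1 - Real.cos d) * |p| + |d - Real.sin d| * |q| := by
          rw [abs_mul, abs_mul, abs_of_nonneg (one_sub_cos_nonneg d)]
      _ ≤ (1 - Real.cos d) * 1 + |d - Real.sin d| * 1 :=
          add_le_add (mul_le_mul_of_nonneg_left h2 (one_sub_cos_nonneg d))
            (mul_le_mul_of_nonneg_left h1 (abs_nonneg _))
      _ ≤ d ^ 2 := by
          have := one_sub_cos_le d
          have := abs_sub_sin_le d
          linarith
  have h4 : c i k * ((1 - Real.cos d) * p + (d - Real.sin d) * q) ≤ |c i k| * d ^ 2 := by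
    calc c i k * ((1 - Real.cos d) * p + (d - Real.sin d) * q)
        ≤ |c i k * ((1 - Real.cos d) * p + (d - Real.sin d) * q)| := le_abs_self _
      _ = |c i k| * |(1 - Real.cos d) * p + (d - Real.sin d) * q| := abs_mul _ _
      _ ≤ |c i k| * d ^ 2 := mul_le_mul_of_nonneg_left h3 (abs_nonneg _)
  linarith

/-- the wedge `(p,r)` after a rotation in the plane `(r,q)` -/
lemma Qab_rotFun {p r q : Fin (n + 2)} (hpr : p ≠ r) (hpq : p ≠ q) (x y : ℝ)
    (u v : EuclideanSpace ℝ (Fin (n + 2))) :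
    Qab p r (rotFun r q x u) (rotFun r q y v)
      = (Real.cos y * (u p * v r) - Real.cos x * (u r * v p))
        - ((Real.sin x + Real.sin y) / 2 * Qab p q u v
          + (Real.sin y - Real.sin x) / 2 * Sab p q u v) := by
  unfold Qab Sab
  rw [rotFun_p, rotFun_p, rotFun_r hpr hpq, rotFun_r hpr hpq]
  ring

/-- the estimate on one edge -/
lemma ng_edge (cc dχ dφ fi fk PA1 PA2 PB QB QC sC X Z ck ci : ℝ)
    (hP1 : |PA1| ≤ 1) (hP2 : |PA2| ≤ 1) (hPB : |PB| ≤ 1) (hQC : |QC| ≤ 1) (hsC : |sC| ≤ 1)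
    (hdf : |fk - fi| ≤ |dφ|) (hfi : |fi| ≤ 1) (hfk : |fk| ≤ 1) :
    -(cc * ((fi + fk) / 2 * dχ * QC)) ≤
      ((cc * ((Real.cos dχ - 1) * PA1
        + Real.sin dχ * (ck * X - ci * Z - ((fi + fk) / 2 * QC + (fk - fi) / 2 * sC)))
        + cc * ((Real.cos dφ - 1) * PB + Real.sin dφ * QB))
      + (cc * ((Real.cos dχ - 1) * PA2
        + -Real.sin dχ * (ck * X - ci * Z
          - ((-fi + -fk) / 2 * QC + (-fk - -fi) / 2 * sC)))
        + cc * ((Real.cos dφ - 1) * PB + -Real.sin dφ * QB))) / 2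
      + 2 * (|cc| * dχ ^ 2) + 2 * (|cc| * dφ ^ 2) := by
  have hs := abs_sin_le dχ
  have hds := abs_sub_sin_le dχ
  have hfb : |(fi + fk) / 2| ≤ 1 := by
    rw [abs_le] at hfi hfk ⊢
    constructor <;> linarith [hfi.1, hfi.2, hfk.1, hfk.2]
  obtain ⟨fb, hfbd⟩ : ∃ fb, fb = (fi + fk) / 2 := ⟨_, rfl⟩
  obtain ⟨df, hdfd⟩ : ∃ df, df = fk - fi := ⟨_, rfl⟩
  rw [← hfbd] at hfb
  rw [← hdfd] at hdf
  have a1 : |(1 - Real.cos dφ) * PB| ≤ dφ ^ 2 / 2 := by
    rw [abs_mul, abs_of_nonneg (one_sub_cos_nonneg dφ)]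
    calc (1 - Real.cos dφ) * |PB| ≤ (1 - Real.cos dφ) * 1 :=
          mul_le_mul_of_nonneg_left hPB (one_sub_cos_nonneg dφ)
      _ ≤ dφ ^ 2 / 2 := by have := one_sub_cos_le dφ; linarith
  have a2 : |(1 - Real.cos dχ) * ((PA1 + PA2) / 2)| ≤ dχ ^ 2 / 2 := by
    rw [abs_mul, abs_of_nonneg (one_sub_cos_nonneg dχ)]
    have : |(PA1 + PA2) / 2| ≤ 1 := by
      rw [abs_le] at hP1 hP2 ⊢
      constructor <;> linarith [hP1.1, hP1.2, hP2.1, hP2.2]
    calc (1 - Real.cos dχ) * |(PA1 + PA2) / 2| ≤ (1 - Real.cos dχ) * 1 :=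
          mul_le_mul_of_nonneg_left this (one_sub_cos_nonneg dχ)
      _ ≤ dχ ^ 2 / 2 := by have := one_sub_cos_le dχ; linarith
  have a3 : |Real.sin dχ * (df / 2 * sC)| ≤ (dχ ^ 2 + dφ ^ 2) / 4 := by
    rw [abs_mul, abs_mul, abs_div]
    have h2 : |(2 : ℝ)| = 2 := by norm_num
    rw [h2]
    have h3 : |df| / 2 * |sC| ≤ |dφ| / 2 := by
      have h0 : 0 ≤ |df| / 2 := by positivity
      calc |df| / 2 * |sC| ≤ |df| / 2 * 1 := mul_le_mul_of_nonneg_left hsC h0
        _ ≤ |dφ| / 2 := by linarith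
    calc |Real.sin dχ| * (|df| / 2 * |sC|) ≤ |dχ| * (|dφ| / 2) :=
          mul_le_mul hs h3 (by positivity) (abs_nonneg _)
      _ ≤ (dχ ^ 2 + dφ ^ 2) / 4 := by
          rw [← sq_abs dχ, ← sq_abs dφ]
          nlinarith [sq_nonneg (|dχ| - |dφ|)]
  have a4 : |(dχ - Real.sin dχ) * (fb * QC)| ≤ dχ ^ 2 / 2 := by
    rw [abs_mul, abs_mul]
    have h3 : |fb| * |QC| ≤ 1 := by
      calc |fb| * |QC| ≤ 1 * 1 := mul_le_mul hfb hQC (abs_nonneg _) zero_le_one
        _ = 1 := one_mul 1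
    calc |dχ - Real.sin dχ| * (|fb| * |QC|) ≤ |dχ - Real.sin dχ| * 1 :=
          mul_le_mul_of_nonneg_left h3 (abs_nonneg _)
      _ ≤ dχ ^ 2 / 2 := by linarith
  have hE : |(1 - Real.cos dφ) * PB + (1 - Real.cos dχ) * ((PA1 + PA2) / 2)
      + Real.sin dχ * (df / 2 * sC) - (dχ - Real.sin dχ) * (fb * QC)|
      ≤ 2 * dχ ^ 2 + 2 * dφ ^ 2 := by
    have b1 := abs_sub ((1 - Real.cos dφ) * PB + (1 - Real.cos dχ) * ((PA1 + PA2) / 2)
      + Real.sin dχ * (df / 2 * sC)) ((dχ - Real.sin dχ) * (fb * QC))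
    have b2 := abs_add_le ((1 - Real.cos dφ) * PB + (1 - Real.cos dχ) * ((PA1 + PA2) / 2))
      (Real.sin dχ * (df / 2 * sC))
    have b3 := abs_add_le ((1 - Real.cos dφ) * PB) ((1 - Real.cos dχ) * ((PA1 + PA2) / 2))
    have := sq_nonneg dχ
    have := sq_nonneg dφ
    linarith
  have hE2 : cc * ((1 - Real.cos dφ) * PB + (1 - Real.cos dχ) * ((PA1 + PA2) / 2)
      + Real.sin dχ * (df / 2 * sC) - (dχ - Real.sin dχ) * (fb * QC))
      ≤ |cc| * (2 * dχ ^ 2 + 2 * dφ ^ 2) := by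
    refine (le_abs_self _).trans ?_
    rw [abs_mul]
    exact mul_le_mul_of_nonneg_left hE (abs_nonneg _)
  have e3 : (-fi + -fk) / 2 = -fb := by rw [hfbd]; ring
  have e4 : (-fk - -fi) / 2 = -(df / 2) := by rw [hdfd]; ring
  rw [e3, e4, ← hfbd, ← hdfd]
  linarith

/-- pointwise form of (NG) -/
lemma ng_point (c : V → V → ℝ) {p r q : Fin (n + 2)} (hpr : p ≠ r) (hrq : r ≠ q) (hpq : p ≠ q)
    (χ φ : V → ℝ) (S : V → Spin (n + 2)) :
    -Yv c p q (fun i k => mid (fun j => Real.sin (φ j)) i k * gr χ i k) S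
      ≤ ((W c 0 (rho hpr χ (rho hrq φ S)) - W c 0 S)
        + (W c 0 (rho hpr (fun i => -χ i) (rho hrq (fun i => -φ i) S)) - W c 0 S)) / 2
        + 2 * En c χ + 2 * En c φ := by
  have e1 : W c 0 (rho hpr χ (rho hrq φ S)) - W c 0 S
      = (W c 0 (rho hpr χ (rho hrq φ S)) - W c 0 (rho hrq φ S))
        + (W c 0 (rho hrq φ S) - W c 0 S) := by ring
  have e2 : W c 0 (rho hpr (fun i => -χ i) (rho hrq (fun i => -φ i) S)) - W c 0 S
      = (W c 0 (rho hpr (fun i => -χ i) (rho hrq (fun i => -φ i) S))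
        - W c 0 (rho hrq (fun i => -φ i) S))
        + (W c 0 (rho hrq (fun i => -φ i) S) - W c 0 S) := by ring
  rw [e1, e2, W_rho_one, W_rho_one, W_rho_one, W_rho_one]
  unfold Yv En mid gr
  rw [← Finset.sum_neg_distrib, ← Finset.sum_add_distrib, ← Finset.sum_add_distrib,
    ← Finset.sum_add_distrib, Finset.sum_div, Finset.mul_sum, Finset.mul_sum,
    ← Finset.sum_add_distrib, ← Finset.sum_add_distrib]
  refine Finset.sum_le_sum fun i _ => ?_
  rw [← Finset.sum_neg_distrib, ← Finset.sum_add_distrib, ← Finset.sum_add_distrib,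
    ← Finset.sum_add_distrib, Finset.sum_div, Finset.mul_sum, Finset.mul_sum,
    ← Finset.sum_add_distrib, ← Finset.sum_add_distrib]
  refine Finset.sum_le_sum fun k _ => ?_
  have d1 : -χ i - -χ k = -(χ i - χ k) := by ring
  have d2 : -φ i - -φ k = -(φ i - φ k) := by ring
  have hQ1 : Qab p r (rho hrq φ S i : EuclideanSpace ℝ (Fin (n + 2))) (rho hrq φ S k) = _ :=
    Qab_rotFun hpr hpq (φ i) (φ k) (S i) (S k)
  have hQ2 : Qab p r (rho hrq (fun i => -φ i) S i : EuclideanSpace ℝ (Fin (n + 2)))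
      (rho hrq (fun i => -φ i) S k) = _ :=
    Qab_rotFun hpr hpq (-φ i) (-φ k) (S i) (S k)
  have hdf : |Real.sin (φ k) - Real.sin (φ i)| ≤ |φ i - φ k| := by
    have := abs_sin_sub_sin_le (φ k) (φ i)
    rwa [abs_sub_comm (φ k) (φ i)] at this
  have key := ng_edge (c i k) (χ i - χ k) (φ i - φ k) (Real.sin (φ i)) (Real.sin (φ k))
    (Pab p r (rho hrq φ S i : EuclideanSpace ℝ (Fin (n + 2))) (rho hrq φ S k))
    (Pab p r (rho hrq (fun i => -φ i) S i : EuclideanSpace ℝ (Fin (n + 2)))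
      (rho hrq (fun i => -φ i) S k))
    (Pab r q (S i : EuclideanSpace ℝ (Fin (n + 2))) (S k))
    (Qab r q (S i : EuclideanSpace ℝ (Fin (n + 2))) (S k))
    (Qab p q (S i : EuclideanSpace ℝ (Fin (n + 2))) (S k))
    (Sab p q (S i : EuclideanSpace ℝ (Fin (n + 2))) (S k))
    ((S i : EuclideanSpace ℝ (Fin (n + 2))) p * (S k : EuclideanSpace ℝ (Fin (n + 2))) r)
    ((S i : EuclideanSpace ℝ (Fin (n + 2))) r * (S k : EuclideanSpace ℝ (Fin (n + 2))) p)
    (Real.cos (φ k)) (Real.cos (φ i))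
    (abs_Pab_le hpr _ _) (abs_Pab_le hpr _ _) (abs_Pab_le hrq _ _) (abs_Qab_le hpq _ _)
    (abs_Sab_le hpq _ _) hdf (Real.abs_sin_le_one _) (Real.abs_sin_le_one _)
  simp only [d1, d2, Real.cos_neg, Real.sin_neg] at hQ2 ⊢
  rw [hQ1, hQ2]
  exact key

/-! ### `cosh` -/

/-- the Taylor polynomial of `cosh` -/
lemma cosh_lower (x : ℝ) : 1 + x ^ 2 / 2 + x ^ 4 / 24 ≤ (Real.exp x + Real.exp (-x)) / 2 := by
  rw [← Real.cosh_eq]
  have h := Real.hasSum_cosh x
  have h1 := sum_le_hasSum (Finset.range 3) (fun n _ => by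
    have : 0 ≤ x ^ (2 * n) := by rw [pow_mul]; positivity
    positivity) h
  rw [Finset.sum_range_succ, Finset.sum_range_succ, Finset.sum_range_succ, Finset.sum_range_zero]
    at h1
  norm_num [Nat.factorial] at h1
  linarith


/-! ### integrated bounds -/

/-- if the exponential moments of `tY` and `-tY` are bounded, so are the moments of `Y` -/
lemma moments_of_exp {ν : Measure (V → Spin (n + 2))} [IsFiniteMeasure ν]
    {Y : (V → Spin (n + 2)) → ℝ} (hY : Continuous Y) {t K : ℝ} (ht : 0 < t)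
    (h1 : ∫ S, Real.exp (t * Y S) ∂ν ≤ K) (h2 : ∫ S, Real.exp (-(t * Y S)) ∂ν ≤ K) :
    ∫ S, Y S ^ 2 ∂ν ≤ 2 * K / t ^ 2 ∧ ∫ S, Y S ^ 4 ∂ν ≤ 24 * K / t ^ 4 := by
  have hc1 : Continuous fun S => Real.exp (t * Y S) :=
    Real.continuous_exp.comp (continuous_const.mul hY)
  have hc2 : Continuous fun S => Real.exp (-(t * Y S)) :=
    Real.continuous_exp.comp (continuous_const.mul hY).neg
  constructor
  · have h3 : ∫ S, t ^ 2 * Y S ^ 2 ∂ν ≤ ∫ S, (Real.exp (t * Y S) + Real.exp (-(t * Y S))) ∂ν := by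
      refine integral_mono (ic (continuous_const.mul (hY.pow 2)))
        (ic (hc1.add hc2)) fun S => ?_
      have h4 := cosh_lower (t * Y S)
      have h5 : 0 ≤ (t * Y S) ^ 4 := by positivity
      simp only
      nlinarith
    rw [integral_add (ic hc1) (ic hc2), integral_const_mul] at h3
    rw [le_div_iff₀ (by positivity)]
    linarith
  · have h3 : ∫ S, t ^ 4 * Y S ^ 4 ∂ν
        ≤ ∫ S, 12 * (Real.exp (t * Y S) + Real.exp (-(t * Y S))) ∂ν := by
      refine integral_mono (ic (continuous_const.mul (hY.pow 4)))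
        (ic (continuous_const.mul (hc1.add hc2))) fun S => ?_
      have h4 := cosh_lower (t * Y S)
      have h5 : 0 ≤ (t * Y S) ^ 2 := by positivity
      have h6 : (t * Y S) ^ 4 = t ^ 4 * Y S ^ 4 := by ring
      simp only
      linarith
    rw [integral_const_mul, integral_const_mul, integral_add (ic hc1) (ic hc2)] at h3
    rw [le_div_iff₀ (by positivity)]
    linarith

lemma rho_exp_one {c : V → V → ℝ} {Λ : Finset V} {ν : Measure (V → Spin (n + 2))}
    (hν : Gibbs c Λ ν) {a b : Fin (n + 2)} (h : a ≠ b) {ω : V → ℝ} (hω : ∀ i, i ∉ Λ → ω i = 0) :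
    ∫ S, Real.exp (W c 0 (rho h ω S) - W c 0 S) ∂ν = 1 := by
  have := hν.prob
  have h1 := hν.rho_inv h hω (f := fun _ => 1) continuous_const
  simpa using h1

lemma rho_exp_two {c : V → V → ℝ} {Λ : Finset V} {ν : Measure (V → Spin (n + 2))}
    (hν : Gibbs c Λ ν) {a b a' b' : Fin (n + 2)} (h : a ≠ b) (h' : a' ≠ b')
    {ω ω' : V → ℝ} (hω : ∀ i, i ∉ Λ → ω i = 0) (hω' : ∀ i, i ∉ Λ → ω' i = 0) :
    ∫ S, Real.exp (W c 0 (rho h ω (rho h' ω' S)) - W c 0 S) ∂ν = 1 := by
  have h1 := hν.rho_inv h' hω' (f := fun S => Real.exp (W c 0 (rho h ω S) - W c 0 S))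
    (Real.continuous_exp.comp (((continuous_W c 0).comp (continuous_rho h ω)).sub
      (continuous_W c 0)))
  rw [rho_exp_one hν h hω] at h1
  rw [← h1]
  refine integral_congr_ae (Filter.Eventually.of_forall fun S => ?_)
  simp only
  rw [← Real.exp_add]
  congr 1
  ring

/-- (M1), exponential form -/
lemma exp_current_le {c : V → V → ℝ} {Λ : Finset V} {ν : Measure (V → Spin (n + 2))}
    (hν : Gibbs c Λ ν) {a b : Fin (n + 2)} (h : a ≠ b) {χ : V → ℝ} (hχ : ∀ i, i ∉ Λ → χ i = 0) :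
    ∫ S, Real.exp (Yv c a b (gr χ) S) ∂ν ≤ Real.exp (En c χ) := by
  have := hν.prob
  have hc1 : Continuous fun S : V → Spin (n + 2) =>
      Real.exp (W c 0 (rho h χ S) - W c 0 S) * Real.exp (En c χ) :=
    (Real.continuous_exp.comp (((continuous_W c 0).comp (continuous_rho h χ)).sub
      (continuous_W c 0))).mul continuous_const
  calc ∫ S, Real.exp (Yv c a b (gr χ) S) ∂ν
      ≤ ∫ S, Real.exp (W c 0 (rho h χ S) - W c 0 S) * Real.exp (En c χ) ∂ν := by
        refine integral_mono (ic (Real.continuous_exp.comp (continuous_Yv c a b _)))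
          (ic hc1) fun S => ?_
        simp only
        rw [← Real.exp_add]
        exact Real.exp_le_exp.2 (Yv_grad_le c h χ S)
    _ = Real.exp (En c χ) := by
        rw [integral_mul_const, rho_exp_one hν h hχ, one_mul]

/-- the second moment of a current -/
lemma current_sq_le {c : V → V → ℝ} {Λ : Finset V} {ν : Measure (V → Spin (n + 2))}
    (hν : Gibbs c Λ ν) {a b : Fin (n + 2)} (h : a ≠ b) {χ : V → ℝ} (hχ : ∀ i, i ∉ Λ → χ i = 0) :
    ∫ S, (Yv c a b (gr χ) S) ^ 2 ∂ν ≤ En c χ := by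
  have := hν.prob
  have h1 := ward_C hν h hχ (gr χ)
  have h2 : ∫ S, (Yv c a b (gr χ) S) ^ 2 ∂ν
      = ∫ S, Yv c a b (gr χ) S * Yv c a b (gr χ) S ∂ν := by
    refine integral_congr_ae (Filter.Eventually.of_forall fun S => ?_)
    simp only
    ring
  rw [h2, h1]
  unfold En
  refine Finset.sum_le_sum fun i _ => Finset.sum_le_sum fun k _ => ?_
  have h3 : |∫ S, Pab a b (S i : EuclideanSpace ℝ (Fin (n + 2))) (S k) ∂ν| ≤ 1 := by
    have h4 := norm_integral_le_of_norm_le_const (μ := ν) (C := 1)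
      (f := fun S : V → Spin (n + 2) => Pab a b (S i : EuclideanSpace ℝ (Fin (n + 2))) (S k))
      (Filter.Eventually.of_forall fun S => abs_Pab_le h (S i) (S k))
    simpa [Real.norm_eq_abs] using h4
  unfold gr
  calc c i k * ((χ i - χ k) * (χ i - χ k)
        * ∫ S, Pab a b (S i : EuclideanSpace ℝ (Fin (n + 2))) (S k) ∂ν)
      ≤ |c i k * ((χ i - χ k) * (χ i - χ k)
        * ∫ S, Pab a b (S i : EuclideanSpace ℝ (Fin (n + 2))) (S k) ∂ν)| := le_abs_self _
    _ = |c i k| * (χ i - χ k) ^ 2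
        * |∫ S, Pab a b (S i : EuclideanSpace ℝ (Fin (n + 2))) (S k) ∂ν| := by
        rw [abs_mul, abs_mul, ← pow_two, abs_of_nonneg (sq_nonneg (χ i - χ k))]
        ring
    _ ≤ |c i k| * (χ i - χ k) ^ 2 * 1 :=
        mul_le_mul_of_nonneg_left h3 (mul_nonneg (abs_nonneg _) (sq_nonneg _))
    _ = _ := by ring

lemma gr_smul (s : ℝ) (χ : V → ℝ) : gr (fun i => s * χ i) = fun i k => s * gr χ i k := by
  funext i k
  unfold gr
  ring

/-- the fourth moment of a current -/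
lemma current_pow4_le {c : V → V → ℝ} {Λ : Finset V} {ν : Measure (V → Spin (n + 2))}
    (hν : Gibbs c Λ ν) {a b : Fin (n + 2)} (h : a ≠ b) {χ : V → ℝ} (hχ : ∀ i, i ∉ Λ → χ i = 0)
    {e : ℝ} (he : 0 < e) (hE : En c χ ≤ e) :
    ∫ S, (Yv c a b (gr χ) S) ^ 4 ∂ν ≤ 66 * e ^ 2 := by
  have := hν.prob
  set t : ℝ := (Real.sqrt e)⁻¹ with ht
  have hs : 0 < Real.sqrt e := Real.sqrt_pos.2 he
  have ht0 : 0 < t := inv_pos.2 hs
  have ht2 : t ^ 2 = e⁻¹ := by rw [ht, inv_pow, Real.sq_sqrt he.le]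
  have ht4 : t ^ 4 = (e ^ 2)⁻¹ := by
    rw [show t ^ 4 = (t ^ 2) ^ 2 by ring, ht2, inv_pow]
  have key : ∀ s : ℝ, s ^ 2 = t ^ 2 →
      ∫ S, Real.exp (s * Yv c a b (gr χ) S) ∂ν ≤ Real.exp 1 := by
    intro s hs2
    have h1 := exp_current_le hν h (χ := fun i => s * χ i) (fun i hi => by rw [hχ i hi, mul_zero])
    rw [En_smul, hs2, ht2, gr_smul] at h1
    simp_rw [Yv_mul_left] at h1
    refine h1.trans (Real.exp_le_exp.2 ?_)
    rw [inv_mul_le_iff₀ he]
    linarith
  have k1 := key t rfl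
  have k2 := key (-t) (by ring)
  simp_rw [neg_mul] at k2
  obtain ⟨-, m4⟩ := moments_of_exp (continuous_Yv c a b (gr χ)) ht0 k1 k2
  have hexp := Real.exp_one_lt_d9
  rw [ht4] at m4
  refine m4.trans ?_
  rw [div_inv_eq_mul]
  exact mul_le_mul_of_nonneg_right (by linarith) (sq_nonneg _)

lemma exp_NG_neg {c : V → V → ℝ} {Λ : Finset V} {ν : Measure (V → Spin (n + 2))}
    (hν : Gibbs c Λ ν) {p r q : Fin (n + 2)} (hpr : p ≠ r) (hrq : r ≠ q) (hpq : p ≠ q)
    {χ φ : V → ℝ} (hχ : ∀ i, i ∉ Λ → χ i = 0) (hφ : ∀ i, i ∉ Λ → φ i = 0) :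
    ∫ S, Real.exp (-Yv c p q (fun i k => mid (fun j => Real.sin (φ j)) i k * gr χ i k) S) ∂ν
      ≤ Real.exp (2 * (En c χ + En c φ)) := by
  have := hν.prob
  have hχ' : ∀ i, i ∉ Λ → (fun i => -χ i) i = 0 := fun i hi => by simp [hχ i hi]
  have hφ' : ∀ i, i ∉ Λ → (fun i => -φ i) i = 0 := fun i hi => by simp [hφ i hi]
  have hcW : ∀ χ φ : V → ℝ, Continuous fun S : V → Spin (n + 2) =>
      W c 0 (rho hpr χ (rho hrq φ S)) - W c 0 S := fun χ φ =>
    (((continuous_W c 0).comp (continuous_rho hpr χ)).comp (continuous_rho hrq φ)).sub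
      (continuous_W c 0)
  set W1 : (V → Spin (n + 2)) → ℝ := fun S => W c 0 (rho hpr χ (rho hrq φ S)) - W c 0 S with hW1
  set W2 : (V → Spin (n + 2)) → ℝ := fun S =>
    W c 0 (rho hpr (fun i => -χ i) (rho hrq (fun i => -φ i) S)) - W c 0 S with hW2
  have hc1 : Continuous W1 := hcW χ φ
  have hc2 : Continuous W2 := hcW (fun i => -χ i) (fun i => -φ i)
  have i1 : ∫ S, Real.exp (W1 S) ∂ν = 1 := rho_exp_two hν hpr hrq hχ hφ
  have i2 : ∫ S, Real.exp (W2 S) ∂ν = 1 := rho_exp_two hν hpr hrq hχ' hφ'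
  have e1 : Continuous fun S => Real.exp (W1 S) := Real.continuous_exp.comp hc1
  have e2 : Continuous fun S => Real.exp (W2 S) := Real.continuous_exp.comp hc2
  calc ∫ S, Real.exp (-Yv c p q (fun i k => mid (fun j => Real.sin (φ j)) i k * gr χ i k) S) ∂ν
      ≤ ∫ S, Real.exp (2 * (En c χ + En c φ)) * ((Real.exp (W1 S) + Real.exp (W2 S)) / 2) ∂ν := by
        refine integral_mono (ic (Real.continuous_exp.comp (continuous_Yv c p q _).neg))
          (ic (continuous_const.mul ((e1.add e2).div_const 2))) fun S => ?_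
        simp only
        have h1 := ng_point c hpr hrq hpq χ φ S
        have h2 : Real.exp ((W1 S + W2 S) / 2) ≤ (Real.exp (W1 S) + Real.exp (W2 S)) / 2 := by
          have e3 : Real.exp (W1 S) = Real.exp (W1 S / 2) ^ 2 := by
            rw [← Real.exp_nat_mul]; congr 1; push_cast; ring
          have e4 : Real.exp (W2 S) = Real.exp (W2 S / 2) ^ 2 := by
            rw [← Real.exp_nat_mul]; congr 1; push_cast; ring
          have e5 : Real.exp ((W1 S + W2 S) / 2) = Real.exp (W1 S / 2) * Real.exp (W2 S / 2) := by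
            rw [← Real.exp_add]; congr 1; ring
          rw [e3, e4, e5]
          nlinarith [sq_nonneg (Real.exp (W1 S / 2) - Real.exp (W2 S / 2))]
        calc Real.exp (-Yv c p q (fun i k => mid (fun j => Real.sin (φ j)) i k * gr χ i k) S)
            ≤ Real.exp ((W1 S + W2 S) / 2 + 2 * En c χ + 2 * En c φ) := Real.exp_le_exp.2 h1
          _ = Real.exp (2 * (En c χ + En c φ)) * Real.exp ((W1 S + W2 S) / 2) := by
              rw [← Real.exp_add]; congr 1; ring
          _ ≤ _ := mul_le_mul_of_nonneg_left h2 (Real.exp_pos _).le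
    _ = Real.exp (2 * (En c χ + En c φ)) := by
        rw [integral_const_mul, integral_div, integral_add (ic e1) (ic e2), i1, i2]
        norm_num

/-- (NG), exponential form -/
lemma exp_NG {c : V → V → ℝ} {Λ : Finset V} {ν : Measure (V → Spin (n + 2))}
    (hν : Gibbs c Λ ν) {p r q : Fin (n + 2)} (hpr : p ≠ r) (hrq : r ≠ q) (hpq : p ≠ q)
    {χ φ : V → ℝ} (hχ : ∀ i, i ∉ Λ → χ i = 0) (hφ : ∀ i, i ∉ Λ → φ i = 0) :
    ∫ S, Real.exp (Yv c p q (fun i k => mid (fun j => Real.sin (φ j)) i k * gr χ i k) S) ∂ν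
      ≤ Real.exp (2 * (En c χ + En c φ)) := by
  have h1 := exp_NG_neg hν hpr hrq hpq (χ := fun i => -χ i) (φ := φ)
    (fun i hi => by simp [hχ i hi]) hφ
  rw [En_neg] at h1
  have h2 : (fun i k => mid (fun j => Real.sin (φ j)) i k * gr (fun i => -χ i) i k)
      = fun i k => (-1) * (mid (fun j => Real.sin (φ j)) i k * gr χ i k) := by
    funext i k
    unfold gr
    ring
  rw [h2] at h1
  simp_rw [Yv_mul_left, neg_one_mul, neg_neg] at h1
  exact h1

/-- `arcsin` is Lipschitz on `[-1/2, 1/2]` -/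
lemma arcsin_lip {x y : ℝ} (hx : |x| ≤ 1 / 2) (hy : |y| ≤ 1 / 2) :
    (Real.arcsin x - Real.arcsin y) ^ 2 ≤ 4 / 3 * (x - y) ^ 2 := by
  set κ : ℝ := Real.sqrt (4 / 3) with hκ
  have hκ2 : κ ^ 2 = 4 / 3 := Real.sq_sqrt (by norm_num)
  have hκ0 : 0 < κ := Real.sqrt_pos.2 (by norm_num)
  have hd : ∀ z ∈ Icc (-(1 / 2) : ℝ) (1 / 2),
      HasDerivWithinAt Real.arcsin (1 / Real.sqrt (1 - z ^ 2)) (Icc (-(1 / 2) : ℝ) (1 / 2)) z := by
    intro z hz
    exact (Real.hasDerivAt_arcsin (by linarith [hz.1]) (by linarith [hz.2])).hasDerivWithinAt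
  have hb : ∀ z ∈ Icc (-(1 / 2) : ℝ) (1 / 2), ‖1 / Real.sqrt (1 - z ^ 2)‖ ≤ κ := by
    intro z hz
    have h1 : z ^ 2 ≤ 1 / 4 := by nlinarith [hz.1, hz.2]
    have h2 : κ⁻¹ ≤ Real.sqrt (1 - z ^ 2) := by
      apply Real.le_sqrt_of_sq_le
      rw [inv_pow, hκ2]
      linarith
    have h3 : 0 < κ⁻¹ := inv_pos.2 hκ0
    rw [Real.norm_of_nonneg (by positivity), div_le_iff₀ (by linarith)]
    calc (1 : ℝ) = κ * κ⁻¹ := (mul_inv_cancel₀ hκ0.ne').symm
      _ ≤ κ * Real.sqrt (1 - z ^ 2) := mul_le_mul_of_nonneg_left h2 hκ0.le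
  have h4 := (convex_Icc (-(1 / 2) : ℝ) (1 / 2)).norm_image_sub_le_of_norm_hasDerivWithin_le hd hb
    (abs_le.1 hy) (abs_le.1 hx)
  rw [Real.norm_eq_abs, Real.norm_eq_abs] at h4
  rw [← sq_abs, ← sq_abs (x - y), ← hκ2, ← mul_pow]
  exact pow_le_pow_left₀ (abs_nonneg _) h4 2

/-- (NG), the second moment -/
lemma current_NG_sq_le {c : V → V → ℝ} {Λ : Finset V} {ν : Measure (V → Spin (n + 2))}
    (hν : Gibbs c Λ ν) {p r q : Fin (n + 2)} (hpr : p ≠ r) (hrq : r ≠ q) (hpq : p ≠ q)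
    {χ f : V → ℝ} (hχ : ∀ i, i ∉ Λ → χ i = 0) (hf : ∀ i, i ∉ Λ → f i = 0)
    {e b : ℝ} (he : 0 < e) (hb : 0 < b) (hE : En c χ ≤ e) (hEf : En c f ≤ b)
    (hfb : ∀ i, f i ^ 2 ≤ b) :
    ∫ S, (Yv c p q (fun i k => mid f i k * gr χ i k) S) ^ 2 ∂ν ≤ 144 * e * b := by
  have := hν.prob
  -- the scales
  set u : ℝ := (Real.sqrt (4 * b))⁻¹ with hu
  have hsb : 0 < Real.sqrt (4 * b) := Real.sqrt_pos.2 (by linarith)
  have hu0 : 0 < u := inv_pos.2 hsb
  have hu2 : u ^ 2 = (4 * b)⁻¹ := by rw [hu, inv_pow, Real.sq_sqrt (by linarith)]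
  set s : ℝ := (Real.sqrt (2 * e))⁻¹ with hs
  have hse : 0 < Real.sqrt (2 * e) := Real.sqrt_pos.2 (by linarith)
  have hs0 : 0 < s := inv_pos.2 hse
  have hs2 : s ^ 2 = (2 * e)⁻¹ := by rw [hs, inv_pow, Real.sq_sqrt (by linarith)]
  -- the angle
  set φ : V → ℝ := fun i => Real.arcsin (u * f i) with hφd
  have hub : ∀ i, |u * f i| ≤ 1 / 2 := by
    intro i
    apply abs_le_of_sq_le_sq _ (by norm_num)
    rw [mul_pow, hu2]
    have h1 := hfb i
    rw [inv_mul_le_iff₀ (by linarith)]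
    linarith
  have hsin : ∀ i, Real.sin (φ i) = u * f i := by
    intro i
    have := abs_le.1 (hub i)
    exact Real.sin_arcsin (by linarith [this.1]) (by linarith [this.2])
  have hφ : ∀ i, i ∉ Λ → φ i = 0 := by
    intro i hi
    rw [hφd]
    simp only
    rw [hf i hi, mul_zero, Real.arcsin_zero]
  have hEφ : En c φ ≤ 1 / 3 := by
    have h1 : En c φ ≤ 4 / 3 * (u ^ 2 * En c f) := by
      unfold En
      rw [Finset.mul_sum, Finset.mul_sum]
      refine Finset.sum_le_sum fun i _ => ?_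
      rw [Finset.mul_sum, Finset.mul_sum]
      refine Finset.sum_le_sum fun k _ => ?_
      have h2 := arcsin_lip (hub i) (hub k)
      calc |c i k| * (φ i - φ k) ^ 2 ≤ |c i k| * (4 / 3 * (u * f i - u * f k) ^ 2) :=
            mul_le_mul_of_nonneg_left h2 (abs_nonneg _)
        _ = _ := by ring
    have h4 : u ^ 2 * En c f ≤ 1 / 4 := by
      rw [hu2, inv_mul_le_iff₀ (by linarith)]
      linarith
    linarith
  have hEs : ∀ σ : ℝ, σ ^ 2 = 1 → En c (fun i => (σ * s) * χ i) ≤ 1 / 2 := by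
    intro σ hσ
    rw [En_smul, mul_pow, hσ, hs2, one_mul, inv_mul_le_iff₀ (by linarith)]
    linarith
  have key : ∀ σ : ℝ, σ ^ 2 = 1 →
      ∫ S, Real.exp (σ * ((s * u)
        * Yv c p q (fun i k => mid f i k * gr χ i k) S)) ∂ν ≤ Real.exp (5 / 3) := by
    intro σ hσ
    have h1 := exp_NG hν hpr hrq hpq (χ := fun i => (σ * s) * χ i) (φ := φ)
      (fun i hi => by rw [hχ i hi, mul_zero]) hφ
    have h2 : (fun i k => mid (fun j => Real.sin (φ j)) i k * gr (fun i => (σ * s) * χ i) i k)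
        = fun i k => (σ * (s * u)) * (mid f i k * gr χ i k) := by
      funext i k
      unfold gr mid
      simp only [hsin]
      ring
    rw [h2] at h1
    simp_rw [Yv_mul_left, mul_assoc] at h1
    simp_rw [mul_assoc]
    refine h1.trans (Real.exp_le_exp.2 ?_)
    have := hEs σ hσ
    simp only [mul_assoc] at this
    linarith
  have k1 := key 1 (by norm_num)
  have k2 := key (-1) (by norm_num)
  have hsu : 0 < s * u := mul_pos hs0 hu0
  obtain ⟨m2, -⟩ := moments_of_exp (Y := Yv c p q (fun i k => mid f i k * gr χ i k))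
    (continuous_Yv c p q _) (t := s * u) (K := Real.exp (5 / 3)) hsu
    (by simpa using k1) (by simpa using k2)
  refine m2.trans ?_
  have h6 : (s * u) ^ 2 = (8 * (e * b))⁻¹ := by
    rw [mul_pow, hs2, hu2, ← mul_inv]
    congr 1
    ring
  rw [h6, div_inv_eq_mul]
  have h7 : Real.exp (5 / 3) ≤ 9 := by
    have h8 : Real.exp (5 / 3) ≤ Real.exp 2 := Real.exp_le_exp.2 (by norm_num)
    have h9 : Real.exp 2 = Real.exp 1 ^ 2 := by rw [← Real.exp_nat_mul]; norm_num
    have h10 := Real.exp_one_lt_d9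
    have h11 := Real.exp_pos 1
    rw [h9] at h8
    nlinarith
  have heb : 0 ≤ e * b := by positivity
  nlinarith

end

end Pool.Agent.NVec.Full
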