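import Pool.Agent.H.MP_8be4c0_mp.Full.PerDb
import Pool.Agent.H.MP_8be4c0_mp.Full.Moments

/-!
The per-block inequality.
-/

open MeasureTheory Set Filter Topology

namespace Pool.Agent.NVec.Full

set_option linter.unusedSectionVars false

noncomputable section

variable {n : ℕ} {V : Type} [Fintype V] [DecidableEq V]

/-- the size of the antisymmetrised covariance -/
lemma int_Th_sq_le {c : V → V → ℝ} {Λ : Finset V} {ν : Measure (V → Spin (n + 2))}
    (hν : Gibbs c Λ ν) {p r q : Fin (n + 2)} (hpr : p ≠ r) (hrq : r ≠ q)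
    {B : Finset V} (hB : B ⊆ Λ) {χ f χd gd : V → ℝ} {χ0 f0 : ℝ}
    (hχd : ∀ i, i ∉ Λ → χd i = 0) (hgd : ∀ i, i ∉ Λ → gd i = 0)
    (hloc : ∀ i k, c i k ≠ 0 → (i ∈ B ∨ k ∈ B) →
      χ i = χd i + χ0 ∧ χ k = χd k + χ0 ∧ f i = gd i + f0 ∧ f k = gd k + f0)
    {e₁ b : ℝ} (he₁ : 0 < e₁) (hb : 0 < b) (hE1 : En c χd ≤ e₁) (hE2 : En c gd ≤ b) :
    ∫ S, Th c B p r q (gr χ) (gr f) S ^ 2 ∂ν ≤ 4224 * (e₁ * b) := by
  have := hν.prob
  have cT0 := continuous_Th0 (n := n) c B p r q (gr χ) (gr f)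
  have h1 := int_Pc_sq_le hν hB cT0
  refine h1.trans ?_
  have hx : ∀ (a b' : Fin (n + 2)) (S : V → Spin (n + 2)), Dl c B (Yv c a b' (gr χ)) S
      = Dl c B (Yv c a b' (gr χd)) S := fun a b' S => Dl_congr a b' (fun i k hc hik => by
    obtain ⟨e1, e2, -, -⟩ := hloc i k hc hik
    unfold gr
    rw [e1, e2]
    ring) S
  have hg : ∀ (a b' : Fin (n + 2)) (S : V → Spin (n + 2)), Dl c B (Yv c a b' (gr f)) S
      = Dl c B (Yv c a b' (gr gd)) S := fun a b' S => Dl_congr a b' (fun i k hc hik => by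
    obtain ⟨-, -, e1, e2⟩ := hloc i k hc hik
    unfold gr
    rw [e1, e2]
    ring) S
  -- the four products
  have key : ∀ a b' a' b'' : Fin (n + 2), a ≠ b' → a' ≠ b'' →
      ∫ S, (Dl c B (Yv c a b' (gr χ)) S * Dl c B (Yv c a' b'' (gr f)) S) ^ 2 ∂ν
        ≤ 1056 * (e₁ * b) := by
    intro a b' a' b'' hab hab'
    have c1 := continuous_Dl c B (continuous_Yv (n := n) c a b' (gr χd))
    have c2 := continuous_Dl c B (continuous_Yv (n := n) c a' b'' (gr gd))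
    have c1s : Continuous fun S => Dl c B (Yv c a b' (gr χd)) S ^ 2 := c1.pow 2
    have c2s : Continuous fun S => Dl c B (Yv c a' b'' (gr gd)) S ^ 2 := c2.pow 2
    have m1 := int_Dl_pow4_le hν hB (continuous_Yv (n := n) c a b' (gr χd))
    have m2 := int_Dl_pow4_le hν hB (continuous_Yv (n := n) c a' b'' (gr gd))
    have m3 := current_pow4_le hν hab hχd he₁ hE1
    have m4 := current_pow4_le hν hab' hgd hb hE2
    have h2 := cs_int (ν := ν) c1s c2s
    have e1 : ∀ S : V → Spin (n + 2), (Dl c B (Yv c a b' (gr χ)) S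
        * Dl c B (Yv c a' b'' (gr f)) S) ^ 2
        = Dl c B (Yv c a b' (gr χd)) S ^ 2 * Dl c B (Yv c a' b'' (gr gd)) S ^ 2 := fun S => by
      rw [hx, hg, mul_pow]
    simp_rw [e1]
    refine (le_abs_self _).trans (h2.trans ?_)
    have e2 : ∀ S : V → Spin (n + 2), (Dl c B (Yv c a b' (gr χd)) S ^ 2) ^ 2
        = Dl c B (Yv c a b' (gr χd)) S ^ 4 := fun S => by ring
    have e3 : ∀ S : V → Spin (n + 2), (Dl c B (Yv c a' b'' (gr gd)) S ^ 2) ^ 2
        = Dl c B (Yv c a' b'' (gr gd)) S ^ 4 := fun S => by ring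
    simp_rw [e2, e3]
    have h3 : Real.sqrt (∫ S, Dl c B (Yv c a b' (gr χd)) S ^ 4 ∂ν) ≤ Real.sqrt 1056 * e₁ := by
      rw [← Real.sqrt_sq he₁.le, ← Real.sqrt_mul (by norm_num)]
      apply Real.sqrt_le_sqrt
      linarith
    have h4 : Real.sqrt (∫ S, Dl c B (Yv c a' b'' (gr gd)) S ^ 4 ∂ν) ≤ Real.sqrt 1056 * b := by
      rw [← Real.sqrt_sq hb.le, ← Real.sqrt_mul (by norm_num)]
      apply Real.sqrt_le_sqrt
      linarith
    calc _ ≤ (Real.sqrt 1056 * e₁) * (Real.sqrt 1056 * b) :=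
          mul_le_mul h3 h4 (Real.sqrt_nonneg _) (by positivity)
      _ = (Real.sqrt 1056 * Real.sqrt 1056) * (e₁ * b) := by ring
      _ = 1056 * (e₁ * b) := by rw [Real.mul_self_sqrt (by norm_num)]
  have k1 := key p r r q hpr hrq
  have k2 := key r q p r hrq hpr
  have cA := continuous_Dl c B (continuous_Yv (n := n) c p r (gr χ))
  have cB := continuous_Dl c B (continuous_Yv (n := n) c r q (gr f))
  have cA' := continuous_Dl c B (continuous_Yv (n := n) c r q (gr χ))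
  have cB' := continuous_Dl c B (continuous_Yv (n := n) c p r (gr f))
  have i1 : Integrable (fun S => (Dl c B (Yv c p r (gr χ)) S
    * Dl c B (Yv c r q (gr f)) S) ^ 2) ν := ic ((cA.mul cB).pow 2)
  have i2 : Integrable (fun S => (Dl c B (Yv c r q (gr χ)) S
    * Dl c B (Yv c p r (gr f)) S) ^ 2) ν := ic ((cA'.mul cB').pow 2)
  have i0 : Integrable (fun S => Th0 c B p r q (gr χ) (gr f) S ^ 2) ν := ic (cT0.pow 2)
  have i3 : Integrable (fun S => 2 * (Dl c B (Yv c p r (gr χ)) S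
    * Dl c B (Yv c r q (gr f)) S) ^ 2 + 2 * (Dl c B (Yv c r q (gr χ)) S
    * Dl c B (Yv c p r (gr f)) S) ^ 2) ν := (i1.const_mul 2).add (i2.const_mul 2)
  calc ∫ S, Th0 c B p r q (gr χ) (gr f) S ^ 2 ∂ν
      ≤ ∫ S, (2 * (Dl c B (Yv c p r (gr χ)) S
        * Dl c B (Yv c r q (gr f)) S) ^ 2 + 2 * (Dl c B (Yv c r q (gr χ)) S
        * Dl c B (Yv c p r (gr f)) S) ^ 2) ∂ν := by
        apply integral_mono i0 i3
        intro S
        simp only
        unfold Th0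
        set X := Dl c B (Yv c p r (gr χ)) S * Dl c B (Yv c r q (gr f)) S
        set Z := Dl c B (Yv c r q (gr χ)) S * Dl c B (Yv c p r (gr f)) S
        nlinarith [sq_nonneg (X + Z)]
    _ = 2 * ∫ S, (Dl c B (Yv c p r (gr χ)) S * Dl c B (Yv c r q (gr f)) S) ^ 2 ∂ν
        + 2 * ∫ S, (Dl c B (Yv c r q (gr χ)) S * Dl c B (Yv c p r (gr f)) S) ^ 2 ∂ν := by
        rw [integral_add (i1.const_mul 2) (i2.const_mul 2), integral_const_mul,
          integral_const_mul]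
    _ ≤ 4224 * (e₁ * b) := by linarith

/-- **The per-block inequality.** -/
lemma perD {c : V → V → ℝ} {Λ D : Finset V} {ν : Measure (V → Spin (n + 2))}
    (hν : Gibbs c Λ ν) {p r q : Fin (n + 2)} (hpr : p ≠ r) (hrq : r ≠ q) (hpq : p ≠ q)
    (hσ : SigInv hpr hrq hpq ν) (hD : D ⊆ Λ) {ι : Type} [DecidableEq ι] (s : Finset ι)
    (bl : ι → Finset V) (hbl : ∀ d ∈ s, bl d ⊆ D)
    (hdisj : ∀ d ∈ s, ∀ d' ∈ s, d ≠ d' → Disjoint (bl d) (bl d'))
    (hsep : ∀ d ∈ s, ∀ d' ∈ s, d ≠ d' → ∀ i ∈ bl d, ∀ k ∈ bl d', c i k = 0)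
    {χ f : V → ℝ} (hχ : ∀ i, i ∉ Λ → χ i = 0) (hf : ∀ i, i ∉ D → f i = 0)
    (hf1 : ∀ i, |f i| ≤ 1)
    (χd gd : ι → V → ℝ) (χ0 f0 : ι → ℝ)
    (hχd : ∀ d ∈ s, ∀ i, i ∉ Λ → χd d i = 0) (hgd : ∀ d ∈ s, ∀ i, i ∉ Λ → gd d i = 0)
    (hloc : ∀ d ∈ s, ∀ i k, c i k ≠ 0 → (i ∈ bl d ∨ k ∈ bl d) →
      χ i = χd d i + χ0 d ∧ χ k = χd d k + χ0 d ∧ f i = gd d i + f0 d ∧ f k = gd d k + f0 d)
    {e a e₁ b : ℝ} (he : 0 < e) (ha : 1 ≤ a) (he₁ : 0 < e₁) (hb : 0 < b)
    (hEχ : En c χ ≤ e) (hEf : En c f ≤ a)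
    (hE1 : ∀ d ∈ s, En c (χd d) ≤ e₁) (hE2 : ∀ d ∈ s, En c (gd d) ≤ b)
    (hgb : ∀ d ∈ s, ∀ i, gd d i ^ 2 ≤ b) :
    ∑ i, ∑ k, c i k * (mid f i k * (χ i - χ k) ^ 2
        * ∫ S, Pab p q (S i : EuclideanSpace ℝ (Fin (n + 2))) (S k) ∂ν)
      - ∑ d ∈ s, f0 d * cvar c ν (bl d) p q χ
      ≤ 100 * (Real.sqrt (incr c ν (s.biUnion bl) D p r χ) * Real.sqrt (e * a)
        + Real.sqrt (incr c ν (s.biUnion bl) D p q χ)
          * (Real.sqrt (e * a) + s.card * Real.sqrt (e₁ * b))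
        + s.card * (e₁ * Real.sqrt b)) := by
  classical
  have := hν.prob
  have ha0 : 0 < a := lt_of_lt_of_le one_pos ha
  set U := s.biUnion bl with hU
  have hUD : U ⊆ D := by
    rw [hU]
    intro i hi
    obtain ⟨d, hd, hid⟩ := Finset.mem_biUnion.1 hi
    exact hbl d hd hid
  have hblΛ : ∀ d ∈ s, bl d ⊆ Λ := fun d hd => (hbl d hd).trans hD
  set v : V → V → ℝ := fun i k => mid f i k * gr χ i k with hv
  have cC := continuous_Yv (n := n) c p q (gr χ)
  have cA := continuous_Yv (n := n) c p r (gr χ)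
  have cB := continuous_Yv (n := n) c r q (gr f)
  have cV := continuous_Yv (n := n) c p q v
  have hfΛ : ∀ i, i ∉ Λ → f i = 0 := fun i hi => hf i fun h => hi (hD h)
  have s1 := step1 hν hpq hUD hD hχ f
  have s2 := step2 (χ := χ) hν hpr hrq hpq hσ hUD hD hf
  -- the block terms
  have b1 : ∫ S, Dl c U (Yv c p q v) S * Dl c U (Yv c p q (gr χ)) S ∂ν
      = ∑ d ∈ s, ∫ S, Dl c (bl d) (Yv c p q v) S * Dl c (bl d) (Yv c p q (gr χ)) S ∂ν := by
    have h := int_Dl_Dl hν s bl hblΛ hdisj hsep p q p q v (gr χ) (h := fun _ => 1)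
      continuous_const (fun d _ => Indep_const _ 1)
    simpa only [one_mul] using h
  have b2 : ∫ S, Pc c D (Yv c p q (gr χ)) S
          * (Dl c U (Yv c p r (gr χ)) S * Dl c U (Yv c r q (gr f)) S) ∂ν
      = ∑ d ∈ s, ∫ S, Pc c D (Yv c p q (gr χ)) S
          * (Dl c (bl d) (Yv c p r (gr χ)) S * Dl c (bl d) (Yv c r q (gr f)) S) ∂ν :=
    int_Dl_Dl hν s bl hblΛ hdisj hsep p r r q (gr χ) (gr f) (continuous_Pc c D cC)
      (fun d hd => Pc_indep_sub c (hbl d hd) _)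
  -- T1
  have t1 : ∀ d ∈ s, ∫ S, Dl c (bl d) (Yv c p q v) S * Dl c (bl d) (Yv c p q (gr χ)) S ∂ν
      ≤ f0 d * cvar c ν (bl d) p q χ + 12 * (e₁ * Real.sqrt b) := by
    intro d hd
    set w : V → V → ℝ := fun i k => mid (gd d) i k * gr (χd d) i k with hw
    have cW := continuous_Dl c (bl d) (continuous_Yv (n := n) c p q w)
    have cX := continuous_Dl c (bl d) (continuous_Yv (n := n) c p q (gr (χd d)))
    have cX0 := continuous_Dl c (bl d) cC
    have e1 : ∀ S : V → Spin (n + 2), Dl c (bl d) (Yv c p q v) S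
        = f0 d * Dl c (bl d) (Yv c p q (gr χ)) S + Dl c (bl d) (Yv c p q w) S := by
      intro S
      have h1 : Dl c (bl d) (Yv c p q v) S
          = Dl c (bl d) (Yv c p q (fun i k => f0 d * gr χ i k + w i k)) S := by
        apply Dl_congr
        intro i k hc hik
        obtain ⟨h2, h3, h4, h5⟩ := hloc d hd i k hc hik
        rw [hv, hw]
        unfold mid gr
        simp only
        rw [h2, h3, h4, h5]
        ring
      rw [h1]
      have h2 : (Yv c p q (fun i k => f0 d * gr χ i k + w i k) : (V → Spin (n + 2)) → ℝ)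
          = fun S => f0 d * Yv c p q (gr χ) S + 1 * Yv c p q w S := by
        funext S
        rw [Yv_add, Yv_smul, one_mul]
      rw [h2, Dl_lin c (bl d) cC (continuous_Yv c p q w)]
      ring
    have e2 : ∀ S : V → Spin (n + 2), Dl c (bl d) (Yv c p q (gr χ)) S
        = Dl c (bl d) (Yv c p q (gr (χd d))) S := fun S => Dl_congr p q (fun i k hc hik => by
      obtain ⟨h2, h3, -, -⟩ := hloc d hd i k hc hik
      unfold gr
      rw [h2, h3]
      ring) S
    have i1 : Integrable (fun S => f0 d * Dl c (bl d) (Yv c p q (gr χ)) S ^ 2) ν :=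
      (ic (cX0.pow 2)).const_mul _
    have i2 : Integrable (fun S => Dl c (bl d) (Yv c p q w) S
      * Dl c (bl d) (Yv c p q (gr (χd d))) S) ν := ic (cW.mul cX)
    have e3 : ∫ S, Dl c (bl d) (Yv c p q v) S * Dl c (bl d) (Yv c p q (gr χ)) S ∂ν
        = f0 d * cvar c ν (bl d) p q χ + ∫ S, Dl c (bl d) (Yv c p q w) S
          * Dl c (bl d) (Yv c p q (gr (χd d))) S ∂ν := by
      have e4 : f0 d * cvar c ν (bl d) p q χ
          = ∫ S, f0 d * Dl c (bl d) (Yv c p q (gr χ)) S ^ 2 ∂ν := by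
        rw [integral_const_mul]; rfl
      rw [e4, ← integral_add i1 i2]
      refine integral_congr_ae (Eventually.of_forall fun S => ?_)
      simp only
      rw [e1, ← e2]
      ring
    rw [e3]
    have h6 := cs_int (ν := ν) cW cX
    have h7 := int_Dl_sq_le hν (hblΛ d hd) (continuous_Yv (n := n) c p q w)
    have h8 := int_Dl_sq_le hν (hblΛ d hd) (continuous_Yv (n := n) c p q (gr (χd d)))
    have h9 := current_NG_sq_le hν hpr hrq hpq (hχd d hd) (hgd d hd) he₁ hb (hE1 d hd)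
      (hE2 d hd) (hgb d hd)
    have h10 := (current_sq_le hν hpq (hχd d hd)).trans (hE1 d hd)
    have h11 : Real.sqrt (∫ S, Dl c (bl d) (Yv c p q w) S ^ 2 ∂ν)
        ≤ 12 * (Real.sqrt e₁ * Real.sqrt b) := by
      rw [← Real.sqrt_mul he₁.le, ← Real.sqrt_sq (by norm_num : (0 : ℝ) ≤ 12),
        ← Real.sqrt_mul (by norm_num)]
      apply Real.sqrt_le_sqrt
      refine (h7.trans h9).trans (le_of_eq ?_)
      ring
    have h12 : Real.sqrt (∫ S, Dl c (bl d) (Yv c p q (gr (χd d))) S ^ 2 ∂ν) ≤ Real.sqrt e₁ :=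
      Real.sqrt_le_sqrt (h8.trans h10)
    have h13 : (12 * (Real.sqrt e₁ * Real.sqrt b)) * Real.sqrt e₁ = 12 * (e₁ * Real.sqrt b) := by
      have := Real.mul_self_sqrt he₁.le
      calc (12 * (Real.sqrt e₁ * Real.sqrt b)) * Real.sqrt e₁
          = 12 * ((Real.sqrt e₁ * Real.sqrt e₁) * Real.sqrt b) := by ring
        _ = _ := by rw [this]
    have h14 := (le_abs_self _).trans (h6.trans (mul_le_mul h11 h12 (Real.sqrt_nonneg _)
      (by positivity)))
    linarith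
  -- T2
  have nv : ∫ S, Yv c p q v S ^ 2 ∂ν ≤ 144 * e * a :=
    current_NG_sq_le hν hpr hrq hpq hχ hfΛ he ha0 hEχ hEf (fun i => by
      have := hf1 i
      rw [← sq_abs]
      calc |f i| ^ 2 ≤ 1 ^ 2 := pow_le_pow_left₀ (abs_nonneg _) this 2
        _ = 1 := one_pow 2
        _ ≤ a := ha)
  have cPUC := continuous_Pc c U cC
  have cPDC := continuous_Pc c D cC
  have cPUA := continuous_Pc c U cA
  have cPDA := continuous_Pc c D cA
  have cPUB := continuous_Pc c U cB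
  have cIC : Continuous fun S => Pc c U (Yv c p q (gr χ)) S - Pc c D (Yv c p q (gr χ)) S :=
    cPUC.sub cPDC
  have cIA : Continuous fun S => Pc c U (Yv c p r (gr χ)) S - Pc c D (Yv c p r (gr χ)) S :=
    cPUA.sub cPDA
  set IA := incr c ν U D p r χ with hIA
  set IC := incr c ν U D p q χ with hIC
  have t2 : ∫ S, Pc c U (Yv c p q v) S
          * (Pc c U (Yv c p q (gr χ)) S - Pc c D (Yv c p q (gr χ)) S) ∂ν
      ≤ 12 * (Real.sqrt IC * Real.sqrt (e * a)) := by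
    have h1 := cs_int (ν := ν) (continuous_Pc c U cV) cIC
    have h2 := (int_Pc_sq_le hν (hUD.trans hD) cV).trans nv
    have h3 : Real.sqrt (∫ S, Pc c U (Yv c p q v) S ^ 2 ∂ν) ≤ 12 * Real.sqrt (e * a) := by
      rw [← Real.sqrt_sq (by norm_num : (0 : ℝ) ≤ 12), ← Real.sqrt_mul (by norm_num)]
      apply Real.sqrt_le_sqrt
      refine h2.trans (le_of_eq ?_)
      ring
    refine (le_abs_self _).trans (h1.trans ?_)
    have h4 : ∫ S, (Pc c U (Yv c p q (gr χ)) S - Pc c D (Yv c p q (gr χ)) S) ^ 2 ∂ν = IC := rfl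
    rw [h4]
    calc Real.sqrt (∫ S, Pc c U (Yv c p q v) S ^ 2 ∂ν) * Real.sqrt IC
        ≤ (12 * Real.sqrt (e * a)) * Real.sqrt IC :=
          mul_le_mul_of_nonneg_right h3 (Real.sqrt_nonneg _)
      _ = _ := by ring
  -- T3
  have t3 : ∫ S, (Pc c U (Yv c p r (gr χ)) S - Pc c D (Yv c p r (gr χ)) S)
          * (Pc c D (Yv c p q (gr χ)) S * Pc c U (Yv c r q (gr f)) S) ∂ν
      ≤ 9 * (Real.sqrt IA * Real.sqrt (e * a)) := by
    have cT : Continuous fun S => Pc c D (Yv c p q (gr χ)) S * Pc c U (Yv c r q (gr f)) S :=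
      cPDC.mul cPUB
    have h1 := cs_int (ν := ν) cIA cT
    have c1s : Continuous fun S => Pc c D (Yv c p q (gr χ)) S ^ 2 := cPDC.pow 2
    have c2s : Continuous fun S => Pc c U (Yv c r q (gr f)) S ^ 2 := cPUB.pow 2
    have h2 := cs_int (ν := ν) c1s c2s
    have e1 : ∀ S : V → Spin (n + 2), (Pc c D (Yv c p q (gr χ)) S ^ 2) ^ 2
        = Pc c D (Yv c p q (gr χ)) S ^ 4 := fun S => by ring
    have e2 : ∀ S : V → Spin (n + 2), (Pc c U (Yv c r q (gr f)) S ^ 2) ^ 2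
        = Pc c U (Yv c r q (gr f)) S ^ 4 := fun S => by ring
    simp_rw [e1, e2] at h2
    have m1 := (int_Pc_pow4_le hν hD cC).trans (current_pow4_le hν hpq hχ he hEχ)
    have m2 := (int_Pc_pow4_le hν (hUD.trans hD) cB).trans
      (current_pow4_le hν hrq hfΛ ha0 hEf)
    have h3 : Real.sqrt (∫ S, Pc c D (Yv c p q (gr χ)) S ^ 4 ∂ν) ≤ Real.sqrt 66 * e := by
      rw [← Real.sqrt_sq he.le, ← Real.sqrt_mul (by norm_num)]
      exact Real.sqrt_le_sqrt m1
    have h4 : Real.sqrt (∫ S, Pc c U (Yv c r q (gr f)) S ^ 4 ∂ν) ≤ Real.sqrt 66 * a := by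
      rw [← Real.sqrt_sq ha0.le, ← Real.sqrt_mul (by norm_num)]
      exact Real.sqrt_le_sqrt m2
    have h5 : ∫ S, (Pc c D (Yv c p q (gr χ)) S * Pc c U (Yv c r q (gr f)) S) ^ 2 ∂ν
        ≤ 81 * (e * a) := by
      have e3 : ∀ S : V → Spin (n + 2), (Pc c D (Yv c p q (gr χ)) S
          * Pc c U (Yv c r q (gr f)) S) ^ 2
          = Pc c D (Yv c p q (gr χ)) S ^ 2 * Pc c U (Yv c r q (gr f)) S ^ 2 :=
        fun S => by ring
      simp_rw [e3]
      refine (le_abs_self _).trans (h2.trans ?_)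
      calc _ ≤ (Real.sqrt 66 * e) * (Real.sqrt 66 * a) :=
            mul_le_mul h3 h4 (Real.sqrt_nonneg _) (by positivity)
        _ = (Real.sqrt 66 * Real.sqrt 66) * (e * a) := by ring
        _ = 66 * (e * a) := by rw [Real.mul_self_sqrt (by norm_num)]
        _ ≤ 81 * (e * a) := by
          have : 0 ≤ e * a := by positivity
          linarith
    have h6 : Real.sqrt (∫ S, (Pc c D (Yv c p q (gr χ)) S * Pc c U (Yv c r q (gr f)) S) ^ 2 ∂ν)
        ≤ 9 * Real.sqrt (e * a) := by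
      rw [← Real.sqrt_sq (by norm_num : (0 : ℝ) ≤ 9), ← Real.sqrt_mul (by norm_num)]
      apply Real.sqrt_le_sqrt
      refine h5.trans (le_of_eq ?_)
      ring
    refine (le_abs_self _).trans (h1.trans ?_)
    have h7 : ∫ S, (Pc c U (Yv c p r (gr χ)) S - Pc c D (Yv c p r (gr χ)) S) ^ 2 ∂ν = IA := rfl
    rw [h7]
    calc _ ≤ Real.sqrt IA * (9 * Real.sqrt (e * a)) :=
          mul_le_mul_of_nonneg_left h6 (Real.sqrt_nonneg _)
      _ = _ := by ring
  -- T4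
  have t4 : ∀ d ∈ s, ∫ S, Pc c D (Yv c p q (gr χ)) S
          * (Dl c (bl d) (Yv c p r (gr χ)) S * Dl c (bl d) (Yv c r q (gr f)) S) ∂ν
      ≤ 33 * (e₁ * Real.sqrt b) + 33 * (Real.sqrt IC * Real.sqrt (e₁ * b)) := by
    intro d hd
    rw [step3 hν hpr hrq hpq hσ (hbl d hd) hD]
    have hI : Indep U (Th c (bl d) p r q (gr χ) (gr f) : (V → Spin (n + 2)) → ℝ) := by
      rw [hU]
      apply Indep.biUnion
      intro d' hd'
      by_cases hdd : d = d'
      · rw [← hdd]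
        exact Pc_indep_self c (bl d) _
      · have sp1 := hsep d hd d' hd' hdd
        have sp2 := hsep d' hd' d hd (fun h => hdd h.symm)
        have dj := hdisj d hd d' hd' hdd
        apply Pc_indep_of_sep dj sp1 sp2
        exact ((Dl_indep_of_sep dj sp1 sp2 p r (gr χ)).mul
          (Dl_indep_of_sep dj sp1 sp2 r q (gr f))).sub
          ((Dl_indep_of_sep dj sp1 sp2 r q (gr χ)).mul
          (Dl_indep_of_sep dj sp1 sp2 p r (gr f)))
    rw [step4 (χd := χd d) (χ0 := χ0 d) hν hpr hrq hpq hUD hD hχ hI (hχd d hd)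
      (fun i k hc hik => ⟨(hloc d hd i k hc hik).1, (hloc d hd i k hc hik).2.1⟩)]
    have hT := int_Th_sq_le hν hpr hrq (hblΛ d hd) (hχd d hd) (hgd d hd) (hloc d hd) he₁ hb
      (hE1 d hd) (hE2 d hd)
    have cT := continuous_Th (n := n) c (bl d) p r q (gr χ) (gr f)
    have h1 := cs_int (ν := ν) (continuous_Yv (n := n) c p q (gr (χd d))) cT
    have h2 := cs_int (ν := ν) cIC cT
    have h3 : Real.sqrt (∫ S, Th c (bl d) p r q (gr χ) (gr f) S ^ 2 ∂ν)
        ≤ 65 * Real.sqrt (e₁ * b) := by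
      rw [← Real.sqrt_sq (by norm_num : (0 : ℝ) ≤ 65), ← Real.sqrt_mul (by norm_num)]
      apply Real.sqrt_le_sqrt
      have : 0 ≤ e₁ * b := by positivity
      linarith
    have h4 : Real.sqrt (∫ S, Yv c p q (gr (χd d)) S ^ 2 ∂ν) ≤ Real.sqrt e₁ :=
      Real.sqrt_le_sqrt ((current_sq_le hν hpq (hχd d hd)).trans (hE1 d hd))
    have h5 : ∫ S, (Pc c U (Yv c p q (gr χ)) S - Pc c D (Yv c p q (gr χ)) S) ^ 2 ∂ν = IC := rfl
    rw [h5] at h2
    have h6 : Real.sqrt e₁ * (65 * Real.sqrt (e₁ * b)) = 65 * (e₁ * Real.sqrt b) := by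
      rw [Real.sqrt_mul he₁.le]
      have := Real.mul_self_sqrt he₁.le
      calc Real.sqrt e₁ * (65 * (Real.sqrt e₁ * Real.sqrt b))
          = 65 * ((Real.sqrt e₁ * Real.sqrt e₁) * Real.sqrt b) := by ring
        _ = _ := by rw [this]
    have h7 := (le_abs_self _).trans (h1.trans (mul_le_mul h4 h3 (Real.sqrt_nonneg _)
      (Real.sqrt_nonneg _)))
    rw [h6] at h7
    have h8 := (neg_le_abs _).trans (h2.trans (mul_le_mul_of_nonneg_left h3
      (Real.sqrt_nonneg IC)))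
    have h9 : 0 ≤ e₁ * Real.sqrt b := by positivity
    have h10 : 0 ≤ Real.sqrt IC * Real.sqrt (e₁ * b) := by positivity
    linarith
  -- assembly
  have hs1 := Finset.sum_le_sum t1
  have hs4 := Finset.sum_le_sum t4
  rw [Finset.sum_add_distrib, Finset.sum_const, nsmul_eq_mul] at hs1
  rw [Finset.sum_const, nsmul_eq_mul] at hs4
  rw [s1, s2, b1, b2]
  have p1 : 0 ≤ Real.sqrt IA * Real.sqrt (e * a) := by positivity
  have p2 : 0 ≤ Real.sqrt IC * Real.sqrt (e * a) := by positivity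
  have p3 : 0 ≤ (s.card : ℝ) * (e₁ * Real.sqrt b) := by positivity
  have p4 : 0 ≤ (s.card : ℝ) * (Real.sqrt IC * Real.sqrt (e₁ * b)) := by positivity
  nlinarith [p1, p2, p3, p4, hs1, hs4, t2, t3]

end

end Pool.Agent.NVec.Full
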