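import Pool.Agent.H.MP_8be4c0_mp.Full.Layer
import Pool.Agent.H.MP_8be4c0_mp.Full.PerD

/-!
The estimate on one level of the multiscale argument.
-/

open MeasureTheory Set Filter Topology

namespace Pool.Agent.NVec.Full

set_option linter.unusedSectionVars false
set_option linter.unusedVariables false

noncomputable section

variable {n : ℕ} {V : Type} [Fintype V] [DecidableEq V]

/-- the sum of the conditional variances over the blocks of one level -/
def Phi (c : V → V → ℝ) (ν : Measure (V → Spin (n + 2))) (pos : V → ℤ × ℤ) (s h t : ℕ)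
    (a b : Fin (n + 2)) (R : ℕ) : ℝ :=
  ∑ d ∈ cells t, cvar c ν (blk pos s h d) a b fun i => psi R (pos i)

namespace Level

/-- the cutoff on the sites -/
def psV (pos : V → ℤ × ℤ) (R : ℕ) : V → ℝ := fun i => psi R (pos i)

/-- the localised cutoff -/
def chV (pos : V → ℤ × ℤ) (R h : ℕ) (a : ℤ × ℤ) : V → ℝ :=
  fun i => loc (1 / (R : ℝ)) h (ctr h a) (psi R) (pos i)

/-- the plateau function on the sites -/
def plV (pos : V → ℤ × ℤ) (θ : ℝ) (s h : ℕ) (a : ℤ × ℤ) : V → ℝ :=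
  fun i => plat θ s h a (pos i)

/-- the localised plateau function -/
def gV (pos : V → ℤ × ℤ) (θ : ℝ) (s h H : ℕ) (a b : ℤ × ℤ) : V → ℝ :=
  fun i => loc (1 / (θ * H)) h (ctr h b) (plat θ s H a) (pos i)

lemma abs_Pab_le {a b : Fin (n + 2)} (h : a ≠ b) (u v : Spin (n + 2)) :
    |Pab a b (u : EuclideanSpace ℝ (Fin (n + 2))) v| ≤ 1 := by
  have h1 := sq_add_sq_le h u
  have h2 := sq_add_sq_le h v
  unfold Pab
  rw [abs_le]
  constructor
  · nlinarith [sq_nonneg ((u : EuclideanSpace ℝ (Fin (n + 2))) a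
      + (v : EuclideanSpace ℝ (Fin (n + 2))) a),
      sq_nonneg ((u : EuclideanSpace ℝ (Fin (n + 2))) b
      + (v : EuclideanSpace ℝ (Fin (n + 2))) b)]
  · nlinarith [sq_nonneg ((u : EuclideanSpace ℝ (Fin (n + 2))) a
      - (v : EuclideanSpace ℝ (Fin (n + 2))) a),
      sq_nonneg ((u : EuclideanSpace ℝ (Fin (n + 2))) b
      - (v : EuclideanSpace ℝ (Fin (n + 2))) b)]

lemma abs_int_Pab_le {ν : Measure (V → Spin (n + 2))} [IsProbabilityMeasure ν]
    {a b : Fin (n + 2)} (h : a ≠ b) (i k : V) :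
    |∫ S, Pab a b (S i : EuclideanSpace ℝ (Fin (n + 2))) (S k) ∂ν| ≤ 1 := by
  have := norm_integral_le_of_norm_le_const (μ := ν) (C := 1)
    (f := fun S : V → Spin (n + 2) => Pab a b (S i : EuclideanSpace ℝ (Fin (n + 2))) (S k))
    (Eventually.of_forall fun S => abs_Pab_le h (S i) (S k))
  simpa using this

lemma cvar_nonneg {c : V → V → ℝ} {ν : Measure (V → Spin (n + 2))} {B : Finset V}
    {a b : Fin (n + 2)} {χ : V → ℝ} : 0 ≤ cvar c ν B a b χ :=
  integral_nonneg fun _ => sq_nonneg _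

/-! ### geometry -/

lemma t_pos {R h t : ℕ} (hR : R = 2 * h * t) (hR0 : 0 < R) : 0 < t := by
  rcases Nat.eq_zero_or_pos t with h0 | h0
  · rw [h0] at hR; omega
  · exact h0

lemma two_h_le {R h t : ℕ} (hR : R = 2 * h * t) (hR0 : 0 < R) : 2 * (h : ℝ) ≤ R := by
  have ht := t_pos hR hR0
  have : 2 * h ≤ R := by rw [hR]; exact Nat.le_mul_of_pos_right _ ht
  exact_mod_cast this

lemma ctr_norm' {R h t : ℕ} (hR : R = 2 * h * t) {a : ℤ × ℤ} (ha : a ∈ cells t) :
    ‖ctr h a‖ + h ≤ 4 * (R : ℝ) := by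
  have := ctr_norm (h := h) ha
  rwa [← hR] at this

lemma energy_ch {c : V → V → ℝ} {pos : V → ℤ × ℤ} {s R : ℕ} {M : ℝ} (hG : Geo c pos s R M)
    {h t : ℕ} (hR : R = 2 * h * t) (hR0 : 0 < R) {a : ℤ × ℤ} (ha : a ∈ cells t) :
    En c (chV pos R h a) ≤ 32 * M * ((h : ℝ) / R) ^ 2 := by
  have h0 : (0 : ℝ) ≤ 1 / (R : ℝ) := by positivity
  have h1 := energy_lip hG (Φ := loc (1 / (R : ℝ)) h (ctr h a) (psi R)) (lam := 1 / (R : ℝ)) h0
    (loc_lip h0 (psi_lip hR0)) (z := ctr h a) (r := 2 * h)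
    (fun x hx => loc_zero (by push_cast at hx; exact hx))
    (by
      have e1 := ctr_norm' hR ha
      have e2 := two_h_le hR hR0
      have e3 : (0 : ℝ) ≤ R := by positivity
      push_cast
      linarith)
  refine (le_of_eq rfl).trans (h1.trans (le_of_eq ?_))
  push_cast
  ring

lemma ch_zero {pos : V → ℤ × ℤ} {R h t : ℕ} (hR : R = 2 * h * t) (hR0 : 0 < R) {a : ℤ × ℤ}
    (ha : a ∈ cells t) {i : V} (hi : i ∉ bx pos (5 * (R : ℝ))) : chV pos R h a i = 0 := by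
  unfold chV
  apply loc_zero
  rw [mem_bx, not_lt] at hi
  have e1 := ctr_norm' hR ha
  have e2 := two_h_le hR hR0
  have e3 := norm_sub_norm_le (pos i) (ctr h a)
  have e4 : (0 : ℝ) ≤ h := by positivity
  linarith

lemma g_zero {pos : V → ℤ × ℤ} {θ : ℝ} {s R h H t : ℕ} (hR : R = 2 * h * t) (hR0 : 0 < R)
    (a : ℤ × ℤ) {b : ℤ × ℤ}
    (hb : b ∈ cells t) {i : V} (hi : i ∉ bx pos (5 * (R : ℝ))) : gV pos θ s h H a b i = 0 := by
  unfold gV
  apply loc_zero
  rw [mem_bx, not_lt] at hi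
  have e1 := ctr_norm' hR hb
  have e2 := two_h_le hR hR0
  have e3 := norm_sub_norm_le (pos i) (ctr h b)
  have e4 : (0 : ℝ) ≤ h := by positivity
  linarith

lemma blk_sub_bx {pos : V → ℤ × ℤ} {s R h t : ℕ} (hR : R = 2 * h * t) (hR0 : 0 < R) {a : ℤ × ℤ}
    (ha : a ∈ cells t) : blk pos s h a ⊆ bx pos (5 * (R : ℝ)) := by
  intro i hi
  rw [mem_bx]
  have h1 := (blk_range ha hi).2
  rw [← hR] at h1
  have h2 : (0 : ℝ) < R := by exact_mod_cast hR0
  linarith

lemma energy_pl {c : V → V → ℝ} {pos : V → ℤ × ℤ} {s R : ℕ} {M : ℝ} (hG : Geo c pos s R M)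
    {h t : ℕ} (hh : 0 < h) (hR : R = 2 * h * t) (hR0 : 0 < R) {θ : ℝ} (hθ : 0 < θ) {a : ℤ × ℤ}
    (ha : a ∈ cells t) :
    En c (plV pos θ s h a) ≤ 8 * M / θ ^ 2 := by
  have hh' : (0 : ℝ) < h := by exact_mod_cast hh
  have h0 : (0 : ℝ) ≤ 1 / (θ * h) := by positivity
  have h1 := energy_lip hG (Φ := plat θ s h a) (lam := 1 / (θ * h)) h0
    (plat_lip hθ hh a) (z := ctr h a) (r := h)
    (fun x hx => plat_zero hθ (by
      rw [not_lt]
      have : (0 : ℝ) ≤ s := by positivity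
      linarith))
    (by
      have e1 := ctr_norm' hR ha
      have e3 : (0 : ℝ) ≤ R := by positivity
      linarith)
  refine (le_of_eq rfl).trans (h1.trans (le_of_eq ?_))
  field_simp
  ring

lemma energy_g {c : V → V → ℝ} {pos : V → ℤ × ℤ} {s R : ℕ} {M : ℝ} (hG : Geo c pos s R M)
    {h K t : ℕ} (hh : 0 < h) (hK : 0 < K) (hR : R = 2 * (K * h) * t) (hR0 : 0 < R) {θ : ℝ}
    (hθ : 0 < θ) (a : ℤ × ℤ) {b : ℤ × ℤ} (hb : b ∈ cells (K * t)) :
    En c (gV pos θ s h (K * h) a b) ≤ 32 * M / (θ * K) ^ 2 := by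
  have hh' : (0 : ℝ) < h := by exact_mod_cast hh
  have hK' : (0 : ℝ) < K := by exact_mod_cast hK
  have hKh : 0 < K * h := Nat.mul_pos hK hh
  have hR2 : R = 2 * h * (K * t) := by rw [hR]; ring
  have h0 : (0 : ℝ) ≤ 1 / (θ * ((K * h : ℕ) : ℝ)) := by positivity
  have h1 := energy_lip hG (Φ := loc (1 / (θ * ((K * h : ℕ) : ℝ))) h (ctr h b)
      (plat θ s (K * h) a)) (lam := 1 / (θ * ((K * h : ℕ) : ℝ))) h0
    (loc_lip h0 (plat_lip hθ hKh a)) (z := ctr h b) (r := 2 * h)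
    (fun x hx => loc_zero (by push_cast at hx; exact hx))
    (by
      have e1 := ctr_norm' hR2 hb
      have e2 := two_h_le hR2 hR0
      have e3 : (0 : ℝ) ≤ R := by positivity
      push_cast
      linarith)
  refine (le_of_eq rfl).trans (h1.trans (le_of_eq ?_))
  push_cast
  field_simp
  ring

lemma g_sq_le {pos : V → ℤ × ℤ} {s h K : ℕ} (hh : 0 < h) (hK : 0 < K) {θ : ℝ}
    (hθ : 0 < θ) (a b : ℤ × ℤ) (i : V) :
    gV pos θ s h (K * h) a b i ^ 2 ≤ 1 / (θ * K) ^ 2 := by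
  have hh' : (0 : ℝ) < h := by exact_mod_cast hh
  have hK' : (0 : ℝ) < K := by exact_mod_cast hK
  have hKh : 0 < K * h := Nat.mul_pos hK hh
  have h0 : (0 : ℝ) ≤ 1 / (θ * ((K * h : ℕ) : ℝ)) := by positivity
  have h1 := abs_loc_le (l := (h : ℝ)) h0 hh'.le (z := ctr h b) (plat_lip (s := s) hθ hKh a) (pos i)
  have h2 : 1 / (θ * ((K * h : ℕ) : ℝ)) * h = 1 / (θ * K) := by
    push_cast
    field_simp
  rw [h2] at h1
  have h3 : gV pos θ s h (K * h) a b i ^ 2 ≤ (1 / (θ * K)) ^ 2 := by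
    rw [← sq_abs]
    exact pow_le_pow_left₀ (abs_nonneg _) h1 2
  calc _ ≤ (1 / (θ * K)) ^ 2 := h3
    _ = _ := by rw [div_pow, one_pow]

/-! ### the localisation identities -/

lemma near_eq {c : V → V → ℝ} {pos : V → ℤ × ℤ} {s R : ℕ} {M : ℝ} (hG : Geo c pos s R M)
    (hR0 : 0 < R) {h : ℕ} {a : ℤ × ℤ} {i k : V} (hik : c i k ≠ 0)
    (h1 : i ∈ blk pos s h a ∨ k ∈ blk pos s h a) :
    chV pos R h a i = psV pos R i - psi R (ctr h a) ∧
      chV pos R h a k = psV pos R k - psi R (ctr h a) := by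
  have h0 : (0 : ℝ) ≤ 1 / (R : ℝ) := by positivity
  have h2 := near_blk (hG.range i k hik) h1
  exact ⟨loc_eq h0 (psi_lip hR0) h2.1, loc_eq h0 (psi_lip hR0) h2.2⟩

lemma g_eq {c : V → V → ℝ} {pos : V → ℤ × ℤ} {s R : ℕ} {M : ℝ} (hG : Geo c pos s R M)
    {h H : ℕ} (hH : 0 < H) {θ : ℝ} (hθ : 0 < θ) (a : ℤ × ℤ) {b : ℤ × ℤ} {i k : V}
    (hik : c i k ≠ 0) (h1 : i ∈ blk pos s h b ∨ k ∈ blk pos s h b) :
    gV pos θ s h H a b i = plV pos θ s H a i - plat θ s H a (ctr h b) ∧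
      gV pos θ s h H a b k = plV pos θ s H a k - plat θ s H a (ctr h b) := by
  have hH' : (0 : ℝ) < H := by exact_mod_cast hH
  have h0 : (0 : ℝ) ≤ 1 / (θ * H) := by positivity
  have h2 := near_blk (hG.range i k hik) h1
  exact ⟨loc_eq h0 (plat_lip hθ hH a) h2.1, loc_eq h0 (plat_lip hθ hH a) h2.2⟩

/-! ### the increments -/

/-- the fine cells in the coarse cell `a` -/
def fib (K t : ℕ) (a : ℤ × ℤ) : Finset (ℤ × ℤ) := (cells (K * t)).filter fun b => par K b = a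

lemma mem_fib {K t : ℕ} {a b : ℤ × ℤ} : b ∈ fib K t a ↔ b ∈ cells (K * t) ∧ par K b = a := by
  unfold fib; rw [Finset.mem_filter]

lemma sum_fib {K t : ℕ} (hK : 0 < K) (F : ℤ × ℤ → ℝ) :
    ∑ b ∈ cells (K * t), F b = ∑ a ∈ cells t, ∑ b ∈ fib K t a, F b := by
  unfold fib
  rw [Finset.sum_fiberwise_of_maps_to]
  intro b hb
  exact par_mem hK hb

/-- the increment of the conditional variance in the coarse cell `a` -/
def Inc (c : V → V → ℝ) (ν : Measure (V → Spin (n + 2))) (pos : V → ℤ × ℤ) (s h K t R : ℕ)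
    (x y : Fin (n + 2)) (a : ℤ × ℤ) : ℝ :=
  cvar c ν (blk pos s (K * h) a) x y (psV pos R)
    - ∑ b ∈ fib K t a, cvar c ν (blk pos s h b) x y (psV pos R)

lemma blk_disj {pos : V → ℤ × ℤ} {s h : ℕ} {a b : ℤ × ℤ} (hab : a ≠ b) :
    Disjoint (blk pos s h a) (blk pos s h b) := by
  rw [Finset.disjoint_left]
  intro i hi hk
  have := blk_far hab hi hk
  rw [sub_self, norm_zero] at this
  have h2 : (0 : ℝ) ≤ s := by positivity
  linarith

lemma blk_sep {c : V → V → ℝ} {pos : V → ℤ × ℤ} {s R : ℕ} {M : ℝ} (hG : Geo c pos s R M)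
    {h : ℕ} {a b : ℤ × ℤ} (hab : a ≠ b) {i k : V} (hi : i ∈ blk pos s h a)
    (hk : k ∈ blk pos s h b) : c i k = 0 := by
  by_contra hc
  have h1 := blk_far hab hi hk
  have h2 := hG.range i k hc
  have h3 : (0 : ℝ) ≤ s := by positivity
  linarith

lemma fib_sub {pos : V → ℤ × ℤ} {s h K t : ℕ} (hK : 0 < K) {a b : ℤ × ℤ} (hb : b ∈ fib K t a) :
    blk pos s h b ⊆ blk pos s (K * h) a := by
  rw [mem_fib] at hb
  rw [← hb.2]
  exact blk_subset hK b

lemma cvar_ch {c : V → V → ℝ} {pos : V → ℤ × ℤ} {s R : ℕ} {M : ℝ} (hG : Geo c pos s R M)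
    {ν : Measure (V → Spin (n + 2))} (hR0 : 0 < R) {H : ℕ} {a : ℤ × ℤ} (x y : Fin (n + 2))
    {B : Finset V} (hB : B ⊆ blk pos s H a) :
    cvar c ν B x y (chV pos R H a) = cvar c ν B x y (psV pos R) := by
  apply cvar_congr
  intro i k hik h1
  have h2 := near_eq hG hR0 hik (h1.imp (fun h => hB h) (fun h => hB h))
  rw [h2.1, h2.2]
  ring

lemma incr_Inc {c : V → V → ℝ} {pos : V → ℤ × ℤ} {s R : ℕ} {M : ℝ} (hG : Geo c pos s R M)
    {ν : Measure (V → Spin (n + 2))} (hν : Gibbs c (bx pos (5 * (R : ℝ))) ν)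
    {h K t : ℕ} (hK : 0 < K) (hR : R = 2 * (K * h) * t) (hR0 : 0 < R)
    (x y : Fin (n + 2)) {a : ℤ × ℤ} (ha : a ∈ cells t) :
    incr c ν ((fib K t a).biUnion (blk pos s h)) (blk pos s (K * h) a) x y
      (chV pos R (K * h) a) = Inc c ν pos s h K t R x y a := by
  have hD : blk pos s (K * h) a ⊆ bx pos (5 * (R : ℝ)) := blk_sub_bx hR hR0 ha
  have hU : (fib K t a).biUnion (blk pos s h) ⊆ blk pos s (K * h) a := by
    rw [Finset.biUnion_subset]
    intro b hb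
    exact fib_sub hK hb
  rw [incr_eq hν hU hD, cvar_biUnion hν (fib K t a) (blk pos s h)
    (fun b hb => (fib_sub hK hb).trans hD)
    (fun b _ b' _ hne => blk_disj hne)
    (fun b _ b' _ hne i hi k hk => blk_sep hG hne hi hk), cvar_ch hG hR0 x y (le_refl _)]
  unfold Inc
  congr 1
  refine Finset.sum_congr rfl fun b hb => ?_
  exact cvar_ch hG hR0 x y (fib_sub hK hb)

lemma incr_nonneg {c : V → V → ℝ} {ν : Measure (V → Spin (n + 2))} {U D : Finset V}
    {a b : Fin (n + 2)} {χ : V → ℝ} : 0 ≤ incr c ν U D a b χ :=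
  integral_nonneg fun _ => sq_nonneg _

lemma Inc_nonneg {c : V → V → ℝ} {pos : V → ℤ × ℤ} {s R : ℕ} {M : ℝ} (hG : Geo c pos s R M)
    {ν : Measure (V → Spin (n + 2))} (hν : Gibbs c (bx pos (5 * (R : ℝ))) ν)
    {h K t : ℕ} (hK : 0 < K) (hR : R = 2 * (K * h) * t) (hR0 : 0 < R)
    (x y : Fin (n + 2)) {a : ℤ × ℤ} (ha : a ∈ cells t) :
    0 ≤ Inc c ν pos s h K t R x y a := by
  rw [← incr_Inc hG hν hK hR hR0 x y ha]
  exact incr_nonneg

lemma Phi_sub {c : V → V → ℝ} {pos : V → ℤ × ℤ} {s R : ℕ} {ν : Measure (V → Spin (n + 2))}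
    {h K t : ℕ} (hK : 0 < K) (x y : Fin (n + 2)) :
    Phi c ν pos s (K * h) t x y R - Phi c ν pos s h (K * t) x y R
      = ∑ a ∈ cells t, Inc c ν pos s h K t R x y a := by
  unfold Phi Inc
  rw [sum_fib hK, ← Finset.sum_sub_distrib]
  rfl


/-! ### one coarse cell -/

lemma sqrt_ea {M' x θ : ℝ} (hM' : 0 ≤ M') (hx : 0 ≤ x) (hθ : 0 < θ) :
    Real.sqrt (32 * M' * x ^ 2 * (8 * M' / θ ^ 2)) = 16 * M' * x / θ := by
  have : 32 * M' * x ^ 2 * (8 * M' / θ ^ 2) = (16 * M' * x / θ) ^ 2 := by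
    field_simp
    ring
  rw [this, Real.sqrt_sq (by positivity)]

lemma sqrt_eb {M' x θ k : ℝ} (hM' : 0 ≤ M') (hx : 0 ≤ x) (hθ : 0 < θ) (hk : 0 < k) :
    Real.sqrt (32 * M' * (x / k) ^ 2 * (32 * M' / (θ * k) ^ 2)) = 32 * M' * x / (θ * k ^ 2) := by
  have : 32 * M' * (x / k) ^ 2 * (32 * M' / (θ * k) ^ 2) = (32 * M' * x / (θ * k ^ 2)) ^ 2 := by
    field_simp
  rw [this, Real.sqrt_sq (by positivity)]

lemma sqrt_b {M' θ k : ℝ} (hM' : 0 ≤ M') (hθ : 0 < θ) (hk : 0 < k) :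
    Real.sqrt (32 * M' / (θ * k) ^ 2) = Real.sqrt (32 * M') / (θ * k) := by
  rw [Real.sqrt_div (by positivity), Real.sqrt_sq (by positivity)]

/-- the contribution of the edges in one coarse cell -/
def Cell (c : V → V → ℝ) (ν : Measure (V → Spin (n + 2))) (pos : V → ℤ × ℤ) (θ : ℝ)
    (s H R : ℕ) (p q : Fin (n + 2)) (a : ℤ × ℤ) : ℝ :=
  ∑ i, ∑ k, c i k * (mid (plV pos θ s H a) i k * (psV pos R i - psV pos R k) ^ 2
        * ∫ S, Pab p q (S i : EuclideanSpace ℝ (Fin (n + 2))) (S k) ∂ν)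

theorem cell_estimate {c : V → V → ℝ} {pos : V → ℤ × ℤ} {s R : ℕ} {M : ℝ}
    (hG : Geo c pos s R M)
    {ν : Measure (V → Spin (n + 2))} (hν : Gibbs c (bx pos (5 * (R : ℝ))) ν)
    {p r q : Fin (n + 2)} (hpr : p ≠ r) (hrq : r ≠ q) (hpq : p ≠ q)
    (hσ : SigInv hpr hrq hpq ν) {h K t : ℕ} (hh : 0 < h) (hK : 0 < K)
    (hR : R = 2 * (K * h) * t) (hR0 : 0 < R) {θ : ℝ} (hθ : 0 < θ) (hθ1 : θ ≤ 1) {a : ℤ × ℤ}
    (ha : a ∈ cells t) {M' : ℝ} (hM : M ≤ M') (hM' : 1 ≤ M') :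
    Cell c ν pos θ s (K * h) R p q a
      - ∑ b ∈ fib K t a, plat θ s (K * h) a (ctr h b) * cvar c ν (blk pos s h b) p q (psV pos R)
      ≤ 100 * (Real.sqrt (Inc c ν pos s h K t R p r a)
            * (16 * M' * (((K * h : ℕ) : ℝ) / R) / θ)
          + Real.sqrt (Inc c ν pos s h K t R p q a)
            * (48 * M' * (((K * h : ℕ) : ℝ) / R) / θ)
          + 32 * M' * Real.sqrt (32 * M') * (((K * h : ℕ) : ℝ) / R) ^ 2 / (θ * K)) := by
  have hR' : (0 : ℝ) < R := by exact_mod_cast hR0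
  have hh' : (0 : ℝ) < h := by exact_mod_cast hh
  have hK' : (0 : ℝ) < K := by exact_mod_cast hK
  have hKh : 0 < K * h := Nat.mul_pos hK hh
  have hKh' : (0 : ℝ) < ((K * h : ℕ) : ℝ) := by exact_mod_cast hKh
  have hM0 : 0 ≤ M' := by linarith
  have hM0' : 0 < M' := by linarith
  have hR2 : R = 2 * h * (K * t) := by rw [hR]; ring
  set x : ℝ := ((K * h : ℕ) : ℝ) / R with hx
  have hx0 : 0 < x := by positivity
  have hxh : (h : ℝ) / R = x / K := by
    rw [hx]; push_cast; field_simp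
  set D := blk pos s (K * h) a with hDdef
  have hD : D ⊆ bx pos (5 * (R : ℝ)) := blk_sub_bx hR hR0 ha
  have hcard : ((fib K t a).card : ℝ) = (K : ℝ) ^ 2 := by
    have := card_fiber hK ha
    unfold fib
    rw [this]; push_cast; rfl
  have key := perD hν hpr hrq hpq hσ hD (fib K t a) (blk pos s h)
    (fun b hb => fib_sub hK hb)
    (fun b _ b' _ hne => blk_disj hne)
    (fun b _ b' _ hne i hi k hk => blk_sep hG hne hi hk)
    (χ := chV pos R (K * h) a) (f := plV pos θ s (K * h) a)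
    (fun i hi => ch_zero hR hR0 ha hi)
    (fun i hi => plat_zero hθ (fun hcon => hi (by
      rw [hDdef]; unfold blk; rw [Finset.mem_filter]; exact ⟨Finset.mem_univ i, hcon⟩)))
    (fun i => by
      have := plat_mem (θ := θ) (s := s) (h := K * h) a (pos i)
      unfold plV
      rw [abs_of_nonneg this.1]
      exact this.2)
    (fun b => chV pos R h b) (fun b => gV pos θ s h (K * h) a b)
    (fun b => psi R (ctr h b) - psi R (ctr (K * h) a)) (fun b => plat θ s (K * h) a (ctr h b))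
    (fun b hb i hi => ch_zero hR2 hR0 (mem_fib.1 hb).1 hi)
    (fun b hb i hi => g_zero hR2 hR0 a (mem_fib.1 hb).1 hi)
    (fun b hb i k hik h1 => by
      have e1 := near_eq hG hR0 hik h1
      have e2 := near_eq hG hR0 hik (h1.imp (fun h => fib_sub hK hb h) (fun h => fib_sub hK hb h))
      have e3 := g_eq hG hKh hθ a hik h1
      rw [e1.1, e1.2, e2.1, e2.2, e3.1, e3.2]
      refine ⟨by ring, by ring, by ring, by ring⟩)
    (e := 32 * M' * x ^ 2) (a := 8 * M' / θ ^ 2) (e₁ := 32 * M' * (x / K) ^ 2)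
    (b := 32 * M' / (θ * K) ^ 2) (by positivity)
    (by
      rw [le_div_iff₀ (by positivity), one_mul]
      have : θ ^ 2 ≤ 1 := pow_le_one₀ hθ.le hθ1
      linarith)
    (by positivity) (by positivity)
    ((energy_ch hG hR hR0 ha).trans (by
      rw [← hx]
      have : 0 ≤ x ^ 2 := by positivity
      nlinarith))
    ((energy_pl hG hKh hR hR0 hθ ha).trans
      (div_le_div_of_nonneg_right (by linarith) (by positivity)))
    (fun b hb => (energy_ch hG hR2 hR0 (mem_fib.1 hb).1).trans (by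
      rw [hxh]
      have : 0 ≤ (x / K) ^ 2 := by positivity
      nlinarith))
    (fun b hb => (energy_g hG hh hK hR hR0 hθ a (mem_fib.1 hb).1).trans
      (div_le_div_of_nonneg_right (by linarith) (by positivity)))
    (fun b hb i => (g_sq_le hh hK hθ a b i).trans
      (div_le_div_of_nonneg_right (by linarith) (by positivity)))
  rw [incr_Inc hG hν hK hR hR0 p r ha, incr_Inc hG hν hK hR hR0 p q ha, hcard,
    sqrt_ea hM0 hx0.le hθ, sqrt_eb hM0 hx0.le hθ hK', sqrt_b hM0 hθ hK'] at key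
  have e1 : ∑ i, ∑ k, c i k * (mid (plV pos θ s (K * h) a) i k
      * (chV pos R (K * h) a i - chV pos R (K * h) a k) ^ 2
        * ∫ S, Pab p q (S i : EuclideanSpace ℝ (Fin (n + 2))) (S k) ∂ν)
      = Cell c ν pos θ s (K * h) R p q a := by
    unfold Cell
    refine Finset.sum_congr rfl fun i _ => Finset.sum_congr rfl fun k _ => ?_
    by_cases hc : c i k = 0
    · rw [hc, zero_mul, zero_mul]
    by_cases h1 : i ∈ blk pos s (K * h) a ∨ k ∈ blk pos s (K * h) a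
    · have e2 := near_eq hG hR0 hc h1
      rw [e2.1, e2.2]
      ring
    · push Not at h1
      have e3 : ∀ j, j ∉ blk pos s (K * h) a → plV pos θ s (K * h) a j = 0 := fun j hj =>
        plat_zero hθ (fun hcon => hj (by
          unfold blk; rw [Finset.mem_filter]; exact ⟨Finset.mem_univ j, hcon⟩))
      unfold mid
      rw [e3 i h1.1, e3 k h1.2]
      ring
  have e2 : ∑ b ∈ fib K t a, plat θ s (K * h) a (ctr h b)
        * cvar c ν (blk pos s h b) p q (chV pos R (K * h) a)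
      = ∑ b ∈ fib K t a, plat θ s (K * h) a (ctr h b)
        * cvar c ν (blk pos s h b) p q (psV pos R) :=
    Finset.sum_congr rfl fun b hb => by rw [cvar_ch hG hR0 p q (fib_sub hK hb)]
  rw [e1, e2] at key
  refine key.trans (le_of_eq ?_)
  have e3 : (K : ℝ) ^ 2 * (32 * M' * x / (θ * K ^ 2)) = 32 * M' * x / θ := by
    field_simp
  have e4 : (K : ℝ) ^ 2 * (32 * M' * (x / K) ^ 2 * (Real.sqrt (32 * M') / (θ * K)))
      = 32 * M' * Real.sqrt (32 * M') * x ^ 2 / (θ * K) := by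
    field_simp
  rw [e3, e4]
  ring


/-! ### assembly -/

lemma const_bounds {M M' T : ℝ} (hM : M ≤ M') (hM1 : 1 ≤ M') (hT : 0 ≤ T) :
    1 ≤ 48000 * M' * (T + 1) ∧ 128 * M ≤ 48000 * M' * (T + 1)
      ∧ 100 * (64 * M') ≤ 48000 * M' * (T + 1) ∧ 100 * (192 * M') ≤ 48000 * M' * (T + 1)
      ∧ 100 * (480 * M' * T) ≤ 48000 * M' * (T + 1) := by
  have h1 : 0 ≤ M' * T := by positivity
  have h2 : 48000 * M' * (T + 1) = 48000 * (M' * T) + 48000 * M' := by ring
  have h3 : 100 * (480 * M' * T) = 48000 * (M' * T) := by ring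
  rw [h2, h3]
  refine ⟨?_, ?_, ?_, ?_, ?_⟩ <;> linarith

lemma sum_sqrt_le {ι : Type} (s : Finset ι) (I : ι → ℝ) (hI : ∀ a ∈ s, 0 ≤ I a) :
    ∑ a ∈ s, Real.sqrt (I a) ≤ Real.sqrt s.card * Real.sqrt (∑ a ∈ s, I a) := by
  rw [← Real.sqrt_mul (by positivity)]
  apply Real.le_sqrt_of_sq_le
  refine (sq_sum_le_card_mul_sum_sq).trans (le_of_eq ?_)
  congr 1
  exact Finset.sum_congr rfl fun a ha => Real.sq_sqrt (hI a ha)

lemma Ublk_sub {pos : V → ℤ × ℤ} {s R h t : ℕ} (hR : R = 2 * h * t) (hR0 : 0 < R) :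
    Ublk pos s h t ⊆ bx pos (5 * (R : ℝ)) := by
  unfold Ublk
  rw [Finset.biUnion_subset]
  intro b hb
  exact blk_sub_bx hR hR0 hb

lemma psV_zero {pos : V → ℤ × ℤ} {R : ℕ} {i : V} (hi : i ∉ bx pos (5 * (R : ℝ))) :
    psV pos R i = 0 := by
  rw [mem_bx, not_lt] at hi
  apply psi_zero
  have : (0 : ℝ) ≤ R := by positivity
  linarith

lemma cvar_Ublk {c : V → V → ℝ} {pos : V → ℤ × ℤ} {s R : ℕ} {M : ℝ} (hG : Geo c pos s R M)
    {ν : Measure (V → Spin (n + 2))} (hν : Gibbs c (bx pos (5 * (R : ℝ))) ν)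
    {h t : ℕ} (hR : R = 2 * h * t) (hR0 : 0 < R) (x y : Fin (n + 2)) :
    cvar c ν (Ublk pos s h t) x y (psV pos R) = Phi c ν pos s h t x y R := by
  unfold Ublk Phi
  rw [cvar_biUnion hν (cells t) (blk pos s h) (fun b hb => blk_sub_bx hR hR0 hb)
    (fun b _ b' _ hne => blk_disj hne)
    (fun b _ b' _ hne i hi k hk => blk_sep hG hne hi hk)]
  rfl

end Level

open Level in
theorem level_estimate (n : ℕ) (M : ℝ) : ∃ C : ℝ, 1 ≤ C ∧
    ∀ (V : Type) [Fintype V] [DecidableEq V] (c : V → V → ℝ)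
      (pos : V → ℤ × ℤ) (s R : ℕ), Geo c pos s R M →
    ∀ (ν : Measure (V → Spin (n + 2))), Gibbs c (bx pos (5 * (R : ℝ))) ν →
    ∀ (p r q : Fin (n + 2)) (hpr : p ≠ r) (hrq : r ≠ q) (hpq : p ≠ q), SigInv hpr hrq hpq ν →
    ∀ (h K t : ℕ), 0 < h → 0 < K → 0 < s → R = 2 * (K * h) * t → 0 < R → 2 * s ≤ R →
    ∀ θ : ℝ, 0 < θ → θ ≤ 1 →
    ∫ S, (Pc c (Ublk pos s h (K * t)) (Yv c p q (gr fun i => psi R (pos i))) S) ^ 2 ∂ν
      ≤ C * (θ + ((s : ℝ) + 1) / (K * h)) + C / θ * (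
        Real.sqrt (Phi c ν pos s (K * h) t p r R - Phi c ν pos s h (K * t) p r R)
        + Real.sqrt (Phi c ν pos s (K * h) t p q R - Phi c ν pos s h (K * t) p q R) + 1 / K) := by
  set M' : ℝ := max M 1 with hM'def
  have hM : M ≤ M' := le_max_left _ _
  have hM1 : 1 ≤ M' := le_max_right _ _
  set T : ℝ := Real.sqrt (32 * M') with hT
  have hT0 : 0 ≤ T := Real.sqrt_nonneg _
  obtain ⟨hC1, hC2, hC3, hC4, hC5⟩ := const_bounds hM hM1 hT0
  refine ⟨48000 * M' * (T + 1), hC1, ?_⟩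
  intro V _ _ c pos s R hG ν hν p r q hpr hrq hpq hσ h K t hh hK hs hR hR0 hsR θ hθ hθ1
  have := hν.prob
  have hR' : (0 : ℝ) < R := by exact_mod_cast hR0
  have hh' : (0 : ℝ) < h := by exact_mod_cast hh
  have hK' : (0 : ℝ) < K := by exact_mod_cast hK
  have hKh : 0 < K * h := Nat.mul_pos hK hh
  have hKh' : (0 : ℝ) < ((K * h : ℕ) : ℝ) := by exact_mod_cast hKh
  have ht := t_pos hR hR0
  have ht' : (0 : ℝ) < t := by exact_mod_cast ht
  have hR2 : R = 2 * h * (K * t) := by rw [hR]; ring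
  have hM0 : 0 < M' := by linarith
  set x : ℝ := ((K * h : ℕ) : ℝ) / R with hx
  have hxt : x = 1 / (2 * t) := by
    rw [hx, hR]; push_cast; field_simp
  have hx0 : 0 < x := by positivity
  set P : V → V → ℝ := fun i k =>
    ∫ S, Pab p q (S i : EuclideanSpace ℝ (Fin (n + 2))) (S k) ∂ν with hP
  have hP1 : ∀ i k, |P i k| ≤ 1 := fun i k => abs_int_Pab_le hpq i k
  set ψ : V → ℝ := psV pos R with hψ
  set md : ℤ × ℤ → V → V → ℝ := fun a i k => mid (plV pos θ s (K * h) a) i k with hmd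
  -- the second moment
  have h1 : ∫ S, (Pc c (Ublk pos s h (K * t)) (Yv c p q (gr fun i => psi R (pos i))) S) ^ 2 ∂ν
      = ∑ i, ∑ k, c i k * ((ψ i - ψ k) ^ 2 * P i k) - Phi c ν pos s h (K * t) p q R := by
    rw [← cvar_Ublk hG hν hR2 hR0 p q]
    exact sq_Pc_current hν (Ublk_sub hR2 hR0) hpq (χ := psV pos R) (fun i hi => psV_zero hi)
  -- splitting
  have h2 : ∑ i, ∑ k, c i k * ((ψ i - ψ k) ^ 2 * P i k)
      = ∑ i, ∑ k, c i k * ((ψ i - ψ k) ^ 2 * P i k * (1 - ∑ a ∈ cells t, md a i k))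
        + ∑ a ∈ cells t, Cell c ν pos θ s (K * h) R p q a := by
    have e : ∑ a ∈ cells t, Cell c ν pos θ s (K * h) R p q a
        = ∑ i, ∑ k, c i k * ((ψ i - ψ k) ^ 2 * P i k * ∑ a ∈ cells t, md a i k) := by
      unfold Cell
      rw [Finset.sum_comm]
      refine Finset.sum_congr rfl fun i _ => ?_
      rw [Finset.sum_comm]
      refine Finset.sum_congr rfl fun k _ => ?_
      rw [Finset.mul_sum, Finset.mul_sum]
      refine Finset.sum_congr rfl fun a _ => ?_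
      simp only [hP, hψ, hmd]
      ring
    rw [e, ← Finset.sum_add_distrib]
    refine Finset.sum_congr rfl fun i _ => ?_
    rw [← Finset.sum_add_distrib]
    refine Finset.sum_congr rfl fun k _ => ?_
    ring
  have h3 : ∑ i, ∑ k, c i k * ((ψ i - ψ k) ^ 2 * P i k * (1 - ∑ a ∈ cells t, md a i k))
      ≤ 128 * M * (θ + ((s : ℝ) + 1) / ((K * h : ℕ) : ℝ)) := by
    refine le_trans ?_ (layer_sum hG hKh hR hR0 hsR hθ hθ1)
    refine Finset.sum_le_sum fun i _ => Finset.sum_le_sum fun k _ => ?_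
    have e1 : 0 ≤ 1 - ∑ a ∈ cells t, md a i k := by
      have := mid_sum_le (pos := pos) (s := s) (h := K * h) (t := t) hθ i k
      simp only [hmd]
      unfold plV
      linarith
    have e2 : 0 ≤ (ψ i - ψ k) ^ 2 * (1 - ∑ a ∈ cells t, md a i k) :=
      mul_nonneg (sq_nonneg _) e1
    have e3 : c i k * P i k ≤ |c i k| := by
      calc c i k * P i k ≤ |c i k * P i k| := le_abs_self _
        _ = |c i k| * |P i k| := abs_mul _ _
        _ ≤ |c i k| * 1 := mul_le_mul_of_nonneg_left (hP1 i k) (abs_nonneg _)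
        _ = |c i k| := mul_one _
    calc c i k * ((ψ i - ψ k) ^ 2 * P i k * (1 - ∑ a ∈ cells t, md a i k))
        = (c i k * P i k) * ((ψ i - ψ k) ^ 2 * (1 - ∑ a ∈ cells t, md a i k)) := by ring
      _ ≤ |c i k| * ((ψ i - ψ k) ^ 2 * (1 - ∑ a ∈ cells t, md a i k)) :=
        mul_le_mul_of_nonneg_right e3 e2
      _ = _ := rfl
  have h4 : Phi c ν pos s h (K * t) p q R
      = ∑ a ∈ cells t, ∑ b ∈ fib K t a, cvar c ν (blk pos s h b) p q (psV pos R) := by
    unfold Phi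
    rw [sum_fib hK]
    rfl
  have h5 : ∑ a ∈ cells t, (Cell c ν pos θ s (K * h) R p q a
        - ∑ b ∈ fib K t a, plat θ s (K * h) a (ctr h b) * cvar c ν (blk pos s h b) p q ψ)
      ≤ ∑ a ∈ cells t, 100 * (Real.sqrt (Inc c ν pos s h K t R p r a) * (16 * M' * x / θ)
          + Real.sqrt (Inc c ν pos s h K t R p q a) * (48 * M' * x / θ)
          + 32 * M' * T * x ^ 2 / (θ * K)) :=
    Finset.sum_le_sum fun a ha =>
      cell_estimate hG hν hpr hrq hpq hσ hh hK hR hR0 hθ hθ1 ha hM hM1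
  have h6 : ∑ a ∈ cells t, Cell c ν pos θ s (K * h) R p q a - Phi c ν pos s h (K * t) p q R
      ≤ ∑ a ∈ cells t, (Cell c ν pos θ s (K * h) R p q a
        - ∑ b ∈ fib K t a, plat θ s (K * h) a (ctr h b) * cvar c ν (blk pos s h b) p q ψ) := by
    rw [h4, ← Finset.sum_sub_distrib]
    refine Finset.sum_le_sum fun a _ => ?_
    apply sub_le_sub_left
    refine Finset.sum_le_sum fun b _ => ?_
    have e1 : 0 ≤ cvar c ν (blk pos s h b) p q ψ := cvar_nonneg
    have e2 := (plat_mem (θ := θ) (s := s) (h := K * h) a (ctr h b)).2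
    exact mul_le_of_le_one_left e1 e2
  -- summation over the cells
  set N : ℝ := ((cells t).card : ℝ) with hN
  have hN60 : N = 60 * (t : ℝ) ^ 2 := by
    rw [hN, card_cells]; push_cast; rfl
  have hNx : N * x ^ 2 = 15 := by
    rw [hN60, hxt]; field_simp; norm_num
  have hsx : Real.sqrt N * x ≤ 4 := by
    have e1 : Real.sqrt N * x = Real.sqrt 15 := by
      rw [← hNx, Real.sqrt_mul (Nat.cast_nonneg _), Real.sqrt_sq hx0.le]
    rw [e1]
    have : Real.sqrt 15 ≤ Real.sqrt (4 ^ 2) := Real.sqrt_le_sqrt (by norm_num)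
    rwa [Real.sqrt_sq (by norm_num)] at this
  have hIA : ∀ a ∈ cells t, 0 ≤ Inc c ν pos s h K t R p r a := fun a ha =>
    Inc_nonneg hG hν hK hR hR0 p r ha
  have hIC : ∀ a ∈ cells t, 0 ≤ Inc c ν pos s h K t R p q a := fun a ha =>
    Inc_nonneg hG hν hK hR hR0 p q ha
  set A : ℝ := Real.sqrt (Phi c ν pos s (K * h) t p r R - Phi c ν pos s h (K * t) p r R) with hA
  set B : ℝ := Real.sqrt (Phi c ν pos s (K * h) t p q R - Phi c ν pos s h (K * t) p q R) with hB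
  have hA0 : 0 ≤ A := Real.sqrt_nonneg _
  have hB0 : 0 ≤ B := Real.sqrt_nonneg _
  have h7 : ∑ a ∈ cells t, Real.sqrt (Inc c ν pos s h K t R p r a) ≤ Real.sqrt N * A := by
    have := sum_sqrt_le (cells t) _ hIA
    rw [hA, Phi_sub hK]
    exact this
  have h8 : ∑ a ∈ cells t, Real.sqrt (Inc c ν pos s h K t R p q a) ≤ Real.sqrt N * B := by
    have := sum_sqrt_le (cells t) _ hIC
    rw [hB, Phi_sub hK]
    exact this
  have h9 : ∑ a ∈ cells t, 100 * (Real.sqrt (Inc c ν pos s h K t R p r a) * (16 * M' * x / θ)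
          + Real.sqrt (Inc c ν pos s h K t R p q a) * (48 * M' * x / θ)
          + 32 * M' * T * x ^ 2 / (θ * K))
      = 100 * ((∑ a ∈ cells t, Real.sqrt (Inc c ν pos s h K t R p r a)) * (16 * M' * x / θ)
          + (∑ a ∈ cells t, Real.sqrt (Inc c ν pos s h K t R p q a)) * (48 * M' * x / θ)
          + N * (32 * M' * T * x ^ 2 / (θ * K))) := by
    rw [← Finset.mul_sum, Finset.sum_add_distrib, Finset.sum_add_distrib, Finset.sum_const,
      nsmul_eq_mul, Finset.sum_mul, Finset.sum_mul]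
  have h10 : (∑ a ∈ cells t, Real.sqrt (Inc c ν pos s h K t R p r a)) * (16 * M' * x / θ)
      ≤ 64 * M' / θ * A := by
    calc _ ≤ Real.sqrt N * A * (16 * M' * x / θ) :=
          mul_le_mul_of_nonneg_right h7
            (div_nonneg (mul_nonneg (mul_nonneg (by norm_num) hM0.le) hx0.le) hθ.le)
      _ = (Real.sqrt N * x) * (16 * M' / θ * A) := by ring
      _ ≤ 4 * (16 * M' / θ * A) := mul_le_mul_of_nonneg_right hsx
          (mul_nonneg (div_nonneg (mul_nonneg (by norm_num) hM0.le) hθ.le) hA0)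
      _ = _ := by ring
  have h11 : (∑ a ∈ cells t, Real.sqrt (Inc c ν pos s h K t R p q a)) * (48 * M' * x / θ)
      ≤ 192 * M' / θ * B := by
    calc _ ≤ Real.sqrt N * B * (48 * M' * x / θ) :=
          mul_le_mul_of_nonneg_right h8
            (div_nonneg (mul_nonneg (mul_nonneg (by norm_num) hM0.le) hx0.le) hθ.le)
      _ = (Real.sqrt N * x) * (48 * M' / θ * B) := by ring
      _ ≤ 4 * (48 * M' / θ * B) := mul_le_mul_of_nonneg_right hsx
          (mul_nonneg (div_nonneg (mul_nonneg (by norm_num) hM0.le) hθ.le) hB0)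
      _ = _ := by ring
  have h12 : N * (32 * M' * T * x ^ 2 / (θ * K)) = 480 * M' * T / θ * (1 / K) := by
    calc N * (32 * M' * T * x ^ 2 / (θ * K)) = (N * x ^ 2) * (32 * M' * T / (θ * K)) := by ring
      _ = 15 * (32 * M' * T / (θ * K)) := by rw [hNx]
      _ = _ := by field_simp; ring
  have h13 : (0 : ℝ) ≤ θ + ((s : ℝ) + 1) / ((K * h : ℕ) : ℝ) :=
    add_nonneg hθ.le (div_nonneg (add_nonneg (Nat.cast_nonneg _) zero_le_one) hKh'.le)
  have h14 : 128 * M * (θ + ((s : ℝ) + 1) / ((K * h : ℕ) : ℝ))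
      ≤ 48000 * M' * (T + 1) * (θ + ((s : ℝ) + 1) / (K * h)) := by
    have e : ((K * h : ℕ) : ℝ) = K * h := by push_cast; rfl
    rw [e] at h13 ⊢
    exact mul_le_mul_of_nonneg_right hC2 h13
  have hK1 : (0 : ℝ) ≤ 1 / K := (one_div_pos.2 hK').le
  have h15 : 100 * (64 * M' / θ * A + 192 * M' / θ * B + 480 * M' * T / θ * (1 / K))
      ≤ 48000 * M' * (T + 1) / θ * (A + B + 1 / K) := by
    have e1 : 100 * (64 * M' / θ * A) ≤ 48000 * M' * (T + 1) / θ * A := by
      rw [← mul_assoc]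
      apply mul_le_mul_of_nonneg_right _ hA0
      rw [← mul_div_assoc]
      exact div_le_div_of_nonneg_right hC3 hθ.le
    have e2 : 100 * (192 * M' / θ * B) ≤ 48000 * M' * (T + 1) / θ * B := by
      rw [← mul_assoc]
      apply mul_le_mul_of_nonneg_right _ hB0
      rw [← mul_div_assoc]
      exact div_le_div_of_nonneg_right hC4 hθ.le
    have e3 : 100 * (480 * M' * T / θ * (1 / K)) ≤ 48000 * M' * (T + 1) / θ * (1 / K) := by
      rw [← mul_assoc]
      apply mul_le_mul_of_nonneg_right _ hK1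
      rw [← mul_div_assoc]
      exact div_le_div_of_nonneg_right hC5 hθ.le
    calc _ = 100 * (64 * M' / θ * A) + 100 * (192 * M' / θ * B)
          + 100 * (480 * M' * T / θ * (1 / K)) := by ring
      _ ≤ 48000 * M' * (T + 1) / θ * A + 48000 * M' * (T + 1) / θ * B
          + 48000 * M' * (T + 1) / θ * (1 / K) := by linarith
      _ = _ := by ring
  rw [h9, h12] at h5
  rw [h1, h2]
  linarith

open Level in
/-- monotonicity and total bound of the conditional variances -/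
lemma Phi_mono {c : V → V → ℝ} {pos : V → ℤ × ℤ} {s R : ℕ} {M : ℝ} (hG : Geo c pos s R M)
    {ν : Measure (V → Spin (n + 2))} (hν : Gibbs c (bx pos (5 * (R : ℝ))) ν)
    {a b : Fin (n + 2)} (hab : a ≠ b)
    {h K t : ℕ} (hh : 0 < h) (hK : 0 < K) (hs : 0 < s) (hR : R = 2 * (K * h) * t) (hR0 : 0 < R) :
    Phi c ν pos s h (K * t) a b R ≤ Phi c ν pos s (K * h) t a b R := by
  rw [← sub_nonneg, Phi_sub hK]
  exact Finset.sum_nonneg fun d hd => Inc_nonneg hG hν hK hR hR0 a b hd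

open Level in
lemma Phi_le {c : V → V → ℝ} {pos : V → ℤ × ℤ} {s R : ℕ} {M : ℝ} (hG : Geo c pos s R M)
    {ν : Measure (V → Spin (n + 2))} (hν : Gibbs c (bx pos (5 * (R : ℝ))) ν)
    {a b : Fin (n + 2)} (hab : a ≠ b)
    {h t : ℕ} (hh : 0 < h) (hs : 0 < s) (hR : R = 2 * h * t) (hR0 : 0 < R) :
    Phi c ν pos s h t a b R ≤ 72 * M := by
  have := hν.prob
  have hR' : (0 : ℝ) < R := by exact_mod_cast hR0
  have h1 := sq_Pc_current hν (Ublk_sub (s := s) hR hR0) hab (χ := psV pos R)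
    (fun i hi => psV_zero hi)
  rw [cvar_Ublk hG hν hR hR0 a b] at h1
  have h2 : 0 ≤ ∫ S, (Pc c (Ublk pos s h t) (Yv c a b (gr (psV pos R))) S) ^ 2 ∂ν :=
    integral_nonneg fun _ => sq_nonneg _
  have h3 : ∑ i, ∑ k, c i k * ((psV pos R i - psV pos R k) ^ 2
        * ∫ S, Pab a b (S i : EuclideanSpace ℝ (Fin (n + 2))) (S k) ∂ν)
      ≤ En c (psV pos R) := by
    unfold En
    refine Finset.sum_le_sum fun i _ => Finset.sum_le_sum fun k _ => ?_
    have e1 := abs_int_Pab_le (ν := ν) hab i k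
    set P : ℝ := ∫ S, Pab a b (S i : EuclideanSpace ℝ (Fin (n + 2))) (S k) ∂ν
    calc c i k * ((psV pos R i - psV pos R k) ^ 2 * P)
        = (c i k * P) * (psV pos R i - psV pos R k) ^ 2 := by ring
      _ ≤ |c i k| * (psV pos R i - psV pos R k) ^ 2 := by
        apply mul_le_mul_of_nonneg_right _ (sq_nonneg _)
        calc c i k * P ≤ |c i k * P| := le_abs_self _
          _ = |c i k| * |P| := abs_mul _ _
          _ ≤ |c i k| * 1 := mul_le_mul_of_nonneg_left e1 (abs_nonneg _)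
          _ = |c i k| := mul_one _
  have h0 : (0 : ℝ) ≤ 1 / (R : ℝ) := by positivity
  have h4 := energy_lip hG (Φ := psi R) (lam := 1 / (R : ℝ)) h0 (psi_lip hR0) (z := 0)
    (r := 3 * R)
    (fun x hx => psi_zero (by rw [sub_zero] at hx; push_cast at hx; exact hx))
    (by rw [norm_zero]; push_cast; linarith)
  have h5 : 2 * M * (1 / (R : ℝ)) ^ 2 * (2 * ((3 * R : ℕ) : ℝ)) ^ 2 = 72 * M := by
    push_cast; field_simp; ring
  rw [h5] at h4
  have h6 : En c (psV pos R) ≤ 72 * M := h4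
  linarith

open Level in
lemma Phi_nonneg {c : V → V → ℝ} {pos : V → ℤ × ℤ} {s R : ℕ}
    {ν : Measure (V → Spin (n + 2))} {a b : Fin (n + 2)} {h t : ℕ} :
    0 ≤ Phi c ν pos s h t a b R :=
  Finset.sum_nonneg fun _ _ => cvar_nonneg

end

end Pool.Agent.NVec.Full
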