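import Pool.Agent.H.MP_8be4c0_mp.Gap3
import Pool.Agent.H.MP_8be4c0_mp.Gap4

/-!
Infinite volume limits (along arbitrary subsequences of tori) and the mass as an extended real.
-/

open MeasureTheory Set Filter Topology

namespace Pool.Agent.NVec.Full

set_option linter.unusedSectionVars false

noncomputable section

/-- the finite distance masses `- (1/(k+1)) log G((k+1) e₁)` in `[-∞, ∞]`, where
`- log 0 = ∞` -/
def massSeq (G : ℤ × ℤ → ℝ) (k : ℕ) : EReal :=
  -(ENNReal.log (ENNReal.ofReal (G ((k : ℤ) + 1, 0)))) / ((k + 1 : ℕ) : EReal)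

/-- from the uniform bound on the torus to limits along an arbitrary filter -/
lemma limit_bound' {N : ℕ} {J : ℤ × ℤ → ℝ} {β C μ : ℝ}
    (h : ∀ (L : ℕ) [NeZero L] (x y : Torus L),
      |corr N L J β x y| ≤ C * Real.exp (-(μ * tnorm (x - y))))
    {F : Filter ℕ} [F.NeBot] (hF : F ≤ atTop)
    (G : ℤ × ℤ → ℝ)
    (hG : ∀ j, Tendsto (fun k : ℕ => corr N (k + 1) J β 0 (proj (k + 1) j)) F (𝓝 (G j)))
    (j : ℤ × ℤ) : |G j| ≤ C * Real.exp (-(μ * nrm j)) := by
  have h1 : Tendsto (fun k : ℕ => |corr N (k + 1) J β 0 (proj (k + 1) j)|) F (𝓝 |G j|) :=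
    (hG j).abs
  apply le_of_tendsto h1
  have h2 : ∀ᶠ k : ℕ in F, 2 * nrm j < ((k + 1 : ℕ) : ℝ) := by
    have h3 : Tendsto (fun k : ℕ => ((k + 1 : ℕ) : ℝ)) atTop atTop :=
      tendsto_natCast_atTop_atTop.comp (tendsto_add_atTop_nat 1)
    exact (h3.mono_left hF).eventually_gt_atTop _
  filter_upwards [h2] with k hk
  have h4 := h (k + 1) 0 (proj (k + 1) j)
  rwa [zero_sub, tnorm_neg, tnorm_proj_eq j hk] at h4

/-- the two-point function of a ferromagnet is nonnegative -/
lemma corr_nonneg {n L : ℕ} [NeZero L] {J : ℤ × ℤ → ℝ} (hpos : ∀ m, m ≠ 0 → 0 ≤ J m) {β : ℝ}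
    (hβ : 0 ≤ β) (x y : Torus L) : 0 ≤ corr (n + 2) L J β x y := by
  rw [corr_eq_G1]
  have hc : ∀ i k : Torus L, i ≠ k → 0 ≤ cc L J β i k := cc_nonneg hpos hβ
  have hZ := ZZ_pos (n := n) (cc L J β) 0
  have : (0 : ℝ) ≤ (n : ℝ) + 2 := by positivity
  exact mul_nonneg this (div_nonneg (G1_nonneg hc x y) hZ.le)

/-- the mass is at least `μ` -/
lemma mass_ge {C μ : ℝ} (G : ℤ × ℤ → ℝ)
    (hG : ∀ j, |G j| ≤ C * Real.exp (-(μ * nrm j))) :
    (μ : EReal) ≤ liminf (massSeq G) atTop := by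
  -- the constant may be assumed to be at least one
  set C' := max C 1 with hC'
  have hC'1 : 1 ≤ C' := le_max_right _ _
  have hC'0 : 0 < C' := by linarith
  have hG' : ∀ j, |G j| ≤ C' * Real.exp (-(μ * nrm j)) := fun j =>
    (hG j).trans (mul_le_mul_of_nonneg_right (le_max_left _ _) (Real.exp_pos _).le)
  have hnrm : ∀ k : ℕ, nrm ((k : ℤ) + 1, 0) = (k : ℝ) + 1 := by
    intro k
    unfold nrm
    simp only
    push_cast
    rw [zero_pow (by norm_num), add_zero, Real.sqrt_sq (by positivity)]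
  -- lower bound for every term
  have key : ∀ k : ℕ, ((μ - Real.log C' / ((k : ℝ) + 1) : ℝ) : EReal) ≤ massSeq G k := by
    intro k
    have hk : (0 : ℝ) < (k : ℝ) + 1 := by positivity
    unfold massSeq
    have hb : (0 : EReal) < ((k + 1 : ℕ) : EReal) := by
      have : (0 : EReal) < (((k + 1 : ℕ) : ℝ) : EReal) := by
        apply EReal.coe_pos.2
        push_cast
        exact hk
      rwa [EReal.coe_natCast] at this
    have hb' : ((k + 1 : ℕ) : EReal) ≠ ⊤ := EReal.natCast_ne_top _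
    rw [EReal.le_div_iff_mul_le hb hb', ENNReal.log_ofReal]
    split_ifs with h0
    · rw [EReal.neg_bot]
      exact le_top
    · push Not at h0
      have h1 := (le_abs_self _).trans (hG' ((k : ℤ) + 1, 0))
      rw [hnrm] at h1
      have h3 := Real.log_le_log h0 h1
      rw [Real.log_mul hC'0.ne' (Real.exp_pos _).ne', Real.log_exp] at h3
      rw [← EReal.coe_neg, ← EReal.coe_natCast, ← EReal.coe_mul]
      apply EReal.coe_le_coe_iff.2
      push_cast
      rw [sub_mul, div_mul_cancel₀ _ hk.ne']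
      linarith
  have h4 : Tendsto (fun k : ℕ => ((μ - Real.log C' / ((k : ℝ) + 1) : ℝ) : EReal)) atTop
      (𝓝 ((μ - 0 : ℝ) : EReal)) := by
    apply (continuous_coe_real_ereal.tendsto _).comp
    apply tendsto_const_nhds.sub
    apply tendsto_const_nhds.div_atTop
    exact tendsto_atTop_add_const_right _ _ tendsto_natCast_atTop_atTop
  rw [sub_zero] at h4
  rw [← h4.liminf_eq]
  exact liminf_le_liminf (Eventually.of_forall key)

end

end Pool.Agent.NVec.Full
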