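import Pool.Agent.H.MP_8be4c0_mp.Full.TorusBox
import Pool.Agent.H.MP_8be4c0_mp.Gap3

/-!
The mass gap at all temperatures: final assembly.
-/

open MeasureTheory Set Filter Topology

namespace Pool.Agent.NVec.Full

set_option linter.unusedSectionVars false

noncomputable section

variable {n : ℕ} {V : Type} [Fintype V] [DecidableEq V]

lemma bx_subset_tball {L : ℕ} [NeZero L] (x : Torus L) {R : ℝ} (hR : 0 ≤ R) :
    bx (tpos x) R ⊆ tball x (2 * R) := by
  intro z hz
  rw [mem_tball]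
  have h1 := mem_bx.1 hz
  unfold tpos at h1
  rw [Prod.norm_def, max_lt_iff] at h1
  obtain ⟨h2, h3⟩ := h1
  simp only at h2 h3
  rw [Int.norm_eq_abs] at h2 h3
  unfold tnorm
  apply Real.sqrt_le_sqrt _ |>.trans
  · rw [Real.sqrt_sq (by positivity : (0 : ℝ) ≤ 2 * R)]
  · have h4 : ((z - x).1.valMinAbs : ℝ) ^ 2 ≤ R ^ 2 := by
      rw [← sq_abs]; exact pow_le_pow_left₀ (abs_nonneg _) h2.le 2
    have h5 : ((z - x).2.valMinAbs : ℝ) ^ 2 ≤ R ^ 2 := by
      rw [← sq_abs]; exact pow_le_pow_left₀ (abs_nonneg _) h3.le 2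
    nlinarith [sq_nonneg R]

/-- exponentially decaying functions on the lattice are summable -/
lemma summable_of_exp {C μ : ℝ} (hμ : 0 < μ) {G : ℤ × ℤ → ℝ}
    (hG : ∀ j : ℤ × ℤ, |G j| ≤ C * Real.exp (-(μ * Real.sqrt ((j.1 : ℝ) ^ 2 + (j.2 : ℝ) ^ 2)))) :
    Summable G := by
  have h1 : Summable fun k : ℤ => Real.exp (-(μ / 2 * |(k : ℝ)|)) := by
    have h2 : Summable fun k : ℕ => Real.exp (-(μ / 2 * (k : ℝ))) := by
      have h3 := summable_geometric_of_lt_one (r := Real.exp (-(μ / 2))) (Real.exp_pos _).le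
        (Real.exp_lt_one_iff.2 (by linarith))
      refine h3.congr fun k => ?_
      rw [← Real.exp_nat_mul]
      congr 1
      ring
    apply Summable.of_nat_of_neg
    · refine h2.congr fun k => ?_
      simp
    · refine h2.congr fun k => ?_
      simp
  have h4 := h1.mul_of_nonneg h1 (fun _ => (Real.exp_pos _).le) (fun _ => (Real.exp_pos _).le)
  have h5 : Summable fun j : ℤ × ℤ => C * (Real.exp (-(μ / 2 * |(j.1 : ℝ)|))
      * Real.exp (-(μ / 2 * |(j.2 : ℝ)|))) := h4.mul_left C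
  have hC : 0 ≤ C := by
    have h6 := hG 0
    have h7 := abs_nonneg (G 0)
    simp at h6
    linarith
  refine Summable.of_norm_bounded h5 fun j => ?_
  rw [Real.norm_eq_abs]
  refine (hG j).trans ?_
  apply mul_le_mul_of_nonneg_left _ hC
  rw [← Real.exp_add]
  apply Real.exp_le_exp.2
  have h8 : |(j.1 : ℝ)| ≤ Real.sqrt ((j.1 : ℝ) ^ 2 + (j.2 : ℝ) ^ 2) :=
    Real.abs_le_sqrt (by nlinarith [sq_nonneg (j.2 : ℝ)])
  have h9 : |(j.2 : ℝ)| ≤ Real.sqrt ((j.1 : ℝ) ^ 2 + (j.2 : ℝ) ^ 2) :=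
    Real.abs_le_sqrt (by nlinarith [sq_nonneg (j.1 : ℝ)])
  nlinarith

/-- **The mass gap at all temperatures.** -/
theorem mass_gap_all (n : ℕ) (hn : 1 ≤ n) {J : ℤ × ℤ → ℝ} (hpos : ∀ m, m ≠ 0 → 0 ≤ J m)
    {μ₀ : ℝ} (hμ₀ : 0 < μ₀)
    (hJ : Summable fun m : ℤ × ℤ => |J m| * Real.exp (μ₀ * nrm m)) {β : ℝ} (hβ : 0 ≤ β) :
    ∃ C μ : ℝ, 0 < μ ∧ ∀ (L : ℕ) [NeZero L] (x y : Torus L),
      |corr (n + 2) L J β x y| ≤ C * Real.exp (-(μ * tnorm (x - y))) := by
  have hJp := summable_poly hμ₀ hJ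
  have hJ0 : Summable fun m => |J m| := NVec.summable_abs hJp
  set μ₁ := μ₀ / 2 with hμ₁
  have hμ₁0 : 0 < μ₁ := half_pos hμ₀
  have hSx := Sx_nonneg J μ₁
  set X := 4 * β * Sx J μ₁ with hX
  have hX0 : 0 ≤ X := by positivity
  obtain ⟨R₁, hR₁⟩ := exists_nat_ge (48 * (X + 1))
  obtain ⟨R, m, hR1, hm0, hRm, hball⟩ := box_decay n hn hμ₀ hJ hβ
    (ε := 1 / (1200 * (X + 1))) (by positivity) R₁
  have hR1' : (R₁ : ℝ) ≤ R := by exact_mod_cast hR1
  have hR48 : 48 * (X + 1) ≤ (R : ℝ) := hR₁.trans hR1'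
  have hR0 : (0 : ℝ) < R := by linarith
  have hRnat : 1 ≤ R := by
    by_contra h
    have : R = 0 := by omega
    rw [this] at hR0
    simp at hR0
  -- the averaging radius
  set Q : ℕ := 4 * R with hQ
  have hQR : (Q : ℝ) = 4 * R := by rw [hQ]; push_cast; ring
  have hQ0 : (0 : ℝ) < Q := by rw [hQR]; positivity
  have hsmall : X * (25 * Q * m + 16 / Q) ≤ 1 / 6 := by
    rw [hQR]
    have h1 : X * (100 * (R * m)) ≤ 1 / 12 := by
      have h2 : X * (100 * (R * m)) ≤ X * (100 * (1 / (1200 * (X + 1)))) := by gcongr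
      refine h2.trans ?_
      rw [show X * (100 * (1 / (1200 * (X + 1)))) = X / (12 * (X + 1)) by field_simp; ring]
      rw [div_le_div_iff₀ (by positivity) (by norm_num)]
      linarith
    have h3 : X * (16 / (4 * R)) ≤ 1 / 12 := by
      rw [show X * (16 / (4 * (R : ℝ))) = 4 * X / R by field_simp; ring]
      rw [div_le_div_iff₀ hR0 (by norm_num)]
      linarith
    calc X * (25 * (4 * R) * m + 16 / (4 * R)) = X * (100 * (R * m)) + X * (16 / (4 * R)) := by ring
      _ ≤ 1 / 12 + 1 / 12 := add_le_add h1 h3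
      _ = 1 / 6 := by norm_num
  set μ := min μ₁ (1 / (2 * Q)) with hμ
  have hμ0 : 0 < μ := lt_min hμ₁0 (by positivity)
  have hμle : μ ≤ μ₀ / 2 := min_le_left _ _
  have hμR : 2 * Q * μ ≤ 1 := by
    have : μ ≤ 1 / (2 * Q) := min_le_right _ _
    rwa [le_div_iff₀ (by positivity), mul_comm] at this
  have hSμ := summable_exp hμ₀ hJ hμle
  have hSμ₁ := summable_exp hμ₀ hJ (le_refl (μ₀ / 2))
  have hSxμ : Sx J μ ≤ Sx J μ₁ := Sx_mono hμle hSμ hSμ₁
  refine ⟨((n : ℝ) + 2) * Real.exp (μ * (20 * R)), μ, hμ0, ?_⟩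
  intro L _ x y
  have hn2 : (0 : ℝ) < (n : ℝ) + 2 := by positivity
  by_cases hL : 20 * R < L
  · have hc : ∀ i k : Torus L, i ≠ k → 0 ≤ cc L J β i k := cc_nonneg hpos hβ
    have hZ := ZZ_pos (n := n) (cc L J β) 0
    have hB : ∀ x : Torus L, bx (tpos x) (R : ℝ) ⊆ tball x ((Q : ℝ) / 2) := fun x => by
      have e : (Q : ℝ) / 2 = 2 * R := by rw [hQR]; ring
      rw [e]
      exact bx_subset_tball x hR0.le
    have hcon := contraction (fun z : Torus L => G1 n (cc L J β) z y / ZZ n (cc L J β) 0)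
      (fun x z => tnorm (x - z)) y (Kav J β m Q fun x => bx (tpos x) (R : ℝ)) (μ := μ)
      (θ := 1 / 2) (ρ₁ := 2 * Q) hμ0.le (by norm_num)
      (fun x z => by
        have e : x - y = (x - z) + (z - y) := by abel
        rw [e]; exact tnorm_add_le _ _)
      (fun z => div_nonneg (G1_nonneg hc z y) hZ.le)
      (fun z => by rw [div_le_one hZ]; exact G1_le_ZZ _ _ _)
      (fun x z => Kav_nonneg J β hm0 Q _ x z)
      (fun z hz => by
        have h1 := avg_ineq (n := n) hc hm0 (by omega : 1 ≤ Q) (fun x => bx (tpos x) (R : ℝ)) hB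
          (fun x => hball L hL x) z y hz
        rw [div_le_iff₀ hZ, Finset.sum_mul]
        refine h1.trans (le_of_eq ?_)
        refine Finset.sum_congr rfl fun w _ => ?_
        rw [mul_assoc, div_mul_cancel₀ _ hZ.ne'])
      (fun z _ => by
        have h1 := Kav_sum (L := L) hJ0 hβ hμ0.le hSμ hm0 (by omega : 1 ≤ Q)
          (fun x => bx (tpos x) (R : ℝ)) hB z
        refine h1.trans ?_
        have h2 : Real.exp (2 * Q * μ) ≤ 3 := by
          have h3 : Real.exp (2 * Q * μ) ≤ Real.exp 1 := Real.exp_le_exp.2 hμR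
          have h4 := Real.exp_one_lt_d9
          linarith
        have h5 : 0 ≤ 25 * (Q : ℝ) * m + 16 / Q := by positivity
        have h6 := Sx_nonneg J μ
        calc Real.exp (2 * Q * μ) * (4 * β * Sx J μ) * (25 * Q * m + 16 / Q)
            ≤ 3 * (4 * β * Sx J μ₁) * (25 * Q * m + 16 / Q) := by gcongr
          _ = 3 * (X * (25 * Q * m + 16 / Q)) := by rw [hX]; ring
          _ ≤ 3 * (1 / 6) := mul_le_mul_of_nonneg_left hsmall (by norm_num)
          _ = 1 / 2 := by norm_num) x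
    rw [corr_eq_G1, abs_of_nonneg (mul_nonneg hn2.le (div_nonneg (G1_nonneg hc x y) hZ.le)),
      mul_assoc]
    apply mul_le_mul_of_nonneg_left _ hn2.le
    refine hcon.trans ?_
    apply mul_le_mul_of_nonneg_right _ (Real.exp_pos _).le
    apply Real.exp_le_exp.2
    apply mul_le_mul_of_nonneg_left _ hμ0.le
    rw [hQR]
    linarith
  · push Not at hL
    have hL' : (L : ℝ) ≤ 20 * R := by exact_mod_cast hL
    have h1 := abs_corr_le_one (n := n) J β x y
    have h2 : tnorm (x - y) ≤ 20 * R := by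
      have h3 := two_tnorm_sq_le (x - y)
      have h4 := tnorm_nonneg (x - y)
      have hL0 : (0 : ℝ) ≤ L := Nat.cast_nonneg L
      nlinarith
    have h5 : 1 ≤ Real.exp (μ * (20 * R)) * Real.exp (-(μ * tnorm (x - y))) := by
      rw [← Real.exp_add]
      apply Real.one_le_exp
      have := mul_le_mul_of_nonneg_left h2 hμ0.le
      linarith
    have h6 : (1 : ℝ) ≤ (n : ℝ) + 2 := by
      have : (0 : ℝ) ≤ n := Nat.cast_nonneg n
      linarith
    rw [mul_assoc]
    calc |corr (n + 2) L J β x y| ≤ 1 := h1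
      _ ≤ Real.exp (μ * (20 * R)) * Real.exp (-(μ * tnorm (x - y))) := h5
      _ = 1 * (Real.exp (μ * (20 * R)) * Real.exp (-(μ * tnorm (x - y)))) := (one_mul _).symm
      _ ≤ _ := mul_le_mul_of_nonneg_right h6 (by positivity)

end

end Pool.Agent.NVec.Full
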