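import Pool.Agent.H.MP_8be4c0_mp.Full.Core

/-!
Definitions for the multiscale argument: the reflection exchanging the planes, geometric data.
-/

open MeasureTheory Set Filter Topology

namespace Pool.Agent.NVec.Full

set_option linter.unusedSectionVars false

noncomputable section

variable {n : ℕ} {V : Type} [Fintype V] [DecidableEq V]

/-- exchange of the components `p`, `q` and reflection of the component `r` -/
def sigFun (p r q : Fin (n + 2)) (u : EuclideanSpace ℝ (Fin (n + 2))) :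
    EuclideanSpace ℝ (Fin (n + 2)) :=
  WithLp.toLp 2 fun s => if s = p then u q else if s = q then u p else if s = r then -u r else u s

lemma sigFun_p (p r q : Fin (n + 2)) (u : EuclideanSpace ℝ (Fin (n + 2))) :
    sigFun p r q u p = u q := by simp [sigFun]

lemma sigFun_q {p q : Fin (n + 2)} (r : Fin (n + 2)) (h : p ≠ q)
    (u : EuclideanSpace ℝ (Fin (n + 2))) : sigFun p r q u q = u p := by simp [sigFun, h.symm]

lemma sigFun_r {p r q : Fin (n + 2)} (h1 : p ≠ r) (h2 : r ≠ q)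
    (u : EuclideanSpace ℝ (Fin (n + 2))) : sigFun p r q u r = -u r := by
  simp [sigFun, h1.symm, h2]

lemma sigFun_sigFun {p r q : Fin (n + 2)} (hpr : p ≠ r) (hrq : r ≠ q) (hpq : p ≠ q)
    (u : EuclideanSpace ℝ (Fin (n + 2))) : sigFun p r q (sigFun p r q u) = u := by
  ext s
  by_cases h1 : s = p
  · rw [h1, sigFun_p, sigFun_q r hpq]
  by_cases h2 : s = q
  · rw [h2, sigFun_q r hpq, sigFun_p]
  by_cases h3 : s = r
  · rw [h3, sigFun_r hpr hrq, sigFun_r hpr hrq, neg_neg]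
  simp [sigFun, h1, h2, h3]

lemma inner_sigFun {p r q : Fin (n + 2)} (hpr : p ≠ r) (hrq : r ≠ q) (hpq : p ≠ q)
    (u v : EuclideanSpace ℝ (Fin (n + 2))) :
    inner ℝ (sigFun p r q u) (sigFun p r q v) = inner ℝ u v := by
  rw [inner_eq, inner_eq]
  have key : ∀ s, sigFun p r q u s * sigFun p r q v s = u s * v s
      + (if s = p then u q * v q - u p * v p else 0)
      + (if s = q then u p * v p - u q * v q else 0) := by
    intro s
    by_cases h1 : s = p
    · have h2 : s ≠ q := by rw [h1]; exact hpq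
      rw [if_pos h1, if_neg h2, h1, sigFun_p, sigFun_p]; ring
    by_cases h2 : s = q
    · rw [if_neg h1, if_pos h2, h2, sigFun_q r hpq, sigFun_q r hpq]; ring
    rw [if_neg h1, if_neg h2]
    by_cases h3 : s = r
    · rw [h3, sigFun_r hpr hrq, sigFun_r hpr hrq]; ring
    simp [sigFun, h1, h2, h3]
  rw [Finset.sum_congr rfl (fun s _ => key s), Finset.sum_add_distrib, Finset.sum_add_distrib,
    Finset.sum_ite_eq' Finset.univ p, Finset.sum_ite_eq' Finset.univ q,
    if_pos (Finset.mem_univ p), if_pos (Finset.mem_univ q)]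
  ring

/-- the same as a linear isometry equivalence -/
def sig {p r q : Fin (n + 2)} (hpr : p ≠ r) (hrq : r ≠ q) (hpq : p ≠ q) :
    EuclideanSpace ℝ (Fin (n + 2)) ≃ₗᵢ[ℝ] EuclideanSpace ℝ (Fin (n + 2)) where
  toFun := sigFun p r q
  invFun := sigFun p r q
  left_inv := sigFun_sigFun hpr hrq hpq
  right_inv := sigFun_sigFun hpr hrq hpq
  map_add' u v := by
    ext s
    simp only [sigFun, PiLp.add_apply]
    split_ifs <;> ring
  map_smul' c u := by
    ext s
    simp only [sigFun, PiLp.smul_apply, smul_eq_mul, RingHom.id_apply]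
    split_ifs <;> ring
  norm_map' u := by
    have h := inner_sigFun hpr hrq hpq u u
    rw [real_inner_self_eq_norm_sq, real_inner_self_eq_norm_sq] at h
    exact (sq_eq_sq₀ (norm_nonneg _) (norm_nonneg _)).1 h

@[simp] lemma sig_apply {p r q : Fin (n + 2)} (hpr : p ≠ r) (hrq : r ≠ q) (hpq : p ≠ q)
    (u : EuclideanSpace ℝ (Fin (n + 2))) : sig hpr hrq hpq u = sigFun p r q u := rfl

/-- `ν` is invariant under `sig` -/
def SigInv {p r q : Fin (n + 2)} (hpr : p ≠ r) (hrq : r ≠ q) (hpq : p ≠ q)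
    (ν : Measure (V → Spin (n + 2))) : Prop :=
  ∀ f : (V → Spin (n + 2)) → ℝ, Continuous f →
    ∫ S, f (actF (fun _ => sig hpr hrq hpq) S) ∂ν = ∫ S, f S ∂ν

/-- geometric data: positions of the sites, range and second moment of the coupling -/
structure Geo (c : V → V → ℝ) (pos : V → ℤ × ℤ) (s R : ℕ) (M : ℝ) : Prop where
  nonneg : 0 ≤ M
  inj : ∀ i k : V, ‖pos i‖ ≤ 5 * (R : ℝ) → pos i = pos k → i = k
  range : ∀ i k, c i k ≠ 0 → ‖pos i - pos k‖ ≤ (s : ℝ)
  row : ∀ i, ∑ k, |c i k| * ‖pos i - pos k‖ ^ 2 ≤ M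
  col : ∀ i, ∑ k, |c k i| * ‖pos i - pos k‖ ^ 2 ≤ M

/-- open boxes -/
def bx (pos : V → ℤ × ℤ) (r : ℝ) : Finset V := Finset.univ.filter fun i => ‖pos i‖ < r

lemma mem_bx {pos : V → ℤ × ℤ} {r : ℝ} {i : V} : i ∈ bx pos r ↔ ‖pos i‖ < r := by
  unfold bx; simp

/-- the cutoff: `1` on `‖p‖ ≤ 2R`, `0` on `‖p‖ ≥ 3R` -/
def psi (R : ℕ) (p : ℤ × ℤ) : ℝ := max 0 (min 1 ((3 * (R : ℝ) - ‖p‖) / R))

/-- localisation of a `lam`-Lipschitz function `g` to `‖p - z‖ < 2 l` -/
def loc (lam : ℝ) (l : ℝ) (z : ℤ × ℤ) (g : ℤ × ℤ → ℝ) (p : ℤ × ℤ) : ℝ :=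
  max (-(lam * max 0 (2 * l - ‖p - z‖))) (min (lam * max 0 (2 * l - ‖p - z‖)) (g p - g z))

/-- centre of the cell `a` of side `2 h` -/
def ctr (h : ℕ) (a : ℤ × ℤ) : ℤ × ℤ := ((2 * a.1 + 1) * h, (2 * a.2 + 1) * h)

/-- the cells of side `2 h` contained in `[-4R,4R)² \ [-R,R)²`, `R = 2 h t` -/
def cells (t : ℕ) : Finset (ℤ × ℤ) :=
  (Finset.Ico (-4 * (t : ℤ)) (4 * t) ×ˢ Finset.Ico (-4 * (t : ℤ)) (4 * t)) \
    (Finset.Ico (-(t : ℤ)) t ×ˢ Finset.Ico (-(t : ℤ)) t)

/-- the block in the cell `a` of side `2 h`: margin `s` removed -/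
def blk (pos : V → ℤ × ℤ) (s h : ℕ) (a : ℤ × ℤ) : Finset V :=
  Finset.univ.filter fun i => ‖pos i - ctr h a‖ + s < (h : ℝ)

/-- the union of the blocks -/
def Ublk (pos : V → ℤ × ℤ) (s h t : ℕ) : Finset V := (cells t).biUnion (blk pos s h)

/-- the plateau function of the block in the cell `a` of side `2 h` -/
def plat (θ : ℝ) (s h : ℕ) (a : ℤ × ℤ) (p : ℤ × ℤ) : ℝ :=
  max 0 (min 1 ((h - s - ‖p - ctr h a‖) / (θ * h)))

end

end Pool.Agent.NVec.Full
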