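import Pool.Agent.H.MP_8be4c0_mp.Full.Blocks
import Pool.Agent.H.MP_8be4c0_mp.Full.Setup

/-!
Symmetry, invariance of the antisymmetrised covariance, elementary inequalities.
-/

open MeasureTheory Set Filter Topology

namespace Pool.Agent.NVec.Full

set_option linter.unusedSectionVars false

noncomputable section

variable {n : ℕ} {V : Type} [Fintype V] [DecidableEq V]

/-! ### the reflection -/

/-- the reflection of all spins -/
def sg {p r q : Fin (n + 2)} (hpr : p ≠ r) (hrq : r ≠ q) (hpq : p ≠ q) (S : V → Spin (n + 2)) :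
    V → Spin (n + 2) := actF (fun _ => sig hpr hrq hpq) S

lemma coe_sg {p r q : Fin (n + 2)} (hpr : p ≠ r) (hrq : r ≠ q) (hpq : p ≠ q)
    (S : V → Spin (n + 2)) (i : V) :
    (sg hpr hrq hpq S i : EuclideanSpace ℝ (Fin (n + 2))) = sigFun p r q (S i) := rfl

lemma W_sg (c : V → V → ℝ) {p r q : Fin (n + 2)} (hpr : p ≠ r) (hrq : r ≠ q) (hpq : p ≠ q)
    (S : V → Spin (n + 2)) : W c 0 (sg hpr hrq hpq S) = W c 0 S := by
  unfold W
  refine Finset.sum_congr rfl fun i _ => Finset.sum_congr rfl fun k _ => ?_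
  rw [coe_sg, coe_sg, inner_sigFun hpr hrq hpq]
  simp

lemma Yv_sg_pr (c : V → V → ℝ) {p r q : Fin (n + 2)} (hpr : p ≠ r) (hrq : r ≠ q) (hpq : p ≠ q)
    (v : V → V → ℝ) (S : V → Spin (n + 2)) :
    Yv c p r v (sg hpr hrq hpq S) = Yv c r q v S := by
  unfold Yv
  refine Finset.sum_congr rfl fun i _ => Finset.sum_congr rfl fun k _ => ?_
  congr 2
  unfold Qab
  rw [coe_sg, coe_sg, sigFun_p, sigFun_p, sigFun_r hpr hrq, sigFun_r hpr hrq]
  ring

lemma Yv_sg_rq (c : V → V → ℝ) {p r q : Fin (n + 2)} (hpr : p ≠ r) (hrq : r ≠ q) (hpq : p ≠ q)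
    (v : V → V → ℝ) (S : V → Spin (n + 2)) :
    Yv c r q v (sg hpr hrq hpq S) = Yv c p r v S := by
  unfold Yv
  refine Finset.sum_congr rfl fun i _ => Finset.sum_congr rfl fun k _ => ?_
  congr 2
  unfold Qab
  rw [coe_sg, coe_sg, sigFun_q r hpq, sigFun_q r hpq, sigFun_r hpr hrq, sigFun_r hpr hrq]
  ring

lemma Yv_sg_pq (c : V → V → ℝ) {p r q : Fin (n + 2)} (hpr : p ≠ r) (hrq : r ≠ q) (hpq : p ≠ q)
    (v : V → V → ℝ) (S : V → Spin (n + 2)) :
    Yv c p q v (sg hpr hrq hpq S) = -Yv c p q v S := by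
  unfold Yv
  rw [← Finset.sum_neg_distrib]
  refine Finset.sum_congr rfl fun i _ => ?_
  rw [← Finset.sum_neg_distrib]
  refine Finset.sum_congr rfl fun k _ => ?_
  unfold Qab
  rw [coe_sg, coe_sg, sigFun_q r hpq, sigFun_q r hpq, sigFun_p, sigFun_p]
  ring

lemma Sab_sg {p r q : Fin (n + 2)} (hpr : p ≠ r) (hrq : r ≠ q) (hpq : p ≠ q)
    (S : V → Spin (n + 2)) (i k : V) :
    Sab p q (sg hpr hrq hpq S i : EuclideanSpace ℝ (Fin (n + 2))) (sg hpr hrq hpq S k)
      = Sab p q (S i : EuclideanSpace ℝ (Fin (n + 2))) (S k) := by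
  unfold Sab
  rw [coe_sg, coe_sg, sigFun_q r hpq, sigFun_q r hpq, sigFun_p, sigFun_p]
  ring

lemma Pc_sg (c : V → V → ℝ) (B : Finset V) {p r q : Fin (n + 2)} (hpr : p ≠ r) (hrq : r ≠ q)
    (hpq : p ≠ q) {f : (V → Spin (n + 2)) → ℝ} (hf : Continuous f) (S : V → Spin (n + 2)) :
    Pc c B f (sg hpr hrq hpq S) = Pc c B (fun S => f (sg hpr hrq hpq S)) S := by
  apply Pc_actF _ hf
  intro u S
  have h1 := W_sg c hpr hrq hpq (merge B u S)
  have h2 := W_sg c hpr hrq hpq S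
  unfold sg at h1 h2
  simp only
  rw [h1, h2, sub_self, sub_self]

lemma Dl_sg (c : V → V → ℝ) (B : Finset V) {p r q : Fin (n + 2)} (hpr : p ≠ r) (hrq : r ≠ q)
    (hpq : p ≠ q) {f : (V → Spin (n + 2)) → ℝ} (hf : Continuous f) (S : V → Spin (n + 2)) :
    Dl c B f (sg hpr hrq hpq S) = Dl c B (fun S => f (sg hpr hrq hpq S)) S := by
  unfold Dl
  rw [Pc_sg c B hpr hrq hpq hf]

/-! ### the rotated currents near a block -/

lemma Yv_rho_pr (c : V → V → ℝ) {p r q : Fin (n + 2)} (hpr : p ≠ r) (hrq : r ≠ q) (hpq : p ≠ q)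
    {v : V → V → ℝ} {ω : V → ℝ} {α : ℝ}
    (h : ∀ i k, c i k ≠ 0 → v i k ≠ 0 → ω i = α ∧ ω k = α) (S : V → Spin (n + 2)) :
    Yv c p r v (rho hpq ω S) = Real.cos α * Yv c p r v S + Real.sin α * Yv c r q v S := by
  unfold Yv
  rw [Finset.mul_sum, Finset.mul_sum, ← Finset.sum_add_distrib]
  refine Finset.sum_congr rfl fun i _ => ?_
  rw [Finset.mul_sum, Finset.mul_sum, ← Finset.sum_add_distrib]
  refine Finset.sum_congr rfl fun k _ => ?_
  by_cases hc : c i k = 0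
  · rw [hc]; ring
  by_cases hv : v i k = 0
  · rw [hv]; ring
  obtain ⟨h1, h2⟩ := h i k hc hv
  unfold Qab
  rw [coe_rho, coe_rho, rotFun_p, rotFun_p, rotFun_r hpr.symm hrq, rotFun_r hpr.symm hrq, h1, h2]
  ring

lemma Yv_rho_rq (c : V → V → ℝ) {p r q : Fin (n + 2)} (hpr : p ≠ r) (hrq : r ≠ q) (hpq : p ≠ q)
    {v : V → V → ℝ} {ω : V → ℝ} {α : ℝ}
    (h : ∀ i k, c i k ≠ 0 → v i k ≠ 0 → ω i = α ∧ ω k = α) (S : V → Spin (n + 2)) :
    Yv c r q v (rho hpq ω S) = Real.cos α * Yv c r q v S - Real.sin α * Yv c p r v S := by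
  unfold Yv
  rw [Finset.mul_sum, Finset.mul_sum, ← Finset.sum_sub_distrib]
  refine Finset.sum_congr rfl fun i _ => ?_
  rw [Finset.mul_sum, Finset.mul_sum, ← Finset.sum_sub_distrib]
  refine Finset.sum_congr rfl fun k _ => ?_
  by_cases hc : c i k = 0
  · rw [hc]; ring
  by_cases hv : v i k = 0
  · rw [hv]; ring
  obtain ⟨h1, h2⟩ := h i k hc hv
  unfold Qab
  rw [coe_rho, coe_rho, rotFun_q hpq, rotFun_q hpq, rotFun_r hpr.symm hrq, rotFun_r hpr.symm hrq,
    h1, h2]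
  ring

lemma Indep_W_rho {c : V → V → ℝ} {B : Finset V} {a b : Fin (n + 2)} (h : a ≠ b) {ω : V → ℝ}
    (hω : ∀ i k, c i k ≠ 0 → (i ∈ B ∨ k ∈ B) → ω i = ω k) :
    Indep B fun S : V → Spin (n + 2) => W c 0 (rho h ω S) - W c 0 S := by
  have e : (fun S : V → Spin (n + 2) => W c 0 (rho h ω S) - W c 0 S) = Wr c a b ω 1 := by
    funext S
    rw [← W_rho c h ω 1]
    simp
  rw [e]
  intro u S
  unfold Wr
  refine Finset.sum_congr rfl fun i _ => Finset.sum_congr rfl fun k _ => ?_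
  by_cases hc : c i k = 0
  · rw [hc, zero_mul, zero_mul]
  by_cases hik : i ∈ B ∨ k ∈ B
  · rw [hω i k hc hik]
    simp
  · push Not at hik
    rw [merge_out hik.1, merge_out hik.2]

lemma Pc_rho {c : V → V → ℝ} {B : Finset V} {a b : Fin (n + 2)} (h : a ≠ b) {ω : V → ℝ}
    (hω : ∀ i k, c i k ≠ 0 → (i ∈ B ∨ k ∈ B) → ω i = ω k) {f : (V → Spin (n + 2)) → ℝ}
    (hf : Continuous f) (S : V → Spin (n + 2)) :
    Pc c B f (rho h ω S) = Pc c B (fun S => f (rho h ω S)) S :=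
  Pc_actF (Indep_W_rho h hω) hf S

lemma Dl_rho {c : V → V → ℝ} {B : Finset V} {a b : Fin (n + 2)} (h : a ≠ b) {ω : V → ℝ}
    (hω : ∀ i k, c i k ≠ 0 → (i ∈ B ∨ k ∈ B) → ω i = ω k) {f : (V → Spin (n + 2)) → ℝ}
    (hf : Continuous f) (S : V → Spin (n + 2)) :
    Dl c B f (rho h ω S) = Dl c B (fun S => f (rho h ω S)) S := by
  unfold Dl
  rw [Pc_rho h hω hf]

lemma Dl_lin (c : V → V → ℝ) (B : Finset V) {f g : (V → Spin (n + 2)) → ℝ} (hf : Continuous f)
    (hg : Continuous g) (x y : ℝ) (S : V → Spin (n + 2)) :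
    Dl c B (fun S => x * f S + y * g S) S = x * Dl c B f S + y * Dl c B g S := by
  have cx : Continuous fun S => x * f S := continuous_const.mul hf
  have cy : Continuous fun S => y * g S := continuous_const.mul hg
  unfold Dl
  rw [Pc_add c B cx cy, Pc_smul, Pc_smul]
  ring

/-- the antisymmetrised product of the fluctuations -/
def Th0 (c : V → V → ℝ) (B : Finset V) (p r q : Fin (n + 2)) (v w : V → V → ℝ)
    (S : V → Spin (n + 2)) : ℝ :=
  Dl c B (Yv c p r v) S * Dl c B (Yv c r q w) S - Dl c B (Yv c r q v) S * Dl c B (Yv c p r w) S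

lemma continuous_Th0 (c : V → V → ℝ) (B : Finset V) (p r q : Fin (n + 2)) (v w : V → V → ℝ) :
    Continuous (Th0 c B p r q v w : (V → Spin (n + 2)) → ℝ) :=
  ((continuous_Dl c B (continuous_Yv c p r v)).mul (continuous_Dl c B (continuous_Yv c r q w))).sub
    ((continuous_Dl c B (continuous_Yv c r q v)).mul (continuous_Dl c B (continuous_Yv c p r w)))

/-- invariance of the antisymmetrised product under rotations in the third plane which are
constant near the block -/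
lemma Th0_rho {c : V → V → ℝ} {B : Finset V} {p r q : Fin (n + 2)} (hpr : p ≠ r) (hrq : r ≠ q)
    (hpq : p ≠ q) {ω : V → ℝ} {α : ℝ}
    (hω : ∀ i k, c i k ≠ 0 → (i ∈ B ∨ k ∈ B) → ω i = α ∧ ω k = α) (v w : V → V → ℝ)
    (S : V → Spin (n + 2)) :
    Th0 c B p r q v w (rho hpq ω S) = Th0 c B p r q v w S := by
  classical
  have hω' : ∀ i k, c i k ≠ 0 → (i ∈ B ∨ k ∈ B) → ω i = ω k := fun i k h1 h2 => by
    obtain ⟨h3, h4⟩ := hω i k h1 h2
    rw [h3, h4]
  -- restrict the edge functions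
  set tr : (V → V → ℝ) → V → V → ℝ := fun v i k => if i ∈ B ∨ k ∈ B then v i k else 0 with htr
  have h1 : ∀ (a b : Fin (n + 2)) (v : V → V → ℝ) (S : V → Spin (n + 2)),
      Dl c B (Yv c a b v) S = Dl c B (Yv c a b (tr v)) S := fun a b v S =>
    Dl_congr a b (fun i k _ hik => by rw [htr]; simp only; rw [if_pos hik]) S
  have htrω : ∀ (v : V → V → ℝ) i k, c i k ≠ 0 → tr v i k ≠ 0 → ω i = α ∧ ω k = α := by
    intro v i k hc hv
    by_cases hik : i ∈ B ∨ k ∈ B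
    · exact hω i k hc hik
    · exfalso
      apply hv
      rw [htr]
      simp only
      rw [if_neg hik]
  have hA : ∀ (v : V → V → ℝ) (S : V → Spin (n + 2)), Dl c B (Yv c p r v) (rho hpq ω S)
      = Real.cos α * Dl c B (Yv c p r v) S + Real.sin α * Dl c B (Yv c r q v) S := by
    intro v S
    rw [h1, h1 p r v S, h1 r q v S, Dl_rho hpq hω' (continuous_Yv c p r _)]
    have e : (fun S : V → Spin (n + 2) => Yv c p r (tr v) (rho hpq ω S))
        = fun S => Real.cos α * Yv c p r (tr v) S + Real.sin α * Yv c r q (tr v) S := by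
      funext S
      exact Yv_rho_pr c hpr hrq hpq (htrω v) S
    rw [e, Dl_lin c B (continuous_Yv c p r _) (continuous_Yv c r q _)]
  have hB : ∀ (v : V → V → ℝ) (S : V → Spin (n + 2)), Dl c B (Yv c r q v) (rho hpq ω S)
      = Real.cos α * Dl c B (Yv c r q v) S + (-Real.sin α) * Dl c B (Yv c p r v) S := by
    intro v S
    rw [h1, h1 p r v S, h1 r q v S, Dl_rho hpq hω' (continuous_Yv c r q _)]
    have e : (fun S : V → Spin (n + 2) => Yv c r q (tr v) (rho hpq ω S))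
        = fun S => Real.cos α * Yv c r q (tr v) S + (-Real.sin α) * Yv c p r (tr v) S := by
      funext S
      rw [Yv_rho_rq c hpr hrq hpq (htrω v) S]
      ring
    rw [e, Dl_lin c B (continuous_Yv c r q _) (continuous_Yv c p r _)]
  unfold Th0
  rw [hA, hA, hB, hB]
  have h2 := Real.sin_sq_add_cos_sq α
  set X1 := Dl c B (Yv c p r v) S
  set X2 := Dl c B (Yv c r q v) S
  set Z1 := Dl c B (Yv c p r w) S
  set Z2 := Dl c B (Yv c r q w) S
  have e : (Real.cos α * X1 + Real.sin α * X2) * (Real.cos α * Z2 + -Real.sin α * Z1)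
      - (Real.cos α * X2 + -Real.sin α * X1) * (Real.cos α * Z1 + Real.sin α * Z2)
      = (Real.sin α ^ 2 + Real.cos α ^ 2) * (X1 * Z2 - X2 * Z1) := by ring
  rw [e, h2, one_mul]

/-- the conditional expectation of the antisymmetrised product -/
def Th (c : V → V → ℝ) (B : Finset V) (p r q : Fin (n + 2)) (v w : V → V → ℝ) :
    (V → Spin (n + 2)) → ℝ := Pc c B (Th0 c B p r q v w)

lemma continuous_Th (c : V → V → ℝ) (B : Finset V) (p r q : Fin (n + 2)) (v w : V → V → ℝ) :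
    Continuous (Th c B p r q v w : (V → Spin (n + 2)) → ℝ) :=
  continuous_Pc c B (continuous_Th0 c B p r q v w)

lemma Th_rho {c : V → V → ℝ} {B : Finset V} {p r q : Fin (n + 2)} (hpr : p ≠ r) (hrq : r ≠ q)
    (hpq : p ≠ q) {ω : V → ℝ} {α : ℝ}
    (hω : ∀ i k, c i k ≠ 0 → (i ∈ B ∨ k ∈ B) → ω i = α ∧ ω k = α) (v w : V → V → ℝ)
    (S : V → Spin (n + 2)) :
    Th c B p r q v w (rho hpq ω S) = Th c B p r q v w S := by
  have hω' : ∀ i k, c i k ≠ 0 → (i ∈ B ∨ k ∈ B) → ω i = ω k := fun i k h1 h2 => by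
    obtain ⟨h3, h4⟩ := hω i k h1 h2
    rw [h3, h4]
  unfold Th
  rw [Pc_rho hpq hω' (continuous_Th0 c B p r q v w)]
  congr 1
  funext S
  exact Th0_rho hpr hrq hpq hω v w S

/-! ### elementary inequalities -/

/-- Cauchy-Schwarz -/
lemma cs_int {ν : Measure (V → Spin (n + 2))} [IsFiniteMeasure ν]
    {f g : (V → Spin (n + 2)) → ℝ} (hf : Continuous f) (hg : Continuous g) :
    |∫ S, f S * g S ∂ν| ≤ Real.sqrt (∫ S, f S ^ 2 ∂ν) * Real.sqrt (∫ S, g S ^ 2 ∂ν) := by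
  have i1 : Integrable (fun S => f S ^ 2) ν := ic (hf.pow 2)
  have i2 : Integrable (fun S => g S ^ 2) ν := ic (hg.pow 2)
  have i3 : Integrable (fun S => f S * g S) ν := ic (hf.mul hg)
  have h0 : ∀ t : ℝ, 0 ≤ (∫ S, g S ^ 2 ∂ν) * (t * t) + (2 * ∫ S, f S * g S ∂ν) * t
      + ∫ S, f S ^ 2 ∂ν := by
    intro t
    have h1 : 0 ≤ ∫ S, (f S + t * g S) ^ 2 ∂ν := integral_nonneg fun S => sq_nonneg _
    have h2 : ∫ S, (f S + t * g S) ^ 2 ∂ν = (∫ S, g S ^ 2 ∂ν) * (t * t)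
        + (2 * ∫ S, f S * g S ∂ν) * t + ∫ S, f S ^ 2 ∂ν := by
      have e : ∀ S, (f S + t * g S) ^ 2 = (t * t) * g S ^ 2 + (2 * t) * (f S * g S) + f S ^ 2 :=
        fun S => by ring
      simp_rw [e]
      have i4 : Integrable (fun S => (t * t) * g S ^ 2 + (2 * t) * (f S * g S)) ν :=
        (i2.const_mul _).add (i3.const_mul _)
      rw [integral_add i4 i1, integral_add (i2.const_mul _) (i3.const_mul _), integral_const_mul,
        integral_const_mul]
      ring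
    rw [← h2]
    exact h1
  have h1 := discrim_le_zero h0
  unfold discrim at h1
  have ha : 0 ≤ ∫ S, f S ^ 2 ∂ν := integral_nonneg fun S => sq_nonneg _
  have hb : 0 ≤ ∫ S, g S ^ 2 ∂ν := integral_nonneg fun S => sq_nonneg _
  rw [← Real.sqrt_mul ha]
  apply Real.abs_le_sqrt
  nlinarith

lemma Pc_sq_le (c : V → V → ℝ) (B : Finset V) {f : (V → Spin (n + 2)) → ℝ} (hf : Continuous f)
    (S : V → Spin (n + 2)) : Pc c B f S ^ 2 ≤ Pc c B (fun S => f S ^ 2) S := by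
  have := prob_Gm c B S
  have h := cs_int (ν := Gm c B S) hf (continuous_const (y := (1 : ℝ)))
  have c2 : Continuous fun S => f S ^ 2 := hf.pow 2
  simp only [mul_one, one_pow, integral_const, probReal_univ, smul_eq_mul, Real.sqrt_one] at h
  rw [integral_Gm c B S hf, integral_Gm c B S c2] at h
  have h0 : 0 ≤ Pc c B (fun S => f S ^ 2) S := by
    rw [← integral_Gm c B S c2]
    exact integral_nonneg fun S => sq_nonneg _
  rw [← sq_abs]
  calc |Pc c B f S| ^ 2 ≤ Real.sqrt (Pc c B (fun S => f S ^ 2) S) ^ 2 :=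
        pow_le_pow_left₀ (abs_nonneg _) h 2
    _ = _ := Real.sq_sqrt h0

lemma Pc_pow4_le (c : V → V → ℝ) (B : Finset V) {f : (V → Spin (n + 2)) → ℝ} (hf : Continuous f)
    (S : V → Spin (n + 2)) : Pc c B f S ^ 4 ≤ Pc c B (fun S => f S ^ 4) S := by
  have h1 := Pc_sq_le c B hf S
  have h2 := Pc_sq_le c B (f := fun S => f S ^ 2) (hf.pow 2) S
  have e : (fun S : V → Spin (n + 2) => (f S ^ 2) ^ 2) = fun S => f S ^ 4 := by
    funext S; ring
  simp only [e] at h2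
  calc Pc c B f S ^ 4 = (Pc c B f S ^ 2) ^ 2 := by ring
    _ ≤ (Pc c B (fun S => f S ^ 2) S) ^ 2 := pow_le_pow_left₀ (sq_nonneg _) h1 2
    _ ≤ _ := h2

section

variable {c : V → V → ℝ} {Λ : Finset V} {ν : Measure (V → Spin (n + 2))}

lemma int_Pc_sq_le (hν : Gibbs c Λ ν) {B : Finset V} (hB : B ⊆ Λ) {f : (V → Spin (n + 2)) → ℝ}
    (hf : Continuous f) : ∫ S, Pc c B f S ^ 2 ∂ν ≤ ∫ S, f S ^ 2 ∂ν := by
  have := hν.prob
  have c2 : Continuous fun S => f S ^ 2 := hf.pow 2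
  rw [← hν.dlr B hB _ c2]
  exact integral_mono (ic ((continuous_Pc c B hf).pow 2)) (ic (continuous_Pc c B c2))
    fun S => Pc_sq_le c B hf S

lemma int_Pc_pow4_le (hν : Gibbs c Λ ν) {B : Finset V} (hB : B ⊆ Λ)
    {f : (V → Spin (n + 2)) → ℝ} (hf : Continuous f) :
    ∫ S, Pc c B f S ^ 4 ∂ν ≤ ∫ S, f S ^ 4 ∂ν := by
  have := hν.prob
  have c4 : Continuous fun S => f S ^ 4 := hf.pow 4
  rw [← hν.dlr B hB _ c4]
  exact integral_mono (ic ((continuous_Pc c B hf).pow 4)) (ic (continuous_Pc c B c4))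
    fun S => Pc_pow4_le c B hf S

lemma int_split (hν : Gibbs c Λ ν) {B : Finset V} (hB : B ⊆ Λ)
    {f g : (V → Spin (n + 2)) → ℝ} (hf : Continuous f) (hg : Continuous g)
    {h : (V → Spin (n + 2)) → ℝ} (hh : Continuous h) (hhi : Indep B h) :
    ∫ S, h S * (f S * g S) ∂ν = ∫ S, h S * (Dl c B f S * Dl c B g S) ∂ν
      + ∫ S, h S * (Pc c B f S * Pc c B g S) ∂ν := by
  have := hν.prob
  have cPf := continuous_Pc c B hf
  have cPg := continuous_Pc c B hg
  have cDf := continuous_Dl c B hf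
  have cDg := continuous_Dl c B hg
  have h1 := int_mul_Dl hν hB (G := fun S => h S * Pc c B f S) (hh.mul cPf) hg
    (hhi.mul (Pc_indep_self c B f))
  have h2 := int_mul_Dl hν hB (G := fun S => h S * Pc c B g S) (hh.mul cPg) hf
    (hhi.mul (Pc_indep_self c B g))
  have i1 : Integrable (fun S => h S * (Dl c B f S * Dl c B g S)) ν := ic (hh.mul (cDf.mul cDg))
  have i2 : Integrable (fun S => h S * (Pc c B f S * Pc c B g S)) ν := ic (hh.mul (cPf.mul cPg))
  have i3 : Integrable (fun S => h S * Pc c B f S * Dl c B g S) ν := ic ((hh.mul cPf).mul cDg)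
  have i4 : Integrable (fun S => h S * Pc c B g S * Dl c B f S) ν := ic ((hh.mul cPg).mul cDf)
  have i12 : Integrable (fun S => h S * (Dl c B f S * Dl c B g S)
    + h S * (Pc c B f S * Pc c B g S)) ν := i1.add i2
  have i34 : Integrable (fun S => h S * Pc c B f S * Dl c B g S
    + h S * Pc c B g S * Dl c B f S) ν := i3.add i4
  have e : ∫ S, h S * (f S * g S) ∂ν
      = (∫ S, h S * (Dl c B f S * Dl c B g S) ∂ν + ∫ S, h S * (Pc c B f S * Pc c B g S) ∂ν)
        + (∫ S, h S * Pc c B f S * Dl c B g S ∂ν + ∫ S, h S * Pc c B g S * Dl c B f S ∂ν) := by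
    rw [← integral_add i1 i2, ← integral_add i3 i4, ← integral_add i12 i34]
    refine integral_congr_ae (Eventually.of_forall fun S => ?_)
    simp only
    unfold Dl
    ring
  rw [e, h1, h2]
  ring

lemma int_Dl_sq_le (hν : Gibbs c Λ ν) {B : Finset V} (hB : B ⊆ Λ) {f : (V → Spin (n + 2)) → ℝ}
    (hf : Continuous f) : ∫ S, Dl c B f S ^ 2 ∂ν ≤ ∫ S, f S ^ 2 ∂ν := by
  have h := int_split hν hB hf hf (h := fun _ => 1) continuous_const (Indep_const _ 1)
  simp only [one_mul, ← pow_two] at h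
  have h1 : 0 ≤ ∫ S, Pc c B f S ^ 2 ∂ν := integral_nonneg fun S => sq_nonneg _
  linarith

lemma int_Dl_pow4_le (hν : Gibbs c Λ ν) {B : Finset V} (hB : B ⊆ Λ)
    {f : (V → Spin (n + 2)) → ℝ} (hf : Continuous f) :
    ∫ S, Dl c B f S ^ 4 ∂ν ≤ 16 * ∫ S, f S ^ 4 ∂ν := by
  have := hν.prob
  have cP := continuous_Pc c B hf
  have cD := continuous_Dl c B hf
  have i1 : Integrable (fun S => f S ^ 4) ν := ic (hf.pow 4)
  have i2 : Integrable (fun S => Pc c B f S ^ 4) ν := ic (cP.pow 4)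
  have i3 : Integrable (fun S => Dl c B f S ^ 4) ν := ic (cD.pow 4)
  have h1 := int_Pc_pow4_le hν hB hf
  have h2 : ∀ x y : ℝ, (x - y) ^ 4 ≤ 8 * (x ^ 4 + y ^ 4) := by
    intro x y
    nlinarith [sq_nonneg (x + y), sq_nonneg (x - y), sq_nonneg (x ^ 2 - y ^ 2),
      sq_nonneg ((x + y) ^ 2), sq_nonneg ((x + y) * (x - y)), mul_self_nonneg (x * y),
      sq_nonneg (x * (x + y)), sq_nonneg (y * (x + y)), sq_nonneg (x ^ 2 + x * y),
      sq_nonneg (x ^ 2 + y ^ 2 + 2 * x * y)]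
  have i4 : Integrable (fun S => 8 * (f S ^ 4 + Pc c B f S ^ 4)) ν := (i1.add i2).const_mul 8
  calc ∫ S, Dl c B f S ^ 4 ∂ν ≤ ∫ S, 8 * (f S ^ 4 + Pc c B f S ^ 4) ∂ν :=
        integral_mono i3 i4 fun S => h2 _ _
    _ = 8 * (∫ S, f S ^ 4 ∂ν + ∫ S, Pc c B f S ^ 4 ∂ν) := by
        rw [integral_const_mul, integral_add i1 i2]
    _ ≤ _ := by linarith

end

end

end Pool.Agent.NVec.Full
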