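import Pool.Agent.H.MP_8be4c0_mp.Full.PerDa

/-!
The identity behind the per-block inequality.
-/

open MeasureTheory Set Filter Topology

namespace Pool.Agent.NVec.Full

set_option linter.unusedSectionVars false

noncomputable section

variable {n : ℕ} {V : Type} [Fintype V] [DecidableEq V]
variable {c : V → V → ℝ} {Λ : Finset V} {ν : Measure (V → Spin (n + 2))}

/-- replacing a conditional expectation in a pairing -/
lemma int_mul_Pc (hν : Gibbs c Λ ν) {B : Finset V} (hB : B ⊆ Λ) {G f : (V → Spin (n + 2)) → ℝ}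
    (hG : Continuous G) (hf : Continuous f) (hGi : Indep B G) :
    ∫ S, G S * Pc c B f S ∂ν = ∫ S, G S * f S ∂ν := by
  have := hν.prob
  have h1 := int_mul_Dl hν hB hG hf hGi
  have i1 : Integrable (fun S => G S * Pc c B f S) ν := ic (hG.mul (continuous_Pc c B hf))
  have i2 : Integrable (fun S => G S * f S) ν := ic (hG.mul hf)
  have e : ∫ S, G S * Dl c B f S ∂ν = ∫ S, G S * f S ∂ν - ∫ S, G S * Pc c B f S ∂ν := by
    rw [← integral_sub i2 i1]
    refine integral_congr_ae (Eventually.of_forall fun S => ?_)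
    simp only
    unfold Dl
    ring
  rw [h1] at e
  linarith

/-- the symmetric term vanishes -/
lemma int_odd_even {p r q : Fin (n + 2)} (hpr : p ≠ r) (hrq : r ≠ q) (hpq : p ≠ q)
    (hσ : SigInv hpr hrq hpq ν) {h g : (V → Spin (n + 2)) → ℝ} (hh : Continuous h)
    (hg : Continuous g) (ho : ∀ S, h (sg hpr hrq hpq S) = -h S)
    (he : ∀ S, g (sg hpr hrq hpq S) = g S) : ∫ S, h S * g S ∂ν = 0 := by
  have h1 := hσ (fun S => h S * g S) (hh.mul hg)
  have h2 : ∫ S, (fun S => h S * g S) (actF (fun _ => sig hpr hrq hpq) S) ∂ν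
      = -∫ S, h S * g S ∂ν := by
    rw [← integral_neg]
    refine integral_congr_ae (Eventually.of_forall fun S => ?_)
    have e1 := ho S
    have e2 := he S
    unfold sg at e1 e2
    simp only
    rw [e1, e2]
    ring
  rw [h2] at h1
  linarith

lemma step1 (hν : Gibbs c Λ ν) {p q : Fin (n + 2)} (hpq : p ≠ q) {U D : Finset V}
    (hUD : U ⊆ D) (hD : D ⊆ Λ) {χ : V → ℝ} (hχ : ∀ i, i ∉ Λ → χ i = 0) (f : V → ℝ) :
    ∑ i, ∑ k, c i k * (mid f i k * (χ i - χ k) ^ 2
        * ∫ S, Pab p q (S i : EuclideanSpace ℝ (Fin (n + 2))) (S k) ∂ν)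
      = ∫ S, Dl c U (Yv c p q fun i k => mid f i k * gr χ i k) S * Dl c U (Yv c p q (gr χ)) S ∂ν
        + ∫ S, Pc c U (Yv c p q fun i k => mid f i k * gr χ i k) S
          * (Pc c U (Yv c p q (gr χ)) S - Pc c D (Yv c p q (gr χ)) S) ∂ν
        + ∫ S, Pc c D (Yv c p q (gr χ)) S * Yv c p q (fun i k => mid f i k * gr χ i k) S ∂ν := by
  have := hν.prob
  set v : V → V → ℝ := fun i k => mid f i k * gr χ i k with hv
  have cf := continuous_Yv (n := n) c p q v
  have cY := continuous_Yv (n := n) c p q (gr χ)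
  have cPf := continuous_Pc c U cf
  have cPU := continuous_Pc c U cY
  have cPD := continuous_Pc c D cY
  have h1 := ward_C hν hpq hχ v
  have e0 : ∑ i, ∑ k, c i k * (mid f i k * (χ i - χ k) ^ 2
        * ∫ S, Pab p q (S i : EuclideanSpace ℝ (Fin (n + 2))) (S k) ∂ν)
      = ∑ i, ∑ k, c i k * (v i k * (χ i - χ k)
        * ∫ S, Pab p q (S i : EuclideanSpace ℝ (Fin (n + 2))) (S k) ∂ν) := by
    refine Finset.sum_congr rfl fun i _ => Finset.sum_congr rfl fun k _ => ?_
    rw [hv]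
    simp only
    unfold gr
    ring
  rw [e0, ← h1]
  have h2 := int_split hν (hUD.trans hD) cf cY (h := fun _ => 1) continuous_const (Indep_const _ 1)
  simp only [one_mul] at h2
  have h3 := int_mul_Pc hν (hUD.trans hD) (G := Pc c D (Yv c p q (gr χ))) cPD cf
    (Pc_indep_sub c hUD _)
  have i1 : Integrable (fun S => Pc c U (Yv c p q v) S
      * (Pc c U (Yv c p q (gr χ)) S - Pc c D (Yv c p q (gr χ)) S)) ν := ic (cPf.mul (cPU.sub cPD))
  have i2 : Integrable (fun S => Pc c D (Yv c p q (gr χ)) S * Pc c U (Yv c p q v) S) ν :=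
    ic (cPD.mul cPf)
  have e1 : ∫ S, Pc c U (Yv c p q v) S * Pc c U (Yv c p q (gr χ)) S ∂ν
      = ∫ S, Pc c U (Yv c p q v) S
          * (Pc c U (Yv c p q (gr χ)) S - Pc c D (Yv c p q (gr χ)) S) ∂ν
        + ∫ S, Pc c D (Yv c p q (gr χ)) S * Pc c U (Yv c p q v) S ∂ν := by
    rw [← integral_add i1 i2]
    refine integral_congr_ae (Eventually.of_forall fun S => ?_)
    simp only
    ring
  rw [h2, e1, h3]
  ring

lemma step2 (hν : Gibbs c Λ ν) {p r q : Fin (n + 2)} (hpr : p ≠ r) (hrq : r ≠ q) (hpq : p ≠ q)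
    (hσ : SigInv hpr hrq hpq ν) {U D : Finset V} (hUD : U ⊆ D) (hD : D ⊆ Λ) {χ f : V → ℝ}
    (hf : ∀ i, i ∉ D → f i = 0) :
    ∫ S, Pc c D (Yv c p q (gr χ)) S * Yv c p q (fun i k => mid f i k * gr χ i k) S ∂ν
      = ∫ S, Pc c D (Yv c p q (gr χ)) S
          * (Dl c U (Yv c p r (gr χ)) S * Dl c U (Yv c r q (gr f)) S) ∂ν
        + ∫ S, (Pc c U (Yv c p r (gr χ)) S - Pc c D (Yv c p r (gr χ)) S)
          * (Pc c D (Yv c p q (gr χ)) S * Pc c U (Yv c r q (gr f)) S) ∂ν := by
  have := hν.prob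
  have cC := continuous_Yv (n := n) c p q (gr χ)
  have cA := continuous_Yv (n := n) c p r (gr χ)
  have cB := continuous_Yv (n := n) c r q (gr f)
  have ch := continuous_Pc c D cC
  have cUA := continuous_Pc c U cA
  have cDA := continuous_Pc c D cA
  have cUB := continuous_Pc c U cB
  have cDB := continuous_Pc c D cB
  have h1 := ward_B hν hD hpr hrq hpq hf (gr χ) ch (Pc_indep_self c D _)
  have cS : Continuous fun S : V → Spin (n + 2) => (∑ i, ∑ k, c i k * (gr χ i k * ((f k - f i) / 2)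
          * Sab p q (S i : EuclideanSpace ℝ (Fin (n + 2))) (S k))) :=
    continuous_finsetSum _ fun i _ => continuous_finsetSum _ fun k _ =>
      continuous_const.mul (continuous_const.mul (continuous_Sab p q i k))
  have h2 := int_odd_even (ν := ν) hpr hrq hpq hσ ch cS
    (fun S => by
      rw [Pc_sg c D hpr hrq hpq cC]
      have e : (fun S : V → Spin (n + 2) => Yv c p q (gr χ) (sg hpr hrq hpq S))
          = fun S => (-1 : ℝ) * Yv c p q (gr χ) S := by
        funext S
        rw [Yv_sg_pq]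
        ring
      rw [e, Pc_smul]
      ring)
    (fun S => by
      refine Finset.sum_congr rfl fun i _ => Finset.sum_congr rfl fun k _ => ?_
      rw [Sab_sg])
  rw [h2, add_zero] at h1
  rw [← h1]
  have h3 := int_split hν (hUD.trans hD) cA cB ch (Pc_indep_sub c hUD _)
  rw [h3]
  congr 1
  have h4 := int_mul_Pc hν (hUD.trans hD)
    (G := fun S => Pc c D (Yv c p q (gr χ)) S * Pc c D (Yv c p r (gr χ)) S)
    (ch.mul cDA) cB ((Pc_indep_sub c hUD _).mul (Pc_indep_sub c hUD _))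
  have h5 := int_mul_Pc hν hD
    (G := fun S => Pc c D (Yv c p q (gr χ)) S * Pc c D (Yv c p r (gr χ)) S)
    (ch.mul cDA) cB ((Pc_indep_self c D _).mul (Pc_indep_self c D _))
  have h6 : ∫ S, Pc c D (Yv c p q (gr χ)) S * Pc c D (Yv c p r (gr χ)) S
      * Pc c D (Yv c r q (gr f)) S ∂ν = 0 := by
    have : ∀ S : V → Spin (n + 2), Pc c D (Yv c p q (gr χ)) S * Pc c D (Yv c p r (gr χ)) S
      * Pc c D (Yv c r q (gr f)) S = 0 := fun S => by
      rw [Pc_current c D hrq hf S, mul_zero]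
    simp_rw [this]
    simp
  rw [← h5, h6] at h4
  have i1 : Integrable (fun S => (Pc c U (Yv c p r (gr χ)) S - Pc c D (Yv c p r (gr χ)) S)
          * (Pc c D (Yv c p q (gr χ)) S * Pc c U (Yv c r q (gr f)) S)) ν :=
    ic ((cUA.sub cDA).mul (ch.mul cUB))
  have i2 : Integrable (fun S => Pc c D (Yv c p q (gr χ)) S * Pc c D (Yv c p r (gr χ)) S
      * Pc c U (Yv c r q (gr f)) S) ν := ic ((ch.mul cDA).mul cUB)
  rw [← add_zero (∫ S, (Pc c U (Yv c p r (gr χ)) S - Pc c D (Yv c p r (gr χ)) S)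
          * (Pc c D (Yv c p q (gr χ)) S * Pc c U (Yv c r q (gr f)) S) ∂ν), ← h4,
    ← integral_add i1 i2]
  refine integral_congr_ae (Eventually.of_forall fun S => ?_)
  simp only
  ring

/-- antisymmetrisation -/
lemma step3 (hν : Gibbs c Λ ν) {p r q : Fin (n + 2)} (hpr : p ≠ r) (hrq : r ≠ q) (hpq : p ≠ q)
    (hσ : SigInv hpr hrq hpq ν) {B D : Finset V} (hBD : B ⊆ D) (hD : D ⊆ Λ) {χ f : V → ℝ} :
    ∫ S, Pc c D (Yv c p q (gr χ)) S
        * (Dl c B (Yv c p r (gr χ)) S * Dl c B (Yv c r q (gr f)) S) ∂ν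
      = 1 / 2 * ∫ S, Pc c D (Yv c p q (gr χ)) S * Th c B p r q (gr χ) (gr f) S ∂ν := by
  have := hν.prob
  have cC := continuous_Yv (n := n) c p q (gr χ)
  have ch := continuous_Pc c D cC
  have cA := continuous_Dl c B (continuous_Yv (n := n) c p r (gr χ))
  have cB := continuous_Dl c B (continuous_Yv (n := n) c r q (gr f))
  have cA' := continuous_Dl c B (continuous_Yv (n := n) c r q (gr χ))
  have cB' := continuous_Dl c B (continuous_Yv (n := n) c p r (gr f))
  have h0 := int_mul_Pc hν (hBD.trans hD) (G := Pc c D (Yv c p q (gr χ))) ch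
    (continuous_Th0 c B p r q (gr χ) (gr f)) (Pc_indep_sub c hBD _)
  unfold Th
  rw [h0]
  -- the reflection
  have c1 : Continuous fun S => Pc c D (Yv c p q (gr χ)) S
        * (Dl c B (Yv c p r (gr χ)) S * Dl c B (Yv c r q (gr f)) S) := ch.mul (cA.mul cB)
  have c2 : Continuous fun S => Pc c D (Yv c p q (gr χ)) S
        * (Dl c B (Yv c r q (gr χ)) S * Dl c B (Yv c p r (gr f)) S) := ch.mul (cA'.mul cB')
  have h1 := hσ _ c1
  have h2 : ∫ S, (fun S => Pc c D (Yv c p q (gr χ)) S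
        * (Dl c B (Yv c p r (gr χ)) S * Dl c B (Yv c r q (gr f)) S))
        (actF (fun _ => sig hpr hrq hpq) S) ∂ν
      = -∫ S, Pc c D (Yv c p q (gr χ)) S
        * (Dl c B (Yv c r q (gr χ)) S * Dl c B (Yv c p r (gr f)) S) ∂ν := by
    rw [← integral_neg]
    refine integral_congr_ae (Eventually.of_forall fun S => ?_)
    have e1 : Pc c D (Yv c p q (gr χ)) (sg hpr hrq hpq S) = -Pc c D (Yv c p q (gr χ)) S := by
      rw [Pc_sg c D hpr hrq hpq cC]
      have e : (fun S : V → Spin (n + 2) => Yv c p q (gr χ) (sg hpr hrq hpq S))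
          = fun S => (-1 : ℝ) * Yv c p q (gr χ) S := by
        funext S
        rw [Yv_sg_pq]
        ring
      rw [e, Pc_smul]
      ring
    have e2 : Dl c B (Yv c p r (gr χ)) (sg hpr hrq hpq S) = Dl c B (Yv c r q (gr χ)) S := by
      rw [Dl_sg c B hpr hrq hpq (continuous_Yv c p r (gr χ))]
      congr 1
      funext S
      exact Yv_sg_pr c hpr hrq hpq _ S
    have e3 : Dl c B (Yv c r q (gr f)) (sg hpr hrq hpq S) = Dl c B (Yv c p r (gr f)) S := by
      rw [Dl_sg c B hpr hrq hpq (continuous_Yv c r q (gr f))]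
      congr 1
      funext S
      exact Yv_sg_rq c hpr hrq hpq _ S
    unfold sg at e1 e2 e3
    simp only
    rw [e1, e2, e3]
    ring
  rw [h2] at h1
  have e : ∫ S, Pc c D (Yv c p q (gr χ)) S * Th0 c B p r q (gr χ) (gr f) S ∂ν
      = ∫ S, Pc c D (Yv c p q (gr χ)) S
        * (Dl c B (Yv c p r (gr χ)) S * Dl c B (Yv c r q (gr f)) S) ∂ν
      - ∫ S, Pc c D (Yv c p q (gr χ)) S
        * (Dl c B (Yv c r q (gr χ)) S * Dl c B (Yv c p r (gr f)) S) ∂ν := by
    rw [← integral_sub (ic c1) (ic c2)]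
    refine integral_congr_ae (Eventually.of_forall fun S => ?_)
    simp only
    unfold Th0
    ring
  rw [e]
  linarith

/-- the covariance functional only sees the current of the localised field -/
lemma step4 (hν : Gibbs c Λ ν) {p r q : Fin (n + 2)} (hpr : p ≠ r) (hrq : r ≠ q) (hpq : p ≠ q)
    {U D B : Finset V} (hUD : U ⊆ D) (hD : D ⊆ Λ) {χ f : V → ℝ}
    (hχ : ∀ i, i ∉ Λ → χ i = 0)
    (hI : Indep U (Th c B p r q (gr χ) (gr f) : (V → Spin (n + 2)) → ℝ))
    {χd : V → ℝ} {χ0 : ℝ} (hχd : ∀ i, i ∉ Λ → χd i = 0)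
    (hloc : ∀ i k, c i k ≠ 0 → (i ∈ B ∨ k ∈ B) → χ i = χd i + χ0 ∧ χ k = χd k + χ0) :
    ∫ S, Pc c D (Yv c p q (gr χ)) S * Th c B p r q (gr χ) (gr f) S ∂ν
      = ∫ S, Yv c p q (gr χd) S * Th c B p r q (gr χ) (gr f) S ∂ν
        - ∫ S, (Pc c U (Yv c p q (gr χ)) S - Pc c D (Yv c p q (gr χ)) S)
          * Th c B p r q (gr χ) (gr f) S ∂ν := by
  have := hν.prob
  have cC := continuous_Yv (n := n) c p q (gr χ)
  have cCd := continuous_Yv (n := n) c p q (gr χd)
  have cT := continuous_Th (n := n) c B p r q (gr χ) (gr f)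
  have cPD := continuous_Pc c D cC
  have cPU := continuous_Pc c U cC
  set T := (Th c B p r q (gr χ) (gr f) : (V → Spin (n + 2)) → ℝ) with hT
  have h1 := int_mul_Pc hν (hUD.trans hD) (G := T) cT cC hI
  -- the Ward identity
  set ω : V → ℝ := fun i => χ i - χd i with hω
  have h2 := ward_inv hν hpq (ω := ω) (fun i hi => by rw [hω]; simp only; rw [hχ i hi, hχd i hi,
    sub_zero]) cT (fun t S => by
      rw [hT]
      apply Th_rho hpr hrq hpq (α := t * χ0)
      intro i k hc hik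
      obtain ⟨e1, e2⟩ := hloc i k hc hik
      rw [hω]
      simp only
      rw [e1, e2]
      constructor <;> ring)
  have e1 : ∀ S, T S * Yv c p q (gr ω) S = T S * Yv c p q (gr χ) S - Yv c p q (gr χd) S * T S := by
    intro S
    have : Yv c p q (gr χ) S = Yv c p q (gr ω) S + Yv c p q (gr χd) S := by
      rw [← Yv_add]
      apply Yv_congr
      intro i k _
      unfold gr
      rw [hω]
      ring
    rw [this]
    ring
  simp_rw [e1] at h2
  have i1 : Integrable (fun S => T S * Yv c p q (gr χ) S) ν := ic (cT.mul cC)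
  have i2 : Integrable (fun S => Yv c p q (gr χd) S * T S) ν := ic (cCd.mul cT)
  rw [integral_sub i1 i2] at h2
  have i3 : Integrable (fun S => T S * Pc c U (Yv c p q (gr χ)) S) ν := ic (cT.mul cPU)
  have i4 : Integrable (fun S => (Pc c U (Yv c p q (gr χ)) S - Pc c D (Yv c p q (gr χ)) S)
    * T S) ν := ic ((cPU.sub cPD).mul cT)
  have e2 : ∫ S, Pc c D (Yv c p q (gr χ)) S * T S ∂ν
      = ∫ S, T S * Pc c U (Yv c p q (gr χ)) S ∂ν
        - ∫ S, (Pc c U (Yv c p q (gr χ)) S - Pc c D (Yv c p q (gr χ)) S) * T S ∂ν := by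
    rw [← integral_sub i3 i4]
    refine integral_congr_ae (Eventually.of_forall fun S => ?_)
    simp only
    ring
  rw [e2, h1]
  linarith

end

end Pool.Agent.NVec.Full
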