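import Pool.Agent.H.MP_8be4c0_mp.Cost
import Pool.Agent.H.MP_8be4c0_mp.Full.Setup

/-!
Change of the interaction in a box: comparison of the finite volume expectations; truncation of
the periodic coupling around a point of the torus.
-/

open MeasureTheory Set Filter Topology

namespace Pool.Agent.NVec.Full

set_option linter.unusedSectionVars false

noncomputable section

section abs

variable {V : Type} [Fintype V] [DecidableEq V] {N : ℕ} [NeZero N]

/-- if `F'` is close to `F + K` on the configurations with boundary condition `τ`, then the finite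
volume expectations are close -/
lemma bInt_perturb {F F' : (V → Spin N) → ℝ} (hF : Continuous F) (hF' : Continuous F')
    (A : Finset V) (τ : V → Spin N) {K η : ℝ}
    (h : ∀ u, |F' (merge A u τ) - F (merge A u τ) - K| ≤ η)
    {f : (V → Spin N) → ℝ} (hf : Continuous f) {B : ℝ} (hB : ∀ S, |f S| ≤ B) {m : ℝ}
    (hm : bInt F A τ f ≤ m * bZ F A τ) :
    bInt F' A τ f ≤ (m + 2 * B * (Real.exp (2 * η) - 1)) * bZ F' A τ := by
  have hB0 : 0 ≤ B := (abs_nonneg _).trans (hB τ)
  have hη : 0 ≤ η := (abs_nonneg _).trans (h τ)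
  have hZ := bZ_pos hF A τ
  have hZ' := bZ_pos hF' A τ
  have he2 : 0 ≤ Real.exp (2 * η) - 1 := by
    have := Real.one_le_exp (x := 2 * η) (by linarith)
    linarith
  by_cases hmB : B < m
  · have h1 := (abs_le.1 (bInt_abs_le hF' A τ hf hB)).2
    refine h1.trans ?_
    apply mul_le_mul_of_nonneg_right _ hZ'.le
    have : 0 ≤ 2 * B * (Real.exp (2 * η) - 1) := by positivity
    linarith
  rw [not_lt] at hmB
  have hm0 : |m| ≤ B := by
    rw [abs_le]
    refine ⟨?_, hmB⟩
    have h1 := (abs_le.1 (bInt_abs_le hF A τ hf hB)).1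
    by_contra h2
    rw [not_le] at h2
    have := mul_lt_mul_of_pos_right h2 hZ
    linarith
  -- pointwise comparison
  have key : ∀ u, Real.exp (F' (merge A u τ)) ≤ Real.exp η * (Real.exp K * Real.exp (F (merge A u τ)))
      ∧ Real.exp K * Real.exp (F (merge A u τ)) ≤ Real.exp η * Real.exp (F' (merge A u τ)) ∧
      |Real.exp (F' (merge A u τ)) - Real.exp K * Real.exp (F (merge A u τ))|
        ≤ (Real.exp η - 1) * (Real.exp K * Real.exp (F (merge A u τ))) := by
    intro u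
    have h1 := abs_le.1 (h u)
    set d := F' (merge A u τ) - F (merge A u τ) - K with hd
    have e1 : Real.exp (F' (merge A u τ))
        = Real.exp d * (Real.exp K * Real.exp (F (merge A u τ))) := by
      rw [← Real.exp_add, ← Real.exp_add]; congr 1; rw [hd]; ring
    have hpos : 0 < Real.exp K * Real.exp (F (merge A u τ)) := by positivity
    have hd1 : Real.exp d ≤ Real.exp η := Real.exp_le_exp.2 h1.2
    have hd2 : Real.exp (-η) ≤ Real.exp d := Real.exp_le_exp.2 (by linarith)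
    have hd3 : 2 - Real.exp η ≤ Real.exp (-η) := by
      have h2 : Real.exp η * Real.exp (-η) = 1 := by rw [← Real.exp_add]; simp
      nlinarith [Real.exp_pos η, Real.exp_pos (-η), sq_nonneg (Real.exp η - 1),
        Real.one_le_exp hη]
    refine ⟨?_, ?_, ?_⟩
    · rw [e1]; exact mul_le_mul_of_nonneg_right hd1 hpos.le
    · rw [e1, ← mul_assoc]
      have h3 : 1 ≤ Real.exp η * Real.exp d := by
        rw [← Real.exp_add]; exact Real.one_le_exp (by linarith)
      nlinarith
    · rw [e1]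
      have e2 : Real.exp d * (Real.exp K * Real.exp (F (merge A u τ)))
          - Real.exp K * Real.exp (F (merge A u τ))
          = (Real.exp d - 1) * (Real.exp K * Real.exp (F (merge A u τ))) := by ring
      rw [e2, abs_mul, abs_of_pos hpos]
      apply mul_le_mul_of_nonneg_right _ hpos.le
      rw [abs_le]
      constructor <;> linarith
  have hcF : Continuous fun u => Real.exp K * Real.exp (F (merge A u τ)) :=
    continuous_const.mul (Real.continuous_exp.comp (hF.comp (continuous_merge A τ)))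
  have hcF' : Continuous fun u => Real.exp (F' (merge A u τ)) :=
    Real.continuous_exp.comp (hF'.comp (continuous_merge A τ))
  have hcf : Continuous fun u => f (merge A u τ) := hf.comp (continuous_merge A τ)
  -- partition functions
  have hZ1 : Real.exp K * bZ F A τ ≤ Real.exp η * bZ F' A τ := by
    unfold bZ
    rw [← integral_const_mul, ← integral_const_mul]
    exact integral_mono (integrable_cont _ hcF) (integrable_cont _ (continuous_const.mul hcF'))
      fun u => (key u).2.1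
  have iF := integrable_cont _ hcF
  have iF' := integrable_cont _ hcF'
  have hZ2 : |bZ F' A τ - Real.exp K * bZ F A τ| ≤ (Real.exp η - 1) * (Real.exp K * bZ F A τ) := by
    unfold bZ
    rw [← integral_const_mul, ← integral_const_mul, ← integral_sub iF' iF]
    have h1 := norm_integral_le_of_norm_le (μ := apriori V N)
      (f := fun u => Real.exp (F' (merge A u τ)) - Real.exp K * Real.exp (F (merge A u τ)))
      (iF.const_mul (Real.exp η - 1)) (Filter.Eventually.of_forall fun u => (key u).2.2)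
    exact h1
  -- numerators
  have hN : bInt F' A τ f ≤ Real.exp K * bInt F A τ f
      + B * (Real.exp η - 1) * (Real.exp K * bZ F A τ) := by
    unfold bInt bZ
    have iG := (bInt_integrable hF A τ hf).const_mul (Real.exp K)
    have iH := iF.const_mul (B * (Real.exp η - 1))
    rw [← integral_const_mul, ← integral_const_mul, ← integral_const_mul, ← integral_add iG iH]
    refine integral_mono (bInt_integrable hF' A τ hf) (iG.add iH) fun u => ?_
    simp only
    have h1 := (key u).2.2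
    have h2 := hB (merge A u τ)
    have h3 : f (merge A u τ) * (Real.exp (F' (merge A u τ))
        - Real.exp K * Real.exp (F (merge A u τ)))
        ≤ B * ((Real.exp η - 1) * (Real.exp K * Real.exp (F (merge A u τ)))) := by
      refine (le_abs_self _).trans ?_
      rw [abs_mul]
      exact mul_le_mul h2 h1 (abs_nonneg _) hB0
    linarith
  have hη1 : 0 ≤ Real.exp η - 1 := by have := Real.one_le_exp hη; linarith
  have hKZ : 0 < Real.exp K * bZ F A τ := by positivity
  have h1 : bInt F' A τ f ≤ m * (Real.exp K * bZ F A τ)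
      + B * (Real.exp η - 1) * (Real.exp K * bZ F A τ) := by
    refine hN.trans ?_
    have := mul_le_mul_of_nonneg_left hm (Real.exp_pos K).le
    linarith
  have h2 : m * (Real.exp K * bZ F A τ) ≤ m * bZ F' A τ
      + B * (Real.exp η - 1) * (Real.exp K * bZ F A τ) := by
    have h3 : |m * (Real.exp K * bZ F A τ - bZ F' A τ)|
        ≤ B * ((Real.exp η - 1) * (Real.exp K * bZ F A τ)) := by
      rw [abs_mul, abs_sub_comm]
      exact mul_le_mul hm0 hZ2 (abs_nonneg _) hB0
    have h4 := (abs_le.1 h3).2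
    linarith
  have h3 : B * (Real.exp η - 1) * (Real.exp K * bZ F A τ)
      ≤ B * (Real.exp (2 * η) - 1) * bZ F' A τ := by
    have h4 : B * (Real.exp η - 1) * (Real.exp K * bZ F A τ)
        ≤ B * (Real.exp η - 1) * (Real.exp η * bZ F' A τ) :=
      mul_le_mul_of_nonneg_left hZ1 (by positivity)
    refine h4.trans ?_
    have e2 : Real.exp (2 * η) = Real.exp η * Real.exp η := by
      rw [← Real.exp_add]; congr 1; ring
    have h5 : (Real.exp η - 1) * Real.exp η ≤ Real.exp (2 * η) - 1 := by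
      rw [e2]; nlinarith
    have h6 := mul_le_mul_of_nonneg_right (mul_le_mul_of_nonneg_left h5 hB0) hZ'.le
    linarith
  linarith

end abs

/-! ## change of the coupling -/

section coupling

variable {n : ℕ} {V : Type} [Fintype V] [DecidableEq V]

lemma W_zero (c : V → V → ℝ) (S : V → Spin (n + 2)) :
    W c 0 S = ∑ i, ∑ k, c i k * inner ℝ (S i : EuclideanSpace ℝ (Fin (n + 2))) (S k) := by
  unfold W; simp

/-- two couplings: the difference of the energies is constant up to the edges touching `A` -/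
lemma W_perturb (c c' : V → V → ℝ) (A : Finset V) (τ : V → Spin (n + 2)) :
    ∃ K : ℝ, ∀ u, |W c' 0 (merge A u τ) - W c 0 (merge A u τ) - K|
      ≤ ∑ i ∈ A, ∑ k, |c' i k - c i k| + ∑ i ∈ A, ∑ k, |c' k i - c k i| := by
  classical
  refine ⟨∑ i, ∑ k, if i ∈ A ∨ k ∈ A then 0 else
    (c' i k - c i k) * inner ℝ (τ i : EuclideanSpace ℝ (Fin (n + 2))) (τ k), fun u => ?_⟩
  have e1 : W c' 0 (merge A u τ) - W c 0 (merge A u τ)
      - (∑ i, ∑ k, if i ∈ A ∨ k ∈ A then 0 else
        (c' i k - c i k) * inner ℝ (τ i : EuclideanSpace ℝ (Fin (n + 2))) (τ k))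
      = ∑ i, ∑ k, if i ∈ A ∨ k ∈ A then (c' i k - c i k)
        * inner ℝ (merge A u τ i : EuclideanSpace ℝ (Fin (n + 2))) (merge A u τ k) else 0 := by
    rw [W_zero, W_zero, ← Finset.sum_sub_distrib, ← Finset.sum_sub_distrib]
    refine Finset.sum_congr rfl fun i _ => ?_
    rw [← Finset.sum_sub_distrib, ← Finset.sum_sub_distrib]
    refine Finset.sum_congr rfl fun k _ => ?_
    by_cases h : i ∈ A ∨ k ∈ A
    · rw [if_pos h, if_pos h]; ring
    · rw [if_neg h, if_neg h]
      rw [not_or] at h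
      rw [merge_out h.1, merge_out h.2]
      ring
  rw [e1]
  have h2 : ∀ i k : V, |(if i ∈ A ∨ k ∈ A then (c' i k - c i k)
        * inner ℝ (merge A u τ i : EuclideanSpace ℝ (Fin (n + 2))) (merge A u τ k) else 0)|
      ≤ (if i ∈ A then |c' i k - c i k| else 0) + (if k ∈ A then |c' i k - c i k| else 0) := by
    intro i k
    have h3 : |(c' i k - c i k)
        * inner ℝ (merge A u τ i : EuclideanSpace ℝ (Fin (n + 2))) (merge A u τ k)|
        ≤ |c' i k - c i k| := by
      rw [abs_mul]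
      exact mul_le_of_le_one_right (abs_nonneg _) (abs_inner_le _ _)
    have h4 := abs_nonneg (c' i k - c i k)
    by_cases hor : i ∈ A ∨ k ∈ A
    · rw [if_pos hor]
      refine h3.trans ?_
      rcases hor with hh | hh
      · rw [if_pos hh]; split_ifs <;> linarith
      · rw [if_pos hh]; split_ifs <;> linarith
    · rw [if_neg hor, abs_zero]
      split_ifs <;> linarith
  calc |∑ i, ∑ k, (if i ∈ A ∨ k ∈ A then (c' i k - c i k)
        * inner ℝ (merge A u τ i : EuclideanSpace ℝ (Fin (n + 2))) (merge A u τ k) else 0)|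
      ≤ ∑ i, ∑ k, |(if i ∈ A ∨ k ∈ A then (c' i k - c i k)
        * inner ℝ (merge A u τ i : EuclideanSpace ℝ (Fin (n + 2))) (merge A u τ k) else 0)| :=
        (Finset.abs_sum_le_sum_abs _ _).trans
          (Finset.sum_le_sum fun i _ => Finset.abs_sum_le_sum_abs _ _)
    _ ≤ ∑ i, ∑ k, ((if i ∈ A then |c' i k - c i k| else 0)
          + (if k ∈ A then |c' i k - c i k| else 0)) :=
        Finset.sum_le_sum fun i _ => Finset.sum_le_sum fun k _ => h2 i k
    _ = ∑ i ∈ A, ∑ k, |c' i k - c i k| + ∑ i ∈ A, ∑ k, |c' k i - c k i| := by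
        simp_rw [Finset.sum_add_distrib]
        congr 1
        · rw [← Finset.sum_filter_add_sum_filter_not Finset.univ (fun i => i ∈ A)]
          have e2 : ∑ i ∈ Finset.univ.filter (fun i => ¬ i ∈ A),
              ∑ k, (if i ∈ A then |c' i k - c i k| else 0) = 0 := by
            apply Finset.sum_eq_zero
            intro i hi
            rw [Finset.mem_filter] at hi
            simp [hi.2]
          rw [e2, add_zero, Finset.filter_mem_eq_inter, Finset.univ_inter]
          refine Finset.sum_congr rfl fun i hi => ?_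
          simp [hi]
        · rw [Finset.sum_comm]
          rw [← Finset.sum_filter_add_sum_filter_not Finset.univ (fun i => i ∈ A)]
          have e2 : ∑ k ∈ Finset.univ.filter (fun k => ¬ k ∈ A),
              ∑ i, (if k ∈ A then |c' i k - c i k| else 0) = 0 := by
            apply Finset.sum_eq_zero
            intro i hi
            rw [Finset.mem_filter] at hi
            simp [hi.2]
          rw [e2, add_zero, Finset.filter_mem_eq_inter, Finset.univ_inter]
          refine Finset.sum_congr rfl fun i hi => ?_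
          simp [hi]

end coupling

/-! ## the torus -/

/-- position relative to `x` on the torus -/
def tpos {L : ℕ} [NeZero L] (x z : Torus L) : ℤ × ℤ :=
  ((z - x).1.valMinAbs, (z - x).2.valMinAbs)

/-- the coupling truncated at distance `s` -/
def ctrunc (L : ℕ) [NeZero L] (J : ℤ × ℤ → ℝ) (β : ℝ) (x : Torus L) (s : ℕ) (i k : Torus L) : ℝ :=
  if ‖tpos x i - tpos x k‖ ≤ (s : ℝ) then cc L J β i k else 0

/-- exponential moment of the coupling -/
def SJ (J : ℤ × ℤ → ℝ) (μ₀ : ℝ) : ℝ := ∑' m : ℤ × ℤ, |J m| * Real.exp (μ₀ * nrm m)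

/-- size of the perturbation -/
def etaT (J : ℤ × ℤ → ℝ) (μ₀ β : ℝ) (r s : ℕ) : ℝ :=
  2 * (2 * (r : ℝ) + 1) ^ 2 * (β * (Real.exp (-(μ₀ * s)) * SJ J μ₀))

section torus

variable {L : ℕ} [NeZero L]

lemma norm_le_nrm (m : ℤ × ℤ) : ‖m‖ ≤ nrm m := by
  rw [Prod.norm_def]
  exact max_le (abs_fst_le_nrm m) (abs_snd_le_nrm m)

lemma summable_abs_of_exp {J : ℤ × ℤ → ℝ} {μ₀ : ℝ} (hμ₀ : 0 < μ₀)
    (hJ : Summable fun m : ℤ × ℤ => |J m| * Real.exp (μ₀ * nrm m)) :
    Summable fun m => |J m| := by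
  refine Summable.of_nonneg_of_le (fun m => abs_nonneg _) (fun m => ?_) hJ
  have : 1 ≤ Real.exp (μ₀ * nrm m) :=
    Real.one_le_exp (mul_nonneg hμ₀.le (nrm_nonneg m))
  exact le_mul_of_one_le_right (abs_nonneg _) this

lemma tpos_add_proj (x i : Torus L) (m : ℤ × ℤ) {r s : ℕ} (hL : 2 * (r + s) < L)
    (hi : ‖tpos x i‖ < (r : ℝ)) (hm : ‖m‖ ≤ (s : ℝ)) :
    tpos x (i + proj L m) = tpos x i + m := by
  have hL' : (2 * ((r : ℝ) + s)) < L := by exact_mod_cast hL
  have key : ∀ a b : ℤ, ‖a‖ < (r : ℝ) → ‖b‖ ≤ (s : ℝ) →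
      (a + b) * 2 ∈ Set.Ioc (-(L : ℤ)) L := by
    intro a b ha hb
    rw [Int.norm_eq_abs] at ha hb
    have h1 := abs_lt.1 ha
    have h2 := abs_le.1 hb
    constructor
    · have : (-(L : ℝ)) < ((a + b) * 2 : ℝ) := by linarith
      exact_mod_cast this
    · have : ((a + b) * 2 : ℝ) ≤ L := by linarith
      exact_mod_cast this
  have hi1 : ‖(tpos x i).1‖ < (r : ℝ) := (norm_fst_le _).trans_lt hi
  have hi2 : ‖(tpos x i).2‖ < (r : ℝ) := (norm_snd_le _).trans_lt hi
  have hm1 : ‖m.1‖ ≤ (s : ℝ) := (norm_fst_le _).trans hm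
  have hm2 : ‖m.2‖ ≤ (s : ℝ) := (norm_snd_le _).trans hm
  apply Prod.ext
  · apply (ZMod.valMinAbs_spec _ _).2
    refine ⟨?_, ?_⟩
    · simp [proj, tpos]; ring
    · exact key _ _ hi1 hm1
  · apply (ZMod.valMinAbs_spec _ _).2
    refine ⟨?_, ?_⟩
    · simp [proj, tpos]; ring
    · exact key _ _ hi2 hm2

/-- the weight of a long displacement -/
lemma far_weight {μ₀ : ℝ} (hμ₀ : 0 < μ₀) (x i : Torus L) (m m' : ℤ × ℤ) (hmm : m' = m ∨ m' = -m)
    {r s : ℕ} (hL : 2 * (r + s) < L) (hi : ‖tpos x i‖ < (r : ℝ)) :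
    (if ‖tpos x i - tpos x (i + proj L m')‖ ≤ (s : ℝ) then (0 : ℝ) else 1)
      ≤ Real.exp (-(μ₀ * s)) * Real.exp (μ₀ * nrm m) := by
  have hn : nrm m' = nrm m := by rcases hmm with h | h <;> simp [h, nrm_neg]
  split_ifs with h
  · positivity
  · have h1 : (s : ℝ) < ‖m'‖ := by
      by_contra h2
      rw [not_lt] at h2
      apply h
      rw [tpos_add_proj x i m' hL hi h2]
      rw [sub_add_cancel_left, norm_neg]
      exact h2
    have h2 := norm_le_nrm m'
    rw [← Real.exp_add]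
    apply Real.one_le_exp
    rw [hn] at h2
    nlinarith

lemma tail_row {J : ℤ × ℤ → ℝ} {μ₀ : ℝ} (hμ₀ : 0 < μ₀)
    (hJ : Summable fun m : ℤ × ℤ => |J m| * Real.exp (μ₀ * nrm m)) {β : ℝ} (hβ : 0 ≤ β)
    (x : Torus L) {r s : ℕ} (hL : 2 * (r + s) < L) {i : Torus L} (hi : ‖tpos x i‖ < (r : ℝ)) :
    ∑ k, |ctrunc L J β x s i k - cc L J β i k| ≤ β * (Real.exp (-(μ₀ * s)) * SJ J μ₀) := by
  have hJ' := summable_abs_of_exp hμ₀ hJ
  have hg : Summable fun m : ℤ × ℤ => |J m| * (Real.exp (-(μ₀ * s)) * Real.exp (μ₀ * nrm m)) := by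
    refine (hJ.mul_left (Real.exp (-(μ₀ * s)))).congr fun m => ?_
    ring
  have h1 := row_sum_le hJ' i
    (fun k => if ‖tpos x i - tpos x k‖ ≤ (s : ℝ) then (0 : ℝ) else 1)
    (fun k => by split_ifs <;> norm_num)
    (fun m => Real.exp (-(μ₀ * s)) * Real.exp (μ₀ * nrm m)) hg
    (fun m => far_weight hμ₀ x i m m (Or.inl rfl) hL hi)
  have e1 : ∑' m, |J m| * (Real.exp (-(μ₀ * s)) * Real.exp (μ₀ * nrm m))
      = Real.exp (-(μ₀ * s)) * SJ J μ₀ := by
    unfold SJ
    rw [← tsum_mul_left]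
    congr 1
    funext m
    ring
  rw [e1] at h1
  have e2 : ∑ k, |ctrunc L J β x s i k - cc L J β i k|
      = β * ∑ k, |perJ L J (k - i)|
        * (if ‖tpos x i - tpos x k‖ ≤ (s : ℝ) then (0 : ℝ) else 1) := by
    rw [Finset.mul_sum]
    refine Finset.sum_congr rfl fun k _ => ?_
    unfold ctrunc cc
    split_ifs with h
    · simp
    · rw [zero_sub, abs_neg, abs_mul, abs_of_nonneg hβ]; ring
  rw [e2]
  exact mul_le_mul_of_nonneg_left h1 hβ

lemma tail_col {J : ℤ × ℤ → ℝ} {μ₀ : ℝ} (hμ₀ : 0 < μ₀)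
    (hJ : Summable fun m : ℤ × ℤ => |J m| * Real.exp (μ₀ * nrm m)) {β : ℝ} (hβ : 0 ≤ β)
    (x : Torus L) {r s : ℕ} (hL : 2 * (r + s) < L) {i : Torus L} (hi : ‖tpos x i‖ < (r : ℝ)) :
    ∑ k, |ctrunc L J β x s k i - cc L J β k i| ≤ β * (Real.exp (-(μ₀ * s)) * SJ J μ₀) := by
  have hJ' := summable_abs_of_exp hμ₀ hJ
  have hg : Summable fun m : ℤ × ℤ => |J m| * (Real.exp (-(μ₀ * s)) * Real.exp (μ₀ * nrm m)) := by
    refine (hJ.mul_left (Real.exp (-(μ₀ * s)))).congr fun m => ?_
    ring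
  have h1 := col_sum_le hJ' i
    (fun k => if ‖tpos x i - tpos x k‖ ≤ (s : ℝ) then (0 : ℝ) else 1)
    (fun k => by split_ifs <;> norm_num)
    (fun m => Real.exp (-(μ₀ * s)) * Real.exp (μ₀ * nrm m)) hg
    (fun m => by
      have := far_weight hμ₀ x i m (-m) (Or.inr rfl) hL hi
      rwa [proj_neg, ← sub_eq_add_neg] at this)
  have e1 : ∑' m, |J m| * (Real.exp (-(μ₀ * s)) * Real.exp (μ₀ * nrm m))
      = Real.exp (-(μ₀ * s)) * SJ J μ₀ := by
    unfold SJ
    rw [← tsum_mul_left]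
    congr 1
    funext m
    ring
  rw [e1] at h1
  have e2 : ∑ k, |ctrunc L J β x s k i - cc L J β k i|
      = β * ∑ k, |perJ L J (i - k)|
        * (if ‖tpos x i - tpos x k‖ ≤ (s : ℝ) then (0 : ℝ) else 1) := by
    rw [Finset.mul_sum]
    refine Finset.sum_congr rfl fun k _ => ?_
    unfold ctrunc cc
    rw [norm_sub_rev]
    split_ifs with h
    · simp
    · rw [zero_sub, abs_neg, abs_mul, abs_of_nonneg hβ]; ring
  rw [e2]
  exact mul_le_mul_of_nonneg_left h1 hβ

lemma card_bx_le (x : Torus L) (r : ℕ) :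
    ((bx (tpos x) (r : ℝ)).card : ℝ) ≤ (2 * (r : ℝ) + 1) ^ 2 := by
  rw [← card_box]
  have h : (bx (tpos x) (r : ℝ)).card ≤ (box r).card := by
    apply Finset.card_le_card_of_injOn (tpos x)
    · intro i hi
      rw [Finset.mem_coe, mem_bx] at hi
      have h1 : ‖(tpos x i).1‖ < (r : ℝ) := (norm_fst_le _).trans_lt hi
      have h2 : ‖(tpos x i).2‖ < (r : ℝ) := (norm_snd_le _).trans_lt hi
      rw [Int.norm_eq_abs] at h1 h2
      have h3 := abs_lt.1 h1
      have h4 := abs_lt.1 h2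
      rw [Finset.mem_coe]
      unfold box
      rw [Finset.mem_product, Finset.mem_Icc, Finset.mem_Icc]
      refine ⟨⟨?_, ?_⟩, ?_, ?_⟩
      · have : (-(r : ℝ)) ≤ ((tpos x i).1 : ℝ) := h3.1.le
        exact_mod_cast this
      · exact_mod_cast h3.2.le
      · have : (-(r : ℝ)) ≤ ((tpos x i).2 : ℝ) := h4.1.le
        exact_mod_cast this
      · exact_mod_cast h4.2.le
    · intro i _ k _ h
      have h' : rep (i - x) = rep (k - x) := h
      exact sub_left_injective (rep_injective h')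
  exact_mod_cast h

lemma SJ_nonneg (J : ℤ × ℤ → ℝ) (μ₀ : ℝ) : 0 ≤ SJ J μ₀ :=
  tsum_nonneg fun m => mul_nonneg (abs_nonneg _) (Real.exp_pos _).le

lemma trunc_total {J : ℤ × ℤ → ℝ} {μ₀ : ℝ} (hμ₀ : 0 < μ₀)
    (hJ : Summable fun m : ℤ × ℤ => |J m| * Real.exp (μ₀ * nrm m)) {β : ℝ} (hβ : 0 ≤ β)
    (x : Torus L) {r s : ℕ} (hL : 2 * (r + s) < L) :
    ∑ i ∈ bx (tpos x) (r : ℝ), ∑ k, |ctrunc L J β x s i k - cc L J β i k|
      + ∑ i ∈ bx (tpos x) (r : ℝ), ∑ k, |ctrunc L J β x s k i - cc L J β k i|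
      ≤ etaT J μ₀ β r s := by
  have h1 : ∑ i ∈ bx (tpos x) (r : ℝ), ∑ k, |ctrunc L J β x s i k - cc L J β i k|
      ≤ ∑ _i ∈ bx (tpos x) (r : ℝ), β * (Real.exp (-(μ₀ * s)) * SJ J μ₀) :=
    Finset.sum_le_sum fun i hi => tail_row hμ₀ hJ hβ x hL (mem_bx.1 hi)
  have h2 : ∑ i ∈ bx (tpos x) (r : ℝ), ∑ k, |ctrunc L J β x s k i - cc L J β k i|
      ≤ ∑ _i ∈ bx (tpos x) (r : ℝ), β * (Real.exp (-(μ₀ * s)) * SJ J μ₀) :=
    Finset.sum_le_sum fun i hi => tail_col hμ₀ hJ hβ x hL (mem_bx.1 hi)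
  rw [Finset.sum_const, nsmul_eq_mul] at h1 h2
  have h3 := card_bx_le x r
  have h4 : 0 ≤ β * (Real.exp (-(μ₀ * s)) * SJ J μ₀) := by
    have := SJ_nonneg J μ₀
    positivity
  have h5 := mul_le_mul_of_nonneg_right h3 h4
  unfold etaT
  linarith

lemma perturb_trunc {n : ℕ} {J : ℤ × ℤ → ℝ} {μ₀ : ℝ} (hμ₀ : 0 < μ₀)
    (hJ : Summable fun m : ℤ × ℤ => |J m| * Real.exp (μ₀ * nrm m)) {β : ℝ} (hβ : 0 ≤ β)
    (x : Torus L) {r s : ℕ} (hL : 2 * (r + s) < L) (τ : Torus L → Spin (n + 2))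
    {f : (Torus L → Spin (n + 2)) → ℝ} (hf : Continuous f) {B m : ℝ} (hB : ∀ S, |f S| ≤ B)
    (h : bInt (W (cc L J β) 0) (bx (tpos x) (r : ℝ)) τ f
      ≤ m * bZ (W (cc L J β) 0) (bx (tpos x) (r : ℝ)) τ) :
    bInt (W (ctrunc L J β x s) 0) (bx (tpos x) (r : ℝ)) τ f
      ≤ (m + 2 * B * (Real.exp (2 * etaT J μ₀ β r s) - 1))
        * bZ (W (ctrunc L J β x s) 0) (bx (tpos x) (r : ℝ)) τ := by
  obtain ⟨K, hK⟩ := W_perturb (cc L J β) (ctrunc L J β x s) (bx (tpos x) (r : ℝ)) τ
  exact bInt_perturb (continuous_W _ _) (continuous_W _ _) _ τ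
    (fun u => (hK u).trans (trunc_total hμ₀ hJ hβ x hL)) hf hB h

lemma perturb_trunc' {n : ℕ} {J : ℤ × ℤ → ℝ} {μ₀ : ℝ} (hμ₀ : 0 < μ₀)
    (hJ : Summable fun m : ℤ × ℤ => |J m| * Real.exp (μ₀ * nrm m)) {β : ℝ} (hβ : 0 ≤ β)
    (x : Torus L) {r s : ℕ} (hL : 2 * (r + s) < L) (τ : Torus L → Spin (n + 2))
    {f : (Torus L → Spin (n + 2)) → ℝ} (hf : Continuous f) {B m : ℝ} (hB : ∀ S, |f S| ≤ B)
    (h : bInt (W (ctrunc L J β x s) 0) (bx (tpos x) (r : ℝ)) τ f
      ≤ m * bZ (W (ctrunc L J β x s) 0) (bx (tpos x) (r : ℝ)) τ) :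
    bInt (W (cc L J β) 0) (bx (tpos x) (r : ℝ)) τ f
      ≤ (m + 2 * B * (Real.exp (2 * etaT J μ₀ β r s) - 1))
        * bZ (W (cc L J β) 0) (bx (tpos x) (r : ℝ)) τ := by
  obtain ⟨K, hK⟩ := W_perturb (cc L J β) (ctrunc L J β x s) (bx (tpos x) (r : ℝ)) τ
  refine bInt_perturb (continuous_W _ _) (continuous_W _ _) _ τ (K := -K)
    (fun u => ?_) hf hB h
  refine le_trans (le_of_eq ?_) ((hK u).trans (trunc_total hμ₀ hJ hβ x hL))
  rw [← abs_neg]
  congr 1
  ring

end torus

end

end Pool.Agent.NVec.Full
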