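import Mathlib

/-!
The recursion over the scales `R_k = 5^k R_0`.
-/

namespace Pool.Agent.NVec.Full

open Filter Topology

/-- A sequence with `a (k+1) ≤ a k / 2 + e k`, `e → 0`, tends to `0`. -/
lemma tendsto_zero_of_half {a e : ℕ → ℝ} (ha : ∀ k, 0 ≤ a k) (he : Tendsto e atTop (𝓝 0))
    (h : ∀ k, a (k + 1) ≤ a k / 2 + e k) : Tendsto a atTop (𝓝 0) := by
  rw [Metric.tendsto_atTop]
  intro ε hε
  obtain ⟨N, hN⟩ := (Metric.tendsto_atTop.1 he) (ε / 4) (by positivity)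
  have h1 : ∀ j, a (N + j) ≤ a N / 2 ^ j + ε / 2 := by
    intro j
    induction j with
    | zero => simp; positivity
    | succ j ih =>
      have h2 := h (N + j)
      have h3 := hN (N + j) (by omega)
      rw [Real.dist_eq, sub_zero] at h3
      have h4 := le_abs_self (e (N + j))
      rw [← Nat.add_assoc, pow_succ, ← div_div]
      linarith
  have h5 : Tendsto (fun j : ℕ => a N / 2 ^ j) atTop (𝓝 0) := by
    have := (tendsto_pow_atTop_nhds_zero_of_lt_one (r := (1 / 2 : ℝ)) (by norm_num)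
      (by norm_num)).const_mul (a N)
    simpa [div_eq_mul_inv, mul_comm] using this
  obtain ⟨J, hJ⟩ := (Metric.tendsto_atTop.1 h5) (ε / 4) (by positivity)
  refine ⟨N + J, fun n hn => ?_⟩
  obtain ⟨j, rfl⟩ : ∃ j, n = N + j := ⟨n - N, by omega⟩
  have h6 := h1 j
  have h7 := hJ j (by omega)
  rw [Real.dist_eq, sub_zero] at h7 ⊢
  rw [abs_of_nonneg (ha _)]
  have h8 := le_abs_self (a N / 2 ^ j)
  linarith

/-- The recursion: from scale `k` with constant `m` to scale `k + 1` with constant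
`m / 10 + e k`. -/
lemma rec_exists {P : ℕ → ℝ → Prop} {e : ℕ → ℝ} (R₀ : ℝ) (hR₀ : 0 ≤ R₀) (he : ∀ k, 0 ≤ e k)
    (hlim : Tendsto (fun k => R₀ * 5 ^ (k + 1) * e k) atTop (𝓝 0)) (m₀ : ℝ) (hm₀ : 0 ≤ m₀)
    (h0 : P 0 m₀) (hstep : ∀ k m, 0 ≤ m → P k m → P (k + 1) (m / 10 + e k)) {ε : ℝ}
    (hε : 0 < ε) (k₁ : ℕ) : ∃ k m, k₁ ≤ k ∧ 0 ≤ m ∧ P k m ∧ R₀ * 5 ^ k * m ≤ ε := by
  let m : ℕ → ℝ := fun k => Nat.rec m₀ (fun k m => m / 10 + e k) k
  have hm1 : ∀ k, m (k + 1) = m k / 10 + e k := fun k => rfl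
  have hm : ∀ k, 0 ≤ m k := by
    intro k
    induction k with
    | zero => exact hm₀
    | succ k ih => rw [hm1]; have := he k; positivity
  have hP : ∀ k, P k (m k) := by
    intro k
    induction k with
    | zero => exact h0
    | succ k ih => exact hstep k _ (hm k) ih
  have ht : Tendsto (fun k => R₀ * 5 ^ k * m k) atTop (𝓝 0) := by
    apply tendsto_zero_of_half (e := fun k => R₀ * 5 ^ (k + 1) * e k)
    · intro k
      have := hm k
      positivity
    · exact hlim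
    · intro k
      rw [hm1, pow_succ]
      apply le_of_eq
      ring
  obtain ⟨K, hK⟩ := (Metric.tendsto_atTop.1 ht) ε hε
  refine ⟨max K k₁, m (max K k₁), le_max_right _ _, hm _, hP _, ?_⟩
  have h1 := hK (max K k₁) (le_max_left _ _)
  rw [Real.dist_eq, sub_zero] at h1
  exact (le_abs_self _).trans h1.le

/-- The error of the truncation at scale `s = 5^k s₀` in a box of radius `5^(k+1) K₀ s₀` is
negligible compared with the inverse radius. -/
lemma tendsto_err {μ b S B : ℝ} (hμ : 0 < μ) (hb : 0 ≤ b) (hS : 0 ≤ S) (hB : 0 ≤ B) (R₀ : ℝ)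
    (hR₀ : 0 ≤ R₀) (K₀ s₀ : ℕ) (hs₀ : 0 < s₀) :
    Tendsto (fun k : ℕ => R₀ * 5 ^ (k + 1) * (B * (Real.exp (2 * (2 *
      (2 * ((5 ^ (k + 1) * (K₀ * s₀) : ℕ) : ℝ) + 1) ^ 2 *
        (b * (Real.exp (-(μ * ((5 ^ k * s₀ : ℕ) : ℝ))) * S)))) - 1))) atTop (𝓝 0) := by
  -- the argument of the exponential
  set y : ℕ → ℝ := fun k => 2 * (2 *
      (2 * ((5 ^ (k + 1) * (K₀ * s₀) : ℕ) : ℝ) + 1) ^ 2 *
        (b * (Real.exp (-(μ * ((5 ^ k * s₀ : ℕ) : ℝ))) * S))) with hy
  set x : ℕ → ℝ := fun k => (5 : ℝ) ^ k with hx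
  have hx1 : ∀ k, 1 ≤ x k := fun k => one_le_pow₀ (by norm_num)
  have hxt : Tendsto x atTop atTop := tendsto_pow_atTop_atTop_of_one_lt (by norm_num)
  have hy0 : ∀ k, 0 ≤ y k := by
    intro k
    simp only [hy]
    positivity
  set A : ℝ := 4 * (10 * K₀ * s₀ + 1) ^ 2 * b * S with hA
  have hA0 : 0 ≤ A := by positivity
  have hyle : ∀ k, y k ≤ A * (x k ^ 2 * Real.exp (-(μ * x k))) := by
    intro k
    have h1 : Real.exp (-(μ * ((5 ^ k * s₀ : ℕ) : ℝ))) ≤ Real.exp (-(μ * x k)) := by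
      apply Real.exp_le_exp.2
      push_cast
      have : (1 : ℝ) ≤ s₀ := by exact_mod_cast hs₀
      have h2 : x k ≤ (5 : ℝ) ^ k * s₀ := by
        simp only [hx]
        nlinarith [hx1 k]
      nlinarith
    have h3 : (2 * ((5 ^ (k + 1) * (K₀ * s₀) : ℕ) : ℝ) + 1) ≤ (10 * K₀ * s₀ + 1) * x k := by
      push_cast
      have h4 := hx1 k
      simp only [hx] at h4 ⊢
      rw [pow_succ]
      nlinarith
    have h5 : (2 * ((5 ^ (k + 1) * (K₀ * s₀) : ℕ) : ℝ) + 1) ^ 2 ≤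
        ((10 * K₀ * s₀ + 1) * x k) ^ 2 := pow_le_pow_left₀ (by positivity) h3 2
    have h6 : 0 ≤ Real.exp (-(μ * x k)) := (Real.exp_pos _).le
    have h7 : 0 ≤ Real.exp (-(μ * ((5 ^ k * s₀ : ℕ) : ℝ))) := (Real.exp_pos _).le
    calc y k = 4 * b * S * ((2 * ((5 ^ (k + 1) * (K₀ * s₀) : ℕ) : ℝ) + 1) ^ 2 *
          Real.exp (-(μ * ((5 ^ k * s₀ : ℕ) : ℝ)))) := by simp only [hy]; ring
      _ ≤ 4 * b * S * (((10 * K₀ * s₀ + 1) * x k) ^ 2 * Real.exp (-(μ * x k))) := by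
          apply mul_le_mul_of_nonneg_left _ (by positivity)
          exact mul_le_mul h5 h1 h7 (by positivity)
      _ = A * (x k ^ 2 * Real.exp (-(μ * x k))) := by rw [hA]; ring
  have hpow : ∀ p : ℕ, Tendsto (fun k => x k ^ p * Real.exp (-(μ * x k))) atTop (𝓝 0) := by
    intro p
    have h1 := (Real.tendsto_pow_mul_exp_neg_atTop_nhds_zero p).comp
      (hxt.const_mul_atTop hμ)
    have h2 := h1.const_mul (μ ^ p)⁻¹
    rw [mul_zero] at h2
    refine h2.congr fun k => ?_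
    simp only [Function.comp_apply, mul_pow]
    field_simp
  have hyt : Tendsto y atTop (𝓝 0) := by
    apply squeeze_zero hy0 hyle
    simpa using (hpow 2).const_mul A
  have hev : ∀ᶠ k in atTop, y k ≤ 1 := by
    filter_upwards [hyt.eventually (gt_mem_nhds one_pos)] with k hk using hk.le
  have hbound : ∀ᶠ k in atTop, R₀ * 5 ^ (k + 1) * (B * (Real.exp (y k) - 1)) ≤
      (10 * R₀ * B * A) * (x k ^ 3 * Real.exp (-(μ * x k))) := by
    filter_upwards [hev] with k hk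
    have h1 : Real.exp (y k) - 1 ≤ 2 * y k := by
      have h2 := Real.abs_exp_sub_one_le (x := y k) (by rw [abs_of_nonneg (hy0 k)]; exact hk)
      rw [abs_of_nonneg (hy0 k)] at h2
      exact (le_abs_self _).trans h2
    have h2 : Real.exp (y k) - 1 ≤ 2 * (A * (x k ^ 2 * Real.exp (-(μ * x k)))) :=
      h1.trans (mul_le_mul_of_nonneg_left (hyle k) (by norm_num))
    calc R₀ * 5 ^ (k + 1) * (B * (Real.exp (y k) - 1))
        ≤ R₀ * 5 ^ (k + 1) * (B * (2 * (A * (x k ^ 2 * Real.exp (-(μ * x k)))))) := by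
          apply mul_le_mul_of_nonneg_left _ (by positivity)
          exact mul_le_mul_of_nonneg_left h2 hB
      _ = (10 * R₀ * B * A) * (x k ^ 3 * Real.exp (-(μ * x k))) := by
          simp only [hx]
          ring
  apply squeeze_zero' _ hbound
  · simpa using (hpow 3).const_mul (10 * R₀ * B * A)
  · filter_upwards with k
    have h1 : 0 ≤ Real.exp (y k) - 1 := by
      have := Real.add_one_le_exp (y k)
      linarith [hy0 k]
    positivity

end Pool.Agent.NVec.Full
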