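import Pool.Agent.H.MP_8be4c0_mp.Full.Setup

/-!
The symmetrised finite volume Gibbs measure.
-/

open MeasureTheory Set Filter Topology

namespace Pool.Agent.NVec.Full

set_option linter.unusedSectionVars false

noncomputable section

variable {n : ℕ} {V : Type} [Fintype V] [DecidableEq V]

lemma W_actF_sig (c : V → V → ℝ) {p r q : Fin (n + 2)} (hpr : p ≠ r) (hrq : r ≠ q)
    (hpq : p ≠ q) (S : V → Spin (n + 2)) :
    W c 0 (actF (fun _ => sig hpr hrq hpq) S) = W c 0 S := by
  unfold W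
  refine Finset.sum_congr rfl fun i _ => Finset.sum_congr rfl fun k _ => ?_
  have h := inner_sigFun hpr hrq hpq (S i : EuclideanSpace ℝ (Fin (n + 2))) (S k)
  simp only [actF, coe_act, sig_apply, h, Pi.zero_apply, zero_mul]

lemma actF_sig_sig {p r q : Fin (n + 2)} (hpr : p ≠ r) (hrq : r ≠ q)
    (hpq : p ≠ q) (S : V → Spin (n + 2)) :
    actF (fun _ => sig hpr hrq hpq) (actF (fun _ => sig hpr hrq hpq) S) = S := by
  funext i
  apply Subtype.ext
  simp only [actF, coe_act, sig_apply]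
  exact sigFun_sigFun hpr hrq hpq _

lemma Pc_actF_sig (c : V → V → ℝ) (A : Finset V) {p r q : Fin (n + 2)} (hpr : p ≠ r)
    (hrq : r ≠ q) (hpq : p ≠ q) {f : (V → Spin (n + 2)) → ℝ} (hf : Continuous f)
    (τ : V → Spin (n + 2)) :
    Pc c A (fun S => f (actF (fun _ => sig hpr hrq hpq) S)) τ
      = Pc c A f (actF (fun _ => sig hpr hrq hpq) τ) := by
  refine (Pc_actF (R := fun _ => sig hpr hrq hpq) ?_ hf τ).symm
  intro u S
  simp only [W_actF_sig, sub_self]

/-- the average of two measures -/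
def avg2 (μ₁ μ₂ : Measure (V → Spin (n + 2))) : Measure (V → Spin (n + 2)) :=
  (2 : ENNReal)⁻¹ • (μ₁ + μ₂)

lemma integral_avg2 {μ₁ μ₂ : Measure (V → Spin (n + 2))} [IsProbabilityMeasure μ₁]
    [IsProbabilityMeasure μ₂] {f : (V → Spin (n + 2)) → ℝ} (hf : Continuous f) :
    ∫ S, f S ∂(avg2 μ₁ μ₂) = ((∫ S, f S ∂μ₁) + ∫ S, f S ∂μ₂) / 2 := by
  unfold avg2
  rw [integral_smul_measure, integral_add_measure (ic hf) (ic hf), ENNReal.toReal_inv,
    ENNReal.toReal_ofNat, smul_eq_mul, div_eq_inv_mul]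

/-- the average of the finite volume Gibbs measures with boundary conditions `τ` and `sig τ` -/
lemma exists_sym (c : V → V → ℝ) (Λ : Finset V) {p r q : Fin (n + 2)} (hpr : p ≠ r) (hrq : r ≠ q)
    (hpq : p ≠ q) (τ : V → Spin (n + 2)) :
    ∃ ν : Measure (V → Spin (n + 2)), Gibbs c Λ ν ∧ SigInv hpr hrq hpq ν ∧
      ∀ f : (V → Spin (n + 2)) → ℝ, Continuous f → (∀ S, 0 ≤ f S) →
        Pc c Λ f τ ≤ 2 * ∫ S, f S ∂ν := by
  set τ' : V → Spin (n + 2) := actF (fun _ => sig hpr hrq hpq) τ with hτ'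
  have g1 := gibbs_Gm c Λ τ
  have g2 := gibbs_Gm c Λ τ'
  have := g1.prob
  have := g2.prob
  refine ⟨avg2 (Gm c Λ τ) (Gm c Λ τ'), ?_, ?_, ?_⟩
  · refine ⟨⟨?_⟩, ?_, ?_⟩
    · unfold avg2
      rw [Measure.smul_apply, Measure.add_apply, measure_univ, measure_univ, smul_eq_mul,
        one_add_one_eq_two]
      exact ENNReal.inv_mul_cancel two_ne_zero ENNReal.ofNat_ne_top
    · intro R hR f hf
      have hc : Continuous fun S : V → Spin (n + 2) =>
          f (actF R S) * Real.exp (W c 0 (actF R S) - W c 0 S) :=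
        (hf.comp (continuous_actF R)).mul (Real.continuous_exp.comp
          (((continuous_W c 0).comp (continuous_actF R)).sub (continuous_W c 0)))
      rw [integral_avg2 hc, integral_avg2 hf, g1.inv R hR f hf, g2.inv R hR f hf]
    · intro B hB f hf
      rw [integral_avg2 (continuous_Pc c B hf), integral_avg2 hf, g1.dlr B hB f hf,
        g2.dlr B hB f hf]
  · intro f hf
    have hc : Continuous fun S : V → Spin (n + 2) => f (actF (fun _ => sig hpr hrq hpq) S) :=
      hf.comp (continuous_actF _)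
    rw [integral_avg2 hc, integral_avg2 hf, integral_Gm c Λ τ hc, integral_Gm c Λ τ' hc,
      integral_Gm c Λ τ hf, integral_Gm c Λ τ' hf, Pc_actF_sig c Λ hpr hrq hpq hf,
      Pc_actF_sig c Λ hpr hrq hpq hf, ← hτ', hτ', actF_sig_sig, add_comm]
  · intro f hf h0
    have h2 : 0 ≤ ∫ S, f S ∂(Gm c Λ τ') := integral_nonneg h0
    rw [integral_avg2 hf, ← integral_Gm c Λ τ hf]
    linarith

end

end Pool.Agent.NVec.Full
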