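import Pool.Agent.H.MP_8be4c0_mp.Full.Level
import Pool.Agent.H.MP_8be4c0_mp.Full.Sym

/-!
The stiffness of a symmetric conditional measure is small at one of the scales: pigeonhole over the
levels of the multiscale decomposition.
-/

open MeasureTheory Set Filter Topology

namespace Pool.Agent.NVec.Full

set_option linter.unusedSectionVars false

noncomputable section

variable {n : ℕ} {V : Type} [Fintype V] [DecidableEq V]


lemma exists_third {n : ℕ} (hn : 1 ≤ n) (p q : Fin (n + 2)) : ∃ r : Fin (n + 2), p ≠ r ∧ r ≠ q := by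
  by_contra h
  push Not at h
  have h1 : (Finset.univ : Finset (Fin (n + 2))) ⊆ {p, q} := by
    intro r _
    by_cases hr : p = r
    · simp [hr]
    · simp [h r hr]
  have h2 := Finset.card_le_card h1
  rw [Finset.card_univ, Fintype.card_fin] at h2
  have h3 := Finset.card_le_two (a := p) (b := q)
  omega

/-- pigeonhole for two bounded increasing sequences -/
lemma exists_small_increment {a b : ℕ → ℝ} {B : ℝ} {N : ℕ} (hN : 0 < N)
    (ha : a N - a 0 ≤ B) (hb : b N - b 0 ≤ B) :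
    ∃ j < N, (a (j + 1) - a j) + (b (j + 1) - b j) ≤ 2 * B / N := by
  by_contra h
  push Not at h
  have h1 : ∑ j ∈ Finset.range N, 2 * B / (N : ℝ)
      < ∑ j ∈ Finset.range N, ((a (j + 1) - a j) + (b (j + 1) - b j)) := by
    apply Finset.sum_lt_sum_of_nonempty
    · exact ⟨0, Finset.mem_range.2 hN⟩
    · intro j hj
      exact h j (Finset.mem_range.1 hj)
  rw [Finset.sum_const, Finset.card_range, nsmul_eq_mul, Finset.sum_add_distrib,
    Finset.sum_range_sub, Finset.sum_range_sub] at h1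
  have h2 : (N : ℝ) * (2 * B / N) = 2 * B := by
    have : (N : ℝ) ≠ 0 := by positivity
    field_simp
  rw [h2] at h1
  linarith

lemma alg1 {C θ υ : ℝ} (hC : 0 < C) (hθ : 0 < θ) :
    C / θ * (θ * υ / (8 * C) + θ * υ / (8 * C)) = υ / 4 := by
  field_simp
  ring

lemma alg2 {C θ υ : ℝ} (hC : 0 < C) (hθ : 0 < θ) (hυ : 0 < υ) :
    8 * C / (θ * υ) * (θ * υ / (8 * C)) = 1 := by
  field_simp

theorem stiffness (n : ℕ) (hn : 1 ≤ n) (M : ℝ) {υ : ℝ} (hυ : 0 < υ) :
    ∃ K₀ : ℕ, 0 < K₀ ∧ ∀ (V : Type) [Fintype V] [DecidableEq V] (c : V → V → ℝ)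
      (pos : V → ℤ × ℤ) (s : ℕ), 0 < s → Geo c pos s (K₀ * s) M →
      ∀ (p q : Fin (n + 2)), p ≠ q → ∀ τ : V → Spin (n + 2),
      ∃ U : Finset V, U ⊆ bx pos (5 * ((K₀ * s : ℕ) : ℝ)) ∧
        (∀ i ∈ U, ((K₀ * s : ℕ) : ℝ) + s < ‖pos i‖) ∧
        Pc c (bx pos (5 * ((K₀ * s : ℕ) : ℝ)))
          (fun S => (Pc c U (Yv c p q (gr fun i => psi (K₀ * s) (pos i))) S) ^ 2) τ ≤ υ := by
  obtain ⟨C, hC1, hC⟩ := level_estimate n M
  have hC0 : 0 < C := by linarith
  -- the parameters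
  set θ : ℝ := min 1 (υ / (8 * C)) with hθdef
  have hθ : 0 < θ := lt_min one_pos (by positivity)
  have hθ1 : θ ≤ 1 := min_le_left _ _
  have hθ2 : C * θ ≤ υ / 8 := by
    have h1 : θ ≤ υ / (8 * C) := min_le_right _ _
    calc C * θ ≤ C * (υ / (8 * C)) := mul_le_mul_of_nonneg_left h1 hC0.le
      _ = υ / 8 := by field_simp
  obtain ⟨H, hH⟩ := exists_nat_gt (16 * C / υ)
  obtain ⟨K, hK⟩ := exists_nat_gt (8 * C / (θ * υ))
  obtain ⟨N, hN⟩ := exists_nat_gt (288 * |M| * (8 * C / (θ * υ)) ^ 2)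
  have hH0 : 0 < H := by
    have : (0 : ℝ) < H := lt_trans (by positivity) hH
    exact_mod_cast this
  have hK0 : 0 < K := by
    have : (0 : ℝ) < K := lt_trans (by positivity) hK
    exact_mod_cast this
  have hN0 : 0 < N := by
    have : (0 : ℝ) < N := lt_of_le_of_lt (by positivity) hN
    exact_mod_cast this
  refine ⟨2 * K ^ N * H, by positivity, ?_⟩
  intro V _ _ c pos s hs hG p q hpq τ
  set R : ℕ := 2 * K ^ N * H * s with hR
  obtain ⟨r, hpr, hrq⟩ := exists_third hn p q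
  obtain ⟨ν, hν, hσ, hbd⟩ := exists_sym c (bx pos (5 * (R : ℝ))) hpr hrq hpq τ
  have hR0 : 0 < R := by positivity
  have hKN : 1 ≤ K ^ N := Nat.one_le_pow _ _ hK0
  have h2s : 2 * s ≤ R := by
    have h1 : 1 ≤ K ^ N * H := Nat.mul_pos hKN hH0
    calc 2 * s = 2 * 1 * s := by ring
      _ ≤ 2 * (K ^ N * H) * s := by gcongr
      _ = R := by rw [hR]; ring
  have hM0 : 0 ≤ M := hG.nonneg
  -- the levels
  set hh : ℕ → ℕ := fun j => K ^ j * (H * s) with hhdef
  set tt : ℕ → ℕ := fun j => K ^ (N - j) with ttdef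
  have hhpos : ∀ j, 0 < hh j := fun j => by simp only [hhdef]; positivity
  have hRj : ∀ j, j ≤ N → R = 2 * hh j * tt j := by
    intro j hj
    simp only [hhdef, ttdef]
    have : K ^ N = K ^ j * K ^ (N - j) := by rw [← pow_add]; congr 1; omega
    rw [hR, this]; ring
  have hstep : ∀ j, j < N → hh (j + 1) = K * hh j ∧ tt j = K * tt (j + 1) := by
    intro j hj
    constructor
    · simp only [hhdef]; ring
    · simp only [ttdef]
      rw [← pow_succ']
      congr 1
      omega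
  have hPb : ∀ a b : Fin (n + 2), a ≠ b →
      Phi c ν pos s (hh N) (tt N) a b R - Phi c ν pos s (hh 0) (tt 0) a b R ≤ 72 * M := by
    intro a b hab
    have h1 := Phi_le hG hν hab (hhpos N) hs (hRj N le_rfl) hR0
    have h2 : 0 ≤ Phi c ν pos s (hh 0) (tt 0) a b R := Phi_nonneg
    linarith
  obtain ⟨j, hj, hsmall⟩ := exists_small_increment
    (a := fun j => Phi c ν pos s (hh j) (tt j) p r R)
    (b := fun j => Phi c ν pos s (hh j) (tt j) p q R) hN0 (hPb p r hpr) (hPb p q hpq)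
  obtain ⟨e1, e2⟩ := hstep j hj
  have hRj1 : R = 2 * (K * hh j) * tt (j + 1) := by rw [← e1]; exact hRj (j + 1) hj
  have hlev := hC V c pos s R hG ν hν p r q hpr hrq hpq hσ (hh j) K (tt (j + 1)) (hhpos j) hK0 hs
    hRj1 hR0 h2s θ hθ hθ1
  have hmA := Phi_mono hG hν hpr (hhpos j) hK0 hs hRj1 hR0
  have hmC := Phi_mono hG hν hpq (hhpos j) hK0 hs hRj1 hR0
  rw [e1, e2] at hsmall
  have hKr : (0 : ℝ) < K := by exact_mod_cast hK0
  have hHr : (0 : ℝ) < H := by exact_mod_cast hH0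
  have hNr : (0 : ℝ) < N := by exact_mod_cast hN0
  have hsr : (1 : ℝ) ≤ s := by exact_mod_cast hs
  -- the square roots
  set δA := Phi c ν pos s (K * hh j) (tt (j + 1)) p r R - Phi c ν pos s (hh j) (K * tt (j + 1)) p r R
    with hδA
  set δC := Phi c ν pos s (K * hh j) (tt (j + 1)) p q R - Phi c ν pos s (hh j) (K * tt (j + 1)) p q R
    with hδC
  have hA0 : 0 ≤ δA := by rw [hδA]; linarith
  have hC0' : 0 ≤ δC := by rw [hδC]; linarith
  have hsq : Real.sqrt δA + Real.sqrt δC ≤ θ * υ / (8 * C) := by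
    have h1 : (Real.sqrt δA + Real.sqrt δC) ^ 2 ≤ 2 * (δA + δC) := by
      have e3 := Real.sq_sqrt hA0
      have e4 := Real.sq_sqrt hC0'
      have e5 := sq_nonneg (Real.sqrt δA - Real.sqrt δC)
      have e6 : (Real.sqrt δA + Real.sqrt δC) ^ 2
          = 2 * (Real.sqrt δA ^ 2 + Real.sqrt δC ^ 2) - (Real.sqrt δA - Real.sqrt δC) ^ 2 := by
        ring
      rw [e6, e3, e4]
      linarith only [e5]
    have h2 : 2 * (δA + δC) ≤ 2 * (2 * (72 * M) / N) := by linarith
    have h3 : 2 * (2 * (72 * M) / N) ≤ (θ * υ / (8 * C)) ^ 2 := by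
      rw [abs_of_nonneg hM0] at hN
      have h4 : (8 * C / (θ * υ)) ^ 2 * (θ * υ / (8 * C)) ^ 2 = 1 := by
        rw [← mul_pow]
        rw [alg2 hC0 hθ hυ, one_pow]
      have h5 : 288 * M * (8 * C / (θ * υ)) ^ 2 * (θ * υ / (8 * C)) ^ 2
          ≤ N * (θ * υ / (8 * C)) ^ 2 := mul_le_mul_of_nonneg_right hN.le (sq_nonneg _)
      rw [mul_assoc, h4, mul_one] at h5
      have h6 : 2 * (2 * (72 * M) / N) = 288 * M / N := by ring
      rw [h6, div_le_iff₀ hNr]
      linarith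
    have h7 : 0 ≤ θ * υ / (8 * C) := div_nonneg (mul_nonneg hθ.le hυ.le) (by linarith only [hC0])
    exact (sq_le_sq₀ (add_nonneg (Real.sqrt_nonneg _) (Real.sqrt_nonneg _)) h7).1
      (h1.trans (h2.trans h3))
  have hbsum : C / θ * (Real.sqrt δA + Real.sqrt δC + 1 / K) ≤ υ / 4 := by
    have h1 : 1 / (K : ℝ) ≤ θ * υ / (8 * C) := by
      rw [div_le_iff₀ hKr]
      have h2 := alg2 hC0 hθ hυ
      have h3 : 8 * C / (θ * υ) * (θ * υ / (8 * C)) ≤ K * (θ * υ / (8 * C)) :=
        mul_le_mul_of_nonneg_right hK.le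
          (div_nonneg (mul_nonneg hθ.le hυ.le) (by linarith only [hC0]))
      rw [h2] at h3
      linarith
    calc C / θ * (Real.sqrt δA + Real.sqrt δC + 1 / K)
        ≤ C / θ * (θ * υ / (8 * C) + θ * υ / (8 * C)) := by
          apply mul_le_mul_of_nonneg_left _ (div_nonneg hC0.le hθ.le)
          linarith
      _ = υ / 4 := alg1 hC0 hθ
  have hmarg : C * (((s : ℝ) + 1) / (K * hh j)) ≤ υ / 8 := by
    have h1 : ((s : ℝ) + 1) / (K * hh j) ≤ 2 / H := by
      have h2 : (H : ℝ) * s ≤ K * hh j := by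
        have h3 : H * s ≤ K * hh j := by
          simp only [hhdef]
          have h4 : 1 ≤ K * K ^ j := Nat.mul_pos hK0 (Nat.one_le_pow _ _ hK0)
          calc H * s = 1 * (H * s) := by ring
            _ ≤ (K * K ^ j) * (H * s) := by gcongr
            _ = K * (K ^ j * (H * s)) := by ring
        exact_mod_cast h3
      have hs0 : (0 : ℝ) < s := lt_of_lt_of_le one_pos hsr
      rw [div_le_div_iff₀ (lt_of_lt_of_le (mul_pos hHr hs0) h2) hHr]
      linarith only [mul_le_mul_of_nonneg_left hsr hHr.le, h2]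
    calc C * (((s : ℝ) + 1) / (K * hh j)) ≤ C * (2 / H) := mul_le_mul_of_nonneg_left h1 hC0.le
      _ ≤ υ / 8 := by
        rw [mul_div_assoc', div_le_iff₀ hHr]
        have h5 : 16 * C / υ * υ ≤ H * υ := mul_le_mul_of_nonneg_right hH.le hυ.le
        rw [div_mul_cancel₀ _ hυ.ne'] at h5
        linarith
  refine ⟨Ublk pos s (hh j) (K * tt (j + 1)), ?_, ?_, ?_⟩
  · intro i hi
    unfold Ublk at hi
    rw [Finset.mem_biUnion] at hi
    obtain ⟨a, ha, hia⟩ := hi
    have h1 := (blk_range ha hia).2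
    rw [mem_bx]
    have h2 : 2 * hh j * (K * tt (j + 1)) = R := by rw [hRj1]; ring
    rw [h2] at h1
    have h3 : (0 : ℝ) ≤ (R : ℝ) := Nat.cast_nonneg _
    linarith
  · intro i hi
    unfold Ublk at hi
    rw [Finset.mem_biUnion] at hi
    obtain ⟨a, ha, hia⟩ := hi
    have h1 := (blk_range ha hia).1
    have h2 : 2 * hh j * (K * tt (j + 1)) = R := by rw [hRj1]; ring
    rw [h2] at h1
    exact h1
  · refine (hbd _ ?_ fun S => sq_nonneg _).trans ?_
    · exact (continuous_Pc c _ (continuous_Yv c p q _)).pow 2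
    · have e5 : C * (θ + ((s : ℝ) + 1) / (K * hh j)) = C * θ + C * (((s : ℝ) + 1) / (K * hh j)) := by
        ring
      rw [e5] at hlev
      linarith

end

end Pool.Agent.NVec.Full
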