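import Pool.Agent.H.MP_8be4c0_mp.Full.CoreStep
import Pool.Agent.H.MP_8be4c0_mp.Full.Perturb
import Pool.Agent.H.MP_8be4c0_mp.Gap4

/-!
From the contraction for finite range couplings to decay in boxes of the torus.
-/

open MeasureTheory Set Filter Topology

namespace Pool.Agent.NVec.Full

set_option linter.unusedSectionVars false

noncomputable section

lemma norm_zz (a : ℤ × ℤ) : ‖a‖ = max |(a.1 : ℝ)| |(a.2 : ℝ)| := rfl

lemma tpos_self {L : ℕ} [NeZero L] (x : Torus L) : tpos x x = 0 := by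
  unfold tpos; simp

lemma tpos_inj {L : ℕ} [NeZero L] {x i k : Torus L} (h : tpos x i = tpos x k) : i = k := by
  unfold tpos at h
  rw [Prod.mk.injEq] at h
  have h1 := ZMod.injective_valMinAbs h.1
  have h2 := ZMod.injective_valMinAbs h.2
  have h3 : i - x = k - x := Prod.ext h1 h2
  exact sub_left_injective h3

lemma int_shift_le {d t : ℤ} {L s : ℕ} (h : ((d : ZMod L)) = (t : ZMod L)) (hd : |d| ≤ s)
    (hL : 2 * s < L) : |d| ≤ |t| := by
  rw [ZMod.intCast_eq_intCast_iff_dvd_sub] at h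
  obtain ⟨j, hj⟩ := h
  rcases eq_or_ne j 0 with rfl | hj0
  · have : t = d := by linarith
    rw [this]
  · have h1 : (L : ℤ) ≤ |t - d| := by
      rw [hj, abs_mul, Nat.abs_cast]
      have : 1 ≤ |j| := Int.one_le_abs hj0
      have hL0 : (0 : ℤ) ≤ L := Nat.cast_nonneg _
      nlinarith
    have h2 : |t - d| ≤ |t| + |d| := abs_sub _ _
    have h3 : (2 * s : ℤ) < L := by exact_mod_cast hL
    linarith

lemma norm_shift_le {L : ℕ} [NeZero L] (x i : Torus L) (m : ℤ × ℤ) {s : ℕ} (hL : 2 * s < L)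
    (h : ‖tpos x i - tpos x (i + proj L m)‖ ≤ (s : ℝ)) :
    ‖tpos x i - tpos x (i + proj L m)‖ ≤ ‖m‖ := by
  have key : ∀ (a b : ZMod L) (t : ℤ), b = a + (t : ZMod L) →
      |((a.valMinAbs - b.valMinAbs : ℤ) : ℝ)| ≤ s →
      |((a.valMinAbs - b.valMinAbs : ℤ) : ℝ)| ≤ |(t : ℝ)| := by
    intro a b t hb hs
    have h1 : |a.valMinAbs - b.valMinAbs| ≤ (s : ℤ) := by exact_mod_cast hs
    have h2 : ((b.valMinAbs - a.valMinAbs : ℤ) : ZMod L) = (t : ZMod L) := by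
      push_cast
      rw [hb]
      ring
    rw [abs_sub_comm] at h1
    have h3 := int_shift_le h2 h1 hL
    rw [abs_sub_comm] at h3
    exact_mod_cast h3
  rw [norm_zz] at h ⊢
  rw [norm_zz]
  have h1 := (le_max_left _ _).trans h
  have h2 := (le_max_right _ _).trans h
  apply max_le_max
  · apply key _ _ m.1 _ h1
    simp only [proj, Prod.fst_sub, Prod.fst_add]
    ring
  · apply key _ _ m.2 _ h2
    simp only [proj, Prod.snd_sub, Prod.snd_add]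
    ring

lemma norm_shift_le' {L : ℕ} [NeZero L] (x i : Torus L) (m : ℤ × ℤ) {s : ℕ} (hL : 2 * s < L)
    (h : ‖tpos x i - tpos x (i - proj L m)‖ ≤ (s : ℝ)) :
    ‖tpos x i - tpos x (i - proj L m)‖ ≤ ‖m‖ := by
  have e : i - proj L m = i + proj L (-m) := by
    unfold proj
    ext <;> simp [sub_eq_add_neg]
  rw [e] at h ⊢
  have := norm_shift_le x i (-m) hL h
  rwa [norm_neg] at this

lemma summable_norm_sq {J : ℤ × ℤ → ℝ} {μ₀ : ℝ} (hμ₀ : 0 < μ₀)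
    (hJ : Summable fun m : ℤ × ℤ => |J m| * Real.exp (μ₀ * nrm m)) :
    Summable fun m : ℤ × ℤ => |J m| * ‖m‖ ^ 2 := by
  refine Summable.of_nonneg_of_le (fun m => by positivity) (fun m => ?_) (summable_poly hμ₀ hJ 2)
  have h1 := norm_le_nrm m
  have h2 := norm_nonneg m
  have h3 := nrm_nonneg m
  have h4 : ‖m‖ ^ 2 ≤ (1 + nrm m) ^ 2 := by
    apply pow_le_pow_left₀ h2
    linarith
  exact mul_le_mul_of_nonneg_left h4 (abs_nonneg _)

lemma summable_abs {J : ℤ × ℤ → ℝ} {μ₀ : ℝ} (hμ₀ : 0 < μ₀)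
    (hJ : Summable fun m : ℤ × ℤ => |J m| * Real.exp (μ₀ * nrm m)) :
    Summable fun m : ℤ × ℤ => |J m| := by
  have := summable_poly hμ₀ hJ 0
  simpa using this

lemma geo_trunc {L : ℕ} [NeZero L] {J : ℤ × ℤ → ℝ} {μ₀ : ℝ} (hμ₀ : 0 < μ₀)
    (hJ : Summable fun m : ℤ × ℤ => |J m| * Real.exp (μ₀ * nrm m)) {β : ℝ} (hβ : 0 ≤ β)
    (x : Torus L) {s : ℕ} (R : ℕ) (hs : 2 * s < L) :
    Geo (ctrunc L J β x s) (tpos x) s R (β * ∑' m : ℤ × ℤ, |J m| * ‖m‖ ^ 2) where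
  nonneg := mul_nonneg hβ (tsum_nonneg fun m => by positivity)
  inj := fun i k _ h => tpos_inj h
  range := by
    intro i k h
    unfold ctrunc at h
    by_contra h2
    rw [if_neg h2] at h
    exact h rfl
  row := by
    intro i
    have h1 := row_sum_le (L := L) (summable_abs hμ₀ hJ) i
      (fun k => if ‖tpos x i - tpos x k‖ ≤ (s : ℝ) then ‖tpos x i - tpos x k‖ ^ 2 else 0)
      (fun k => by split_ifs <;> positivity) (fun m => ‖m‖ ^ 2) (summable_norm_sq hμ₀ hJ)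
      (fun m => by
        split_ifs with h
        · exact pow_le_pow_left₀ (norm_nonneg _) (norm_shift_le x i m hs h) 2
        · positivity)
    refine le_trans (le_of_eq ?_) (mul_le_mul_of_nonneg_left h1 hβ)
    rw [Finset.mul_sum]
    refine Finset.sum_congr rfl fun k _ => ?_
    unfold ctrunc cc
    split_ifs
    · rw [abs_mul, abs_of_nonneg hβ, mul_assoc]
    · simp
  col := by
    intro i
    have h1 := col_sum_le (L := L) (summable_abs hμ₀ hJ) i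
      (fun k => if ‖tpos x i - tpos x k‖ ≤ (s : ℝ) then ‖tpos x i - tpos x k‖ ^ 2 else 0)
      (fun k => by split_ifs <;> positivity) (fun m => ‖m‖ ^ 2) (summable_norm_sq hμ₀ hJ)
      (fun m => by
        split_ifs with h
        · exact pow_le_pow_left₀ (norm_nonneg _) (norm_shift_le' x i m hs h) 2
        · positivity)
    refine le_trans (le_of_eq ?_) (mul_le_mul_of_nonneg_left h1 hβ)
    rw [Finset.mul_sum]
    refine Finset.sum_congr rfl fun k _ => ?_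
    unfold ctrunc cc
    rw [norm_sub_rev (tpos x k) (tpos x i)]
    split_ifs
    · rw [abs_mul, abs_of_nonneg hβ, mul_assoc]
    · simp

/-! ### the recursion -/

/-- the error made by truncating the coupling -/
def err (J : ℤ × ℤ → ℝ) (μ₀ β : ℝ) (r s : ℕ) : ℝ := 2 * (Real.exp (2 * etaT J μ₀ β r s) - 1)

/-- the bound in the box of radius `K 5^k` -/
def mseq (J : ℤ × ℤ → ℝ) (μ₀ β : ℝ) (K : ℕ) : ℕ → ℝ
  | 0 => 1
  | k + 1 => (1 / 10) * (mseq J μ₀ β K k + err J μ₀ β (K * 5 ^ k) (5 ^ k))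
      + err J μ₀ β (K * 5 ^ (k + 1)) (5 ^ k)

lemma etaT_nonneg (J : ℤ × ℤ → ℝ) (μ₀ : ℝ) {β : ℝ} (hβ : 0 ≤ β) (r s : ℕ) :
    0 ≤ etaT J μ₀ β r s := by
  unfold etaT
  have := SJ_nonneg J μ₀
  positivity

lemma err_nonneg (J : ℤ × ℤ → ℝ) (μ₀ : ℝ) {β : ℝ} (hβ : 0 ≤ β) (r s : ℕ) :
    0 ≤ err J μ₀ β r s := by
  unfold err
  have h1 := etaT_nonneg J μ₀ hβ r s
  have h2 : 1 ≤ Real.exp (2 * etaT J μ₀ β r s) := Real.one_le_exp (by positivity)
  linarith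

lemma mseq_nonneg (J : ℤ × ℤ → ℝ) (μ₀ : ℝ) {β : ℝ} (hβ : 0 ≤ β) (K k : ℕ) :
    0 ≤ mseq J μ₀ β K k := by
  induction k with
  | zero => simp [mseq]
  | succ k ih =>
    have h1 := err_nonneg J μ₀ hβ (K * 5 ^ k) (5 ^ k)
    have h2 := err_nonneg J μ₀ hβ (K * 5 ^ (k + 1)) (5 ^ k)
    simp only [mseq]
    positivity

lemma box_rec (n : ℕ) (hn : 1 ≤ n) {J : ℤ × ℤ → ℝ} {μ₀ : ℝ} (hμ₀ : 0 < μ₀)
    (hJ : Summable fun m : ℤ × ℤ => |J m| * Real.exp (μ₀ * nrm m)) {β : ℝ} (hβ : 0 ≤ β) :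
    ∃ K : ℕ, 0 < K ∧ ∀ k : ℕ, ∀ (L : ℕ) [NeZero L], 20 * (K * 5 ^ k) < L → ∀ (x : Torus L)
      (τ : Torus L → Spin (n + 2)) (e : EuclideanSpace ℝ (Fin (n + 2))),
        bInt (W (cc L J β) 0) (bx (tpos x) ((K * 5 ^ k : ℕ) : ℝ)) τ
          (fun S => inner ℝ e (S x : EuclideanSpace ℝ (Fin (n + 2))))
          ≤ mseq J μ₀ β K k * ‖e‖ * bZ (W (cc L J β) 0) (bx (tpos x) ((K * 5 ^ k : ℕ) : ℝ)) τ := by
  obtain ⟨K, hK, hcore⟩ := core_step n hn (β * ∑' m : ℤ × ℤ, |J m| * ‖m‖ ^ 2)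
    (δ := 1 / 10) (by norm_num)
  refine ⟨K, hK, fun k => ?_⟩
  have hcont : ∀ (L : ℕ) [NeZero L] (x : Torus L) (e : EuclideanSpace ℝ (Fin (n + 2))),
      Continuous fun S : Torus L → Spin (n + 2) =>
        inner ℝ e (S x : EuclideanSpace ℝ (Fin (n + 2))) := fun L _ x e =>
    continuous_const.inner (continuous_subtype_val.comp (continuous_apply x))
  have hbd : ∀ (L : ℕ) [NeZero L] (x : Torus L) (e : EuclideanSpace ℝ (Fin (n + 2)))
      (S : Torus L → Spin (n + 2)), |inner ℝ e (S x : EuclideanSpace ℝ (Fin (n + 2)))| ≤ ‖e‖ := by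
    intro L _ x e S
    have h1 := abs_real_inner_le_norm e (S x : EuclideanSpace ℝ (Fin (n + 2)))
    have h2 : ‖(S x : EuclideanSpace ℝ (Fin (n + 2)))‖ = 1 := by
      have := (S x).2
      rwa [mem_sphere_zero_iff_norm] at this
    rwa [h2, mul_one] at h1
  induction k with
  | zero =>
    intro L _ hL x τ e
    have h1 := bInt_abs_le (continuous_W (cc L J β) 0) (bx (tpos x) ((K * 5 ^ 0 : ℕ) : ℝ)) τ
      (hcont L x e) (hbd L x e)
    simp only [mseq, one_mul]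
    exact (le_abs_self _).trans h1
  | succ k ih =>
    intro L _ hL x τ e
    have h5 : K * 5 ^ (k + 1) = 5 * (K * 5 ^ k) := by ring
    have hs : 5 ^ k ≤ K * 5 ^ k := Nat.le_mul_of_pos_left _ hK
    have hs0 : 0 < 5 ^ k := by positivity
    have hR : (5 : ℝ) * ((K * 5 ^ k : ℕ) : ℝ) = ((K * 5 ^ (k + 1) : ℕ) : ℝ) := by
      rw [h5]; push_cast; ring
    have hx : ‖tpos x x‖ < ((K * 5 ^ k : ℕ) : ℝ) := by
      rw [tpos_self, norm_zero]
      exact_mod_cast Nat.mul_pos hK hs0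
    have hgeo := geo_trunc (L := L) hμ₀ hJ hβ x (s := 5 ^ k) (K * 5 ^ k) (by omega)
    have hstep := hcore (Torus L) (ctrunc L J β x (5 ^ k)) (tpos x) (5 ^ k) hs0 hgeo x hx
      (mseq J μ₀ β K k + err J μ₀ β (K * 5 ^ k) (5 ^ k))
      (add_nonneg (mseq_nonneg J μ₀ hβ K k) (err_nonneg J μ₀ hβ _ _))
      (by
        intro τ' e'
        have h1 := ih L (by omega) x τ' e'
        have h2 := perturb_trunc hμ₀ hJ hβ x (r := K * 5 ^ k) (s := 5 ^ k) (by omega) τ'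
          (hcont L x e') (hbd L x e') h1
        refine h2.trans (le_of_eq ?_)
        unfold err
        ring)
      τ e
    rw [hR] at hstep
    have h3 := perturb_trunc' hμ₀ hJ hβ x (r := K * 5 ^ (k + 1)) (s := 5 ^ k) (by omega) τ
      (hcont L x e) (hbd L x e) hstep
    refine h3.trans (le_of_eq ?_)
    simp only [mseq]
    unfold err
    ring

/-! ### the limit -/

lemma half_rec {a b : ℕ → ℝ} (ha : ∀ k, 0 ≤ a k) (h : ∀ k, a (k + 1) ≤ a k / 2 + b k)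
    (hb : Tendsto b atTop (𝓝 0)) : Tendsto a atTop (𝓝 0) := by
  rw [Metric.tendsto_atTop] at hb ⊢
  intro ε hε
  obtain ⟨N, hN⟩ := hb (ε / 4) (by positivity)
  have h1 : ∀ j, a (N + j) ≤ a N * (1 / 2) ^ j + ε / 2 := by
    intro j
    induction j with
    | zero => simp; linarith
    | succ j ih =>
      have h2 := h (N + j)
      have h3 := hN (N + j) (by omega)
      rw [Real.dist_eq, sub_zero] at h3
      have h4 := (abs_lt.1 h3).2
      rw [← add_assoc]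
      rw [pow_succ]
      linarith
  have h5 : Tendsto (fun j : ℕ => a N * (1 / 2 : ℝ) ^ j) atTop (𝓝 (a N * 0)) :=
    (tendsto_pow_atTop_nhds_zero_of_lt_one (by norm_num) (by norm_num)).const_mul _
  rw [mul_zero, Metric.tendsto_atTop] at h5
  obtain ⟨M, hM⟩ := h5 (ε / 2) (by positivity)
  refine ⟨N + M, fun k hk => ?_⟩
  rw [Real.dist_eq, sub_zero, abs_of_nonneg (ha k)]
  have h6 := hM (k - N) (by omega)
  rw [Real.dist_eq, sub_zero] at h6
  have h7 := (abs_lt.1 h6).2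
  have h8 := h1 (k - N)
  rw [show N + (k - N) = k by omega] at h8
  linarith

lemma tendsto_t (q : ℕ) {μ₀ : ℝ} (hμ₀ : 0 < μ₀) :
    Tendsto (fun k : ℕ => ((5 : ℝ) ^ k) ^ q * Real.exp (-(μ₀ * (5 : ℝ) ^ k))) atTop (𝓝 0) := by
  have h1 : Tendsto (fun k : ℕ => μ₀ * (5 : ℝ) ^ k) atTop atTop :=
    (tendsto_pow_atTop_atTop_of_one_lt (by norm_num)).const_mul_atTop hμ₀
  have h2 := ((Real.tendsto_pow_mul_exp_neg_atTop_nhds_zero q).comp h1).const_mul ((1 / μ₀) ^ q)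
  rw [mul_zero] at h2
  refine h2.congr fun k => ?_
  simp only [Function.comp]
  rw [mul_pow, ← mul_assoc, ← mul_assoc, ← mul_pow, one_div_mul_cancel hμ₀.ne', one_pow, one_mul]

/-- a convenient upper bound for `etaT` -/
def eb (J : ℤ × ℤ → ℝ) (μ₀ β : ℝ) (K : ℕ) (k : ℕ) : ℝ :=
  2 * (11 * (K : ℝ)) ^ 2 * (β * SJ J μ₀) * (((5 : ℝ) ^ k) ^ 2 * Real.exp (-(μ₀ * (5 : ℝ) ^ k)))

lemma etaT_le (J : ℤ × ℤ → ℝ) (μ₀ : ℝ) {β : ℝ} (hβ : 0 ≤ β) {K : ℕ} (hK : 0 < K) (k r : ℕ)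
    (hr : r ≤ K * 5 ^ (k + 1)) : etaT J μ₀ β r (5 ^ k) ≤ eb J μ₀ β K k := by
  unfold etaT eb
  have hS := SJ_nonneg J μ₀
  have hK1 : (1 : ℝ) ≤ K := by exact_mod_cast hK
  have ht : (1 : ℝ) ≤ (5 : ℝ) ^ k := one_le_pow₀ (by norm_num)
  have hr' : (r : ℝ) ≤ K * (5 : ℝ) ^ (k + 1) := by exact_mod_cast hr
  have h1 : 2 * (r : ℝ) + 1 ≤ 11 * K * (5 : ℝ) ^ k := by
    rw [pow_succ] at hr'
    have : (1 : ℝ) ≤ K * (5 : ℝ) ^ k := one_le_mul_of_one_le_of_one_le hK1 ht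
    nlinarith
  have h2 : (2 * (r : ℝ) + 1) ^ 2 ≤ (11 * K * (5 : ℝ) ^ k) ^ 2 :=
    pow_le_pow_left₀ (by positivity) h1 2
  push_cast
  calc 2 * (2 * (r : ℝ) + 1) ^ 2 * (β * (Real.exp (-(μ₀ * 5 ^ k)) * SJ J μ₀))
      ≤ 2 * (11 * K * (5 : ℝ) ^ k) ^ 2 * (β * (Real.exp (-(μ₀ * 5 ^ k)) * SJ J μ₀)) := by
        gcongr
    _ = _ := by ring

lemma exp_sub_one_le {y : ℝ} : Real.exp y - 1 ≤ y * Real.exp y := by
  have h := Real.add_one_le_exp (-y)
  have h2 := mul_le_mul_of_nonneg_right h (Real.exp_pos y).le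
  rw [← Real.exp_add, neg_add_cancel, Real.exp_zero] at h2
  linarith

lemma err_le (J : ℤ × ℤ → ℝ) (μ₀ : ℝ) {β : ℝ} (hβ : 0 ≤ β) {K : ℕ} (hK : 0 < K) (k r : ℕ)
    (hr : r ≤ K * 5 ^ (k + 1)) : err J μ₀ β r (5 ^ k)
      ≤ 4 * eb J μ₀ β K k * Real.exp (2 * eb J μ₀ β K k) := by
  have h1 := etaT_le J μ₀ hβ hK k r hr
  unfold err
  have h2 : Real.exp (2 * etaT J μ₀ β r (5 ^ k)) ≤ Real.exp (2 * eb J μ₀ β K k) :=
    Real.exp_le_exp.2 (by linarith)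
  have h3 := exp_sub_one_le (y := 2 * eb J μ₀ β K k)
  linarith

lemma tendsto_R_mseq (J : ℤ × ℤ → ℝ) {μ₀ : ℝ} (hμ₀ : 0 < μ₀) {β : ℝ} (hβ : 0 ≤ β) {K : ℕ}
    (hK : 0 < K) :
    Tendsto (fun k : ℕ => ((K * 5 ^ k : ℕ) : ℝ) * mseq J μ₀ β K k) atTop (𝓝 0) := by
  have heb : Tendsto (fun k => eb J μ₀ β K k) atTop (𝓝 0) := by
    have := (tendsto_t 2 hμ₀).const_mul (2 * (11 * (K : ℝ)) ^ 2 * (β * SJ J μ₀))
    rw [mul_zero] at this
    exact this
  have heb3 : Tendsto (fun k => (5 : ℝ) ^ k * eb J μ₀ β K k) atTop (𝓝 0) := by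
    have := (tendsto_t 3 hμ₀).const_mul (2 * (11 * (K : ℝ)) ^ 2 * (β * SJ J μ₀))
    rw [mul_zero] at this
    refine this.congr fun k => ?_
    unfold eb
    ring
  have hexp : Tendsto (fun k => Real.exp (2 * eb J μ₀ β K k)) atTop (𝓝 (Real.exp (2 * 0))) :=
    (Real.continuous_exp.tendsto _).comp (heb.const_mul 2)
  have hb : Tendsto (fun k => (22 * (K : ℝ)) * (((5 : ℝ) ^ k * eb J μ₀ β K k)
      * Real.exp (2 * eb J μ₀ β K k))) atTop (𝓝 0) := by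
    have := (heb3.mul hexp).const_mul (22 * (K : ℝ))
    rw [zero_mul, mul_zero] at this
    exact this
  refine half_rec (fun k => mul_nonneg (Nat.cast_nonneg _) (mseq_nonneg J μ₀ hβ K k))
    (fun k => ?_) hb
  have h1 := err_le J μ₀ hβ hK k (K * 5 ^ k)
    (Nat.mul_le_mul_left K (Nat.pow_le_pow_right (by norm_num) (by omega)))
  have h2 := err_le J μ₀ hβ hK k (K * 5 ^ (k + 1)) le_rfl
  have hR : ((K * 5 ^ (k + 1) : ℕ) : ℝ) = 5 * ((K : ℝ) * 5 ^ k) := by push_cast; ring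
  have hR2 : ((K * 5 ^ k : ℕ) : ℝ) = (K : ℝ) * 5 ^ k := by push_cast; ring
  simp only [mseq]
  rw [hR, hR2]
  have hpos : 0 ≤ (K : ℝ) * 5 ^ k := by positivity
  have h3 := mul_le_mul_of_nonneg_left h1 hpos
  have h4 := mul_le_mul_of_nonneg_left h2 hpos
  linarith

/-- decay of the magnetisation in boxes, uniformly in the boundary condition -/
theorem box_decay (n : ℕ) (hn : 1 ≤ n) {J : ℤ × ℤ → ℝ} {μ₀ : ℝ} (hμ₀ : 0 < μ₀)
    (hJ : Summable fun m : ℤ × ℤ => |J m| * Real.exp (μ₀ * nrm m)) {β : ℝ} (hβ : 0 ≤ β)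
    {ε : ℝ} (hε : 0 < ε) (R₁ : ℕ) :
    ∃ (R : ℕ) (m : ℝ), R₁ ≤ R ∧ 0 ≤ m ∧ R * m ≤ ε ∧
      ∀ (L : ℕ) [NeZero L], 20 * R < L → ∀ (x : Torus L) (τ : Torus L → Spin (n + 2))
        (e : EuclideanSpace ℝ (Fin (n + 2))),
        bInt (W (cc L J β) 0) (bx (tpos x) (R : ℝ)) τ
          (fun S => inner ℝ e (S x : EuclideanSpace ℝ (Fin (n + 2))))
          ≤ m * ‖e‖ * bZ (W (cc L J β) 0) (bx (tpos x) (R : ℝ)) τ := by
  obtain ⟨K, hK, hrec⟩ := box_rec n hn hμ₀ hJ hβ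
  have h1 := (tendsto_R_mseq J hμ₀ hβ hK).eventually (ge_mem_nhds hε)
  have h2 : ∀ᶠ k : ℕ in atTop, R₁ ≤ K * 5 ^ k := by
    have h3 : Tendsto (fun k : ℕ => 5 ^ k) atTop atTop :=
      tendsto_pow_atTop_atTop_of_one_lt (by norm_num)
    filter_upwards [h3.eventually_ge_atTop R₁] with k hk
    exact hk.trans (Nat.le_mul_of_pos_left _ hK)
  obtain ⟨k, hk1, hk2⟩ := (h1.and h2).exists
  exact ⟨K * 5 ^ k, mseq J μ₀ β K k, hk2, mseq_nonneg J μ₀ hβ K k, hk1, fun L _ hL x τ e =>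
    hrec k L hL x τ e⟩

end

end Pool.Agent.NVec.Full
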