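import Pool.Agent.H.MP_8be4c0_mp.Full.Core

/-!
Ward identities in general planes for Gibbs measures.
-/

open MeasureTheory Set Filter Topology

namespace Pool.Agent.NVec.Full

set_option linter.unusedSectionVars false

noncomputable section

variable {n : ℕ} {V : Type} [Fintype V] [DecidableEq V]

/-- the rotation by the angles `ω` in the plane `(a,b)` -/
def rho {a b : Fin (n + 2)} (h : a ≠ b) (ω : V → ℝ) (S : V → Spin (n + 2)) : V → Spin (n + 2) :=
  actF (fun i => rot h (ω i)) S

lemma coe_rho {a b : Fin (n + 2)} (h : a ≠ b) (ω : V → ℝ) (S : V → Spin (n + 2)) (i : V) :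
    (rho h ω S i : EuclideanSpace ℝ (Fin (n + 2))) = rotFun a b (ω i) (S i) := rfl

lemma rotFun_zero (a b : Fin (n + 2)) (u : EuclideanSpace ℝ (Fin (n + 2))) :
    rotFun a b 0 u = u := by
  ext r
  unfold rotFun
  simp only [Real.cos_zero, Real.sin_zero]
  split_ifs with h1 h2
  · rw [h1]; ring
  · rw [h2]; ring
  · rfl

lemma rho_zero {a b : Fin (n + 2)} (h : a ≠ b) (S : V → Spin (n + 2)) :
    rho h (fun _ => 0) S = S := by
  funext i
  apply Subtype.ext
  rw [coe_rho, rotFun_zero]

lemma rho_outside {a b : Fin (n + 2)} (h : a ≠ b) {ω : V → ℝ} {i : V} (hi : ω i = 0)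
    (S : V → Spin (n + 2)) : rho h ω S i = S i := by
  apply Subtype.ext
  rw [coe_rho, hi, rotFun_zero]

lemma Indep.rho_eq {B : Finset V} {f : (V → Spin (n + 2)) → ℝ} (hf : Indep B f)
    {a b : Fin (n + 2)} (h : a ≠ b) {ω : V → ℝ} (hω : ∀ i, i ∉ B → ω i = 0)
    (S : V → Spin (n + 2)) : f (rho h ω S) = f S := by
  have e : rho h ω S = merge B (rho h ω S) S := by
    funext i
    unfold merge
    split_ifs with hi
    · rfl
    · exact rho_outside h (hω i hi) S
  rw [e]
  exact hf _ _

/-- the change of the energy -/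
def Wr (c : V → V → ℝ) (a b : Fin (n + 2)) (ω : V → ℝ) (t : ℝ) (S : V → Spin (n + 2)) : ℝ :=
  ∑ i, ∑ k, c i k * ((Real.cos (t * (ω i - ω k)) - 1) * Pab a b (S i) (S k)
    + Real.sin (t * (ω i - ω k)) * Qab a b (S i) (S k))

/-- its derivative -/
def Wr1 (c : V → V → ℝ) (a b : Fin (n + 2)) (ω : V → ℝ) (t : ℝ) (S : V → Spin (n + 2)) : ℝ :=
  ∑ i, ∑ k, c i k * (-(ω i - ω k) * Real.sin (t * (ω i - ω k)) * Pab a b (S i) (S k)
    + (ω i - ω k) * Real.cos (t * (ω i - ω k)) * Qab a b (S i) (S k))

lemma W_rho (c : V → V → ℝ) {a b : Fin (n + 2)} (h : a ≠ b) (ω : V → ℝ) (t : ℝ)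
    (S : V → Spin (n + 2)) :
    W c 0 (rho h (fun i => t * ω i) S) - W c 0 S = Wr c a b ω t S := by
  unfold W Wr
  rw [← Finset.sum_sub_distrib]
  refine Finset.sum_congr rfl fun i _ => ?_
  rw [← Finset.sum_sub_distrib]
  refine Finset.sum_congr rfl fun k _ => ?_
  rw [coe_rho, coe_rho, inner_rotFun h, ← mul_sub]
  simp only [Pi.zero_apply, zero_mul, add_zero]
  unfold Pab Qab
  ring

lemma Wr_zero (c : V → V → ℝ) (a b : Fin (n + 2)) (ω : V → ℝ) (S : V → Spin (n + 2)) :
    Wr c a b ω 0 S = 0 := by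
  unfold Wr; simp

lemma Wr1_zero (c : V → V → ℝ) (a b : Fin (n + 2)) (ω : V → ℝ) (S : V → Spin (n + 2)) :
    Wr1 c a b ω 0 S = Yv c a b (gr ω) S := by
  unfold Wr1 Yv gr; simp

lemma continuous_Qab (a b : Fin (n + 2)) (i k : V) : Continuous fun S : V → Spin (n + 2) =>
    Qab a b (S i : EuclideanSpace ℝ (Fin (n + 2))) (S k) :=
  ((continuous_coord i a).mul (continuous_coord k b)).sub
    ((continuous_coord i b).mul (continuous_coord k a))

lemma continuous_Pab (a b : Fin (n + 2)) (i k : V) : Continuous fun S : V → Spin (n + 2) =>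
    Pab a b (S i : EuclideanSpace ℝ (Fin (n + 2))) (S k) :=
  ((continuous_coord i a).mul (continuous_coord k a)).add
    ((continuous_coord i b).mul (continuous_coord k b))

lemma continuous_Sab (a b : Fin (n + 2)) (i k : V) : Continuous fun S : V → Spin (n + 2) =>
    Sab a b (S i : EuclideanSpace ℝ (Fin (n + 2))) (S k) :=
  ((continuous_coord i a).mul (continuous_coord k b)).add
    ((continuous_coord i b).mul (continuous_coord k a))

lemma continuous_Yv (c : V → V → ℝ) (a b : Fin (n + 2)) (v : V → V → ℝ) :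
    Continuous (Yv c a b v : (V → Spin (n + 2)) → ℝ) := by
  unfold Yv
  exact continuous_finsetSum _ fun i _ => continuous_finsetSum _ fun k _ =>
    continuous_const.mul (continuous_const.mul (continuous_Qab a b i k))

lemma continuous_Wr (c : V → V → ℝ) (a b : Fin (n + 2)) (ω : V → ℝ) :
    Continuous fun p : ℝ × (V → Spin (n + 2)) => Wr c a b ω p.1 p.2 := by
  unfold Wr
  refine continuous_finsetSum _ fun i _ => continuous_finsetSum _ fun k _ => ?_
  have h1 := (continuous_Pab (n := n) a b i k).comp (continuous_snd (X := ℝ))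
  have h2 := (continuous_Qab (n := n) a b i k).comp (continuous_snd (X := ℝ))
  have h3 : Continuous fun p : ℝ × (V → Spin (n + 2)) => p.1 * (ω i - ω k) :=
    continuous_fst.mul continuous_const
  exact continuous_const.mul ((((Real.continuous_cos.comp h3).sub continuous_const).mul h1).add
    ((Real.continuous_sin.comp h3).mul h2))

lemma continuous_Wr1 (c : V → V → ℝ) (a b : Fin (n + 2)) (ω : V → ℝ) :
    Continuous fun p : ℝ × (V → Spin (n + 2)) => Wr1 c a b ω p.1 p.2 := by
  unfold Wr1
  refine continuous_finsetSum _ fun i _ => continuous_finsetSum _ fun k _ => ?_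
  have h1 := (continuous_Pab (n := n) a b i k).comp (continuous_snd (X := ℝ))
  have h2 := (continuous_Qab (n := n) a b i k).comp (continuous_snd (X := ℝ))
  have h3 : Continuous fun p : ℝ × (V → Spin (n + 2)) => p.1 * (ω i - ω k) :=
    continuous_fst.mul continuous_const
  exact continuous_const.mul (((continuous_const.mul (Real.continuous_sin.comp h3)).mul h1).add
    ((continuous_const.mul (Real.continuous_cos.comp h3)).mul h2))

lemma hasDerivAt_Wr (c : V → V → ℝ) (a b : Fin (n + 2)) (ω : V → ℝ) (S : V → Spin (n + 2))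
    (t : ℝ) : HasDerivAt (fun t => Wr c a b ω t S) (Wr1 c a b ω t S) t := by
  unfold Wr Wr1
  apply HasDerivAt.fun_sum
  intro i _
  apply HasDerivAt.fun_sum
  intro k _
  apply HasDerivAt.const_mul
  have h1 : HasDerivAt (fun t : ℝ => t * (ω i - ω k)) (ω i - ω k) t := by
    simpa using (hasDerivAt_id t).mul_const (ω i - ω k)
  have h2 := (h1.cos.sub_const 1).mul_const (Pab a b (S i : EuclideanSpace ℝ (Fin (n + 2))) (S k))
  have h3 := h1.sin.mul_const (Qab a b (S i : EuclideanSpace ℝ (Fin (n + 2))) (S k))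
  have h4 := h2.add h3
  refine h4.congr_deriv ?_
  ring

/-- differentiation under the integral over the compact configuration space -/
lemma hasDerivAt_integral_ν {ν : Measure (V → Spin (n + 2))} [IsFiniteMeasure ν]
    (F F' : ℝ → (V → Spin (n + 2)) → ℝ)
    (hF : Continuous fun p : ℝ × (V → Spin (n + 2)) => F p.1 p.2)
    (hF' : Continuous fun p : ℝ × (V → Spin (n + 2)) => F' p.1 p.2)
    (hd : ∀ t S, HasDerivAt (fun t => F t S) (F' t S) t) (t₀ : ℝ) :
    HasDerivAt (fun t => ∫ S, F t S ∂ν) (∫ S, F' t₀ S ∂ν) t₀ := by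
  obtain ⟨C, hC⟩ := ((isCompact_closedBall t₀ 1).prod
    (isCompact_univ (X := V → Spin (n + 2)))).exists_bound_of_continuousOn hF'.continuousOn
  have h := hasDerivAt_integral_of_dominated_loc_of_deriv_le (μ := ν)
    (F := F) (F' := F') (x₀ := t₀) (s := Metric.closedBall t₀ 1) (bound := fun _ => C)
    (Metric.closedBall_mem_nhds t₀ one_pos)
    (Eventually.of_forall fun t =>
      (hF.comp (Continuous.prodMk_right t)).aestronglyMeasurable)
    (ic (hF.comp (Continuous.prodMk_right t₀)))
    ((hF'.comp (Continuous.prodMk_right t₀)).aestronglyMeasurable)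
    (Eventually.of_forall fun S t ht => hC (t, S) ⟨ht, mem_univ _⟩)
    (integrable_const C)
    (Eventually.of_forall fun S t _ => hd t S)
  exact h.2

lemma continuous_rho {a b : Fin (n + 2)} (h : a ≠ b) (ω : V → ℝ) :
    Continuous (rho h ω : (V → Spin (n + 2)) → (V → Spin (n + 2))) := continuous_actF _

/-- invariance under rotations supported in `Λ` -/
lemma Gibbs.rho_inv {c : V → V → ℝ} {Λ : Finset V} {ν : Measure (V → Spin (n + 2))}
    (hν : Gibbs c Λ ν) {a b : Fin (n + 2)} (h : a ≠ b) {ω : V → ℝ} (hω : ∀ i, i ∉ Λ → ω i = 0)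
    {f : (V → Spin (n + 2)) → ℝ} (hf : Continuous f) :
    ∫ S, f (rho h ω S) * Real.exp (W c 0 (rho h ω S) - W c 0 S) ∂ν = ∫ S, f S ∂ν := by
  apply hν.inv (fun i => rot h (ω i)) _ f hf
  intro i hi u
  rw [hω i hi, rot_apply, rotFun_zero]

/-- the general Ward identity -/
lemma ward_gen {c : V → V → ℝ} {Λ : Finset V} {ν : Measure (V → Spin (n + 2))}
    (hν : Gibbs c Λ ν) {a b : Fin (n + 2)} (h : a ≠ b) {ω : V → ℝ} (hω : ∀ i, i ∉ Λ → ω i = 0)
    {G : (V → Spin (n + 2)) → ℝ} (hG : Continuous G) (F F' : ℝ → (V → Spin (n + 2)) → ℝ)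
    (hF : Continuous fun p : ℝ × (V → Spin (n + 2)) => F p.1 p.2)
    (hF' : Continuous fun p : ℝ × (V → Spin (n + 2)) => F' p.1 p.2)
    (hd : ∀ t S, HasDerivAt (fun t => F t S) (F' t S) t)
    (hFG : ∀ t S, F t S = G (rho h (fun i => t * ω i) S)) :
    ∫ S, (F' 0 S + G S * Yv c a b (gr ω) S) ∂ν = 0 := by
  have := hν.prob
  have cW := continuous_Wr (n := n) c a b ω
  have cW1 := continuous_Wr1 (n := n) c a b ω
  have h1 := hasDerivAt_integral_ν (ν := ν) (fun t S => F t S * Real.exp (Wr c a b ω t S))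
    (fun t S => F' t S * Real.exp (Wr c a b ω t S)
      + F t S * (Real.exp (Wr c a b ω t S) * Wr1 c a b ω t S))
    (hF.mul (Real.continuous_exp.comp cW))
    ((hF'.mul (Real.continuous_exp.comp cW)).add (hF.mul
      ((Real.continuous_exp.comp cW).mul cW1)))
    (fun t S => (hd t S).mul (hasDerivAt_Wr c a b ω S t).exp) 0
  have h2 : (fun t => ∫ S, F t S * Real.exp (Wr c a b ω t S) ∂ν) = fun _ => ∫ S, G S ∂ν := by
    funext t
    rw [← hν.rho_inv h (ω := fun i => t * ω i) (fun i hi => by rw [hω i hi, mul_zero]) hG]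
    refine integral_congr_ae (Eventually.of_forall fun S => ?_)
    simp only
    rw [hFG, W_rho]
  rw [h2] at h1
  have h3 := h1.unique (hasDerivAt_const 0 _)
  refine Eq.trans ?_ h3
  refine integral_congr_ae (Eventually.of_forall fun S => ?_)
  simp only
  rw [Wr_zero, Wr1_zero, Real.exp_zero, mul_one, one_mul]
  have : F 0 S = G S := by
    rw [hFG]
    congr 1
    have e : (fun i => (0 : ℝ) * ω i) = fun _ => 0 := by funext i; ring
    rw [e, rho_zero]
  rw [this]

/-- (Wa) -/
lemma ward_inv {c : V → V → ℝ} {Λ : Finset V} {ν : Measure (V → Spin (n + 2))}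
    (hν : Gibbs c Λ ν) {a b : Fin (n + 2)} (h : a ≠ b) {ω : V → ℝ} (hω : ∀ i, i ∉ Λ → ω i = 0)
    {G : (V → Spin (n + 2)) → ℝ} (hG : Continuous G)
    (hinv : ∀ (t : ℝ) S, G (rho h (fun i => t * ω i) S) = G S) :
    ∫ S, G S * Yv c a b (gr ω) S ∂ν = 0 := by
  have h1 := ward_gen hν h hω hG (fun _ S => G S) (fun _ _ => 0) (hG.comp continuous_snd)
    continuous_const (fun t S => hasDerivAt_const _ _) (fun t S => (hinv t S).symm)
  simpa using h1

/-- (Wd) -/
lemma Pc_current (c : V → V → ℝ) (B : Finset V) {a b : Fin (n + 2)} (h : a ≠ b) {f : V → ℝ}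
    (hf : ∀ i, i ∉ B → f i = 0) (S : V → Spin (n + 2)) : Pc c B (Yv c a b (gr f)) S = 0 := by
  have h1 := ward_inv (gibbs_Gm c B S) h hf (G := fun _ => 1) continuous_const (fun _ _ => rfl)
  simp only [one_mul] at h1
  rw [integral_Gm c B S (continuous_Yv c a b (gr f))] at h1
  exact h1

/-- (Wb) -/
lemma ward_B {c : V → V → ℝ} {Λ B : Finset V} {ν : Measure (V → Spin (n + 2))}
    (hν : Gibbs c Λ ν) (hB : B ⊆ Λ) {p r q : Fin (n + 2)} (hpr : p ≠ r) (hrq : r ≠ q)
    (hpq : p ≠ q)
    {f : V → ℝ} (hf : ∀ i, i ∉ B → f i = 0) (v : V → V → ℝ)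
    {g : (V → Spin (n + 2)) → ℝ} (hg : Continuous g) (hgi : Indep B g) :
    ∫ S, g S * (Yv c p r v S * Yv c r q (gr f) S) ∂ν
      = ∫ S, g S * Yv c p q (fun i k => mid f i k * v i k) S ∂ν
        + ∫ S, g S * (∑ i, ∑ k, c i k * (v i k * ((f k - f i) / 2)
          * Sab p q (S i : EuclideanSpace ℝ (Fin (n + 2))) (S k))) ∂ν := by
  have := hν.prob
  set F : ℝ → (V → Spin (n + 2)) → ℝ := fun t S => g S * ∑ i, ∑ k, c i k * (v i k *
    ((S i : EuclideanSpace ℝ (Fin (n + 2))) p * (Real.cos (t * f k)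
        * (S k : EuclideanSpace ℝ (Fin (n + 2))) r
        - Real.sin (t * f k) * (S k : EuclideanSpace ℝ (Fin (n + 2))) q)
      - (Real.cos (t * f i) * (S i : EuclideanSpace ℝ (Fin (n + 2))) r
        - Real.sin (t * f i) * (S i : EuclideanSpace ℝ (Fin (n + 2))) q)
        * (S k : EuclideanSpace ℝ (Fin (n + 2))) p)) with hFdef
  set F' : ℝ → (V → Spin (n + 2)) → ℝ := fun t S => g S * ∑ i, ∑ k, c i k * (v i k *
    ((S i : EuclideanSpace ℝ (Fin (n + 2))) p * (-(Real.sin (t * f k) * f k)
        * (S k : EuclideanSpace ℝ (Fin (n + 2))) r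
        - (Real.cos (t * f k) * f k) * (S k : EuclideanSpace ℝ (Fin (n + 2))) q)
      - (-(Real.sin (t * f i) * f i) * (S i : EuclideanSpace ℝ (Fin (n + 2))) r
        - (Real.cos (t * f i) * f i) * (S i : EuclideanSpace ℝ (Fin (n + 2))) q)
        * (S k : EuclideanSpace ℝ (Fin (n + 2))) p)) with hF'def
  have cg : Continuous fun x : ℝ × (V → Spin (n + 2)) => g x.2 := hg.comp continuous_snd
  have cc : ∀ (i : V) (s : Fin (n + 2)), Continuous fun x : ℝ × (V → Spin (n + 2)) =>
      (x.2 i : EuclideanSpace ℝ (Fin (n + 2))) s :=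
    fun i s => (continuous_coord i s).comp continuous_snd
  have cs : ∀ i : V, Continuous fun x : ℝ × (V → Spin (n + 2)) => Real.sin (x.1 * f i) :=
    fun i => Real.continuous_sin.comp (continuous_fst.mul continuous_const)
  have cco : ∀ i : V, Continuous fun x : ℝ × (V → Spin (n + 2)) => Real.cos (x.1 * f i) :=
    fun i => Real.continuous_cos.comp (continuous_fst.mul continuous_const)
  have h1 := ward_gen hν hrq (ω := f) (fun i hi => hf i (fun h => hi (hB h)))
    (G := fun S => g S * Yv c p r v S) (hg.mul (continuous_Yv c p r v)) F F'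
    (by
      refine cg.mul (continuous_finsetSum _ fun i _ => continuous_finsetSum _ fun k _ => ?_)
      refine continuous_const.mul (continuous_const.mul ?_)
      exact ((cc i p).mul (((cco k).mul (cc k r)).sub ((cs k).mul (cc k q)))).sub
        ((((cco i).mul (cc i r)).sub ((cs i).mul (cc i q))).mul (cc k p)))
    (by
      refine cg.mul (continuous_finsetSum _ fun i _ => continuous_finsetSum _ fun k _ => ?_)
      refine continuous_const.mul (continuous_const.mul ?_)
      exact ((cc i p).mul (((((cs k).mul continuous_const).neg).mul (cc k r)).sub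
        (((cco k).mul continuous_const).mul (cc k q)))).sub
        ((((((cs i).mul continuous_const).neg).mul (cc i r)).sub
        (((cco i).mul continuous_const).mul (cc i q))).mul (cc k p)))
    (fun t S => by
      apply HasDerivAt.const_mul
      apply HasDerivAt.fun_sum
      intro i _
      apply HasDerivAt.fun_sum
      intro k _
      apply HasDerivAt.const_mul
      apply HasDerivAt.const_mul
      have hl : ∀ j : V, HasDerivAt (fun t : ℝ => t * f j) (f j) t := fun j => by
        simpa using (hasDerivAt_id t).mul_const (f j)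
      have e1 := (((hl k).cos.mul_const ((S k : EuclideanSpace ℝ (Fin (n + 2))) r)).sub
        ((hl k).sin.mul_const ((S k : EuclideanSpace ℝ (Fin (n + 2))) q))).const_mul
        ((S i : EuclideanSpace ℝ (Fin (n + 2))) p)
      have e2 := (((hl i).cos.mul_const ((S i : EuclideanSpace ℝ (Fin (n + 2))) r)).sub
        ((hl i).sin.mul_const ((S i : EuclideanSpace ℝ (Fin (n + 2))) q))).mul_const
        ((S k : EuclideanSpace ℝ (Fin (n + 2))) p)
      refine (e1.sub e2).congr_deriv ?_
      ring)
    (fun t S => by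
      simp only [hFdef]
      rw [hgi.rho_eq hrq (fun i hi => by rw [hf i hi, mul_zero])]
      congr 1
      unfold Yv
      refine Finset.sum_congr rfl fun i _ => Finset.sum_congr rfl fun k _ => ?_
      congr 2
      unfold Qab
      rw [coe_rho, coe_rho, rotFun_p, rotFun_p, rotFun_r hpr hpq, rotFun_r hpr hpq])
  have c1 : Continuous fun S : V → Spin (n + 2) => g S * (Yv c p r v S * Yv c r q (gr f) S) :=
    hg.mul ((continuous_Yv c p r v).mul (continuous_Yv c r q (gr f)))
  have c2 : Continuous fun S : V → Spin (n + 2) =>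
      g S * Yv c p q (fun i k => mid f i k * v i k) S := hg.mul (continuous_Yv c p q _)
  have c3 : Continuous fun S : V → Spin (n + 2) =>
      g S * (∑ i, ∑ k, c i k * (v i k * ((f k - f i) / 2)
          * Sab p q (S i : EuclideanSpace ℝ (Fin (n + 2))) (S k))) :=
    hg.mul (continuous_finsetSum _ fun i _ => continuous_finsetSum _ fun k _ =>
      continuous_const.mul (continuous_const.mul (continuous_Sab p q i k)))
  have c23 : Continuous fun S : V → Spin (n + 2) =>
      g S * Yv c p q (fun i k => mid f i k * v i k) S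
      + g S * (∑ i, ∑ k, c i k * (v i k * ((f k - f i) / 2)
          * Sab p q (S i : EuclideanSpace ℝ (Fin (n + 2))) (S k))) := c2.add c3
  rw [← integral_add (ic c2) (ic c3), ← sub_eq_zero, ← integral_sub (ic c1) (ic c23)]
  refine Eq.trans ?_ h1
  refine integral_congr_ae (Eventually.of_forall fun S => ?_)
  simp only [hF'def]
  have e : ∑ i, ∑ k, c i k * (v i k *
      ((S i : EuclideanSpace ℝ (Fin (n + 2))) p * (-(Real.sin (0 * f k) * f k)
        * (S k : EuclideanSpace ℝ (Fin (n + 2))) r
        - (Real.cos (0 * f k) * f k) * (S k : EuclideanSpace ℝ (Fin (n + 2))) q)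
      - (-(Real.sin (0 * f i) * f i) * (S i : EuclideanSpace ℝ (Fin (n + 2))) r
        - (Real.cos (0 * f i) * f i) * (S i : EuclideanSpace ℝ (Fin (n + 2))) q)
        * (S k : EuclideanSpace ℝ (Fin (n + 2))) p))
      = -(Yv c p q (fun i k => mid f i k * v i k) S
        + ∑ i, ∑ k, c i k * (v i k * ((f k - f i) / 2)
          * Sab p q (S i : EuclideanSpace ℝ (Fin (n + 2))) (S k))) := by
    unfold Yv
    rw [← Finset.sum_add_distrib, ← Finset.sum_neg_distrib]
    refine Finset.sum_congr rfl fun i _ => ?_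
    rw [← Finset.sum_add_distrib, ← Finset.sum_neg_distrib]
    refine Finset.sum_congr rfl fun k _ => ?_
    unfold Qab Sab mid
    simp only [zero_mul, Real.sin_zero, Real.cos_zero]
    ring
  rw [e]
  ring

/-- (Wc) -/
lemma ward_C {c : V → V → ℝ} {Λ : Finset V} {ν : Measure (V → Spin (n + 2))}
    (hν : Gibbs c Λ ν) {p q : Fin (n + 2)} (hpq : p ≠ q)
    {χ : V → ℝ} (hχ : ∀ i, i ∉ Λ → χ i = 0) (v : V → V → ℝ) :
    ∫ S, Yv c p q v S * Yv c p q (gr χ) S ∂ν
      = ∑ i, ∑ k, c i k * (v i k * (χ i - χ k)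
          * ∫ S, Pab p q (S i : EuclideanSpace ℝ (Fin (n + 2))) (S k) ∂ν) := by
  have := hν.prob
  have cP := fun i k => (continuous_Pab (n := n) p q i k (V := V))
  have cP2 := fun i k => (cP i k).comp (continuous_snd (X := ℝ))
  have cQ2 := fun i k => (continuous_Qab (n := n) p q i k (V := V)).comp (continuous_snd (X := ℝ))
  have h3 : ∀ i k : V, Continuous fun x : ℝ × (V → Spin (n + 2)) => x.1 * (χ i - χ k) :=
    fun i k => continuous_fst.mul continuous_const
  have h1 := ward_gen hν hpq (ω := χ) hχ (G := Yv c p q v) (continuous_Yv c p q v)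
    (fun t S => ∑ i, ∑ k, c i k * (v i k * (Real.cos (t * (χ i - χ k)) * Qab p q (S i) (S k)
      - Real.sin (t * (χ i - χ k)) * Pab p q (S i) (S k))))
    (fun t S => ∑ i, ∑ k, c i k * (v i k *
      (-(Real.sin (t * (χ i - χ k)) * (χ i - χ k)) * Qab p q (S i) (S k)
      - Real.cos (t * (χ i - χ k)) * (χ i - χ k) * Pab p q (S i) (S k))))
    (by
      refine continuous_finsetSum _ fun i _ => continuous_finsetSum _ fun k _ => ?_
      refine continuous_const.mul (continuous_const.mul ?_)
      exact ((Real.continuous_cos.comp (h3 i k)).mul (cQ2 i k)).sub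
        ((Real.continuous_sin.comp (h3 i k)).mul (cP2 i k)))
    (by
      refine continuous_finsetSum _ fun i _ => continuous_finsetSum _ fun k _ => ?_
      refine continuous_const.mul (continuous_const.mul ?_)
      exact (((((Real.continuous_sin.comp (h3 i k)).mul continuous_const).neg).mul
        (cQ2 i k))).sub
        (((Real.continuous_cos.comp (h3 i k)).mul continuous_const).mul (cP2 i k)))
    (fun t S => by
      apply HasDerivAt.fun_sum
      intro i _
      apply HasDerivAt.fun_sum
      intro k _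
      apply HasDerivAt.const_mul
      apply HasDerivAt.const_mul
      have hl : HasDerivAt (fun t : ℝ => t * (χ i - χ k)) (χ i - χ k) t := by
        simpa using (hasDerivAt_id t).mul_const (χ i - χ k)
      refine ((hl.cos.mul_const (Qab p q (S i : EuclideanSpace ℝ (Fin (n + 2))) (S k))).sub
        (hl.sin.mul_const (Pab p q (S i : EuclideanSpace ℝ (Fin (n + 2))) (S k)))).congr_deriv ?_
      ring)
    (fun t S => by
      unfold Yv
      refine Finset.sum_congr rfl fun i _ => Finset.sum_congr rfl fun k _ => ?_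
      congr 2
      unfold Qab Pab
      rw [coe_rho, coe_rho, rotFun_p, rotFun_p, rotFun_q hpq, rotFun_q hpq, mul_sub t,
        Real.cos_sub, Real.sin_sub]
      ring)
  have c1 : Continuous fun S : V → Spin (n + 2) => Yv c p q v S * Yv c p q (gr χ) S :=
    (continuous_Yv c p q v).mul (continuous_Yv c p q (gr χ))
  have cterm : ∀ i k : V, Continuous fun S : V → Spin (n + 2) =>
      c i k * (v i k * (χ i - χ k) * Pab p q (S i : EuclideanSpace ℝ (Fin (n + 2))) (S k)) :=
    fun i k => continuous_const.mul (continuous_const.mul (cP i k))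
  have c2 : Continuous fun S : V → Spin (n + 2) => ∑ i, ∑ k, c i k * (v i k * (χ i - χ k)
          * Pab p q (S i : EuclideanSpace ℝ (Fin (n + 2))) (S k)) :=
    continuous_finsetSum _ fun i _ => continuous_finsetSum _ fun k _ => cterm i k
  have e2 : ∑ i, ∑ k, c i k * (v i k * (χ i - χ k)
          * ∫ S, Pab p q (S i : EuclideanSpace ℝ (Fin (n + 2))) (S k) ∂ν)
      = ∫ S, ∑ i, ∑ k, c i k * (v i k * (χ i - χ k)
          * Pab p q (S i : EuclideanSpace ℝ (Fin (n + 2))) (S k)) ∂ν := by
    rw [integral_finsetSum _ fun i _ => ic (continuous_finsetSum _ fun k _ => cterm i k)]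
    refine Finset.sum_congr rfl fun i _ => ?_
    rw [integral_finsetSum _ fun k _ => ic (cterm i k)]
    refine Finset.sum_congr rfl fun k _ => ?_
    rw [integral_const_mul, integral_const_mul]
  rw [e2, ← sub_eq_zero, ← integral_sub (ic c1) (ic c2)]
  refine Eq.trans ?_ h1
  refine integral_congr_ae (Eventually.of_forall fun S => ?_)
  simp only
  have e : ∑ i, ∑ k, c i k * (v i k *
      (-(Real.sin (0 * (χ i - χ k)) * (χ i - χ k)) * Qab p q (S i) (S k)
      - Real.cos (0 * (χ i - χ k)) * (χ i - χ k) * Pab p q (S i) (S k)))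
      = -∑ i, ∑ k, c i k * (v i k * (χ i - χ k)
          * Pab p q (S i : EuclideanSpace ℝ (Fin (n + 2))) (S k)) := by
    rw [← Finset.sum_neg_distrib]
    refine Finset.sum_congr rfl fun i _ => ?_
    rw [← Finset.sum_neg_distrib]
    refine Finset.sum_congr rfl fun k _ => ?_
    simp only [zero_mul, Real.sin_zero, Real.cos_zero]
    ring
  rw [e]
  ring

/-- the Ward identity for a spin -/
lemma ward_spin' {c : V → V → ℝ} {Λ : Finset V} {ν : Measure (V → Spin (n + 2))}
    (hν : Gibbs c Λ ν) {p q : Fin (n + 2)} (hpq : p ≠ q)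
    {ψ : V → ℝ} (hψ : ∀ i, i ∉ Λ → ψ i = 0) {x : V} (hx : ψ x = 1) :
    ∫ S, (S x : EuclideanSpace ℝ (Fin (n + 2))) q * Yv c p q (gr ψ) S ∂ν
      = -∫ S, (S x : EuclideanSpace ℝ (Fin (n + 2))) p ∂ν := by
  have := hν.prob
  have cc : ∀ (i : V) (s : Fin (n + 2)), Continuous fun y : ℝ × (V → Spin (n + 2)) =>
      (y.2 i : EuclideanSpace ℝ (Fin (n + 2))) s :=
    fun i s => (continuous_coord i s).comp continuous_snd
  have cs : Continuous fun y : ℝ × (V → Spin (n + 2)) => Real.sin y.1 :=
    Real.continuous_sin.comp continuous_fst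
  have cco : Continuous fun y : ℝ × (V → Spin (n + 2)) => Real.cos y.1 :=
    Real.continuous_cos.comp continuous_fst
  have h1 := ward_gen hν hpq (ω := ψ) hψ
    (G := fun S => (S x : EuclideanSpace ℝ (Fin (n + 2))) q) (continuous_coord x q)
    (fun t S => Real.sin t * (S x : EuclideanSpace ℝ (Fin (n + 2))) p
      + Real.cos t * (S x : EuclideanSpace ℝ (Fin (n + 2))) q)
    (fun t S => Real.cos t * (S x : EuclideanSpace ℝ (Fin (n + 2))) p
      + -Real.sin t * (S x : EuclideanSpace ℝ (Fin (n + 2))) q)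
    ((cs.mul (cc x p)).add (cco.mul (cc x q)))
    ((cco.mul (cc x p)).add (cs.neg.mul (cc x q)))
    (fun t S => ((Real.hasDerivAt_sin t).mul_const _).add ((Real.hasDerivAt_cos t).mul_const _))
    (fun t S => by rw [coe_rho, rotFun_q hpq, hx, mul_one])
  have c1 : Continuous fun S : V → Spin (n + 2) =>
      (S x : EuclideanSpace ℝ (Fin (n + 2))) q * Yv c p q (gr ψ) S :=
    (continuous_coord x q).mul (continuous_Yv c p q (gr ψ))
  rw [eq_neg_iff_add_eq_zero, ← integral_add (ic c1) (ic (continuous_coord x p))]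
  refine Eq.trans ?_ h1
  refine integral_congr_ae (Eventually.of_forall fun S => ?_)
  simp only
  rw [Real.sin_zero, Real.cos_zero]
  ring

end

end Pool.Agent.NVec.Full
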